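import Mathlib
import Pool.Agent.MP_ac9d16_lc.Defs
import Pool.Agent.MP_40fdec_lc.Oracle

set_option linter.all false

section

namespace Pool.Agent.MP_ac9d16_lc

open Nat.Partrec (Code)
open Filter Pool.Agent.MP_9a65c4_lc Pool.Agent.MP_40fdec_lc

theorem computes_iff {X : Set ℕ} {f : ℕ → ℕ} : Computes X f ↔ RecIn (chi X) f :=
  RecursiveIn.iff_nat

theorem chi_eq_zero {X : Set ℕ} {n : ℕ} : chi X n = 0 ↔ n ∉ X := by
  unfold chi
  split_ifs with h <;> simp [h]

theorem chi_eq_one {X : Set ℕ} {n : ℕ} : chi X n = 1 ↔ n ∈ X := by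
  unfold chi
  split_ifs with h <;> simp [h]

theorem seg_length (p : ℕ → ℕ) (k : ℕ) : (seg p k).length = k := by simp [seg]

theorem seg_getD {p : ℕ → ℕ} {k x : ℕ} (h : x < k) : (seg p k).getD x 0 = p x := by
  simp [seg, h]

theorem seg_congr {p q : ℕ → ℕ} {k : ℕ} (h : ∀ x < k, p x = q x) : seg p k = seg q k :=
  List.map_congr_left fun x hx => h x (List.mem_range.1 hx)

/-- One step-bounded run of a program on an input and a finite oracle. -/
def ev (e n t : ℕ) (τ : List ℕ) : Option ℕ :=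
  Code.evaln t (Denumerable.ofNat Code e) (Nat.pair n (Encodable.encode τ))

theorem mem_Phi {p : ℕ → ℕ} {e n v : ℕ} : v ∈ Phi p e n ↔
    ∃ s : ℕ, ev e n s.unpair.2 (seg p s.unpair.1) = some v ∧
      ∀ r : ℕ, r < s → ev e n r.unpair.2 (seg p r.unpair.1) = none := mem_rfindOpt_iff

theorem Phi_dom {p : ℕ → ℕ} {e n : ℕ} : (Phi p e n).Dom ↔
    ∃ s v : ℕ, ev e n s.unpair.2 (seg p s.unpair.1) = some v := Nat.rfindOpt_dom

@[fun_prop] theorem pr_ev {α : Type*} [Primcodable α] {e n t : α → ℕ} {τ : α → List ℕ}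
    (he : Primrec e) (hn : Primrec n) (ht : Primrec t) (hτ : Primrec τ) :
    Primrec fun a => ev (e a) (n a) (t a) (τ a) :=
  Code.primrec_evaln.comp (g := fun a => ((t a, Denumerable.ofNat Code (e a)),
    Nat.pair (n a) (Encodable.encode (τ a))))
    ((ht.pair ((Primrec.ofNat Code).comp he)).pair (by fun_prop))

/-- The jump decides existential questions, uniformly. -/
theorem jump_sigma {Θ : ℕ → List ℕ → Prop} (hΘ : PrimrecPred fun a : ℕ × List ℕ => Θ a.1 a.2) :
    ∃ e : ℕ → ℕ, Primrec e ∧ ∀ X q, e q ∈ jump X ↔ ∃ k, Θ q (seg (chi X) k) := by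
  classical
  have h0 : PrimrecPred fun m : ℕ =>
      Θ m.unpair.1 (Denumerable.ofNat (List ℕ) m.unpair.2.unpair.2) :=
    hΘ.comp (f := fun m : ℕ => (m.unpair.1, Denumerable.ofNat (List ℕ) m.unpair.2.unpair.2))
      (by fun_prop)
  have h1 : Partrec fun m : ℕ => ((if Θ m.unpair.1 (Denumerable.ofNat (List ℕ) m.unpair.2.unpair.2)
      then some 0 else none : Option ℕ) : Part ℕ) :=
    Computable.ofOption (Primrec.ite h0 (Primrec.const _) (Primrec.const _)).to_comp
  obtain ⟨c, hc⟩ := Code.exists_code.1 (Partrec.nat_iff.1 h1)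
  refine ⟨fun q => Encodable.encode (c.curry q),
    Primrec.encode.comp (Code.primrec₂_curry.comp (Primrec.const c) Primrec.id), fun X q => ?_⟩
  have key : ∀ n τ v, v ∈ (c.curry q).eval (Nat.pair n (Encodable.encode τ)) ↔ Θ q τ ∧ v = 0 := by
    intro n τ v
    rw [Code.eval_curry, hc]
    by_cases h : Θ q τ <;> simp [h]
  change (Phi (chi X) _ _).Dom ↔ _
  rw [Phi_dom]
  simp only [ev, Denumerable.ofNat_encode]
  constructor
  · rintro ⟨s, v, h⟩
    exact ⟨_, ((key _ _ _).1 (Code.evaln_sound h)).1⟩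
  · rintro ⟨k, h⟩
    obtain ⟨t, ht⟩ := Code.evaln_complete.1 ((key (Encodable.encode (c.curry q)) _ 0).2 ⟨h, rfl⟩)
    exact ⟨Nat.pair k t, 0, by simpa using ht⟩

/-- The jump finds a witness for which an existential question has a negative answer. -/
theorem search_neg {Θ : ℕ → ℕ → List ℕ → Prop}
    (hΘ : PrimrecPred fun a : (ℕ × ℕ) × List ℕ => Θ a.1.1 a.1.2 a.2) {X : Set ℕ}
    (h : ∀ n, ∃ w, ∀ k, ¬ Θ n w (seg (chi X) k)) :
    ∃ f, RecIn (chi (jump X)) f ∧ ∀ n k, ¬ Θ n (f n) (seg (chi X) k) := by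
  obtain ⟨e, he, he'⟩ := jump_sigma (Θ := fun q τ => Θ q.unpair.1 q.unpair.2 τ)
    (hΘ.comp (f := fun a : ℕ × List ℕ => (a.1.unpair, a.2)) (by fun_prop))
  have h1 : RecIn (chi (jump X)) fun m => chi (jump X) (e m) :=
    RecIn.oracle.comp (RecIn.of_primrec he)
  have h2 : ∀ a, ∃ w, (fun m => chi (jump X) (e m)) (Nat.pair a w) = 0 := by
    intro a
    obtain ⟨w, hw⟩ := h a
    refine ⟨w, chi_eq_zero.2 ?_⟩
    rw [he']
    simpa using hw
  refine ⟨_, h1.search h2, fun n => ?_⟩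
  have := chi_eq_zero.1 (Nat.find_spec (h2 n))
  rw [he'] at this
  simpa using this

/-- The limit lemma, one direction. -/
theorem recIn_of_limit {a : ℕ → ℕ → ℕ} (ha : Primrec fun p : ℕ × ℕ => a p.1 p.2) {f : ℕ → ℕ}
    (h : ∀ x, ∀ᶠ s in atTop, a x s = f x) : RecIn (chi (jump ∅)) f := by
  have ha' : ∀ {α : Type} [Primcodable α] {u v : α → ℕ}, Primrec u → Primrec v →
      Primrec fun z => a (u z) (v z) := fun hu hv => ha.comp (hu.pair hv)
  obtain ⟨g, hg, hg'⟩ := search_neg (X := ∅)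
    (Θ := fun x w τ => w ≤ τ.length ∧ ¬ a x τ.length = a x w)
    ((pp_le (by fun_prop) (by fun_prop)).and
      (pp_eq (ha' (by fun_prop) (by fun_prop)) (ha' (by fun_prop) (by fun_prop))).not)
    (by
      intro x
      obtain ⟨w, hw⟩ := eventually_atTop.1 (h x)
      refine ⟨w, fun k => ?_⟩
      rw [seg_length]
      rintro ⟨h1, h2⟩
      exact h2 ((hw k h1).trans (hw w le_rfl).symm))
  have h3 : Primrec fun m : ℕ => a m.unpair.1 m.unpair.2 := ha' (by fun_prop) (by fun_prop)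
  refine ((RecIn.of_primrec h3).comp ((RecIn.of_primrec Primrec.id).pair hg)).of_eq fun x => ?_
  obtain ⟨w, hw⟩ := eventually_atTop.1 (h x)
  have := hg' x (max w (g x))
  rw [seg_length] at this
  simp only [le_max_right, true_and, not_not] at this
  simp only [id, Nat.unpair_pair]
  rw [← this]
  exact hw _ (le_max_left _ _)

/-- Stage approximation of the halting set. -/
def Ks (s z : ℕ) : ℕ :=
  if ∃ r < s, (ev z z r.unpair.2 (seg (fun _ => 0) r.unpair.1)).isSome = true then 1 else 0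

@[fun_prop] theorem pr_Ks {α : Type*} [Primcodable α] {s z : α → ℕ} (hs : Primrec s)
    (hz : Primrec z) : Primrec fun a => Ks (s a) (z a) := by
  unfold Ks seg
  refine Primrec.ite (pp_ex_lt hs (pp_eq (Primrec.option_isSome.comp ?_) (by fun_prop)))
    (by fun_prop) (by fun_prop)
  fun_prop

theorem Ks_lim (z : ℕ) : ∀ᶠ s in atTop, Ks s z = chi (jump ∅) z := by
  have h0 : chi ∅ = fun _ => 0 := funext fun n => chi_eq_zero.2 (by simp)
  by_cases h : z ∈ jump ∅
  · rw [chi_eq_one.2 h]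
    obtain ⟨r, v, hr⟩ := Phi_dom.1 h
    rw [h0] at hr
    filter_upwards [eventually_gt_atTop r] with s hs
    exact if_pos ⟨r, hs, by simp [hr]⟩
  · rw [chi_eq_zero.2 h]
    refine Eventually.of_forall fun s => if_neg ?_
    rintro ⟨r, -, hr⟩
    obtain ⟨v, hv⟩ := Option.isSome_iff_exists.1 hr
    exact h (Phi_dom.2 ⟨r, v, by rw [h0]; exact hv⟩)

/-- Stage approximation of the functionals with the halting set as oracle. -/
def app (e n s : ℕ) : ℕ :=
  ((List.range s).filterMap fun r => ev e n r.unpair.2 (seg (Ks s) r.unpair.1)).headI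

@[fun_prop] theorem pr_app {α : Type*} [Primcodable α] {e n s : α → ℕ} (he : Primrec e)
    (hn : Primrec n) (hs : Primrec s) : Primrec fun a => app (e a) (n a) (s a) := by
  unfold app seg
  refine Primrec.list_headI.comp (Primrec.listFilterMap (by fun_prop) ?_)
  change Primrec fun a : α × ℕ => _
  fun_prop

theorem headI_filterMap {f : ℕ → Option ℕ} {r v s : ℕ} (h1 : f r = some v)
    (h2 : ∀ m < r, f m = none) (hs : r < s) : ((List.range s).filterMap f).headI = v := by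
  obtain ⟨d, rfl⟩ := Nat.exists_eq_add_of_lt hs
  have : (List.range r).filterMap f = [] :=
    List.filterMap_eq_nil_iff.2 fun m hm => h2 m (List.mem_range.1 hm)
  rw [show r + d + 1 = r + (d + 1) by ring, List.range_add, List.filterMap_append, this,
    List.range_succ_eq_map]
  simp [h1]

theorem app_lim {e n v : ℕ} (h : v ∈ Phi (chi (jump ∅)) e n) : ∀ᶠ s in atTop, app e n s = v := by
  obtain ⟨r, h1, h2⟩ := mem_Phi.1 h
  have h3 : ∀ᶠ s in atTop, ∀ z ∈ Finset.range r, Ks s z = chi (jump ∅) z :=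
    (eventually_all_finset _).2 fun z _ => Ks_lim z
  filter_upwards [h3, eventually_gt_atTop r] with s hs hr
  have h4 : ∀ m ≤ r, seg (Ks s) m.unpair.1 = seg (chi (jump ∅)) m.unpair.1 := fun m hm =>
    seg_congr fun x hx => hs x (Finset.mem_range.2
      (lt_of_lt_of_le hx ((Nat.unpair_left_le m).trans hm)))
  refine headI_filterMap (by rw [h4 r le_rfl]; exact h1) (fun m hm => ?_) hr
  rw [h4 m hm.le]
  exact h2 m hm

theorem exists_app {g : ℕ → ℕ} (hg : RecIn (chi (jump ∅)) g) :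
    ∃ i, ∀ q, ∀ᶠ s in atTop, app i q s = g q := by
  obtain ⟨i, hi⟩ := (turingReducible_iff_exists_Phi _ _).1 hg.turingReducible
  exact ⟨i, fun q => app_lim (by rw [hi]; simp)⟩

end Pool.Agent.MP_ac9d16_lc

end

section

namespace Pool.Agent.MP_ac9d16_lc

open Filter Pool.Agent.MP_9a65c4_lc Pool.Agent.MP_40fdec_lc

/-- A node: depth, part, start, list of open ancestors. -/
def mk (d j a : ℕ) (L : List ℕ) : ℕ := Nat.pair d (Nat.pair j (Nat.pair a (Encodable.encode L)))

def dd (q : ℕ) : ℕ := q.unpair.1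
def jj (q : ℕ) : ℕ := q.unpair.2.unpair.1
def aa (q : ℕ) : ℕ := q.unpair.2.unpair.2.unpair.1
def LL (q : ℕ) : List ℕ := Denumerable.ofNat (List ℕ) q.unpair.2.unpair.2.unpair.2

@[simp] theorem dd_mk (d j a : ℕ) (L : List ℕ) : dd (mk d j a L) = d := by simp [dd, mk]
@[simp] theorem jj_mk (d j a : ℕ) (L : List ℕ) : jj (mk d j a L) = j := by simp [jj, mk]
@[simp] theorem aa_mk (d j a : ℕ) (L : List ℕ) : aa (mk d j a L) = a := by simp [aa, mk]
@[simp] theorem LL_mk (d j a : ℕ) (L : List ℕ) : LL (mk d j a L) = L := by simp [LL, mk]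

def val (q s : ℕ) : ℕ := app (dd q).unpair.1 q s
def side (q : ℕ) : ℕ := (dd q).unpair.2.unpair.1
def nn (q : ℕ) : ℕ := (dd q).unpair.2.unpair.2
def raw (q x : ℕ) : ℕ := (Denumerable.ofNat (List ℕ) (app (nn q) (nn q) x)).getD (jj q) 0
def bt (m r : ℕ) : ℕ := m / 2 ^ r % 2
def uu (q : ℕ) : ℕ := 2 ^ dd q + jj q

/-- The value of the node is constant on `[b, t]`. -/
def cst (q b t : ℕ) : Prop := ∀ s < t + 1, b ≤ s → val q s = val q b

instance (q b t : ℕ) : Decidable (cst q b t) := by unfold cst; infer_instance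

/-- The start of the current life. -/
def ls (q t : ℕ) : ℕ := (List.range t).findIdx fun b => decide (aa q ≤ b ∧ cst q b t)

def view (L : List ℕ) (x : ℕ) : ℕ := L.foldl (fun t q => ls q t) x

def inPart (L : List ℕ) (j x : ℕ) : Prop :=
  ∀ r < L.length, bt (raw (L.getD r 0) x) L.length = bt j r

def tc (q b : ℕ) : ℕ :=
  if jj q + 1 < 2 ^ dd q then mk (dd q) (jj q + 1) b (LL q) else mk (dd q + 1) 0 b (LL q)

def oc (q : ℕ) : ℕ := mk (dd q + 1) 0 (aa q) (LL q ++ [q])

def step (T : ℕ → ℕ → Bool) (σ : ℕ × ℕ) : ℕ × ℕ :=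
  if σ.2 ≤ uu σ.1 then σ else
    if T σ.1 (ls σ.1 σ.2) = true then (tc σ.1 (ls σ.1 σ.2), σ.2) else (oc σ.1, ls σ.1 σ.2)

def root : ℕ := mk 0 0 0 []

def fin (T : ℕ → ℕ → Bool) (x : ℕ) : List ℕ := LL ((step T)^[x] (root, x)).1

def claim (F : List ℕ) (x r : ℕ) : Prop :=
  ∀ r' < F.length, r < r' → ¬ bt (raw (F.getD r 0) x) r' = bt (jj (F.getD r' 0)) r

def inA (F : List ℕ) (x : ℕ) : Prop :=
  ∃ r < F.length, claim F x r ∧ (∀ r0 < r, ¬ claim F x r0) ∧ ¬ side (F.getD r 0) = 0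

def good (q c k x : ℕ) : Prop :=
  inPart (LL q) (jj q) x ∧ aa q ≤ view (LL q) x ∧ uu q < view (LL q) x ∧
    ls q (view (LL q) x) = c ∧ val q c < x ∧ raw q x = k

open Classical in
/-- The life starting at `b` is true. -/
noncomputable def TT (q b : ℕ) : Bool := decide (∀ s, b ≤ s → val q s = val q b)

theorem TT_iff {q b : ℕ} : TT q b = true ↔ ∀ s, b ≤ s → val q s = val q b := by
  simp [TT]

/-- The two-colouring. -/
def AA : Set ℕ := {x | inA (fin TT x) x}

/-- An edge of the node `q` in `H` below `s`. -/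
def Edge (q : ℕ) (H : Set ℕ) (s : ℕ) : Prop :=
  ∃ c < s, ∀ k < 2 ^ c, ∃ x < s, x ∈ H ∧ good q c k x

section prim
variable {α : Type*} [Primcodable α]

@[fun_prop] theorem pr_two_pow {f : α → ℕ} (hf : Primrec f) : Primrec fun a => 2 ^ f a :=
  primrec_two_pow.comp hf
@[fun_prop] theorem pr_mk {d j a : α → ℕ} {L : α → List ℕ} (hd : Primrec d) (hj : Primrec j)
    (ha : Primrec a) (hL : Primrec L) : Primrec fun z => mk (d z) (j z) (a z) (L z) := by
  unfold mk
  fun_prop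
@[fun_prop] theorem pr_dd {q : α → ℕ} (hq : Primrec q) : Primrec fun z => dd (q z) := by
  unfold dd
  fun_prop
@[fun_prop] theorem pr_jj {q : α → ℕ} (hq : Primrec q) : Primrec fun z => jj (q z) := by
  unfold jj
  fun_prop
@[fun_prop] theorem pr_aa {q : α → ℕ} (hq : Primrec q) : Primrec fun z => aa (q z) := by
  unfold aa
  fun_prop
@[fun_prop] theorem pr_LL {q : α → ℕ} (hq : Primrec q) : Primrec fun z => LL (q z) := by
  unfold LL
  fun_prop
@[fun_prop] theorem pr_val {q s : α → ℕ} (hq : Primrec q) (hs : Primrec s) :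
    Primrec fun z => val (q z) (s z) := by
  unfold val
  fun_prop
@[fun_prop] theorem pr_side {q : α → ℕ} (hq : Primrec q) : Primrec fun z => side (q z) := by
  unfold side
  fun_prop
@[fun_prop] theorem pr_nn {q : α → ℕ} (hq : Primrec q) : Primrec fun z => nn (q z) := by
  unfold nn
  fun_prop
@[fun_prop] theorem pr_raw {q s : α → ℕ} (hq : Primrec q) (hs : Primrec s) :
    Primrec fun z => raw (q z) (s z) := by
  unfold raw
  fun_prop
@[fun_prop] theorem pr_bt {q s : α → ℕ} (hq : Primrec q) (hs : Primrec s) :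
    Primrec fun z => bt (q z) (s z) :=
  Primrec.nat_mod.comp (Primrec.nat_div.comp hq (pr_two_pow hs)) (Primrec.const 2)
@[fun_prop] theorem pr_uu {q : α → ℕ} (hq : Primrec q) : Primrec fun z => uu (q z) := by
  unfold uu
  fun_prop
theorem pp_cst {q b t : α → ℕ} (hq : Primrec q) (hb : Primrec b) (ht : Primrec t) :
    PrimrecPred fun z => cst (q z) (b z) (t z) :=
  pp_all_lt (R := fun z s => b z ≤ s → val (q z) s = val (q z) (b z)) (by fun_prop)
    (pp_imp (pp_le (by fun_prop) (by fun_prop)) (pp_eq (by fun_prop) (by fun_prop)))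
@[fun_prop] theorem pr_ls {q t : α → ℕ} (hq : Primrec q) (ht : Primrec t) :
    Primrec fun z => ls (q z) (t z) := by
  unfold ls
  refine Primrec.list_findIdx (by fun_prop) ?_
  exact PrimrecPred.decide (p := fun a : α × ℕ => aa (q a.1) ≤ a.2 ∧ cst (q a.1) a.2 (t a.1))
    ((pp_le (by fun_prop) (by fun_prop)).and (pp_cst (by fun_prop) (by fun_prop) (by fun_prop)))
@[fun_prop] theorem pr_view {L : α → List ℕ} {x : α → ℕ} (hL : Primrec L) (hx : Primrec x) :
    Primrec fun z => view (L z) (x z) :=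
  Primrec.list_foldl (h := fun _ p => ls p.2 p.1) hL hx
    (show Primrec fun a : α × (ℕ × ℕ) => ls a.2.2 a.2.1 by fun_prop)
theorem pp_inPart {L : α → List ℕ} {j x : α → ℕ} (hL : Primrec L) (hj : Primrec j)
    (hx : Primrec x) : PrimrecPred fun z => inPart (L z) (j z) (x z) :=
  pp_all_lt (R := fun z r => bt (raw ((L z).getD r 0) (x z)) (L z).length = bt (j z) r)
    (by fun_prop) (pp_eq (by fun_prop) (by fun_prop))
@[fun_prop] theorem pr_tc {q b : α → ℕ} (hq : Primrec q) (hb : Primrec b) :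
    Primrec fun z => tc (q z) (b z) :=
  Primrec.ite (pp_lt (by fun_prop) (by fun_prop)) (by fun_prop) (by fun_prop)
@[fun_prop] theorem pr_oc {q : α → ℕ} (hq : Primrec q) : Primrec fun z => oc (q z) := by
  unfold oc
  fun_prop
theorem pp_claim {F : α → List ℕ} {x r : α → ℕ} (hF : Primrec F) (hx : Primrec x)
    (hr : Primrec r) : PrimrecPred fun z => claim (F z) (x z) (r z) :=
  pp_all_lt (R := fun z r' => r z < r' →
      ¬ bt (raw ((F z).getD (r z) 0) (x z)) r' = bt (jj ((F z).getD r' 0)) (r z)) (by fun_prop)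
    (pp_imp (pp_lt (by fun_prop) (by fun_prop)) (pp_eq (by fun_prop) (by fun_prop)).not)
theorem pp_inA {F : α → List ℕ} {x : α → ℕ} (hF : Primrec F) (hx : Primrec x) :
    PrimrecPred fun z => inA (F z) (x z) :=
  pp_ex_lt (R := fun z r => claim (F z) (x z) r ∧ (∀ r0 < r, ¬ claim (F z) (x z) r0) ∧
      ¬ side ((F z).getD r 0) = 0) (by fun_prop)
    ((pp_claim (by fun_prop) (by fun_prop) (by fun_prop)).and
      ((pp_all_lt (R := fun (z : α × ℕ) r0 => ¬ claim (F z.1) (x z.1) r0) (by fun_prop)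
        (pp_claim (by fun_prop) (by fun_prop) (by fun_prop)).not).and
      (pp_eq (by fun_prop) (by fun_prop)).not))
theorem pp_good {q c k x : α → ℕ} (hq : Primrec q) (hc : Primrec c) (hk : Primrec k)
    (hx : Primrec x) : PrimrecPred fun z => good (q z) (c z) (k z) (x z) :=
  (pp_inPart (by fun_prop) (by fun_prop) hx).and ((pp_le (by fun_prop) (by fun_prop)).and
    ((pp_lt (by fun_prop) (by fun_prop)).and ((pp_eq (by fun_prop) hc).and
      ((pp_lt (by fun_prop) hx).and (pp_eq (by fun_prop) hk)))))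

end prim

/-- The finite version of `Edge`. -/
def edge (q : ℕ) (τ : List ℕ) (s : ℕ) : Prop :=
  ∃ c < s, ∀ k < 2 ^ c, ∃ x < s, τ.getD x 0 = 1 ∧ good q c k x

theorem pp_edge {α : Type*} [Primcodable α] {q s : α → ℕ} {τ : α → List ℕ} (hq : Primrec q)
    (hτ : Primrec τ) (hs : Primrec s) : PrimrecPred fun z => edge (q z) (τ z) (s z) :=
  pp_ex_lt (R := fun z c => ∀ k < 2 ^ c, ∃ x < s z, (τ z).getD x 0 = 1 ∧ good (q z) c k x) hs
    (pp_all_lt (R := fun (z : α × ℕ) k => ∃ x < s z.1, (τ z.1).getD x 0 = 1 ∧ good (q z.1) z.2 k x)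
      (by fun_prop)
      (pp_ex_lt (R := fun (z : (α × ℕ) × ℕ) x =>
          (τ z.1.1).getD x 0 = 1 ∧ good (q z.1.1) z.1.2 z.2 x) (by fun_prop)
        ((pp_eq (by fun_prop) (by fun_prop)).and
          (pp_good (by fun_prop) (by fun_prop) (by fun_prop) (by fun_prop)))))

theorem edge_seg {q s m : ℕ} {H : Set ℕ} (h : s ≤ m) : edge q (seg (chi H) m) s ↔ Edge q H s := by
  unfold edge Edge
  refine exists_congr fun c => and_congr_right fun _ => forall₂_congr fun k _ =>
    exists_congr fun x => and_congr_right fun hx => ?_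
  rw [seg_getD (lt_of_lt_of_le hx h), chi_eq_one]

theorem Edge.mono {q s s' : ℕ} {H : Set ℕ} (h : Edge q H s) (hs : s ≤ s') : Edge q H s' := by
  obtain ⟨c, hc, h⟩ := h
  refine ⟨c, by omega, fun k hk => ?_⟩
  obtain ⟨x, hx, h'⟩ := h k hk
  exact ⟨x, by omega, h'⟩

def Ts (s q b : ℕ) : Bool := decide (cst q b s)

theorem Ts_lim (q b : ℕ) : ∀ᶠ s in atTop, Ts s q b = TT q b := by
  by_cases h : ∀ s, b ≤ s → val q s = val q b
  · refine Eventually.of_forall fun s => ?_
    rw [TT_iff.2 h]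
    exact decide_eq_true fun s' _ hs' => h s' hs'
  · rw [show TT q b = false from Bool.eq_false_iff.2 fun h' => h (TT_iff.1 h')]
    push Not at h
    obtain ⟨s', h1, h2⟩ := h
    filter_upwards [eventually_ge_atTop s'] with s hs
    exact decide_eq_false fun h3 => h2 (h3 s' (by omega) h1)

theorem iterate_lim (m : ℕ) (σ : ℕ × ℕ) :
    ∀ᶠ s in atTop, (step (Ts s))^[m] σ = (step TT)^[m] σ := by
  induction m with
  | zero => simp
  | succ m ih =>
    filter_upwards [ih, Ts_lim ((step TT)^[m] σ).1 (ls ((step TT)^[m] σ).1 ((step TT)^[m] σ).2)]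
      with s h1 h2
    rw [Function.iterate_succ_apply', Function.iterate_succ_apply', h1]
    generalize (step TT)^[m] σ = ρ at h2
    unfold step
    rw [h2]

theorem computes_AA : RecIn (chi (jump ∅)) (chi AA) := by
  classical
  have h1 : Primrec fun p : (ℕ × ℕ) × (ℕ × ℕ) => step (Ts p.1.2) p.2 := by
    unfold step
    refine Primrec.ite (pp_le (by fun_prop) (by fun_prop)) (by fun_prop)
      (Primrec.ite (pp_eq ?_ (by fun_prop)) (by fun_prop) (by fun_prop))
    exact PrimrecPred.decide (pp_cst (by fun_prop) (by fun_prop) (by fun_prop))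
  have h2 : Primrec fun p : ℕ × ℕ => fin (Ts p.2) p.1 :=
    pr_LL (Primrec.fst.comp (Primrec.nat_iterate (h := fun (p : ℕ × ℕ) σ => step (Ts p.2) σ)
      Primrec.fst (by fun_prop) h1.to₂))
  refine recIn_of_limit (a := fun x s => if inA (fin (Ts s) x) x then 1 else 0)
    (Primrec.ite (pp_inA h2 Primrec.fst) (by fun_prop) (by fun_prop)) fun x => ?_
  filter_upwards [iterate_lim x (root, x)] with s hs
  have : fin (Ts s) x = fin TT x := by
    unfold fin
    rw [hs]
  rw [this]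
  by_cases h : inA (fin TT x) x
  · rw [if_pos h, eq_comm, chi_eq_one]
    exact h
  · rw [if_neg h, eq_comm, chi_eq_zero]
    exact h

end Pool.Agent.MP_ac9d16_lc

end

section

namespace Pool.Agent.MP_ac9d16_lc

open Filter

theorem ls_le (q t : ℕ) : ls q t ≤ t := by
  have := List.findIdx_le_length (p := fun b => decide (aa q ≤ b ∧ cst q b t)) (xs := List.range t)
  simpa [ls] using this

theorem ls_spec {q t : ℕ} (h : ls q t < t) : aa q ≤ ls q t ∧ cst q (ls q t) t := by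
  have h' : (List.range t).findIdx (fun b => decide (aa q ≤ b ∧ cst q b t)) <
      (List.range t).length := by simpa [ls] using h
  have := List.findIdx_getElem (w := h')
  rw [List.getElem_range] at this
  exact of_decide_eq_true this

theorem ls_min {q t b : ℕ} (h : b < ls q t) : ¬ (aa q ≤ b ∧ cst q b t) := by
  have := List.not_of_lt_findIdx (p := fun b => decide (aa q ≤ b ∧ cst q b t))
    (xs := List.range t) h
  rw [List.getElem_range] at this
  exact of_decide_eq_false this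

theorem ls_eq {q t b : ℕ} (h1 : aa q ≤ b) (h2 : TT q b = true)
    (h3 : ∀ b' < b, ¬ (aa q ≤ b' ∧ TT q b' = true)) (ht : b ≤ t) : ls q t = b := by
  rw [TT_iff] at h2
  rcases lt_trichotomy (ls q t) b with h | h | h
  · obtain ⟨h4, h5⟩ := ls_spec (lt_of_lt_of_le h ht)
    refine absurd ⟨h4, TT_iff.2 fun s hs => ?_⟩ (h3 _ h)
    by_cases hs' : s ≤ t
    · exact h5 s (by omega) hs
    · exact (h2 s (by omega)).trans (h5 b (by omega) h.le)
  · exact h
  · exact absurd ⟨h1, fun s _ hs => h2 s hs⟩ (ls_min h)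

theorem ls_tendsto {q : ℕ} (h : ¬ ∃ b, aa q ≤ b ∧ TT q b = true) :
    Tendsto (ls q) atTop atTop := by
  refine tendsto_atTop.2 fun B => ?_
  have h1 : ∀ᶠ t in atTop, ∀ b ∈ Finset.range B, ¬ (aa q ≤ b ∧ cst q b t) := by
    refine (eventually_all_finset _).2 fun b _ => ?_
    by_cases hb : aa q ≤ b
    · have h2 : TT q b = false := Bool.eq_false_iff.2 fun h' => h ⟨b, hb, h'⟩
      filter_upwards [Ts_lim q b] with t ht
      rw [h2] at ht
      exact fun h3 => of_decide_eq_false ht h3.2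
    · exact Eventually.of_forall fun t h3 => hb h3.1
  filter_upwards [h1, eventually_ge_atTop B] with t ht hB
  by_contra h2
  exact ht _ (Finset.mem_range.2 (by omega)) (ls_spec (by omega))

def Inv (q : ℕ) : Prop := jj q < 2 ^ dd q ∧ (LL q).length ≤ dd q

theorem LL_tc (q b : ℕ) : LL (tc q b) = LL q := by
  unfold tc
  split_ifs <;> simp

theorem aa_tc (q b : ℕ) : aa (tc q b) = b := by
  unfold tc
  split_ifs <;> simp

theorem inv_tc {q : ℕ} (h : Inv q) (b : ℕ) : Inv (tc q b) ∧ uu q < uu (tc q b) := by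
  obtain ⟨h1, h2⟩ := h
  unfold tc Inv uu
  split_ifs with h
  · simp [h, h2]
  · simp only [jj_mk, dd_mk, LL_mk, pow_succ]
    omega

theorem inv_oc {q : ℕ} (h : Inv q) : Inv (oc q) ∧ uu q < uu (oc q) := by
  obtain ⟨h1, h2⟩ := h
  unfold oc Inv uu
  simp only [jj_mk, dd_mk, LL_mk, pow_succ, List.length_append, List.length_singleton]
  omega

theorem step_stop {T : ℕ → ℕ → Bool} {σ : ℕ × ℕ} (h : σ.2 ≤ uu σ.1) : step T σ = σ := if_pos h

theorem step_go {T : ℕ → ℕ → Bool} {σ : ℕ × ℕ} (hI : Inv σ.1) (h : ¬ σ.2 ≤ uu σ.1) :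
    Inv (step T σ).1 ∧ uu σ.1 < uu (step T σ).1 ∧ (step T σ).2 ≤ σ.2 ∧
      (LL (step T σ).1 = LL σ.1 ∨ LL (step T σ).1 = LL σ.1 ++ [σ.1]) := by
  unfold step
  rw [if_neg h]
  split_ifs
  · exact ⟨(inv_tc hI _).1, (inv_tc hI _).2, le_rfl, Or.inl (LL_tc _ _)⟩
  · exact ⟨(inv_oc hI).1, (inv_oc hI).2, ls_le _ _, Or.inr (by simp [oc])⟩

theorem iter_stop {T : ℕ → ℕ → Bool} (N : ℕ) : ∀ {σ : ℕ × ℕ}, Inv σ.1 → σ.2 ≤ uu σ.1 + N →
    step T ((step T)^[N] σ) = (step T)^[N] σ := by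
  induction N with
  | zero => exact fun _ h => step_stop h
  | succ N ih =>
    intro σ hI h
    by_cases h1 : σ.2 ≤ uu σ.1
    · rw [Function.iterate_fixed (step_stop h1), step_stop h1]
    · obtain ⟨h2, h3, h4, -⟩ := step_go (T := T) hI h1
      rw [Function.iterate_succ_apply]
      exact ih h2 (by omega)

theorem iter_add {T : ℕ → ℕ → Bool} {σ : ℕ × ℕ} (hI : Inv σ.1) {N : ℕ} (h : σ.2 ≤ N) (m : ℕ) :
    (step T)^[m + N] σ = (step T)^[N] σ := by
  rw [Function.iterate_add_apply, Function.iterate_fixed (iter_stop N hI (by omega))]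

theorem iter_ext {T : ℕ → ℕ → Bool} {c : ℕ} (N : ℕ) : ∀ {σ : ℕ × ℕ}, Inv σ.1 → σ.2 ≤ c →
    ∃ E, LL ((step T)^[N] σ).1 = LL σ.1 ++ E ∧ (E = [] ∨ (LL σ.1 ++ E).length ≤ c) := by
  induction N with
  | zero => exact fun _ _ => ⟨[], by simp, Or.inl rfl⟩
  | succ N ih =>
    intro σ hI h
    by_cases h1 : σ.2 ≤ uu σ.1
    · rw [Function.iterate_fixed (step_stop h1)]
      exact ⟨[], by simp, Or.inl rfl⟩
    · obtain ⟨h2, -, h4, h5⟩ := step_go (T := T) hI h1
      rw [Function.iterate_succ_apply]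
      obtain ⟨E, hE, hE'⟩ := ih h2 (h4.trans h)
      rcases h5 with h5 | h5
      · rw [h5] at hE hE'
        exact ⟨E, hE, hE'⟩
      · rw [h5] at hE hE'
        refine ⟨[σ.1] ++ E, by rw [hE, List.append_assoc], Or.inr ?_⟩
        rcases hE' with rfl | hE'
        · have h6 := hI.2
          have h7 : dd σ.1 < 2 ^ dd σ.1 := Nat.lt_two_pow_self
          unfold uu at h1
          simp only [List.append_nil, List.length_append, List.length_singleton]
          omega
        · rwa [List.append_assoc] at hE'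

theorem inv_root : Inv root := by simp [Inv, root]

/-- The properties of the nodes on the true path. -/
def OnP (q : ℕ) : Prop :=
  Inv q ∧ Tendsto (view (LL q)) atTop atTop ∧ ∀ x, aa q ≤ view (LL q) x → uu q < view (LL q) x →
    ∃ m, (step TT)^[m] (root, x) = (q, view (LL q) x)

theorem onP_root : OnP root :=
  ⟨inv_root, by
    rw [root, LL_mk]
    exact tendsto_id, fun x _ _ => ⟨0, by simp [root, view]⟩⟩

theorem onP_tc {q b : ℕ} (h : OnP q) (h1 : aa q ≤ b) (h2 : TT q b = true)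
    (h3 : ∀ b' < b, ¬ (aa q ≤ b' ∧ TT q b' = true)) : OnP (tc q b) := by
  obtain ⟨hI, hV, hR⟩ := h
  refine ⟨(inv_tc hI b).1, by rwa [LL_tc], fun x hx hx' => ?_⟩
  rw [LL_tc] at hx hx' ⊢
  rw [aa_tc] at hx
  have h4 := (inv_tc hI b).2
  obtain ⟨m, hm⟩ := hR x (by omega) (by omega)
  refine ⟨m + 1, ?_⟩
  rw [Function.iterate_succ_apply', hm]
  unfold step
  rw [if_neg (by simp only; omega)]
  simp only [ls_eq h1 h2 h3 hx, h2, if_true]

theorem view_concat (L : List ℕ) (q x : ℕ) : view (L ++ [q]) x = ls q (view L x) := by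
  simp [view]

theorem onP_oc {q : ℕ} (h : OnP q) (h1 : ¬ ∃ b, aa q ≤ b ∧ TT q b = true) : OnP (oc q) := by
  obtain ⟨hI, hV, hR⟩ := h
  have hL : view (LL (oc q)) = fun x => ls q (view (LL q) x) := by
    funext x
    simp [oc, view_concat]
  refine ⟨(inv_oc hI).1, hL ▸ (ls_tendsto h1).comp hV, fun x hx hx' => ?_⟩
  simp only [hL] at hx hx' ⊢
  have h2 : aa (oc q) = aa q := by simp [oc]
  have h3 := ls_le q (view (LL q) x)
  have h4 := (inv_oc hI).2
  obtain ⟨m, hm⟩ := hR x (by omega) (by omega)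
  refine ⟨m + 1, ?_⟩
  rw [Function.iterate_succ_apply', hm]
  unfold step
  rw [if_neg (by simp only; omega), if_neg fun h5 => h1 ⟨_, h2 ▸ hx, h5⟩]

theorem exists_bits (b : ℕ → ℕ) (hb : ∀ r, b r < 2) (c : ℕ) :
    ∃ k < 2 ^ c, ∀ r < c, bt k r = b r := by
  induction c generalizing b with
  | zero => exact ⟨0, by simp, by simp⟩
  | succ c ih =>
    obtain ⟨k, hk, hk'⟩ := ih (fun r => b (r + 1)) fun r => hb _
    have h0 := hb 0
    refine ⟨2 * k + b 0, by rw [pow_succ]; omega, fun r hr => ?_⟩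
    cases r with
    | zero =>
      simp only [bt, pow_zero, Nat.div_one]
      omega
    | succ r =>
      rw [← hk' r (by omega)]
      unfold bt
      rw [pow_succ', ← Nat.div_div_eq_div_mul, show (2 * k + b 0) / 2 = k by omega]

theorem bt_lt (m r : ℕ) : bt m r < 2 := Nat.mod_lt _ (by norm_num)

theorem hit {q c : ℕ} {H : Set ℕ} (h : OnP q) (hc : TT q c = false)
    (hE : ∀ k < 2 ^ c, ∃ x ∈ H, good q c k x) : ∃ x ∈ H, (x ∈ AA ↔ ¬ side q = 0) := by
  obtain ⟨hI, -, hR⟩ := h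
  obtain ⟨E, hE1, hE2⟩ := iter_ext (T := TT) (c := c) c (σ := (oc q, c)) (inv_oc hI).1 le_rfl
  have hLo : LL (oc q) = LL q ++ [q] := by simp [oc]
  simp only [hLo] at hE1 hE2
  set F := LL q ++ [q] ++ E with hF
  obtain ⟨k, hk, hk'⟩ := exists_bits (fun r' => 1 - bt (jj (F.getD r' 0)) (LL q).length)
    (fun r => by omega) c
  obtain ⟨x, hx, g1, g2, g3, g4, -, g6⟩ := hE k hk
  refine ⟨x, hx, ?_⟩
  obtain ⟨m, hm⟩ := hR x g2 g3
  have h1 : (step TT)^[m + 1] (root, x) = (oc q, c) := by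
    rw [Function.iterate_succ_apply', hm]
    unfold step
    rw [if_neg (by simp only; omega)]
    simp [g4, hc]
  have h2 : fin TT x = F := by
    have hcx : c ≤ x + c := by omega
    unfold fin
    rw [← iter_add (σ := (root, x)) inv_root le_rfl (c + (m + 1)),
      show c + (m + 1) + x = x + c + (m + 1) by ring, Function.iterate_add_apply, h1,
      iter_add (σ := (oc q, c)) (inv_oc hI).1 le_rfl, hE1]
  have h3 : F.getD (LL q).length 0 = q := by simp [hF]
  have h4 : ∀ r < (LL q).length, F.getD r 0 = (LL q).getD r 0 := by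
    intro r hr
    simp [hF, List.getElem?_append_left hr]
  have h5 : (LL q).length < F.length := by simp [hF]
  have h6 : claim F x (LL q).length := by
    intro r' hr1 hr2
    have h7 : r' < c := by
      rcases hE2 with rfl | hE2
      · simp [hF] at hr1
        omega
      · omega
    rw [h3, g6, hk' r' h7]
    have := bt_lt (jj (F.getD r' 0)) (LL q).length
    omega
  have h7 : ∀ r0 < (LL q).length, ¬ claim F x r0 := by
    intro r0 hr0 h8
    refine h8 _ h5 hr0 ?_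
    rw [h3, h4 r0 hr0]
    exact g1 r0 hr0
  change inA (fin TT x) x ↔ _
  rw [h2]
  constructor
  · rintro ⟨r, -, r1, r2, r3⟩
    rcases lt_trichotomy r (LL q).length with h8 | h8 | h8
    · exact absurd r1 (h7 r h8)
    · rwa [h8, h3] at r3
    · exact absurd h6 (r2 _ h8)
  · exact fun h8 => ⟨_, h5, h6, h7, by rwa [h3]⟩

theorem exists_least {q : ℕ} (h : ∃ b, aa q ≤ b ∧ TT q b = true) :
    ∃ b, aa q ≤ b ∧ TT q b = true ∧ ∀ b' < b, ¬ (aa q ≤ b' ∧ TT q b' = true) :=
  ⟨Nat.find h, (Nat.find_spec h).1, (Nat.find_spec h).2, fun _ hb => Nat.find_min h hb⟩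

theorem exists_depth (d : ℕ) : ∃ q, OnP q ∧ dd q = d ∧ jj q = 0 := by
  induction d with
  | zero => exact ⟨root, onP_root, by simp [root], by simp [root]⟩
  | succ d ih =>
    have : ∀ m q, OnP q → dd q = d → 2 ^ d ≤ jj q + m → ∃ q, OnP q ∧ dd q = d + 1 ∧ jj q = 0 := by
      intro m
      induction m with
      | zero =>
        intro q hq hd hm
        have := hq.1.1
        rw [hd] at this
        omega
      | succ m ih2 =>
        intro q hq hd hm
        by_cases h : ∃ b, aa q ≤ b ∧ TT q b = true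
        · obtain ⟨b, h1, h2, h3⟩ := exists_least h
          have h4 := onP_tc hq h1 h2 h3
          unfold tc at h4
          split_ifs at h4 with h5
          · exact ih2 _ h4 (by simpa using hd) (by simp only [jj_mk]; omega)
          · exact ⟨_, h4, by simpa using hd, by simp⟩
        · exact ⟨_, onP_oc hq h, by simpa [oc] using hd, by simp [oc]⟩
    obtain ⟨q, h1, h2, h3⟩ := ih
    exact this (2 ^ d) q h1 h2 (by omega)

theorem exists_level {d : ℕ} (h : ∀ q, dd q = d → ∃ b, aa q ≤ b ∧ TT q b = true) :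
    ∃ L : List ℕ, L.length ≤ d ∧ ∀ j < 2 ^ d, ∃ q, OnP q ∧ dd q = d ∧ jj q = j ∧ LL q = L := by
  obtain ⟨q0, h1, h2, h3⟩ := exists_depth d
  refine ⟨LL q0, h2 ▸ h1.1.2, fun j => ?_⟩
  induction j with
  | zero => exact fun _ => ⟨q0, h1, h2, h3, rfl⟩
  | succ j ih =>
    intro hj
    obtain ⟨q, r1, r2, r3, r4⟩ := ih (by omega)
    obtain ⟨b, b1, b2, b3⟩ := exists_least (h q r2)
    have h4 := onP_tc r1 b1 b2 b3
    unfold tc at h4
    rw [if_pos (by rw [r2, r3]; exact hj)] at h4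
    exact ⟨_, h4, by simpa using r2, by simpa using r3, by simpa using r4⟩

/-- The key lemma. -/
theorem key {i : ℕ} {g : ℕ → ℕ} (hg : ∀ q, ∀ᶠ s in atTop, app i q s = g q) (sd n : ℕ) :
    ∃ M, ∀ H : Set ℕ, (∀ x ∈ H, ¬ (x ∈ AA ↔ ¬ sd = 0)) →
      (∀ q < M, (∃ s, Edge q H s) → Edge q H (g q)) →
      ∃ w y, ∀ x ∈ H, y ≤ x → ¬ app n n x = w := by
  set d := Nat.pair i (Nat.pair sd n) with hd
  have hv : ∀ q, dd q = d → ∀ᶠ s in atTop, val q s = g q := by
    intro q hq
    simpa [val, hq, hd] using hg q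
  have ht : ∀ q, dd q = d → ∃ b, aa q ≤ b ∧ TT q b = true := by
    intro q hq
    obtain ⟨b, hb⟩ := eventually_atTop.1 (hv q hq)
    exact ⟨max b (aa q), le_max_right _ _, TT_iff.2 fun s hs =>
      (hb s ((le_max_left _ _).trans hs)).trans (hb _ (le_max_left _ _)).symm⟩
  obtain ⟨L, hL, hq⟩ := exists_level ht
  choose! Q hQ using hq
  refine ⟨(Finset.range (2 ^ d)).sup Q + 1, fun H hH hM => ?_⟩
  have main : ∀ j < 2 ^ d, ∃ k, ∀ᶠ x in atTop, x ∈ H → inPart L j x → ¬ raw (Q j) x = k := by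
    intro j hj
    obtain ⟨r1, r2, r3, r4⟩ := hQ j hj
    have hno : ¬ ∃ s, Edge (Q j) H s := by
      intro h
      obtain ⟨c, -, hc⟩ := hM _ (Nat.lt_succ_of_le (Finset.le_sup (Finset.mem_range.2 hj))) h
      have hf : TT (Q j) c = false := by
        refine Bool.eq_false_iff.2 fun h1 => ?_
        obtain ⟨x, hx, -, -, -, -, -, g5, -⟩ := hc 0 (by positivity)
        obtain ⟨s, hs1, hs2⟩ := ((hv _ r2).and (eventually_ge_atTop c)).exists
        have := TT_iff.1 h1 s hs2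
        omega
      obtain ⟨x, hx, hx'⟩ := hit (H := H) r1 hf fun k hk =>
        (hc k hk).imp fun x hx => hx.2
      refine hH x hx ?_
      simpa [side, r2, hd] using hx'
    obtain ⟨c, c1, c2, c3⟩ := exists_least (ht _ r2)
    have hk : ∃ k < 2 ^ c, ∀ x ∈ H, ¬ good (Q j) c k x := by
      by_contra h
      push Not at h
      choose! X hX using h
      refine hno ⟨(Finset.range (2 ^ c)).sup X + c + 1, c, by omega, fun k hk => ⟨X k, ?_, hX k hk⟩⟩
      have := Finset.le_sup (f := X) (Finset.mem_range.2 hk)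
      omega
    obtain ⟨k, -, hk⟩ := hk
    refine ⟨k, ?_⟩
    filter_upwards [r1.2.1.eventually_ge_atTop c, r1.2.1.eventually_gt_atTop (uu (Q j)),
      eventually_gt_atTop (val (Q j) c)] with x x1 x2 x3 hx hp hr
    exact hk x hx ⟨by rwa [r3, r4], c1.trans x1, x2, ls_eq c1 c2 c3 x1, x3, hr⟩
  choose! K hK using main
  have hall : ∀ᶠ x in atTop, ∀ j ∈ Finset.range (2 ^ d),
      x ∈ H → inPart L j x → ¬ raw (Q j) x = K j :=
    (eventually_all_finset _).2 fun j hj => hK j (Finset.mem_range.1 hj)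
  obtain ⟨y, hy⟩ := eventually_atTop.1 hall
  refine ⟨Encodable.encode ((List.range (2 ^ d)).map K), y, fun x hx hyx h => ?_⟩
  obtain ⟨j, hj, hj'⟩ := exists_bits (fun r => bt (raw (L.getD r 0) x) L.length)
    (fun r => bt_lt _ _) L.length
  have hj2 : j < 2 ^ d := lt_of_lt_of_le hj (Nat.pow_le_pow_right (by norm_num) hL)
  refine hy x hyx j (Finset.mem_range.2 hj2) hx (fun r hr => (hj' r hr).symm) ?_
  obtain ⟨-, r2, r3, -⟩ := hQ j hj2
  have hn : nn (Q j) = n := by simp [nn, r2, hd]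
  rw [raw, hn, h, r3]
  simp [hj2]

end Pool.Agent.MP_ac9d16_lc

end

section

namespace Pool.Agent.MP_ac9d16_lc

open Filter Pool.Agent.MP_9a65c4_lc Pool.Agent.MP_40fdec_lc

/-- The question whose negative answer bounds an edge. -/
def thE (q w : ℕ) (τ : List ℕ) : Prop := w ≤ τ.length ∧ edge q τ τ.length ∧ ¬ edge q τ w

theorem pp_thE : PrimrecPred fun a : (ℕ × ℕ) × List ℕ => thE a.1.1 a.1.2 a.2 :=
  (pp_le (by fun_prop) (by fun_prop)).and ((pp_edge (by fun_prop) (by fun_prop) (by fun_prop)).and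
    (pp_edge (by fun_prop) (by fun_prop) (by fun_prop)).not)

theorem thE_iff {q w : ℕ} {H : Set ℕ} :
    (∀ k, ¬ thE q w (seg (chi H) k)) ↔ ((∃ s, Edge q H s) → Edge q H w) := by
  unfold thE
  simp only [seg_length]
  constructor
  · rintro h ⟨s, hs⟩
    by_contra h1
    exact h (max s w) ⟨le_max_right _ _, (edge_seg le_rfl).2 (hs.mono (le_max_left _ _)),
      fun h2 => h1 ((edge_seg (le_max_right _ _)).1 h2)⟩
  · rintro h k ⟨h1, h2, h3⟩
    exact h3 ((edge_seg h1).2 (h ⟨k, (edge_seg le_rfl).1 h2⟩))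

theorem thE_exists (q : ℕ) (H : Set ℕ) : ∃ w, ∀ k, ¬ thE q w (seg (chi H) k) := by
  by_cases h : ∃ s, Edge q H s
  · obtain ⟨s, hs⟩ := h
    exact ⟨s, thE_iff.2 fun _ => hs⟩
  · exact ⟨0, thE_iff.2 fun h' => absurd h' h⟩

/-- The question whose negative answer gives a value that is avoided. -/
def thD (n w : ℕ) (τ : List ℕ) : Prop :=
  ∃ x < τ.length, τ.getD x 0 = 1 ∧ w.unpair.2 ≤ x ∧ app n n x = w.unpair.1

theorem pp_thD : PrimrecPred fun a : (ℕ × ℕ) × List ℕ => thD a.1.1 a.1.2 a.2 :=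
  pp_ex_lt (R := fun (a : (ℕ × ℕ) × List ℕ) x =>
      a.2.getD x 0 = 1 ∧ a.1.2.unpair.2 ≤ x ∧ app a.1.1 a.1.1 x = a.1.2.unpair.1) (by fun_prop)
    ((pp_eq (by fun_prop) (by fun_prop)).and ((pp_le (by fun_prop) (by fun_prop)).and
      (pp_eq (by fun_prop) (by fun_prop))))

theorem thD_iff {n w : ℕ} {H : Set ℕ} : (∀ k, ¬ thD n w (seg (chi H) k)) ↔
    ∀ x ∈ H, w.unpair.2 ≤ x → ¬ app n n x = w.unpair.1 := by
  unfold thD
  simp only [seg_length]
  constructor
  · intro h x hx h1 h2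
    exact h (x + 1) ⟨x, by omega, by rwa [seg_getD (by omega), chi_eq_one], h1, h2⟩
  · rintro h k ⟨x, h1, h2, h3, h4⟩
    rw [seg_getD h1, chi_eq_one] at h2
    exact h x h2 h3 h4

theorem not_mem_Phi {n w y : ℕ} {H : Set ℕ} (hH : H.Infinite)
    (h : ∀ x ∈ H, y ≤ x → ¬ app n n x = w) : w ∉ Phi (chi (jump ∅)) n n := by
  intro hw
  obtain ⟨b, hb⟩ := eventually_atTop.1 (app_lim hw)
  obtain ⟨x, hx, hx'⟩ := hH.exists_gt (max b y)
  exact h x hx (by omega) (hb x (by omega))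

theorem exists_side {H : Set ℕ} (h : H ⊆ AA ∨ H ⊆ AAᶜ) :
    ∃ sd : ℕ, ∀ x ∈ H, ¬ (x ∈ AA ↔ ¬ sd = 0) := by
  rcases h with h | h
  · exact ⟨0, fun x hx h' => h'.1 (h hx) rfl⟩
  · exact ⟨1, fun x hx h' => h hx (h'.2 one_ne_zero)⟩

theorem dnc_or_hyper {H : Set ℕ} (hH : H.Infinite) (h : H ⊆ AA ∨ H ⊆ AAᶜ) :
    (∃ f, Computes (jump H) f ∧ ∀ e, f e ∉ Phi (chi (jump ∅)) e e) ∨
      ∃ f, Computes (jump H) f ∧ ∀ g, Computes (jump ∅) g → ∃ᶠ n in atTop, g n < f n := by
  rw [or_iff_not_imp_right]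
  intro hno
  obtain ⟨sd, hsd⟩ := exists_side h
  obtain ⟨m, hm, hm'⟩ := search_neg pp_thE (X := H) fun q => thE_exists q H
  push Not at hno
  obtain ⟨g, hg, hg'⟩ := hno m (computes_iff.2 hm)
  obtain ⟨N, hN⟩ := eventually_atTop.1 hg'
  have hg2 : RecIn (chi (jump ∅)) fun q => g q + (Finset.range N).sup m :=
    (RecIn.of_primrec (f := fun z => z + (Finset.range N).sup m) (by fun_prop)).comp
      (computes_iff.1 hg)
  obtain ⟨i, hi⟩ := exists_app hg2
  have hev : ∀ n, ∃ w, ∀ k, ¬ thD n w (seg (chi H) k) := by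
    intro n
    obtain ⟨M, hM⟩ := key hi sd n
    obtain ⟨w, y, hw⟩ := hM H hsd fun q _ hq => (thE_iff.1 (hm' q) hq).mono (by
      by_cases hq' : q < N
      · have := Finset.le_sup (f := m) (Finset.mem_range.2 hq')
        omega
      · have := hN q (by omega)
        omega)
    exact ⟨Nat.pair w y, thD_iff.2 (by simpa using hw)⟩
  obtain ⟨f, hf, hf'⟩ := search_neg pp_thD hev
  exact ⟨fun n => (f n).unpair.1,
    computes_iff.2 ((RecIn.of_primrec (f := fun z => z.unpair.1) (by fun_prop)).comp hf),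
    fun n => not_mem_Phi hH (thD_iff.1 (hf' n))⟩

end Pool.Agent.MP_ac9d16_lc

end

section

namespace Pool.Agent.MP_ac9d16_lc

open Filter Pool.Agent.MP_9a65c4_lc Pool.Agent.MP_40fdec_lc

/-- An oracle search has an index. -/
theorem exists_index_search {R : ℕ → ℕ → List ℕ → Prop}
    (hR : PrimrecPred fun a : (ℕ × ℕ) × List ℕ => R a.1.1 a.1.2 a.2) {π : ℕ → ℕ}
    (hπ : Primrec π) :
    ∃ e, ∀ p z, (∃ w, R z w (seg p w)) → ∃ w, R z w (seg p w) ∧ π w ∈ Phi p e z := by
  classical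
  have hH : Computable₂ fun (m : ℕ) (τ : List ℕ) => if R m.unpair.1 m.unpair.2 τ then 0 else 1 :=
    Primrec.to_comp (Primrec.ite (hR.comp (f := fun a : ℕ × List ℕ => (a.1.unpair, a.2))
      (by fun_prop)) (Primrec.const 0) (Primrec.const 1))
  have h1 := tf_bounded hH (b := fun m => m.unpair.2) (Primrec.to_comp (by fun_prop))
  obtain ⟨e, he⟩ := exists_index_of_tf
    (TuringFunctional.comp (tf_of_computable hπ.to_comp) (TuringFunctional.rfind h1))
  refine ⟨e, fun p z h => ⟨Nat.find h, Nat.find_spec h, ?_⟩⟩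
  rw [he]
  simp only [Part.bind_eq_bind, Part.mem_bind_iff, Part.mem_some_iff, Nat.mem_rfind,
    Nat.unpair_pair, Part.map_eq_map, Part.map_some, ← seg_eq_pre]
  exact ⟨Nat.find h, ⟨by simp [Nat.find_spec h], fun {m} hm => by simp [Nat.find_min h hm]⟩, rfl⟩

theorem recIn_search_seg {R : ℕ → ℕ → List ℕ → Prop}
    (hR : PrimrecPred fun a : (ℕ × ℕ) × List ℕ => R a.1.1 a.1.2 a.2) {p : ℕ → ℕ}
    (h : ∀ z, ∃ w, R z w (seg p w)) : ∃ f, RecIn p f ∧ ∀ z, R z (f z) (seg p (f z)) := by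
  obtain ⟨e, he⟩ := exists_index_search hR Primrec.id
  choose f hf hf' using fun z => he p z (h z)
  exact ⟨f, (recursiveIn_of_tf (tf_Phi e) p).of_eq_tot hf', hf⟩

/-- The join of two oracles. -/
def Jn (γ κ : ℕ → ℕ) (n : ℕ) : ℕ := if n % 2 = 0 then γ (n / 2) else κ (n / 2)

/-- The functional gives the value zero, and this is seen below `s`. -/
def wit (e q : ℕ) (p : ℕ → ℕ) (s : ℕ) : Prop :=
  ∃ r < s, ev e q r.unpair.2 (seg p r.unpair.1) = some 0 ∧
    ∀ r' < r, ev e q r'.unpair.2 (seg p r'.unpair.1) = none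

theorem wit_congr {e q s : ℕ} {p p' : ℕ → ℕ} (h : ∀ n < s, p n = p' n) (hw : wit e q p s) :
    wit e q p' s := by
  obtain ⟨r, hr, h1, h2⟩ := hw
  have : ∀ m ≤ r, seg p' m.unpair.1 = seg p m.unpair.1 := fun m hm =>
    seg_congr fun x hx => (h x (by have := Nat.unpair_left_le m; omega)).symm
  exact ⟨r, hr, by rw [this r le_rfl]; exact h1, fun r' hr' => by rw [this r' hr'.le]; exact h2 r' hr'⟩

theorem Jn_congr {γ γ' κ κ' : ℕ → ℕ} {s : ℕ} (h : ∀ n < s, γ n = γ' n)
    (h' : ∀ n < s, κ n = κ' n) : ∀ n < s, Jn γ κ n = Jn γ' κ' n := by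
  intro n hn
  unfold Jn
  rw [h _ (by omega), h' _ (by omega)]

/-- The condition `c'` refines `c`. -/
def Ref (c c' : ℕ) : Prop :=
  c.unpair.2 ≤ c'.unpair.2 ∧ ∀ i < c.unpair.2, bt c'.unpair.1 i = bt c.unpair.1 i

/-- The oracle `γ` meets the condition `c`. -/
def Ext (c : ℕ) (γ : ℕ → ℕ) : Prop := ∀ i < c.unpair.2, γ i = bt c.unpair.1 i

theorem Ref.ext {c c' : ℕ} {γ : ℕ → ℕ} (h : Ref c c') (h' : Ext c' γ) : Ext c γ :=
  fun i hi => (h' i (lt_of_lt_of_le hi h.1)).trans (h.2 i hi)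

theorem Ref.trans {c c' c'' : ℕ} (h : Ref c c') (h' : Ref c' c'') : Ref c c'' :=
  ⟨h.1.trans h'.1, fun i hi => (h'.2 i (lt_of_lt_of_le hi h.1)).trans (h.2 i hi)⟩

theorem Ref.refl (c : ℕ) : Ref c c := ⟨le_rfl, fun _ _ => rfl⟩

/-- The search predicate: a refinement forcing a negative answer. -/
def RR (ε : ℕ → ℕ) (e c z w : ℕ) (τ : List ℕ) : Prop :=
  Ref c w.unpair.1 ∧
    wit e (ε (Nat.pair z w.unpair.2)) (Jn (bt w.unpair.1.unpair.1) fun n => τ.getD n 0)
      w.unpair.1.unpair.2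

section
variable {α : Type*} [Primcodable α]

theorem pp_Ref {c c' : α → ℕ} (hc : Primrec c) (hc' : Primrec c') :
    PrimrecPred fun a => Ref (c a) (c' a) :=
  (pp_le (by fun_prop) (by fun_prop)).and
    (pp_all_lt (R := fun a i => bt (c' a).unpair.1 i = bt (c a).unpair.1 i) (by fun_prop)
      (pp_eq (by fun_prop) (by fun_prop)))

theorem pr_segJ {u k : α → ℕ} {τ : α → List ℕ} (hu : Primrec u) (hk : Primrec k)
    (hτ : Primrec τ) : Primrec fun a => seg (Jn (bt (u a)) fun n => (τ a).getD n 0) (k a) := by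
  unfold seg Jn
  have h2 : Primrec fun a : α × ℕ => a.2 / 2 := Primrec.nat_div.comp Primrec.snd (Primrec.const 2)
  refine pr_map (by fun_prop) (Primrec.ite
    (pp_eq (Primrec.nat_mod.comp Primrec.snd (Primrec.const 2)) (Primrec.const 0)) ?_ ?_)
  · exact pr_bt (by fun_prop) h2
  · exact pr_getD 0 (by fun_prop) h2

theorem pp_RR {ε : ℕ → ℕ} (hε : Primrec ε) (e : ℕ) {c z w : α → ℕ} {τ : α → List ℕ}
    (hc : Primrec c) (hz : Primrec z) (hw : Primrec w) (hτ : Primrec τ) :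
    PrimrecPred fun a => RR ε e (c a) (z a) (w a) (τ a) := by
  refine (pp_Ref hc (by fun_prop)).and (pp_ex_lt (by fun_prop) (PrimrecPred.and
    (pp_eq (pr_ev (by fun_prop) (by fun_prop) (by fun_prop)
      (pr_segJ (by fun_prop) (by fun_prop) (by fun_prop))) (by fun_prop)) ?_))
  exact pp_all_lt (R := fun (a : α × ℕ) r' => ev e (ε (Nat.pair (z a.1) (w a.1).unpair.2))
      r'.unpair.2 (seg (Jn (bt (w a.1).unpair.1.unpair.1) fun n => (τ a.1).getD n 0) r'.unpair.1) =
      none) (by fun_prop)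
    (pp_eq (pr_ev (by fun_prop) (by fun_prop) (by fun_prop)
      (pr_segJ (by fun_prop) (by fun_prop) (by fun_prop))) (by fun_prop))

end

theorem use_le (w : ℕ) : w.unpair.1.unpair.2 ≤ w :=
  (Nat.unpair_right_le _).trans (Nat.unpair_left_le _)

theorem RR_sound {ε γ κ : ℕ → ℕ} {e c z w : ℕ} {Y : Set ℕ} (h : RR ε e c z w (seg κ w))
    (hγ : Ext w.unpair.1 γ) (hY : ∀ q, chi Y q ∈ Phi (Jn γ κ) e q) :
    ε (Nat.pair z w.unpair.2) ∉ Y := by
  obtain ⟨r, -, h1⟩ := wit_congr (p' := Jn γ κ) (Jn_congr (fun n hn => (hγ n hn).symm)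
    fun n hn => seg_getD (lt_of_lt_of_le hn (use_le w))) h.2
  exact chi_eq_zero.1 (Part.mem_unique (hY _) (mem_Phi.2 ⟨r, h1⟩))

theorem RR_exists {ε γ κ : ℕ → ℕ} {e c z v : ℕ} {Y : Set ℕ} (hγ2 : ∀ i, γ i < 2) (hγ : Ext c γ)
    (hY : ∀ q, chi Y q ∈ Phi (Jn γ κ) e q) (h : ε (Nat.pair z v) ∉ Y) :
    ∃ w, RR ε e c z w (seg κ w) := by
  have h0 := hY (ε (Nat.pair z v))
  rw [chi_eq_zero.2 h] at h0
  obtain ⟨r, h1⟩ := mem_Phi.1 h0
  obtain ⟨u, -, hu⟩ := exists_bits γ hγ2 (r + 1 + c.unpair.2)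
  refine ⟨Nat.pair (Nat.pair u (r + 1 + c.unpair.2)) v, ⟨by simp, fun i hi => ?_⟩, ?_⟩
  · simp only [Nat.unpair_pair]
    rw [hu i (by omega), hγ i hi]
  · simp only [Nat.unpair_pair]
    refine wit_congr (p := Jn γ κ) (Jn_congr (fun n hn => (hu n hn).symm) fun n hn => ?_)
      ⟨r, by omega, h1⟩
    refine (seg_getD (lt_of_lt_of_le hn ?_)).symm
    simpa using use_le (Nat.pair (Nat.pair u (r + 1 + c.unpair.2)) v)

theorem exists_ref (e sd c0 : ℕ) : ∃ c, Ref c0 c ∧ ∀ γ : ℕ → ℕ, (∀ i, γ i < 2) → Ext c γ →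
    ∀ H : Set ℕ, H.Infinite → (∀ x ∈ H, ¬ (x ∈ AA ↔ ¬ sd = 0)) →
      ¬ ∀ q, chi (jump H) q ∈ Phi (Jn γ (chi (jump ∅))) e q := by
  obtain ⟨εD, hD, hD'⟩ := jump_sigma (Θ := fun q τ => thD q.unpair.1 q.unpair.2 τ)
    (pp_thD.comp (f := fun a : ℕ × List ℕ => (a.1.unpair, a.2)) (by fun_prop))
  obtain ⟨εE, hE, hE'⟩ := jump_sigma (Θ := fun q τ => thE q.unpair.1 q.unpair.2 τ)
    (pp_thE.comp (f := fun a : ℕ × List ℕ => (a.1.unpair, a.2)) (by fun_prop))
  obtain ⟨n, hn⟩ := exists_index_search (R := fun z w τ => RR εD e c0 z w τ)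
    (pp_RR hD e (by fun_prop) (by fun_prop) (by fun_prop) (by fun_prop))
    (π := fun w => w.unpair.2.unpair.1) (by fun_prop)
  by_cases h1 : ∃ w, RR εD e c0 n w (seg (chi (jump ∅)) w)
  · obtain ⟨w, hw, hw'⟩ := hn _ n h1
    refine ⟨w.unpair.1, hw.1, fun γ _ hγ H hH _ hY => ?_⟩
    have := RR_sound hw hγ hY
    rw [hD'] at this
    simp only [Nat.unpair_pair, not_exists] at this
    exact not_mem_Phi hH (thD_iff.1 this) hw'
  by_cases h2 : ∃ c q, Ref c0 c ∧ ¬ ∃ w, RR εE e c q w (seg (chi (jump ∅)) w)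
  · obtain ⟨c, q, hc, hq⟩ := h2
    refine ⟨c, hc, fun γ hγ2 hγ H _ _ hY => hq ?_⟩
    obtain ⟨v, hv⟩ := thE_exists q H
    exact RR_exists (v := v) hγ2 hγ hY (by rw [hE']; simpa using hv)
  obtain ⟨σ, hσ, hσ'⟩ := recIn_search_seg (p := chi (jump ∅))
    (R := fun z w τ => Ref c0 z.unpair.1 → RR εE e z.unpair.1 z.unpair.2 w τ)
    (pp_imp (pp_Ref (by fun_prop) (by fun_prop))
      (pp_RR hE e (by fun_prop) (by fun_prop) (by fun_prop) (by fun_prop)))
    (by
      intro z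
      by_cases hz : Ref c0 z.unpair.1
      · obtain ⟨w, hw⟩ := not_not.1 fun h => h2 ⟨_, z.unpair.2, hz, h⟩
        exact ⟨w, fun _ => hw⟩
      · exact ⟨0, fun h => absurd h hz⟩)
  let path : ℕ → ℕ := fun q => Nat.rec c0 (fun y ih => (σ (Nat.pair ih y)).unpair.1) q
  have hp : RecIn (chi (jump ∅)) path := by
    have a1 : RecIn (chi (jump ∅)) fun m =>
        (σ (Nat.pair m.unpair.2.unpair.2 m.unpair.2.unpair.1)).unpair.1 :=
      (RecIn.of_primrec (f := fun m => m.unpair.1) (by fun_prop)).comp (hσ.comp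
        (RecIn.of_primrec (f := fun m => Nat.pair m.unpair.2.unpair.2 m.unpair.2.unpair.1)
          (by fun_prop)))
    refine (((RecIn.of_primrec (Primrec.const c0)).prec a1).comp
      (RecIn.of_primrec (f := fun q => Nat.pair 0 q) (by fun_prop))).of_eq fun q => ?_
    simp [path]
  have hg : RecIn (chi (jump ∅)) fun q => (σ (Nat.pair (path q) q)).unpair.2 :=
    (RecIn.of_primrec (f := fun m => m.unpair.2) (by fun_prop)).comp
      (hσ.comp (hp.pair (RecIn.of_primrec Primrec.id)))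
  have hr : ∀ q, Ref c0 (path q) := by
    intro q
    induction q with
    | zero => exact Ref.refl _
    | succ q ih =>
      have := (hσ' (Nat.pair (path q) q) (by simpa using ih)).1
      rw [Nat.unpair_pair] at this
      exact ih.trans this
  have hR : ∀ q, RR εE e (path q) q (σ (Nat.pair (path q) q))
      (seg (chi (jump ∅)) (σ (Nat.pair (path q) q))) := fun q => by
    simpa using hσ' (Nat.pair (path q) q) (by simpa using hr q)
  have hmono : ∀ q d, Ref (path q) (path (q + d)) := by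
    intro q d
    induction d with
    | zero => exact Ref.refl _
    | succ d ih => exact ih.trans (hR (q + d)).1
  obtain ⟨i, hi⟩ := exists_app hg
  obtain ⟨M, hM⟩ := key hi sd n
  refine ⟨path M, hr M, fun γ hγ2 hγ H _ hsd hY => h1 ?_⟩
  obtain ⟨w, y, hw⟩ := hM H hsd fun q hq => by
    obtain ⟨d, rfl⟩ := Nat.exists_eq_add_of_lt hq
    have h3 : Ext (path (q + 1)) γ :=
      (hmono (q + 1) d).ext (by rwa [show q + 1 + d = q + d + 1 by ring])
    have := RR_sound (hR q) h3 hY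
    rw [hE'] at this
    simp only [Nat.unpair_pair, not_exists] at this
    exact thE_iff.1 this
  refine RR_exists (v := Nat.pair w y) hγ2 ((hr M).ext hγ) hY ?_
  rw [hD']
  simp only [Nat.unpair_pair, not_exists]
  exact thD_iff.2 (by simpa using hw)

theorem chi_lt (X : Set ℕ) (i : ℕ) : chi X i < 2 := by
  unfold chi
  split_ifs <;> norm_num

theorem nowhereDense (e sd : ℕ) : IsNowhereDense {G : ℕ → Bool | ∃ H : Set ℕ, H.Infinite ∧
    (∀ x ∈ H, ¬ (x ∈ AA ↔ ¬ sd = 0)) ∧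
      ∀ q, chi (jump H) q ∈ Phi (Jn (chi {m | G m = true}) (chi (jump ∅))) e q} := by
  rw [IsNowhereDense, Set.eq_empty_iff_forall_notMem]
  intro G0 h0
  obtain ⟨_, ⟨G1, m, rfl⟩, h1, h2⟩ :=
    (PiNat.isTopologicalBasis_cylinders fun _ : ℕ => Bool).exists_subset_of_mem_open h0
      isOpen_interior
  obtain ⟨u, -, hu⟩ := exists_bits _ (chi_lt {m | G0 m = true}) m
  obtain ⟨c, hc, hc'⟩ := exists_ref e sd (Nat.pair u m)
  let G2 : ℕ → Bool := fun i => decide (bt c.unpair.1 i = 1)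
  have h3 : G2 ∈ PiNat.cylinder G1 m := by
    rw [PiNat.mem_cylinder_iff] at h1 ⊢
    intro i hi
    have h4 := hc.2 i (by simpa using hi)
    simp only [Nat.unpair_pair] at h4
    rw [← h1 i hi]
    simp only [G2, h4, hu i hi, chi_eq_one]
    simp
  obtain ⟨G, h4, H, h5, h6, h7⟩ := mem_closure_iff.1 (interior_subset (h2 h3)) _
    (PiNat.isOpen_cylinder _ G2 c.unpair.2) (PiNat.self_mem_cylinder _ _)
  refine hc' _ (chi_lt _) (fun i hi => ?_) H h5 h6 h7
  have h8 := PiNat.mem_cylinder_iff.1 h4 i hi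
  have h9 := bt_lt c.unpair.1 i
  by_cases h : bt c.unpair.1 i = 1
  · rw [h, chi_eq_one]
    simp [h8, G2, h]
  · rw [show bt c.unpair.1 i = 0 by omega, chi_eq_zero]
    simp [h8, G2, h]

theorem meagre : IsMeagre {G : ℕ → Bool | ∃ H : Set ℕ, H.Infinite ∧ (H ⊆ AA ∨ H ⊆ AAᶜ) ∧
    RecursiveIn {fun n => Part.some (chi {m | G m = true} n), fun n => Part.some (chi (jump ∅) n)}
      fun n => Part.some (chi (jump H) n)} := by
  refine (isMeagre_iUnion fun a : ℕ × ℕ => (nowhereDense a.1 a.2).isMeagre).mono ?_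
  rintro G ⟨H, h1, h2, h3⟩
  obtain ⟨sd, hsd⟩ := exists_side h2
  have h4 : Nat.RecursiveIn {fun n => Part.some (Jn (chi {m | G m = true}) (chi (jump ∅)) n)}
      fun n => Part.some (chi (jump H) n) := by
    refine (RecursiveIn.iff_nat.1 h3).subst ?_
    rintro g (rfl | rfl)
    · exact (RecIn.oracle.comp (RecIn.of_primrec (f := fun n => n + n) (by fun_prop))).of_eq
        fun n => by
          rw [Jn, if_pos (by omega), show (n + n) / 2 = n by omega]
    · exact (RecIn.oracle.comp (RecIn.of_primrec (f := fun n => n + n + 1) (by fun_prop))).of_eq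
        fun n => by
          rw [Jn, if_neg (by omega), show (n + n + 1) / 2 = n by omega]
  obtain ⟨e, he⟩ := (turingReducible_iff_exists_Phi _ _).1 (RecursiveIn.iff_nat.2 h4)
  exact Set.mem_iUnion.2 ⟨(e, sd), H, h1, hsd, fun q => by rw [he]; simp⟩

end Pool.Agent.MP_ac9d16_lc

end
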