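import Mathlib
import Pool.Agent.Mg.F40fdec.G2d4a7b

set_option linter.all false

section

namespace Pool.Agent.MP_ac9d16_lc.D

open Filter Pool.Agent.MP_9a65c4_lc Pool.Agent.MP_40fdec_lc

/-- A node: depth, start, list of open ancestors. -/
def mk (d a : ℕ) (L : List ℕ) : ℕ := Nat.pair d (Nat.pair a (Encodable.encode L))

def dd (q : ℕ) : ℕ := q.unpair.1
def aa (q : ℕ) : ℕ := q.unpair.2.unpair.1
def LL (q : ℕ) : List ℕ := Denumerable.ofNat (List ℕ) q.unpair.2.unpair.2

@[simp] theorem dd_mk (d a : ℕ) (L : List ℕ) : dd (mk d a L) = d := by simp [dd, mk]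
@[simp] theorem aa_mk (d a : ℕ) (L : List ℕ) : aa (mk d a L) = a := by simp [aa, mk]
@[simp] theorem LL_mk (d a : ℕ) (L : List ℕ) : LL (mk d a L) = L := by simp [LL, mk]

/-- The requirement and the part of a node. -/
def ix (q : ℕ) : ℕ := (dd q).unpair.1
def jx (q : ℕ) : ℕ := (dd q).unpair.2.unpair.1
def side (i : ℕ) : ℕ := i.unpair.2.unpair.1

/-- The label of `x` for the requirement `i` and the part `j`. -/
def blk (i j x : ℕ) : ℕ :=
  (Denumerable.ofNat (List ℕ) (app i.unpair.2.unpair.2 i.unpair.2.unpair.2 x)).getD j 0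

def num (l : List ℕ) : ℕ := l.foldr (fun b a => a + a + b) 0

def nxt (x i : ℕ) (l : List ℕ) : ℕ :=
  num ((List.range i).map fun r => bt (blk r (l.getD r 0) x) i)

def PL (x : ℕ) : ℕ → List ℕ
  | 0 => []
  | i + 1 => PL x i ++ [nxt x i (PL x i)]

/-- The part of `x` in the partition of the requirement `i`. -/
def P (i x : ℕ) : ℕ := nxt x i (PL x i)

def val (q s : ℕ) : ℕ := if ∃ v ∈ LL q, ix v = ix q then 0 else app (ix q).unpair.1 q s

def cst (q b t : ℕ) : Prop := ∀ s < t + 1, b ≤ s → val q s = val q b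

instance (q b t : ℕ) : Decidable (cst q b t) := by unfold cst; infer_instance

def ls (q t : ℕ) : ℕ := (List.range t).findIdx fun b => decide (aa q ≤ b ∧ cst q b t)

def view (L : List ℕ) (x : ℕ) : ℕ := L.foldl (fun t q => ls q t) x

def tc (q b : ℕ) : ℕ := mk (dd q + 1) b (LL q)

def oc (q : ℕ) : ℕ := mk (dd q + 1) (aa q) (LL q ++ [q])

def step (T : ℕ → ℕ → Bool) (σ : ℕ × ℕ) : ℕ × ℕ :=
  if σ.2 ≤ dd σ.1 then σ else
    if T σ.1 (ls σ.1 σ.2) = true then (tc σ.1 (ls σ.1 σ.2), σ.2) else (oc σ.1, ls σ.1 σ.2)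

def root : ℕ := mk 0 0 []

def fin (T : ℕ → ℕ → Bool) (x : ℕ) : List ℕ := LL ((step T)^[x] (root, x)).1

def inA (F : List ℕ) (x : ℕ) : Prop :=
  ∃ v ∈ F, P (ix v) x = jx v ∧ (∀ v' ∈ F, ix v < ix v' → ¬ P (ix v') x = jx v') ∧
    ¬ side (ix v) = 0

def good (q c k x : ℕ) : Prop :=
  P (ix q) x = jx q ∧ aa q + dd q < view (LL q) x ∧ ls q (view (LL q) x) = c ∧ val q c < x ∧
    blk (ix q) (jx q) x = k

open Classical in
noncomputable def TT (q b : ℕ) : Bool := decide (∀ s, b ≤ s → val q s = val q b)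

theorem TT_iff {q b : ℕ} : TT q b = true ↔ ∀ s, b ≤ s → val q s = val q b := by
  simp [TT]

def AA : Set ℕ := {x | inA (fin TT x) x}

def edge (q : ℕ) (τ : List ℕ) (s : ℕ) : Prop :=
  ∃ c < s, ∀ k < 2 ^ (c + dd q + 1), ∃ x < s, τ.getD x 0 = 1 ∧ good q c k x

section prim
variable {α : Type*} [Primcodable α]

@[fun_prop] theorem pr_mk {d a : α → ℕ} {L : α → List ℕ} (hd : Primrec d) (ha : Primrec a)
    (hL : Primrec L) : Primrec fun z => mk (d z) (a z) (L z) := by
  unfold mk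
  fun_prop
@[fun_prop] theorem pr_dd {q : α → ℕ} (hq : Primrec q) : Primrec fun z => dd (q z) := by
  unfold dd
  fun_prop
@[fun_prop] theorem pr_aa {q : α → ℕ} (hq : Primrec q) : Primrec fun z => aa (q z) := by
  unfold aa
  fun_prop
@[fun_prop] theorem pr_LL {q : α → ℕ} (hq : Primrec q) : Primrec fun z => LL (q z) := by
  unfold LL
  fun_prop
@[fun_prop] theorem pr_ix {q : α → ℕ} (hq : Primrec q) : Primrec fun z => ix (q z) := by
  unfold ix
  fun_prop
@[fun_prop] theorem pr_jx {q : α → ℕ} (hq : Primrec q) : Primrec fun z => jx (q z) := by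
  unfold jx
  fun_prop
@[fun_prop] theorem pr_side {q : α → ℕ} (hq : Primrec q) : Primrec fun z => side (q z) := by
  unfold side
  fun_prop
@[fun_prop] theorem pr_blk {i j x : α → ℕ} (hi : Primrec i) (hj : Primrec j) (hx : Primrec x) :
    Primrec fun z => blk (i z) (j z) (x z) := by
  unfold blk
  fun_prop
@[fun_prop] theorem pr_num {l : α → List ℕ} (hl : Primrec l) : Primrec fun z => num (l z) :=
  Primrec.list_foldr (h := fun _ p => p.2 + p.2 + p.1) hl (Primrec.const 0)
    (show Primrec fun a : α × (ℕ × ℕ) => a.2.2 + a.2.2 + a.2.1 by fun_prop)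
@[fun_prop] theorem pr_nxt {x i : α → ℕ} {l : α → List ℕ} (hx : Primrec x) (hi : Primrec i)
    (hl : Primrec l) : Primrec fun z => nxt (x z) (i z) (l z) :=
  pr_num (pr_map (by fun_prop)
    (show Primrec fun a : α × ℕ => bt (blk a.2 ((l a.1).getD a.2 0) (x a.1)) (i a.1) by fun_prop))
@[fun_prop] theorem pr_PL {x i : α → ℕ} (hx : Primrec x) (hi : Primrec i) :
    Primrec fun z => PL (x z) (i z) := by
  have h : Primrec fun a : α × (ℕ × List ℕ) => a.2.2 ++ [nxt (x a.1) a.2.1 a.2.2] := by fun_prop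
  refine (Primrec.nat_rec' hi (Primrec.const []) h.to₂).of_eq fun z => ?_
  induction i z with
  | zero => rfl
  | succ m ih => simp only [PL, ← ih]
@[fun_prop] theorem pr_P {x i : α → ℕ} (hi : Primrec i) (hx : Primrec x) :
    Primrec fun z => P (i z) (x z) := by
  unfold P
  fun_prop
@[fun_prop] theorem pr_val {q s : α → ℕ} (hq : Primrec q) (hs : Primrec s) :
    Primrec fun z => val (q z) (s z) :=
  Primrec.ite (pp_ex_mem (R := fun z v => ix v = ix (q z)) (by fun_prop)
    (pp_eq (by fun_prop) (by fun_prop))) (by fun_prop) (by fun_prop)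
theorem pp_cst {q b t : α → ℕ} (hq : Primrec q) (hb : Primrec b) (ht : Primrec t) :
    PrimrecPred fun z => cst (q z) (b z) (t z) :=
  pp_all_lt (R := fun z s => b z ≤ s → val (q z) s = val (q z) (b z)) (by fun_prop)
    (pp_imp (pp_le (by fun_prop) (by fun_prop)) (pp_eq (by fun_prop) (by fun_prop)))
@[fun_prop] theorem pr_ls {q t : α → ℕ} (hq : Primrec q) (ht : Primrec t) :
    Primrec fun z => ls (q z) (t z) := by
  unfold ls
  refine Primrec.list_findIdx (by fun_prop) ?_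
  exact PrimrecPred.decide (p := fun a : α × ℕ => aa (q a.1) ≤ a.2 ∧ cst (q a.1) a.2 (t a.1))
    ((pp_le (by fun_prop) (by fun_prop)).and (pp_cst (by fun_prop) (by fun_prop) (by fun_prop)))
@[fun_prop] theorem pr_view {L : α → List ℕ} {x : α → ℕ} (hL : Primrec L) (hx : Primrec x) :
    Primrec fun z => view (L z) (x z) :=
  Primrec.list_foldl (h := fun _ p => ls p.2 p.1) hL hx
    (show Primrec fun a : α × (ℕ × ℕ) => ls a.2.2 a.2.1 by fun_prop)
@[fun_prop] theorem pr_tc {q b : α → ℕ} (hq : Primrec q) (hb : Primrec b) :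
    Primrec fun z => tc (q z) (b z) := by
  unfold tc
  fun_prop
@[fun_prop] theorem pr_oc {q : α → ℕ} (hq : Primrec q) : Primrec fun z => oc (q z) := by
  unfold oc
  fun_prop
theorem pp_inA {F : α → List ℕ} {x : α → ℕ} (hF : Primrec F) (hx : Primrec x) :
    PrimrecPred fun z => inA (F z) (x z) :=
  pp_ex_mem (R := fun z v => P (ix v) (x z) = jx v ∧
      (∀ v' ∈ F z, ix v < ix v' → ¬ P (ix v') (x z) = jx v') ∧ ¬ side (ix v) = 0) hF
    ((pp_eq (by fun_prop) (by fun_prop)).and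
      ((pp_all_mem (R := fun (z : α × ℕ) v' => ix z.2 < ix v' → ¬ P (ix v') (x z.1) = jx v')
        (by fun_prop) (pp_imp (pp_lt (by fun_prop) (by fun_prop))
          (pp_eq (by fun_prop) (by fun_prop)).not)).and
      (pp_eq (by fun_prop) (by fun_prop)).not))
theorem pp_good {q c k x : α → ℕ} (hq : Primrec q) (hc : Primrec c) (hk : Primrec k)
    (hx : Primrec x) : PrimrecPred fun z => good (q z) (c z) (k z) (x z) :=
  (pp_eq (by fun_prop) (by fun_prop)).and ((pp_lt (by fun_prop) (by fun_prop)).and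
    ((pp_eq (by fun_prop) hc).and ((pp_lt (by fun_prop) hx).and (pp_eq (by fun_prop) hk))))
theorem pp_edge {q s : α → ℕ} {τ : α → List ℕ} (hq : Primrec q)
    (hτ : Primrec τ) (hs : Primrec s) : PrimrecPred fun z => edge (q z) (τ z) (s z) :=
  pp_ex_lt (R := fun z c => ∀ k < 2 ^ (c + dd (q z) + 1), ∃ x < s z,
      (τ z).getD x 0 = 1 ∧ good (q z) c k x) hs
    (pp_all_lt (R := fun (z : α × ℕ) k => ∃ x < s z.1, (τ z.1).getD x 0 = 1 ∧ good (q z.1) z.2 k x)
      (by fun_prop)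
      (pp_ex_lt (R := fun (z : (α × ℕ) × ℕ) x =>
          (τ z.1.1).getD x 0 = 1 ∧ good (q z.1.1) z.1.2 z.2 x) (by fun_prop)
        ((pp_eq (by fun_prop) (by fun_prop)).and
          (pp_good (by fun_prop) (by fun_prop) (by fun_prop) (by fun_prop)))))

end prim

def Ts (s q b : ℕ) : Bool := decide (cst q b s)

theorem Ts_lim (q b : ℕ) : ∀ᶠ s in atTop, Ts s q b = TT q b := by
  by_cases h : ∀ s, b ≤ s → val q s = val q b
  · refine Eventually.of_forall fun s => ?_
    rw [TT_iff.2 h]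
    exact decide_eq_true fun s' _ hs' => h s' hs'
  · rw [show TT q b = false from Bool.eq_false_iff.2 fun h' => h (TT_iff.1 h')]
    push Not at h
    obtain ⟨s', h1, h2⟩ := h
    filter_upwards [eventually_ge_atTop s'] with s hs
    exact decide_eq_false fun h3 => h2 (h3 s' (by omega) h1)

theorem iterate_lim (m : ℕ) (σ : ℕ × ℕ) :
    ∀ᶠ s in atTop, (step (Ts s))^[m] σ = (step TT)^[m] σ := by
  induction m with
  | zero => simp
  | succ m ih =>
    filter_upwards [ih, Ts_lim ((step TT)^[m] σ).1 (ls ((step TT)^[m] σ).1 ((step TT)^[m] σ).2)]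
      with s h1 h2
    rw [Function.iterate_succ_apply', Function.iterate_succ_apply', h1]
    generalize (step TT)^[m] σ = ρ at h2
    unfold step
    rw [h2]

theorem computes_AA : RecIn (chi (jump ∅)) (chi AA) := by
  classical
  have h1 : Primrec fun p : (ℕ × ℕ) × (ℕ × ℕ) => step (Ts p.1.2) p.2 := by
    unfold step
    refine Primrec.ite (pp_le (by fun_prop) (by fun_prop)) (by fun_prop)
      (Primrec.ite (pp_eq ?_ (by fun_prop)) (by fun_prop) (by fun_prop))
    exact PrimrecPred.decide (pp_cst (by fun_prop) (by fun_prop) (by fun_prop))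
  have h2 : Primrec fun p : ℕ × ℕ => fin (Ts p.2) p.1 :=
    pr_LL (Primrec.fst.comp (Primrec.nat_iterate (h := fun (p : ℕ × ℕ) σ => step (Ts p.2) σ)
      Primrec.fst (by fun_prop) h1.to₂))
  refine recIn_of_limit (a := fun x s => if inA (fin (Ts s) x) x then 1 else 0)
    (Primrec.ite (pp_inA h2 Primrec.fst) (by fun_prop) (by fun_prop)) fun x => ?_
  filter_upwards [iterate_lim x (root, x)] with s hs
  have : fin (Ts s) x = fin TT x := by
    unfold fin
    rw [hs]
  rw [this]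
  by_cases h : inA (fin TT x) x
  · rw [if_pos h, eq_comm, chi_eq_one]
    exact h
  · rw [if_neg h, eq_comm, chi_eq_zero]
    exact h

theorem num_lt {l : List ℕ} (h : ∀ b ∈ l, b < 2) : num l < 2 ^ l.length := by
  induction l with
  | nil => simp [num]
  | cons b l ih =>
    have h1 := ih fun c hc => h c (List.mem_cons_of_mem _ hc)
    have h2 := h b List.mem_cons_self
    have h3 : num (b :: l) = num l + num l + b := rfl
    rw [h3, List.length_cons, pow_succ]
    omega

theorem bt_num {l : List ℕ} (h : ∀ b ∈ l, b < 2) (r : ℕ) : bt (num l) r = l.getD r 0 := by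
  induction l generalizing r with
  | nil => simp [num, bt]
  | cons b l ih =>
    have h2 := h b List.mem_cons_self
    have h3 : num (b :: l) = num l + num l + b := rfl
    rw [h3]
    cases r with
    | zero =>
      simp only [bt, pow_zero, Nat.div_one, List.getD_cons_zero]
      omega
    | succ r =>
      rw [List.getD_cons_succ, ← ih fun c hc => h c (List.mem_cons_of_mem _ hc)]
      unfold bt
      rw [pow_succ', ← Nat.div_div_eq_div_mul, show (num l + num l + b) / 2 = num l by omega]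

theorem PL_eq (x i : ℕ) : PL x i = (List.range i).map fun r => P r x := by
  induction i with
  | zero => rfl
  | succ i ih => rw [List.range_succ, List.map_append, ← ih]; rfl

theorem map_bt_lt (l : List ℕ) (f : ℕ → ℕ) (i : ℕ) : ∀ b ∈ l.map fun r => bt (f r) i, b < 2 := by
  intro b hb
  obtain ⟨r, -, rfl⟩ := List.mem_map.1 hb
  exact bt_lt _ _

theorem P_lt (i x : ℕ) : P i x < 2 ^ i := by
  simpa [P, nxt] using num_lt (map_bt_lt (List.range i) (fun r => blk r ((PL x i).getD r 0) x) i)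

theorem bt_P {i r : ℕ} (x : ℕ) (h : r < i) : bt (P i x) r = bt (blk r (P r x) x) i := by
  rw [P, nxt, bt_num (map_bt_lt _ _ _), PL_eq]
  simp [h]

end Pool.Agent.MP_ac9d16_lc.D

end

section

namespace Pool.Agent.MP_ac9d16_lc.D

open Filter Pool.Agent.MP_9a65c4_lc Pool.Agent.MP_40fdec_lc

theorem ls_le (q t : ℕ) : ls q t ≤ t := by
  have := List.findIdx_le_length (p := fun b => decide (aa q ≤ b ∧ cst q b t)) (xs := List.range t)
  simpa [ls] using this

theorem ls_spec {q t : ℕ} (h : ls q t < t) : aa q ≤ ls q t ∧ cst q (ls q t) t := by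
  have h' : (List.range t).findIdx (fun b => decide (aa q ≤ b ∧ cst q b t)) <
      (List.range t).length := by simpa [ls] using h
  have := List.findIdx_getElem (w := h')
  rw [List.getElem_range] at this
  exact of_decide_eq_true this

theorem ls_min {q t b : ℕ} (h : b < ls q t) : ¬ (aa q ≤ b ∧ cst q b t) := by
  have := List.not_of_lt_findIdx (p := fun b => decide (aa q ≤ b ∧ cst q b t))
    (xs := List.range t) h
  rw [List.getElem_range] at this
  exact of_decide_eq_false this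

theorem ls_eq {q t b : ℕ} (h1 : aa q ≤ b) (h2 : TT q b = true)
    (h3 : ∀ b' < b, ¬ (aa q ≤ b' ∧ TT q b' = true)) (ht : b ≤ t) : ls q t = b := by
  rw [TT_iff] at h2
  rcases lt_trichotomy (ls q t) b with h | h | h
  · obtain ⟨h4, h5⟩ := ls_spec (lt_of_lt_of_le h ht)
    refine absurd ⟨h4, TT_iff.2 fun s hs => ?_⟩ (h3 _ h)
    by_cases hs' : s ≤ t
    · exact h5 s (by omega) hs
    · exact (h2 s (by omega)).trans (h5 b (by omega) h.le)
  · exact h
  · exact absurd ⟨h1, fun s _ hs => h2 s hs⟩ (ls_min h)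

theorem ls_tendsto {q : ℕ} (h : ¬ ∃ b, aa q ≤ b ∧ TT q b = true) :
    Tendsto (ls q) atTop atTop := by
  refine tendsto_atTop.2 fun B => ?_
  have h1 : ∀ᶠ t in atTop, ∀ b ∈ Finset.range B, ¬ (aa q ≤ b ∧ cst q b t) := by
    refine (eventually_all_finset _).2 fun b _ => ?_
    by_cases hb : aa q ≤ b
    · have h2 : TT q b = false := Bool.eq_false_iff.2 fun h' => h ⟨b, hb, h'⟩
      filter_upwards [Ts_lim q b] with t ht
      rw [h2] at ht
      exact fun h3 => of_decide_eq_false ht h3.2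
    · exact Eventually.of_forall fun t h3 => hb h3.1
  filter_upwards [h1, eventually_ge_atTop B] with t ht hB
  by_contra h2
  exact ht _ (Finset.mem_range.2 (by omega)) (ls_spec (by omega))

theorem ls_mono (q : ℕ) : Monotone (ls q) := by
  intro t t' h
  by_contra h1
  have h2 := ls_le q t
  obtain ⟨h3, h4⟩ := ls_spec (q := q) (t := t') (by omega)
  exact ls_min (not_le.1 h1) ⟨h3, fun s hs => h4 s (by omega)⟩

theorem view_concat (L : List ℕ) (q x : ℕ) : view (L ++ [q]) x = ls q (view L x) := by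
  simp [view]

theorem view_mono (L : List ℕ) : Monotone (view L) := by
  induction L using List.reverseRecOn with
  | nil => exact monotone_id
  | append_singleton L q ih =>
    intro x y h
    rw [view_concat, view_concat]
    exact ls_mono q (ih h)

theorem exists_least {q : ℕ} (h : ∃ b, aa q ≤ b ∧ TT q b = true) :
    ∃ b, aa q ≤ b ∧ TT q b = true ∧ ∀ b' < b, ¬ (aa q ≤ b' ∧ TT q b' = true) :=
  ⟨Nat.find h, (Nat.find_spec h).1, (Nat.find_spec h).2, fun _ hb => Nat.find_min h hb⟩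

theorem step_stop {T : ℕ → ℕ → Bool} {σ : ℕ × ℕ} (h : σ.2 ≤ dd σ.1) : step T σ = σ := if_pos h

theorem step_go {T : ℕ → ℕ → Bool} {σ : ℕ × ℕ} (h : ¬ σ.2 ≤ dd σ.1) :
    dd (step T σ).1 = dd σ.1 + 1 ∧ (step T σ).2 ≤ σ.2 ∧ (LL (step T σ).1 = LL σ.1 ∨
      (LL (step T σ).1 = LL σ.1 ++ [σ.1] ∧ ∃ b, ¬ T σ.1 b = true)) := by
  unfold step
  rw [if_neg h]
  split_ifs with h1
  · exact ⟨by simp [tc], le_rfl, Or.inl (by simp [tc])⟩
  · exact ⟨by simp [oc], ls_le _ _, Or.inr ⟨by simp [oc], _, h1⟩⟩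

theorem iter_stop {T : ℕ → ℕ → Bool} (N : ℕ) : ∀ {σ : ℕ × ℕ}, σ.2 ≤ dd σ.1 + N →
    step T ((step T)^[N] σ) = (step T)^[N] σ := by
  induction N with
  | zero => exact fun h => step_stop h
  | succ N ih =>
    intro σ h
    by_cases h1 : σ.2 ≤ dd σ.1
    · rw [Function.iterate_fixed (step_stop h1), step_stop h1]
    · obtain ⟨h3, h4, -⟩ := step_go (T := T) h1
      rw [Function.iterate_succ_apply]
      exact ih (by omega)

theorem iter_add {T : ℕ → ℕ → Bool} {σ : ℕ × ℕ} {N : ℕ} (h : σ.2 ≤ N) (m : ℕ) :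
    (step T)^[m + N] σ = (step T)^[N] σ := by
  rw [Function.iterate_add_apply, Function.iterate_fixed (iter_stop N (by omega))]

/-- Open nodes belong to different requirements and have small depth. -/
def Dist (L : List ℕ) (B : ℕ) : Prop :=
  (∀ v ∈ L, ∀ v' ∈ L, ix v = ix v' → v = v') ∧ ∀ v ∈ L, dd v < B

theorem dist_concat {q b B : ℕ} (h : Dist (LL q) B) (h1 : ¬ TT q b = true) (h2 : dd q < B) :
    Dist (LL q ++ [q]) B := by
  have h3 : ∀ v ∈ LL q, ¬ ix v = ix q := fun v hv h4 =>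
    h1 (TT_iff.2 fun s _ => by rw [val, val, if_pos ⟨v, hv, h4⟩, if_pos ⟨v, hv, h4⟩])
  simp only [Dist, List.mem_append, List.mem_singleton]
  refine ⟨?_, ?_⟩
  · rintro v (hv | rfl) v' (hv' | rfl) h4
    · exact h.1 v hv v' hv' h4
    · exact absurd h4 (h3 v hv)
    · exact absurd h4.symm (h3 v' hv')
    · rfl
  · rintro v (hv | rfl)
    · exact h.2 v hv
    · exact h2

theorem iter_ext {B : ℕ} (N : ℕ) : ∀ σ : ℕ × ℕ, Dist (LL σ.1) B → σ.2 ≤ B →
    Dist (LL ((step TT)^[N] σ).1) B ∧ ∀ v ∈ LL σ.1, v ∈ LL ((step TT)^[N] σ).1 := by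
  induction N with
  | zero => exact fun _ h _ => ⟨h, fun _ h => h⟩
  | succ N ih =>
    intro σ h hB
    by_cases h1 : σ.2 ≤ dd σ.1
    · rw [Function.iterate_fixed (step_stop h1)]
      exact ⟨h, fun _ h => h⟩
    · obtain ⟨-, h4, h5⟩ := step_go (T := TT) h1
      rw [Function.iterate_succ_apply]
      rcases h5 with h5 | ⟨h5, b, hb⟩
      · have := ih (step TT σ) (h5 ▸ h) (h4.trans hB)
        rwa [h5] at this
      · have := ih (step TT σ) (h5 ▸ dist_concat h hb (by omega)) (h4.trans hB)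
        rw [h5] at this
        exact ⟨this.1, fun v hv => this.2 v (List.mem_append_left _ hv)⟩

/-- The properties of the nodes on the true path. -/
structure OnP (q : ℕ) : Prop where
  dist : Dist (LL q) (dd q)
  opn : ∀ v ∈ LL q, ¬ ∃ b, aa v ≤ b ∧ TT v b = true
  lim : Tendsto (view (LL q)) atTop atTop
  run : ∀ x, aa q ≤ view (LL q) x → dd q < view (LL q) x →
    ∃ m, (step TT)^[m] (root, x) = (q, view (LL q) x)

theorem onP_root : OnP root :=
  ⟨by simp [root, Dist], by simp [root], by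
    rw [root, LL_mk]
    exact tendsto_id, fun x _ _ => ⟨0, by simp [root, view]⟩⟩

theorem Dist.mono {L : List ℕ} {B B' : ℕ} (h : Dist L B) (hB : B ≤ B') : Dist L B' :=
  ⟨h.1, fun v hv => lt_of_lt_of_le (h.2 v hv) hB⟩

theorem onP_tc {q b : ℕ} (h : OnP q) (h1 : aa q ≤ b) (h2 : TT q b = true)
    (h3 : ∀ b' < b, ¬ (aa q ≤ b' ∧ TT q b' = true)) : OnP (tc q b) := by
  have e1 : LL (tc q b) = LL q := by simp [tc]
  have e2 : aa (tc q b) = b := by simp [tc]
  have e3 : dd (tc q b) = dd q + 1 := by simp [tc]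
  refine ⟨by rw [e1, e3]; exact h.dist.mono (by omega), e1 ▸ h.opn, e1 ▸ h.lim,
    fun x hx hx' => ?_⟩
  rw [e1] at hx hx' ⊢
  rw [e2] at hx
  rw [e3] at hx'
  obtain ⟨m, hm⟩ := h.run x (by omega) (by omega)
  refine ⟨m + 1, ?_⟩
  rw [Function.iterate_succ_apply', hm]
  unfold step
  rw [if_neg (by simp only; omega)]
  simp only [ls_eq h1 h2 h3 hx, h2, if_true]

theorem onP_oc {q : ℕ} (h : OnP q) (h1 : ¬ ∃ b, aa q ≤ b ∧ TT q b = true) : OnP (oc q) := by
  have e1 : LL (oc q) = LL q ++ [q] := by simp [oc]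
  have e2 : aa (oc q) = aa q := by simp [oc]
  have e3 : dd (oc q) = dd q + 1 := by simp [oc]
  have hL : view (LL (oc q)) = fun x => ls q (view (LL q) x) := by
    funext x
    rw [e1, view_concat]
  refine ⟨?_, ?_, hL ▸ (ls_tendsto h1).comp h.lim, fun x hx hx' => ?_⟩
  · rw [e1, e3]
    exact dist_concat (h.dist.mono (by omega)) (fun h2 => h1 ⟨_, le_rfl, h2⟩) (by omega)
  · rw [e1]
    intro v hv
    rcases List.mem_append.1 hv with hv | hv
    · exact h.opn v hv
    · rwa [List.mem_singleton.1 hv]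
  simp only [hL] at hx hx' ⊢
  have h3 := ls_le q (view (LL q) x)
  obtain ⟨m, hm⟩ := h.run x (by omega) (by omega)
  refine ⟨m + 1, ?_⟩
  rw [Function.iterate_succ_apply', hm]
  unfold step
  rw [if_neg (by simp only; omega), if_neg fun h5 => h1 ⟨_, e2 ▸ hx, h5⟩]

theorem exists_depth (d : ℕ) : ∃ q, OnP q ∧ dd q = d := by
  induction d with
  | zero => exact ⟨root, onP_root, by simp [root]⟩
  | succ d ih =>
    obtain ⟨q, h1, h2⟩ := ih
    by_cases h : ∃ b, aa q ≤ b ∧ TT q b = true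
    · obtain ⟨b, b1, b2, b3⟩ := exists_least h
      exact ⟨_, onP_tc h1 b1 b2 b3, by simp [tc, h2]⟩
    · exact ⟨_, onP_oc h1 h, by simp [oc, h2]⟩

theorem fin_eq {q c k x : ℕ} (h : OnP q) (hc : TT q c = false) (hx : good q c k x) :
    fin TT x = LL ((step TT)^[c] (oc q, c)).1 := by
  obtain ⟨-, g2, g4, -⟩ := hx
  obtain ⟨m, hm⟩ := h.run x (by omega) (by omega)
  have h1 : (step TT)^[m + 1] (root, x) = (oc q, c) := by
    rw [Function.iterate_succ_apply', hm]
    unfold step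
    rw [if_neg (by simp only; omega)]
    simp [g4, hc]
  unfold fin
  rw [← iter_add (σ := (root, x)) le_rfl (c + (m + 1)),
    show c + (m + 1) + x = x + c + (m + 1) by ring, Function.iterate_add_apply, h1,
    iter_add (σ := (oc q, c)) le_rfl]

/-- An edge below a false life meets the required side. -/
theorem hit {q c : ℕ} {H : Set ℕ} (h : OnP q) (hc : TT q c = false)
    (hE : ∀ k < 2 ^ (c + dd q + 1), ∃ x ∈ H, good q c k x) :
    ∃ x ∈ H, (x ∈ AA ↔ ¬ side (ix q) = 0) := by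
  classical
  have e1 : LL (oc q) = LL q ++ [q] := by simp [oc]
  obtain ⟨h1, h2⟩ := iter_ext (B := c + dd q + 1) c (oc q, c)
    (e1 ▸ dist_concat (b := c) (h.dist.mono (by omega)) (by simp [hc]) (by omega)) (by simp; omega)
  have h3 := h2 q (by simp [e1])
  have h4 : ∀ x k, good q c k x → fin TT x = _ := fun x k => fin_eq h hc
  generalize LL ((step TT)^[c] (oc q, c)).1 = F at h1 h3 h4
  obtain ⟨k, hk, hk'⟩ := exists_bits (fun i => if h : ∃ v ∈ F, ix v = i then
    1 - bt (jx h.choose) (ix q) else 0) (fun r => by split_ifs <;> omega) (c + dd q + 1)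
  obtain ⟨x, hx, hg⟩ := hE k hk
  refine ⟨x, hx, ?_⟩
  change inA (fin TT x) x ↔ _
  rw [h4 x k hg]
  obtain ⟨g1, -, -, -, g5⟩ := hg
  have h5 : ∀ v ∈ F, ix q < ix v → ¬ P (ix v) x = jx v := by
    intro v hv h6 h7
    have h8 : ∃ v' ∈ F, ix v' = ix v := ⟨v, hv, rfl⟩
    have h9 := hk' (ix v) (lt_of_le_of_lt (Nat.unpair_left_le _) (h1.2 v hv))
    rw [dif_pos h8, h1.1 _ h8.choose_spec.1 v hv h8.choose_spec.2, ← g5, ← g1, ← bt_P x h6,
      h7] at h9
    have := bt_lt (jx v) (ix q)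
    omega
  constructor
  · rintro ⟨v, r1, r2, r3, r4⟩
    rcases lt_trichotomy (ix v) (ix q) with h6 | h6 | h6
    · exact absurd g1 (r3 q h3 h6)
    · rwa [h6] at r4
    · exact absurd r2 (h5 v r1 h6)
  · exact fun h6 => ⟨q, h3, g1, h5, h6⟩

theorem ls_view_const {q : ℕ} (h : ∃ b, aa q ≤ b ∧ TT q b = true) :
    ∃ c, ∀ᶠ x in atTop, ls q (view (LL q) x) = c := by
  obtain ⟨b, b1, b2, b3⟩ := exists_least h
  have h1 : Monotone fun x => ls q (view (LL q) x) := (ls_mono q).comp (view_mono _)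
  have h2 : ∀ x, ls q (view (LL q) x) ≤ b := fun x =>
    (ls_mono q (le_max_left _ b)).trans (ls_eq b1 b2 b3 (le_max_right _ _)).le
  have h3 : (Set.range fun x => ls q (view (LL q) x)).Finite :=
    (Set.finite_Iic b).subset (by rintro _ ⟨x, rfl⟩; exact h2 x)
  obtain ⟨_, ⟨y, rfl⟩, hy⟩ := h3.exists_maximal (Set.range_nonempty _)
  exact ⟨_, (eventually_ge_atTop y).mono fun x hx => le_antisymm (hy ⟨x, rfl⟩ (h1 hx)) (h1 hx)⟩

theorem exists_rich {H : Set ℕ} {i : ℕ}
    (h : ∀ w y, ∃ x ∈ H, y ≤ x ∧ app i.unpair.2.unpair.2 i.unpair.2.unpair.2 x = w) :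
    ∃ j, ∀ k y, ∃ x ∈ H, y ≤ x ∧ P i x = j ∧ blk i j x = k := by
  by_contra h1
  push Not at h1
  choose K Y hK using h1
  obtain ⟨x, x1, x2, x3⟩ := h (Encodable.encode ((List.range (2 ^ i)).map K))
    ((Finset.range (2 ^ i)).sup Y)
  refine hK (P i x) x x1 ((Finset.le_sup (Finset.mem_range.2 (P_lt i x))).trans x2) rfl ?_
  rw [blk, x3]
  simp [P_lt]

/-- The first place where the view is large. -/
theorem exists_start : ∃ t, RecIn (chi (jump ∅)) t ∧
    ∀ q, (∃ x, aa q + dd q < view (LL q) x) → aa q + dd q < view (LL q) (t q) := by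
  obtain ⟨t, h1, h2⟩ := search_neg (X := ∅)
    (Θ := fun q w τ => aa q + dd q < view (LL q) τ.length ∧ ¬ aa q + dd q < view (LL q) w)
    ((pp_lt (by fun_prop) (by fun_prop)).and (pp_lt (by fun_prop) (by fun_prop)).not) (by
      intro q
      by_cases h : ∃ x, aa q + dd q < view (LL q) x
      · obtain ⟨x, hx⟩ := h
        exact ⟨x, fun k h1 => h1.2 hx⟩
      · exact ⟨0, fun k h1 => h ⟨_, h1.1⟩⟩)
  refine ⟨t, h1, fun q ⟨x, hx⟩ => not_not.1 fun h3 => h2 q x ⟨by rwa [seg_length], h3⟩⟩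

theorem dnc_or_escape {H : Set ℕ} (hH : H.Infinite) (h : H ⊆ AA ∨ H ⊆ AAᶜ) :
    (∃ f, RecIn (chi (jump H)) f ∧ ∀ e, f e ∉ Phi (chi (jump ∅)) e e) ∨
      ∀ g, RecIn (chi (jump ∅)) g → ∃ f, RecIn (chi H) f ∧ ∃ᶠ n in atTop, g n < f n := by
  rw [or_iff_not_imp_left]
  intro hno g hg
  by_contra hd
  push Not at hd
  obtain ⟨sd, hsd⟩ : ∃ sd : ℕ, ∀ x ∈ H, ¬ (x ∈ AA ↔ ¬ sd = 0) := by
    rcases h with h | h
    · exact ⟨0, fun x hx h' => h'.1 (h hx) rfl⟩
    · exact ⟨1, fun x hx h' => h hx (h'.2 one_ne_zero)⟩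
  obtain ⟨n, hn⟩ : ∃ n, ∀ w y, ∃ x ∈ H, y ≤ x ∧ app n n x = w := by
    by_contra h1
    push Not at h1
    obtain ⟨f, hf, hf'⟩ := search_neg pp_thD (X := H) fun n => by
      obtain ⟨w, y, hw⟩ := h1 n
      exact ⟨Nat.pair w y, thD_iff.2 (by simpa using hw)⟩
    exact hno ⟨fun n => (f n).unpair.1,
      (RecIn.of_primrec (f := fun z => z.unpair.1) (by fun_prop)).comp hf,
      fun n => not_mem_Phi hH (thD_iff.1 (hf' n))⟩
  obtain ⟨t, ht, ht'⟩ := exists_start
  obtain ⟨γ, hγ⟩ := exists_app (hg.comp ((RecIn.of_primrec Primrec.id).pair ht))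
  obtain ⟨i, hi⟩ : ∃ i, i = Nat.pair γ (Nat.pair sd n) := ⟨_, rfl⟩
  obtain ⟨j, hj⟩ := exists_rich (H := H) (i := i) (by simpa [hi] using hn)
  have hv : ∀ q, ix q = i → ∃ v, ∀ᶠ s in atTop, val q s = v := by
    intro q hq
    by_cases h1 : ∃ v ∈ LL q, ix v = ix q
    · exact ⟨0, Eventually.of_forall fun s => if_pos h1⟩
    · exact ⟨_, (hγ q).mono fun s hs => by rw [val, if_neg h1, hq, hi, Nat.unpair_pair, hs]⟩
  have hT : ∀ q, ix q = i → ∃ b, aa q ≤ b ∧ TT q b = true := by
    intro q hq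
    obtain ⟨v, hv⟩ := hv q hq
    obtain ⟨b, hb⟩ := eventually_atTop.1 hv
    exact ⟨max b (aa q), le_max_right _ _, TT_iff.2 fun s hs =>
      (hb s ((le_max_left _ _).trans hs)).trans (hb _ (le_max_left _ _)).symm⟩
  obtain ⟨f, hf, hf'⟩ := recIn_search_seg (p := chi H)
    (R := fun z w τ => ix z.unpair.1 = i → jx z.unpair.1 = j →
      aa z.unpair.1 + dd z.unpair.1 < view (LL z.unpair.1) z.unpair.2 → edge z.unpair.1 τ w)
    (pp_imp (pp_eq (by fun_prop) (by fun_prop)) (pp_imp (pp_eq (by fun_prop) (by fun_prop))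
      (pp_imp (pp_lt (by fun_prop) (by fun_prop))
        (pp_edge (by fun_prop) (by fun_prop) (by fun_prop))))) (by
      intro z
      generalize z.unpair.1 = q
      by_cases h1 : ix q = i
      · obtain ⟨c, hc⟩ := ls_view_const (hT q h1)
        obtain ⟨y, hy⟩ := eventually_atTop.1 hc
        choose X x1 x2 x3 x4 using fun k => hj k (y + z.unpair.2 + val q c + 1)
        refine ⟨(Finset.range (2 ^ (c + dd q + 1))).sup X + c + 1, fun _ h2 h3 =>
          ⟨c, by omega, fun k hk => ?_⟩⟩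
        have h4 : X k < (Finset.range (2 ^ (c + dd q + 1))).sup X + c + 1 := by
          have := Finset.le_sup (f := X) (Finset.mem_range.2 hk)
          omega
        have h5 := x2 k
        exact ⟨X k, h4, by rw [seg_getD h4, chi_eq_one]; exact x1 k, by rw [h1, h2, x3],
          lt_of_lt_of_le h3 (view_mono _ (by omega)), hy _ (by omega), by omega,
          by rw [h1, h2, x4]⟩
      · exact ⟨0, fun h2 => absurd h2 h1⟩)
  obtain ⟨m, hm⟩ := eventually_atTop.1 (hd f hf)
  obtain ⟨q, hq, hq'⟩ := exists_depth (Nat.pair i (Nat.pair j m))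
  have e1 : ix q = i := by simp [ix, hq']
  have e2 : jx q = j := by simp [jx, hq']
  have h1 := hm (Nat.pair q (t q)) (by
    have a1 : dd q ≤ q := Nat.unpair_left_le _
    have a2 := Nat.left_le_pair q (t q)
    have a3 := Nat.right_le_pair i (Nat.pair j m)
    have a4 := Nat.right_le_pair j m
    omega)
  have h2 := hf' (Nat.pair q (t q))
  simp only [Nat.unpair_pair] at h2
  obtain ⟨c, -, hc⟩ := h2 e1 e2 (ht' q (hq.lim.eventually_gt_atTop _).exists)
  have h3 : TT q c = false := by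
    refine Bool.eq_false_iff.2 fun h4 => ?_
    obtain ⟨x, hx, -, -, -, -, g4, -⟩ := hc 0 (by positivity)
    obtain ⟨s, s1, s2⟩ := ((hγ q).and (eventually_ge_atTop c)).exists
    rw [← TT_iff.1 h4 s s2, val, if_neg fun ⟨v, v1, v2⟩ => hq.opn v v1 (hT v (v2.trans e1)), e1,
      hi, Nat.unpair_pair, s1] at g4
    simp only [id] at g4
    omega
  obtain ⟨x, x1, x2⟩ := hit (H := H) hq h3 fun k hk => by
    obtain ⟨x, x1, x2, x3⟩ := hc k hk
    exact ⟨x, by rwa [seg_getD x1, chi_eq_one] at x2, x3⟩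
  refine hsd x x1 ?_
  simpa [e1, hi, side] using x2

end Pool.Agent.MP_ac9d16_lc.D

end
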