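import Mathlib
import Pool.Agent.Mg.F40fdec.G5d153e

set_option linter.all false

section

namespace Pool.Agent.MP_ac9d16_lc.D

open Nat.Partrec (Code)
open Filter Pool.Agent.MP_9a65c4_lc Pool.Agent.MP_40fdec_lc

theorem rtrans {p q f : ℕ → ℕ} (h1 : RecIn p q) (h2 : RecIn q f) : RecIn p f :=
  Nat.RecursiveIn.subst h2 (by rintro g rfl; exact h1)

theorem rseg {p a : ℕ → ℕ} (ha : RecIn p a) {H : ℕ → List ℕ → ℕ}
    (hH : Primrec fun z : ℕ × List ℕ => H z.1 z.2) {b : ℕ → ℕ} (hb : Primrec b) :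
    RecIn p fun m => H m (seg a (b m)) :=
  rtrans ha (recursiveIn_of_tf (tf_bounded hH.to_comp hb.to_comp) a)

theorem rmap {p f g : ℕ → ℕ} (hf : RecIn p f) (hg : RecIn p g) {h : ℕ → ℕ → ℕ}
    (hh : Primrec fun z : ℕ × ℕ => h z.1 z.2) : RecIn p fun m => h (f m) (g m) :=
  ((RecIn.of_primrec (hh.comp Primrec.unpair)).comp (hf.pair hg)).of_eq fun m => by simp

/-- The parameter theorem. -/
theorem exists_param {F : (ℕ → ℕ) → ℕ →. ℕ} (hF : TuringFunctional F) :
    ∃ n : ℕ → ℕ, Primrec n ∧ ∀ p z y, Phi p (n z) y = F p (Nat.pair z y) := by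
  obtain ⟨G, hG⟩ := exists_approx hF
  have h1 : Partrec fun m : ℕ => G (Denumerable.ofNat (List ℕ) m.unpair.2.unpair.2)
      (Nat.pair m.unpair.1 m.unpair.2.unpair.1) :=
    hG.part.comp (Primrec.to_comp (by fun_prop)) (Primrec.to_comp (by fun_prop))
  obtain ⟨c, hc⟩ := Code.exists_code.1 (Partrec.nat_iff.1 h1)
  refine ⟨fun z => Encodable.encode (c.curry z),
    Primrec.encode.comp (Code.primrec₂_curry.comp (Primrec.const c) Primrec.id), fun p z y => ?_⟩
  have hc' : ∀ τ, (c.curry z).eval (Nat.pair y (Encodable.encode τ)) = G τ (Nat.pair z y) := by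
    intro τ
    rw [Code.eval_curry, hc]
    simp
  have hs : ∀ v, v ∈ Phi p (Encodable.encode (c.curry z)) y → v ∈ F p (Nat.pair z y) := by
    intro v hv
    obtain ⟨s, hs⟩ := Nat.rfindOpt_spec hv
    rw [Denumerable.ofNat_encode] at hs
    have := Code.evaln_sound hs
    rw [hc'] at this
    exact hG.sound _ _ _ _ this
  refine Part.ext fun v => ⟨hs v, fun hv => ?_⟩
  obtain ⟨k, hk⟩ := (hG.complete p _ v hv).exists
  rw [← hc'] at hk
  obtain ⟨t, ht⟩ := Code.evaln_complete.1 hk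
  have hd : (Phi p (Encodable.encode (c.curry z)) y).Dom :=
    Nat.rfindOpt_dom.2 ⟨Nat.pair k t, v, by simpa [seg_eq_pre] using ht⟩
  have h2 := hs _ (Part.get_mem hd)
  rw [Part.mem_unique hv h2]
  exact Part.get_mem hd

theorem chi_congr {X Y : Set ℕ} {x y : ℕ} (h : x ∈ X ↔ y ∈ Y) : chi X x = chi Y y := by
  by_cases h1 : x ∈ X
  · rw [chi_eq_one.2 h1, chi_eq_one.2 (h.1 h1)]
  · rw [chi_eq_zero.2 h1, chi_eq_zero.2 (mt h.2 h1)]

/-- The jump decides existential questions. -/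
theorem sigma1 {Y : Set ℕ} {a : ℕ → ℕ} (ha : RecIn (chi Y) a) :
    RecIn (chi (jump Y)) (chi {z | ∃ s, a (Nat.pair z s) = 0}) := by
  obtain ⟨F, hF, hF'⟩ := exists_tf ha
  obtain ⟨n, hn, hn'⟩ := exists_param (TuringFunctional.comp (.rfind hF) .left)
  refine (RecIn.oracle.comp (RecIn.of_primrec hn)).of_eq fun z => chi_congr ?_
  change (Phi (chi Y) _ _).Dom ↔ _
  rw [hn']
  simp [hF', Nat.rfind_dom]

/-- The coded result of a bounded run. -/
def run (p : ℕ → ℕ) (e n r : ℕ) : ℕ := Encodable.encode (ev e n r.unpair.2 (seg p r.unpair.1))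

theorem run_eq_zero {p : ℕ → ℕ} {e n r : ℕ} :
    run p e n r = 0 ↔ ev e n r.unpair.2 (seg p r.unpair.1) = none := by
  unfold run
  cases ev e n r.unpair.2 (seg p r.unpair.1) <;> simp

theorem dom_iff {p : ℕ → ℕ} {e n : ℕ} : (Phi p e n).Dom ↔ ∃ r, 1 - run p e n r = 0 := by
  rw [Phi_dom]
  refine exists_congr fun r => ?_
  unfold run
  cases ev e n r.unpair.2 (seg p r.unpair.1) <;> simp

theorem rrun {p a : ℕ → ℕ} (ha : RecIn p a) {e n r : ℕ → ℕ} (he : Primrec e) (hn : Primrec n)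
    (hr : Primrec r) : RecIn p fun m => run a (e m) (n m) (r m) :=
  rseg ha (H := fun m τ => Encodable.encode (ev (e m) (n m) (r m).unpair.2 τ)) (by fun_prop)
    (b := fun m => (r m).unpair.1) (by fun_prop)

theorem rsub {p a : ℕ → ℕ} (ha : RecIn p a) : RecIn p fun m => 1 - a m :=
  (RecIn.of_primrec (f := fun z => 1 - z) (by fun_prop)).comp ha

theorem jump_mono {X Y : Set ℕ} (h : RecIn (chi Y) (chi X)) :
    RecIn (chi (jump Y)) (chi (jump X)) :=
  (sigma1 (rsub (rrun h (e := fun m => m.unpair.1) (n := fun m => m.unpair.1)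
    (r := fun m => m.unpair.2) (by fun_prop) (by fun_prop) (by fun_prop)))).of_eq fun z =>
      chi_congr (by simpa [jump] using dom_iff.symm)

theorem le_jump (Y : Set ℕ) : RecIn (chi (jump Y)) (chi Y) :=
  (sigma1 (rsub (RecIn.oracle.comp (RecIn.of_primrec (f := fun m => m.unpair.1)
    (by fun_prop))))).of_eq fun z => chi_congr (by
      have := chi_lt Y z
      simp only [Set.mem_ofPred_eq, Nat.unpair_pair, exists_const, ← chi_eq_one]
      omega)

theorem jump_strict (X : Set ℕ) : ¬ RecIn (chi X) (chi (jump X)) := by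
  intro h
  obtain ⟨F, hF, hF'⟩ := exists_tf (h.comp (RecIn.of_primrec (f := fun m => m.unpair.1)
    (by fun_prop)))
  obtain ⟨e, he⟩ := exists_index_of_tf (TuringFunctional.rfind hF)
  have : e ∈ jump X ↔ e ∉ jump X := by
    rw [← chi_eq_zero]
    change (Phi (chi X) _ _).Dom ↔ _
    rw [he]
    simp [hF', Nat.rfind_dom]
  tauto

/-- Limits of oracles. -/
theorem lim_trans {p o κ f : ℕ → ℕ} (hκ : RecIn p κ)
    (h : ∀ z, ∀ᶠ s in atTop, κ (Nat.pair s z) = o z) (hf : RecIn o f) :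
    ∃ a, RecIn p a ∧ ∀ x, ∀ᶠ s in atTop, a (Nat.pair x s) = f x := by
  obtain ⟨e, he⟩ := (turingReducible_iff_exists_Phi _ _).1 hf.turingReducible
  refine ⟨_, rseg hκ (H := fun m τ => ((List.range m.unpair.2).filterMap fun r =>
      ev e m.unpair.1 r.unpair.2 ((List.range r.unpair.1).map fun z =>
        τ.getD (Nat.pair m.unpair.2 z) 0)).headI) ?_
    (b := fun m => Nat.pair m.unpair.2 m.unpair.2) (by fun_prop), fun x => ?_⟩
  · refine Primrec.list_headI.comp (Primrec.listFilterMap (by fun_prop) ?_)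
    change Primrec fun a : (ℕ × List ℕ) × ℕ => _
    fun_prop
  · obtain ⟨r, h1, h2⟩ := mem_Phi.1 (show f x ∈ Phi o e x by rw [he]; simp)
    have h3 : ∀ᶠ s in atTop, ∀ z ∈ Finset.range r, κ (Nat.pair s z) = o z :=
      (eventually_all_finset _).2 fun z _ => h z
    filter_upwards [h3, eventually_gt_atTop r] with s hs hr
    have h4 : ∀ m ≤ r, ((List.range m.unpair.1).map fun z =>
        (seg κ (Nat.pair s s)).getD (Nat.pair s z) 0) = seg o m.unpair.1 := fun m hm =>
      List.map_congr_left fun z hz => by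
        have h5 : z < r := lt_of_lt_of_le (List.mem_range.1 hz) ((Nat.unpair_left_le m).trans hm)
        rw [seg_getD (Nat.pair_lt_pair_right _ (by omega)), hs z (Finset.mem_range.2 h5)]
    simp only [Nat.unpair_pair]
    refine headI_filterMap (by rw [h4 r le_rfl]; exact h1) (fun m hm => ?_) hr
    rw [h4 m hm.le]
    exact h2 m hm

theorem stage (p : ℕ → ℕ) : RecIn p fun m =>
    if ∃ r < m.unpair.1, 1 - run p m.unpair.2 m.unpair.2 r = 0 then 1 else 0 := by
  have h1 := rsub (rrun (RecIn.oracle (o := p)) (e := fun m => m.unpair.1)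
    (n := fun m => m.unpair.1) (r := fun m => m.unpair.2) (by fun_prop) (by fun_prop) (by fun_prop))
  refine (rseg h1 (H := fun m τ => if ∃ r < m.unpair.1,
      τ.getD (Nat.pair m.unpair.2 r) 0 = 0 then 1 else 0)
    (Primrec.ite (pp_ex_lt (by fun_prop) (pp_eq (by fun_prop) (by fun_prop))) (by fun_prop)
      (by fun_prop)) (b := fun m => Nat.pair m.unpair.2 m.unpair.1) (by fun_prop)).of_eq fun m => ?_
  refine if_congr (exists_congr fun r => and_congr_right fun hr => ?_) rfl rfl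
  rw [seg_getD (Nat.pair_lt_pair_right _ hr), Nat.unpair_pair]

/-- The limit lemma, the other direction. -/
theorem lim_jump {X : Set ℕ} {f : ℕ → ℕ} (hf : RecIn (chi (jump X)) f) :
    ∃ a, RecIn (chi X) a ∧ ∀ x, ∀ᶠ s in atTop, a (Nat.pair x s) = f x := by
  refine lim_trans (stage (chi X)) (fun z => ?_) hf
  simp only [Nat.unpair_pair]
  by_cases h : z ∈ jump X
  · rw [chi_eq_one.2 h]
    obtain ⟨r, hr⟩ := dom_iff.1 h
    exact (eventually_gt_atTop r).mono fun s hs => if_pos ⟨r, hs, hr⟩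
  · rw [chi_eq_zero.2 h]
    exact Eventually.of_forall fun s => if_neg fun ⟨r, _, hr⟩ => h (dom_iff.2 ⟨r, hr⟩)

/-- Martin's domination theorem, one direction. -/
theorem martin {H K : Set ℕ} (h1 : RecIn (chi K) (chi H))
    (h2 : RecIn (chi (jump K)) (chi (jump (jump H)))) :
    ∃ g, RecIn (chi K) g ∧ ∀ f, RecIn (chi H) f → ∀ᶠ n in atTop, f n ≤ g n := by
  have hW : ∀ {p : ℕ → ℕ}, RecIn p (chi H) → RecIn p fun m =>
      run (chi H) m.unpair.1.unpair.1 m.unpair.1.unpair.2 m.unpair.2 := fun h =>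
    rrun h (by fun_prop) (by fun_prop) (by fun_prop)
  obtain ⟨a, ha, ha'⟩ := lim_jump (rtrans h2 (sigma1 (sigma1 (rsub (hW RecIn.oracle)))))
  have h3 := rmap ((RecIn.of_primrec Primrec.id).pair (ha.comp (RecIn.of_primrec
      (f := fun m => Nat.pair m.unpair.1.unpair.1 m.unpair.2) (by fun_prop)))) (hW h1)
    (h := fun u w => if u.unpair.1.unpair.1.unpair.2 ≤ u.unpair.1.unpair.2 ∧ u.unpair.2 = 1 then 0
      else 1 - w)
    (Primrec.ite ((pp_le (by fun_prop) (by fun_prop)).and (pp_eq (by fun_prop) (by fun_prop)))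
      (by fun_prop) (by fun_prop))
  have h4 := h3.search fun z => by
    simp only [id, Nat.unpair_pair]
    by_cases h : ∃ r, 1 - run (chi H) z.unpair.1 z.unpair.2 r = 0
    · obtain ⟨r, hr⟩ := h
      exact ⟨r, by split_ifs <;> simp only [hr]⟩
    · obtain ⟨s, s1, s2⟩ := ((ha' z.unpair.1).and (eventually_ge_atTop z.unpair.2)).exists
      refine ⟨s, if_pos ⟨s2, s1.trans (chi_eq_one.2 ⟨z.unpair.2, chi_eq_zero.2 ?_⟩)⟩⟩
      simpa using h
  refine ⟨_, rseg ((hW h1).comp ((RecIn.of_primrec Primrec.id).pair h4))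
    (H := fun _ τ => τ.foldr (fun b a => b + a) 0)
    (Primrec.list_foldr (h := fun _ p => p.1 + p.2) Primrec.snd (Primrec.const 0)
      (show Primrec fun a : (ℕ × List ℕ) × (ℕ × ℕ) => a.2.1 + a.2.2 by fun_prop))
    (b := fun n => Nat.pair n n + 1) (by fun_prop), fun f hf => ?_⟩
  obtain ⟨e, he⟩ := (turingReducible_iff_exists_Phi _ _).1 hf.turingReducible
  obtain ⟨s0, hs0⟩ := eventually_atTop.1 (ha' e)
  filter_upwards [eventually_ge_atTop s0, eventually_ge_atTop e] with n n1 n2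
  obtain ⟨r, r1, r2⟩ := mem_Phi.1 (show f n ∈ Phi (chi H) e n by rw [he]; simp)
  refine le_trans ?_ (List.single_le_sum (fun _ _ => Nat.zero_le _) _ (List.mem_map.2
    ⟨Nat.pair e n, List.mem_range.2 (Nat.lt_succ_of_le ?_), rfl⟩))
  · have h5 : ∀ s, ¬ (n ≤ s ∧ a (Nat.pair e s) = 1) := by
      rintro s ⟨s1, s2⟩
      obtain ⟨y, hy⟩ := chi_eq_one.1 ((hs0 s (by omega)).symm.trans s2)
      refine chi_eq_zero.1 hy ?_
      simpa using dom_iff.1 (show (Phi (chi H) e y).Dom by rw [he]; trivial)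
    rw [(Nat.find_eq_iff _).2 (show _ ∧ ∀ m < r, _ from ?_)]
    · simp [run, r1]
    · simp only [id, Nat.unpair_pair, h5, if_false]
      exact ⟨by simp [run, r1], fun m hm => by simp [run_eq_zero.2 (r2 m hm)]⟩
  · rcases n2.eq_or_lt with rfl | h
    · exact le_rfl
    · exact (Nat.pair_lt_pair_left _ h).le

/-- Arslanov's completeness criterion for jumps. -/
theorem arslanov {H K : Set ℕ} {f : ℕ → ℕ} (h1 : RecIn (chi K) (chi H))
    (h2 : RecIn (chi (jump H)) (chi K)) (hf : RecIn (chi (jump H)) f)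
    (hf' : ∀ e, f e ∉ Phi (chi K) e e) : RecIn (chi (jump H)) (chi (jump K)) := by
  obtain ⟨a, ha, ha'⟩ := lim_jump hf
  have h3 := sigma1 (rmap
    (ha.comp (RecIn.of_primrec (f := fun m =>
      Nat.pair m.unpair.1.unpair.1 (m.unpair.1.unpair.2 + m.unpair.2)) (by fun_prop)))
    (ha.comp (RecIn.of_primrec (f := fun m => m.unpair.1) (by fun_prop)))
    (h := fun u v => if u = v then 1 else 0)
    (Primrec.ite (pp_eq (by fun_prop) (by fun_prop)) (by fun_prop) (by fun_prop)))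
  obtain ⟨m, hm, hm'⟩ : ∃ m, RecIn (chi (jump H)) m ∧ ∀ x s, m x ≤ s → a (Nat.pair x s) = f x := by
    refine ⟨_, h3.search fun x => ?_, fun x s hs => ?_⟩
    · obtain ⟨b, hb⟩ := eventually_atTop.1 (ha' x)
      refine ⟨b, chi_eq_zero.2 ?_⟩
      rintro ⟨s, hs⟩
      simp [hb b le_rfl, hb (b + s) (by omega)] at hs
    · generalize_proofs h4 at hs
      have h5 := chi_eq_zero.1 (Nat.find_spec h4)
      generalize Nat.find h4 = b at hs h5
      have h6 : ∀ s, b ≤ s → a (Nat.pair x s) = a (Nat.pair x b) := fun s hs =>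
        not_not.1 fun h7 => h5 ⟨s - b, by simpa [Nat.add_sub_cancel' hs] using h7⟩
      obtain ⟨s', s1, s2⟩ := ((ha' x).and (eventually_ge_atTop b)).exists
      rw [h6 s hs, ← h6 s' s2, s1]
  obtain ⟨F, hF, hF'⟩ := exists_tf (rtrans h1 ha)
  obtain ⟨W, hW, hW'⟩ := exists_tf (rsub (rrun (RecIn.oracle (o := chi K))
    (e := fun m => m.unpair.1.unpair.1) (n := fun m => m.unpair.1.unpair.1)
    (r := fun m => m.unpair.2) (by fun_prop) (by fun_prop) (by fun_prop)))
  obtain ⟨n, hn, hn'⟩ := exists_param (TuringFunctional.comp hF (.pair .right (.rfind hW)))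
  refine ((rtrans h2 (stage (chi K))).comp ((hm.comp (RecIn.of_primrec hn)).pair
    (RecIn.of_primrec Primrec.id))).of_eq fun z => ?_
  simp only [id, Nat.unpair_pair]
  by_cases h : z ∈ jump K
  · have h4 := dom_iff.1 h
    rw [chi_eq_one.2 h]
    refine if_pos ⟨Nat.find h4, not_le.1 fun h5 => hf' (n z) ?_, Nat.find_spec h4⟩
    rw [hn', ← hm' _ _ h5]
    simp only [hF', hW', Seq.seq, Part.map_eq_map, Part.bind_eq_bind, Part.map_some,
      Part.bind_some, Part.mem_bind_iff, Part.mem_map_iff, Part.mem_some_iff, Nat.mem_rfind,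
      Nat.unpair_pair]
    exact ⟨_, ⟨Nat.find h4, ⟨by simpa using Nat.find_spec h4,
      fun {r} hr => by simpa using Nat.find_min h4 hr⟩, rfl⟩, rfl⟩
  · rw [chi_eq_zero.2 h, if_neg fun ⟨r, _, hr⟩ => h (dom_iff.2 ⟨r, hr⟩)]

theorem not_low2 {H : Set ℕ} (hH : H.Infinite) (h : H ⊆ AA ∨ H ⊆ AAᶜ)
    (h1 : RecIn (chi (jump ∅)) (chi H)) :
    ¬ RecIn (chi (jump (jump ∅))) (chi (jump (jump H))) := by
  intro h2
  rcases dnc_or_escape hH h with ⟨f, hf, hf'⟩ | h3
  · have h4 : RecIn (chi H) (chi ∅) :=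
      (RecIn.of_primrec (Primrec.const 0)).of_eq fun n => (chi_eq_zero.2 (by simp)).symm
    exact jump_strict _ (rtrans h2 (jump_mono (arslanov h1 (jump_mono h4) hf hf')))
  · obtain ⟨g, hg, hg'⟩ := martin h1 h2
    obtain ⟨f, hf, hf'⟩ := h3 g hg
    obtain ⟨n, n1, n2⟩ := (hf'.and_eventually (hg' f hf)).exists
    omega

end Pool.Agent.MP_ac9d16_lc.D

end

section

namespace Pool.Agent.MP_ac9d16_lc.T

open Filter Pool.Agent.MP_9a65c4_lc Pool.Agent.MP_40fdec_lc

/-- Convergence with a finite oracle. -/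
def cv (τ : List ℕ) (e n : ℕ) : Prop :=
  ∃ r < τ.length, (ev e n r.unpair.2 (seg (fun z => τ.getD z 0) r.unpair.1)).isSome = true

instance (τ : List ℕ) (e n : ℕ) : Decidable (cv τ e n) := by unfold cv; infer_instance

/-- The number of initial questions about the part `j` that have been answered. -/
def lev (τ : List ℕ) (i j : ℕ) : ℕ :=
  (List.range τ.length).findIdx fun u =>
    decide (¬ cv τ i.unpair.1.unpair.1 (Nat.pair i (Nat.pair j u)))

/-- The active part: one with the largest level. -/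
def act (τ : List ℕ) (i : ℕ) : ℕ :=
  (List.range (2 ^ i)).findIdx fun j => decide (∀ j' < 2 ^ i, lev τ i j' ≤ lev τ i j)

def inA (τ : List ℕ) (x : ℕ) : Prop :=
  ∃ i < τ.length, D.P i x = act τ i ∧ (∀ i' < τ.length, i < i' → ¬ D.P i' x = act τ i') ∧
    ¬ D.side i = 0

instance (τ : List ℕ) (x : ℕ) : Decidable (inA τ x) := by unfold inA; infer_instance

def epo (τ : List ℕ) (x : ℕ) : ℕ :=
  (List.range x).findIdx fun z => decide (¬ Ks x z = τ.getD z 0)

/-- The epoch of `x`: the length of the correct part of the approximation of the halting set. -/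
noncomputable def ep (x : ℕ) : ℕ := epo (seg (chi (jump ∅)) x) x

def AA : Set ℕ := {x | inA (seg (chi (jump ∅)) (ep x)) x}

section prim
variable {α : Type*} [Primcodable α]

theorem pp_cv {τ : α → List ℕ} {e n : α → ℕ} (hτ : Primrec τ) (he : Primrec e) (hn : Primrec n) :
    PrimrecPred fun a => cv (τ a) (e a) (n a) := by
  unfold cv seg
  refine pp_ex_lt (by fun_prop) (pp_eq (Primrec.option_isSome.comp ?_) (by fun_prop))
  fun_prop

@[fun_prop] theorem pr_lev {τ : α → List ℕ} {i j : α → ℕ} (hτ : Primrec τ) (hi : Primrec i)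
    (hj : Primrec j) : Primrec fun a => lev (τ a) (i a) (j a) := by
  unfold lev
  refine Primrec.list_findIdx (by fun_prop) ?_
  exact PrimrecPred.decide (p := fun a : α × ℕ =>
    ¬ cv (τ a.1) (i a.1).unpair.1.unpair.1 (Nat.pair (i a.1) (Nat.pair (j a.1) a.2)))
    (pp_cv (by fun_prop) (by fun_prop) (by fun_prop)).not

@[fun_prop] theorem pr_act {τ : α → List ℕ} {i : α → ℕ} (hτ : Primrec τ) (hi : Primrec i) :
    Primrec fun a => act (τ a) (i a) := by
  unfold act
  refine Primrec.list_findIdx (by fun_prop) ?_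
  exact PrimrecPred.decide (p := fun a : α × ℕ =>
    ∀ j' < 2 ^ (i a.1), lev (τ a.1) (i a.1) j' ≤ lev (τ a.1) (i a.1) a.2)
    (pp_all_lt (by fun_prop) (pp_le (by fun_prop) (by fun_prop)))

theorem pp_inA {τ : α → List ℕ} {x : α → ℕ} (hτ : Primrec τ) (hx : Primrec x) :
    PrimrecPred fun a => inA (τ a) (x a) :=
  pp_ex_lt (R := fun a i => D.P i (x a) = act (τ a) i ∧
      (∀ i' < (τ a).length, i < i' → ¬ D.P i' (x a) = act (τ a) i') ∧ ¬ D.side i = 0)
    (by fun_prop) ((pp_eq (by fun_prop) (by fun_prop)).and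
      ((pp_all_lt (R := fun (a : α × ℕ) i' => a.2 < i' → ¬ D.P i' (x a.1) = act (τ a.1) i')
        (by fun_prop) (pp_imp (pp_lt (by fun_prop) (by fun_prop))
          (pp_eq (by fun_prop) (by fun_prop)).not)).and
      (pp_eq (by fun_prop) (by fun_prop)).not))

@[fun_prop] theorem pr_epo {τ : α → List ℕ} {x : α → ℕ} (hτ : Primrec τ) (hx : Primrec x) :
    Primrec fun a => epo (τ a) (x a) := by
  unfold epo
  refine Primrec.list_findIdx (by fun_prop) ?_
  exact PrimrecPred.decide (p := fun a : α × ℕ => ¬ Ks (x a.1) a.2 = (τ a.1).getD a.2 0)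
    (pp_eq (by fun_prop) (by fun_prop)).not

end prim

theorem find_le (p : ℕ → Bool) (n : ℕ) : (List.range n).findIdx p ≤ n := by
  simpa using List.findIdx_le_length (p := p) (xs := List.range n)

theorem find_spec {p : ℕ → Bool} {n : ℕ} (h : (List.range n).findIdx p < n) :
    p ((List.range n).findIdx p) = true := by
  have h' : (List.range n).findIdx p < (List.range n).length := by simpa using h
  have := List.findIdx_getElem (w := h')
  rwa [List.getElem_range] at this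

theorem find_min {p : ℕ → Bool} {n b : ℕ} (h : b < (List.range n).findIdx p) : p b = false := by
  have := List.not_of_lt_findIdx (p := p) (xs := List.range n) h
  rwa [List.getElem_range] at this

theorem ep_le (x : ℕ) : ep x ≤ x := find_le _ _

theorem ep_min {x z : ℕ} (h : z < ep x) : Ks x z = chi (jump ∅) z := by
  have h1 := of_decide_eq_false (find_min h)
  rwa [not_not, seg_getD (lt_of_lt_of_le h (ep_le x))] at h1

theorem le_ep {x b : ℕ} (h1 : b ≤ x) (h : ∀ z < b, Ks x z = chi (jump ∅) z) : b ≤ ep x := by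
  by_contra h2
  have h3 : ep x < x := by omega
  have h4 := of_decide_eq_true (find_spec h3)
  change ¬ Ks x (ep x) = (seg (chi (jump ∅)) x).getD (ep x) 0 at h4
  rw [seg_getD h3] at h4
  exact h4 (h _ (by omega))

theorem Ks_stay {s s' z : ℕ} (hs : s ≤ s') (h : Ks s z = chi (jump ∅) z) :
    Ks s' z = chi (jump ∅) z := by
  have key : ∀ {a b : ℕ}, a ≤ b → Ks a z = 1 → Ks b z = 1 := by
    intro a b hab h1
    unfold Ks at h1 ⊢
    split_ifs at h1 with h2
    obtain ⟨r, hr, h3⟩ := h2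
    exact if_pos ⟨r, by omega, h3⟩
  by_cases h1 : Ks s z = 1
  · rw [← h, h1, key hs h1]
  · obtain ⟨t, t1, t2⟩ := ((Ks_lim z).and (eventually_ge_atTop s')).exists
    have h2 : ∀ a, Ks a z < 2 := fun a => by
      unfold Ks
      split_ifs <;> norm_num
    have h3 := h2 s
    have h4 := h2 s'
    have h5 := @key s' t t2
    omega

theorem ep_mono : Monotone ep := fun _ _ h =>
  le_ep ((ep_le _).trans h) fun _ hz => Ks_stay h (ep_min hz)

theorem ep_lim : Tendsto ep atTop atTop := by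
  refine tendsto_atTop.2 fun b => ?_
  have h1 : ∀ᶠ s in atTop, ∀ z ∈ Finset.range b, Ks s z = chi (jump ∅) z :=
    (eventually_all_finset _).2 fun z _ => Ks_lim z
  filter_upwards [h1, eventually_ge_atTop b] with s s1 s2
  exact le_ep s2 fun z hz => s1 z (Finset.mem_range.2 hz)

theorem seg_seg {p : ℕ → ℕ} {k m : ℕ} (h : m ≤ k) :
    seg (fun z => (seg p k).getD z 0) m = seg p m :=
  seg_congr fun _ hx => seg_getD (lt_of_lt_of_le hx h)

theorem computes_AA : RecIn (chi (jump ∅)) (chi AA) := by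
  refine (D.rseg (RecIn.oracle (o := chi (jump ∅)))
    (H := fun x τ => if inA (seg (fun z => τ.getD z 0) (epo τ x)) x then 1 else 0)
    (Primrec.ite (pp_inA (by unfold seg; fun_prop) (by fun_prop)) (by fun_prop) (by fun_prop))
    (b := fun x => x) (by fun_prop)).of_eq fun x => ?_
  change (if inA (seg _ (ep x)) x then 1 else 0) = _
  rw [seg_seg (ep_le x)]
  split_ifs with h
  · exact (chi_eq_one.2 h).symm
  · exact (chi_eq_zero.2 h).symm

theorem cv_seg {p : ℕ → ℕ} {k e n : ℕ} : cv (seg p k) e n ↔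
    ∃ r < k, (ev e n r.unpair.2 (seg p r.unpair.1)).isSome = true := by
  unfold cv
  rw [seg_length]
  refine exists_congr fun r => and_congr_right fun hr => ?_
  rw [seg_seg ((Nat.unpair_left_le r).trans hr.le)]

theorem dom_of_cv {p : ℕ → ℕ} {k e n : ℕ} (h : cv (seg p k) e n) : (Phi p e n).Dom := by
  obtain ⟨r, -, hr⟩ := cv_seg.1 h
  obtain ⟨v, hv⟩ := Option.isSome_iff_exists.1 hr
  exact Phi_dom.2 ⟨r, v, hv⟩

theorem cv_of_dom {p : ℕ → ℕ} {e n : ℕ} (h : (Phi p e n).Dom) :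
    ∀ᶠ k in atTop, cv (seg p k) e n := by
  obtain ⟨r, v, hv⟩ := Phi_dom.1 h
  exact (eventually_gt_atTop r).mono fun k hk => cv_seg.2 ⟨r, hk, by simp [hv]⟩

/-- The set of parts proposed by the requirement `i`. -/
def Prop2 (p : ℕ → ℕ) (i j : ℕ) : Prop :=
  ∀ u, (Phi p i.unpair.1.unpair.1 (Nat.pair i (Nat.pair j u))).Dom

/-- If some part is proposed, then the active part is a proposed one from some point on. -/
theorem act_ev {p : ℕ → ℕ} {i j : ℕ} (hj : j < 2 ^ i) (h : Prop2 p i j) :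
    ∀ᶠ k in atTop, Prop2 p i (act (seg p k) i) := by
  have h1 : ∀ j', ∃ u, ¬ Prop2 p i j' → ∀ k, lev (seg p k) i j' ≤ u := by
    intro j'
    by_cases h2 : Prop2 p i j'
    · exact ⟨0, fun h3 => absurd h2 h3⟩
    · obtain ⟨u, hu⟩ := not_forall.1 h2
      refine ⟨u, fun _ k => not_lt.1 fun h3 => hu ?_⟩
      exact dom_of_cv (not_not.1 (of_decide_eq_false (find_min h3)))
  choose U hU using h1
  have h2 : ∀ᶠ k in atTop, ∀ u ∈ Finset.range ((Finset.range (2 ^ i)).sup U + 1),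
      cv (seg p k) i.unpair.1.unpair.1 (Nat.pair i (Nat.pair j u)) :=
    (eventually_all_finset _).2 fun u _ => cv_of_dom (h u)
  filter_upwards [h2, eventually_gt_atTop ((Finset.range (2 ^ i)).sup U)] with k k1 k2
  have h3 : (Finset.range (2 ^ i)).sup U < lev (seg p k) i j := by
    by_contra h4
    have h5 : lev (seg p k) i j < (seg p k).length := by
      rw [seg_length]
      omega
    exact of_decide_eq_true (find_spec h5) (k1 _ (Finset.mem_range.2 (Nat.lt_succ_of_le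
      (not_lt.1 h4))))
  obtain ⟨m, m1, m2⟩ := (Finset.range (2 ^ i)).exists_max_image (lev (seg p k) i)
    ⟨j, Finset.mem_range.2 hj⟩
  have h4 : act (seg p k) i < 2 ^ i := by
    by_contra h5
    exact of_decide_eq_false (find_min (lt_of_lt_of_le (Finset.mem_range.1 m1) (not_lt.1 h5)))
      fun j' hj' => m2 j' (Finset.mem_range.2 hj')
  have h5 : lev (seg p k) i j ≤ lev (seg p k) i (act (seg p k) i) :=
    of_decide_eq_true (find_spec h4) j hj
  by_contra h6
  have h7 := hU _ h6 k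
  have h8 := Finset.le_sup (f := U) (Finset.mem_range.2 h4)
  omega

/-- All labels in the active part: the required side is met. -/
theorem hit {τ : List ℕ} {i : ℕ} {S : Set ℕ} (hi : i < τ.length)
    (hE : ∀ g < 2 ^ τ.length, ∃ x ∈ S, D.P i x = act τ i ∧ D.blk i (act τ i) x = g) :
    ∃ x ∈ S, (inA τ x ↔ ¬ D.side i = 0) := by
  obtain ⟨g, hg, hg'⟩ := exists_bits (fun r => 1 - bt (act τ r) i) (fun r => by omega) τ.length
  obtain ⟨x, hx, g1, g2⟩ := hE g hg
  have h5 : ∀ i' < τ.length, i < i' → ¬ D.P i' x = act τ i' := by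
    intro i' h1 h2 h3
    have h4 := hg' i' h1
    rw [← g2, ← g1, ← D.bt_P x h2, h3] at h4
    have := bt_lt (act τ i') i
    omega
  refine ⟨x, hx, ?_, fun h6 => ⟨i, hi, g1, h5, h6⟩⟩
  rintro ⟨v, r1, r2, r3, r4⟩
  rcases lt_trichotomy v i with h6 | h6 | h6
  · exact absurd g1 (r3 i hi h6)
  · rwa [h6] at r4
  · exact absurd r2 (h5 v r1 h6)

end Pool.Agent.MP_ac9d16_lc.T

end

section

namespace Pool.Agent.MP_ac9d16_lc.E

open Nat.Partrec (Code)
open Filter Pool.Agent.MP_9a65c4_lc Pool.Agent.MP_40fdec_lc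
open D (num)

/-- A node: depth, start, list of open ancestors. -/
def mk (d a : ℕ) (L : List ℕ) : ℕ := Nat.pair d (Nat.pair a (Encodable.encode L))

def dd (q : ℕ) : ℕ := q.unpair.1
def aa (q : ℕ) : ℕ := q.unpair.2.unpair.1
def LL (q : ℕ) : List ℕ := Denumerable.ofNat (List ℕ) q.unpair.2.unpair.2

@[simp] theorem dd_mk (d a : ℕ) (L : List ℕ) : dd (mk d a L) = d := by simp [dd, mk]
@[simp] theorem aa_mk (d a : ℕ) (L : List ℕ) : aa (mk d a L) = a := by simp [aa, mk]
@[simp] theorem LL_mk (d a : ℕ) (L : List ℕ) : LL (mk d a L) = L := by simp [LL, mk]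

/-- The requirement, the guess and the part of a node. -/
def ix (q : ℕ) : ℕ := (dd q).unpair.1
def gx (q : ℕ) : ℕ := (dd q).unpair.2.unpair.1
def jx (q : ℕ) : ℕ := (gx q).unpair.1
def side (i : ℕ) : ℕ := i.unpair.2.unpair.1

/-- The label of `x` for the requirement `i` and the part `j`. -/
def blk (i j x : ℕ) : ℕ := (Denumerable.ofNat (List ℕ)
  (app i.unpair.2.unpair.2.unpair.1 i.unpair.2.unpair.2.unpair.1 x)).getD j 0

def nxt (x i : ℕ) (l : List ℕ) : ℕ :=
  num ((List.range i).map fun r => bt (blk r (l.getD r 0) x) i)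

def PL (x : ℕ) : ℕ → List ℕ
  | 0 => []
  | i + 1 => PL x i ++ [nxt x i (PL x i)]

/-- The part of `x` in the partition of the requirement `i`. -/
def P (i x : ℕ) : ℕ := nxt x i (PL x i)

/-- The program `e` halts on `n` below `s`. -/
def hl (e n s : ℕ) : Prop := ∃ v < s, Code.evaln s (Denumerable.ofNat Code e) n = some v

instance (e n s : ℕ) : Decidable (hl e n s) := by unfold hl; infer_instance

/-- The start of the current life. -/
def lf (q : ℕ) : ℕ → ℕ
  | 0 => 0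
  | s + 1 => if hl (ix q).unpair.1 (Nat.pair q (lf q s)) s then s + 1 else lf q s

def val (q s : ℕ) : ℕ := if ∃ v ∈ LL q, ix v = ix q then 0 else lf q s

def cst (q b t : ℕ) : Prop := ∀ s < t + 1, b ≤ s → val q s = val q b

instance (q b t : ℕ) : Decidable (cst q b t) := by unfold cst; infer_instance

def ls (q t : ℕ) : ℕ := (List.range t).findIdx fun b => decide (aa q ≤ b ∧ cst q b t)

def view (L : List ℕ) (x : ℕ) : ℕ := L.foldl (fun t q => ls q t) x

def tc (q b : ℕ) : ℕ := mk (dd q + 1) b (LL q)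

def oc (q : ℕ) : ℕ := mk (dd q + 1) (aa q) (LL q ++ [q])

def step (T : ℕ → ℕ → Bool) (σ : ℕ × ℕ) : ℕ × ℕ :=
  if σ.2 ≤ dd σ.1 then σ else
    if T σ.1 (ls σ.1 σ.2) = true then (tc σ.1 (ls σ.1 σ.2), σ.2) else (oc σ.1, ls σ.1 σ.2)

def root : ℕ := mk 0 0 []

def fin (T : ℕ → ℕ → Bool) (x : ℕ) : List ℕ := LL ((step T)^[x] (root, x)).1

def inA (F : List ℕ) (x : ℕ) : Prop :=
  ∃ v ∈ F, P (ix v) x = jx v ∧ (∀ v' ∈ F, ix v < ix v' → ¬ P (ix v') x = jx v') ∧
    ¬ side (ix v) = 0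

def good (q c k x : ℕ) : Prop :=
  P (ix q) x = jx q ∧ aa q + dd q < view (LL q) x ∧ ls q (view (LL q) x) = c ∧
    blk (ix q) (jx q) x = k

open Classical in
noncomputable def TT (q b : ℕ) : Bool := decide (∀ s, b ≤ s → val q s = val q b)

theorem TT_iff {q b : ℕ} : TT q b = true ↔ ∀ s, b ≤ s → val q s = val q b := by
  simp [TT]

def AA : Set ℕ := {x | inA (fin TT x) x}

section prim
variable {α : Type*} [Primcodable α]

@[fun_prop] theorem pr_mk {d a : α → ℕ} {L : α → List ℕ} (hd : Primrec d) (ha : Primrec a)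
    (hL : Primrec L) : Primrec fun z => mk (d z) (a z) (L z) := by
  unfold mk
  fun_prop
@[fun_prop] theorem pr_dd {q : α → ℕ} (hq : Primrec q) : Primrec fun z => dd (q z) := by
  unfold dd
  fun_prop
@[fun_prop] theorem pr_aa {q : α → ℕ} (hq : Primrec q) : Primrec fun z => aa (q z) := by
  unfold aa
  fun_prop
@[fun_prop] theorem pr_LL {q : α → ℕ} (hq : Primrec q) : Primrec fun z => LL (q z) := by
  unfold LL
  fun_prop
@[fun_prop] theorem pr_ix {q : α → ℕ} (hq : Primrec q) : Primrec fun z => ix (q z) := by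
  unfold ix
  fun_prop
@[fun_prop] theorem pr_gx {q : α → ℕ} (hq : Primrec q) : Primrec fun z => gx (q z) := by
  unfold gx
  fun_prop
@[fun_prop] theorem pr_jx {q : α → ℕ} (hq : Primrec q) : Primrec fun z => jx (q z) := by
  unfold jx
  fun_prop
@[fun_prop] theorem pr_side {q : α → ℕ} (hq : Primrec q) : Primrec fun z => side (q z) := by
  unfold side
  fun_prop
@[fun_prop] theorem pr_blk {i j x : α → ℕ} (hi : Primrec i) (hj : Primrec j) (hx : Primrec x) :
    Primrec fun z => blk (i z) (j z) (x z) := by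
  unfold blk
  fun_prop
@[fun_prop] theorem pr_nxt {x i : α → ℕ} {l : α → List ℕ} (hx : Primrec x) (hi : Primrec i)
    (hl : Primrec l) : Primrec fun z => nxt (x z) (i z) (l z) :=
  D.pr_num (pr_map (by fun_prop)
    (show Primrec fun a : α × ℕ => bt (blk a.2 ((l a.1).getD a.2 0) (x a.1)) (i a.1) by fun_prop))
@[fun_prop] theorem pr_PL {x i : α → ℕ} (hx : Primrec x) (hi : Primrec i) :
    Primrec fun z => PL (x z) (i z) := by
  have h : Primrec fun a : α × (ℕ × List ℕ) => a.2.2 ++ [nxt (x a.1) a.2.1 a.2.2] := by fun_prop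
  refine (Primrec.nat_rec' hi (Primrec.const []) h.to₂).of_eq fun z => ?_
  induction i z with
  | zero => rfl
  | succ m ih => simp only [PL, ← ih]
@[fun_prop] theorem pr_P {x i : α → ℕ} (hi : Primrec i) (hx : Primrec x) :
    Primrec fun z => P (i z) (x z) := by
  unfold P
  fun_prop
theorem pp_hl {e n s : α → ℕ} (he : Primrec e) (hn : Primrec n) (hs : Primrec s) :
    PrimrecPred fun z => hl (e z) (n z) (s z) :=
  pp_ex_lt (R := fun z v => Code.evaln (s z) (Denumerable.ofNat Code (e z)) (n z) = some v) hs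
    (pp_eq (Code.primrec_evaln.comp
      (g := fun a : α × ℕ => ((s a.1, Denumerable.ofNat Code (e a.1)), n a.1))
      (((hs.comp Primrec.fst).pair ((Primrec.ofNat Code).comp (he.comp Primrec.fst))).pair
        (hn.comp Primrec.fst))) (Primrec.option_some.comp Primrec.snd))
@[fun_prop] theorem pr_lf {q s : α → ℕ} (hq : Primrec q) (hs : Primrec s) :
    Primrec fun z => lf (q z) (s z) := by
  have h : Primrec fun a : α × (ℕ × ℕ) =>
      if hl (ix (q a.1)).unpair.1 (Nat.pair (q a.1) a.2.2) a.2.1 then a.2.1 + 1 else a.2.2 :=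
    Primrec.ite (pp_hl (by fun_prop) (by fun_prop) (by fun_prop)) (by fun_prop) (by fun_prop)
  refine (Primrec.nat_rec' hs (Primrec.const 0) h.to₂).of_eq fun z => ?_
  induction s z with
  | zero => rfl
  | succ m ih => simp only [lf, ← ih]
@[fun_prop] theorem pr_val {q s : α → ℕ} (hq : Primrec q) (hs : Primrec s) :
    Primrec fun z => val (q z) (s z) :=
  Primrec.ite (pp_ex_mem (R := fun z v => ix v = ix (q z)) (by fun_prop)
    (pp_eq (by fun_prop) (by fun_prop))) (by fun_prop) (by fun_prop)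
theorem pp_cst {q b t : α → ℕ} (hq : Primrec q) (hb : Primrec b) (ht : Primrec t) :
    PrimrecPred fun z => cst (q z) (b z) (t z) :=
  pp_all_lt (R := fun z s => b z ≤ s → val (q z) s = val (q z) (b z)) (by fun_prop)
    (pp_imp (pp_le (by fun_prop) (by fun_prop)) (pp_eq (by fun_prop) (by fun_prop)))
@[fun_prop] theorem pr_ls {q t : α → ℕ} (hq : Primrec q) (ht : Primrec t) :
    Primrec fun z => ls (q z) (t z) := by
  unfold ls
  refine Primrec.list_findIdx (by fun_prop) ?_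
  exact PrimrecPred.decide (p := fun a : α × ℕ => aa (q a.1) ≤ a.2 ∧ cst (q a.1) a.2 (t a.1))
    ((pp_le (by fun_prop) (by fun_prop)).and (pp_cst (by fun_prop) (by fun_prop) (by fun_prop)))
@[fun_prop] theorem pr_view {L : α → List ℕ} {x : α → ℕ} (hL : Primrec L) (hx : Primrec x) :
    Primrec fun z => view (L z) (x z) :=
  Primrec.list_foldl (h := fun _ p => ls p.2 p.1) hL hx
    (show Primrec fun a : α × (ℕ × ℕ) => ls a.2.2 a.2.1 by fun_prop)
@[fun_prop] theorem pr_tc {q b : α → ℕ} (hq : Primrec q) (hb : Primrec b) :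
    Primrec fun z => tc (q z) (b z) := by
  unfold tc
  fun_prop
@[fun_prop] theorem pr_oc {q : α → ℕ} (hq : Primrec q) : Primrec fun z => oc (q z) := by
  unfold oc
  fun_prop
theorem pp_inA {F : α → List ℕ} {x : α → ℕ} (hF : Primrec F) (hx : Primrec x) :
    PrimrecPred fun z => inA (F z) (x z) :=
  pp_ex_mem (R := fun z v => P (ix v) (x z) = jx v ∧
      (∀ v' ∈ F z, ix v < ix v' → ¬ P (ix v') (x z) = jx v') ∧ ¬ side (ix v) = 0) hF
    ((pp_eq (by fun_prop) (by fun_prop)).and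
      ((pp_all_mem (R := fun (z : α × ℕ) v' => ix z.2 < ix v' → ¬ P (ix v') (x z.1) = jx v')
        (by fun_prop) (pp_imp (pp_lt (by fun_prop) (by fun_prop))
          (pp_eq (by fun_prop) (by fun_prop)).not)).and
      (pp_eq (by fun_prop) (by fun_prop)).not))
end prim

def Ts (s q b : ℕ) : Bool := decide (cst q b s)

theorem Ts_lim (q b : ℕ) : ∀ᶠ s in atTop, Ts s q b = TT q b := by
  by_cases h : ∀ s, b ≤ s → val q s = val q b
  · refine Eventually.of_forall fun s => ?_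
    rw [TT_iff.2 h]
    exact decide_eq_true fun s' _ hs' => h s' hs'
  · rw [show TT q b = false from Bool.eq_false_iff.2 fun h' => h (TT_iff.1 h')]
    push Not at h
    obtain ⟨s', h1, h2⟩ := h
    filter_upwards [eventually_ge_atTop s'] with s hs
    exact decide_eq_false fun h3 => h2 (h3 s' (by omega) h1)

theorem iterate_lim (m : ℕ) (σ : ℕ × ℕ) :
    ∀ᶠ s in atTop, (step (Ts s))^[m] σ = (step TT)^[m] σ := by
  induction m with
  | zero => simp
  | succ m ih =>
    filter_upwards [ih, Ts_lim ((step TT)^[m] σ).1 (ls ((step TT)^[m] σ).1 ((step TT)^[m] σ).2)]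
      with s h1 h2
    rw [Function.iterate_succ_apply', Function.iterate_succ_apply', h1]
    generalize (step TT)^[m] σ = ρ at h2
    unfold step
    rw [h2]

theorem computes_AA : RecIn (chi (jump ∅)) (chi AA) := by
  classical
  have h1 : Primrec fun p : (ℕ × ℕ) × (ℕ × ℕ) => step (Ts p.1.2) p.2 := by
    unfold step
    refine Primrec.ite (pp_le (by fun_prop) (by fun_prop)) (by fun_prop)
      (Primrec.ite (pp_eq ?_ (by fun_prop)) (by fun_prop) (by fun_prop))
    exact PrimrecPred.decide (pp_cst (by fun_prop) (by fun_prop) (by fun_prop))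
  have h2 : Primrec fun p : ℕ × ℕ => fin (Ts p.2) p.1 :=
    pr_LL (Primrec.fst.comp (Primrec.nat_iterate (h := fun (p : ℕ × ℕ) σ => step (Ts p.2) σ)
      Primrec.fst (by fun_prop) h1.to₂))
  refine recIn_of_limit (a := fun x s => if inA (fin (Ts s) x) x then 1 else 0)
    (Primrec.ite (pp_inA h2 Primrec.fst) (by fun_prop) (by fun_prop)) fun x => ?_
  filter_upwards [iterate_lim x (root, x)] with s hs
  have : fin (Ts s) x = fin TT x := by
    unfold fin
    rw [hs]
  rw [this]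
  by_cases h : inA (fin TT x) x
  · rw [if_pos h, eq_comm, chi_eq_one]
    exact h
  · rw [if_neg h, eq_comm, chi_eq_zero]
    exact h

theorem PL_eq (x i : ℕ) : PL x i = (List.range i).map fun r => P r x := by
  induction i with
  | zero => rfl
  | succ i ih => rw [List.range_succ, List.map_append, ← ih]; rfl

theorem P_lt (i x : ℕ) : P i x < 2 ^ i := by
  simpa [P, nxt] using D.num_lt (D.map_bt_lt (List.range i) (fun r => blk r ((PL x i).getD r 0) x) i)

theorem bt_P {i r : ℕ} (x : ℕ) (h : r < i) : bt (P i x) r = bt (blk r (P r x) x) i := by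
  rw [P, nxt, D.bt_num (D.map_bt_lt _ _ _), PL_eq]
  simp [h]

end Pool.Agent.MP_ac9d16_lc.E

end

section

namespace Pool.Agent.MP_ac9d16_lc.E

open Filter Pool.Agent.MP_9a65c4_lc Pool.Agent.MP_40fdec_lc

theorem ls_le (q t : ℕ) : ls q t ≤ t := by
  have := List.findIdx_le_length (p := fun b => decide (aa q ≤ b ∧ cst q b t)) (xs := List.range t)
  simpa [ls] using this

theorem ls_spec {q t : ℕ} (h : ls q t < t) : aa q ≤ ls q t ∧ cst q (ls q t) t := by
  have h' : (List.range t).findIdx (fun b => decide (aa q ≤ b ∧ cst q b t)) <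
      (List.range t).length := by simpa [ls] using h
  have := List.findIdx_getElem (w := h')
  rw [List.getElem_range] at this
  exact of_decide_eq_true this

theorem ls_min {q t b : ℕ} (h : b < ls q t) : ¬ (aa q ≤ b ∧ cst q b t) := by
  have := List.not_of_lt_findIdx (p := fun b => decide (aa q ≤ b ∧ cst q b t))
    (xs := List.range t) h
  rw [List.getElem_range] at this
  exact of_decide_eq_false this

theorem ls_eq {q t b : ℕ} (h1 : aa q ≤ b) (h2 : TT q b = true)
    (h3 : ∀ b' < b, ¬ (aa q ≤ b' ∧ TT q b' = true)) (ht : b ≤ t) : ls q t = b := by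
  rw [TT_iff] at h2
  rcases lt_trichotomy (ls q t) b with h | h | h
  · obtain ⟨h4, h5⟩ := ls_spec (lt_of_lt_of_le h ht)
    refine absurd ⟨h4, TT_iff.2 fun s hs => ?_⟩ (h3 _ h)
    by_cases hs' : s ≤ t
    · exact h5 s (by omega) hs
    · exact (h2 s (by omega)).trans (h5 b (by omega) h.le)
  · exact h
  · exact absurd ⟨h1, fun s _ hs => h2 s hs⟩ (ls_min h)

theorem ls_tendsto {q : ℕ} (h : ¬ ∃ b, aa q ≤ b ∧ TT q b = true) :
    Tendsto (ls q) atTop atTop := by
  refine tendsto_atTop.2 fun B => ?_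
  have h1 : ∀ᶠ t in atTop, ∀ b ∈ Finset.range B, ¬ (aa q ≤ b ∧ cst q b t) := by
    refine (eventually_all_finset _).2 fun b _ => ?_
    by_cases hb : aa q ≤ b
    · have h2 : TT q b = false := Bool.eq_false_iff.2 fun h' => h ⟨b, hb, h'⟩
      filter_upwards [Ts_lim q b] with t ht
      rw [h2] at ht
      exact fun h3 => of_decide_eq_false ht h3.2
    · exact Eventually.of_forall fun t h3 => hb h3.1
  filter_upwards [h1, eventually_ge_atTop B] with t ht hB
  by_contra h2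
  exact ht _ (Finset.mem_range.2 (by omega)) (ls_spec (by omega))

theorem ls_mono (q : ℕ) : Monotone (ls q) := by
  intro t t' h
  by_contra h1
  have h2 := ls_le q t
  obtain ⟨h3, h4⟩ := ls_spec (q := q) (t := t') (by omega)
  exact ls_min (not_le.1 h1) ⟨h3, fun s hs => h4 s (by omega)⟩

theorem view_concat (L : List ℕ) (q x : ℕ) : view (L ++ [q]) x = ls q (view L x) := by
  simp [view]

theorem view_mono (L : List ℕ) : Monotone (view L) := by
  induction L using List.reverseRecOn with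
  | nil => exact monotone_id
  | append_singleton L q ih =>
    intro x y h
    rw [view_concat, view_concat]
    exact ls_mono q (ih h)

theorem exists_least {q : ℕ} (h : ∃ b, aa q ≤ b ∧ TT q b = true) :
    ∃ b, aa q ≤ b ∧ TT q b = true ∧ ∀ b' < b, ¬ (aa q ≤ b' ∧ TT q b' = true) :=
  ⟨Nat.find h, (Nat.find_spec h).1, (Nat.find_spec h).2, fun _ hb => Nat.find_min h hb⟩

theorem step_stop {T : ℕ → ℕ → Bool} {σ : ℕ × ℕ} (h : σ.2 ≤ dd σ.1) : step T σ = σ := if_pos h

theorem step_go {T : ℕ → ℕ → Bool} {σ : ℕ × ℕ} (h : ¬ σ.2 ≤ dd σ.1) :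
    dd (step T σ).1 = dd σ.1 + 1 ∧ (step T σ).2 ≤ σ.2 ∧ (LL (step T σ).1 = LL σ.1 ∨
      (LL (step T σ).1 = LL σ.1 ++ [σ.1] ∧ ∃ b, ¬ T σ.1 b = true)) := by
  unfold step
  rw [if_neg h]
  split_ifs with h1
  · exact ⟨by simp [tc], le_rfl, Or.inl (by simp [tc])⟩
  · exact ⟨by simp [oc], ls_le _ _, Or.inr ⟨by simp [oc], _, h1⟩⟩

theorem iter_stop {T : ℕ → ℕ → Bool} (N : ℕ) : ∀ {σ : ℕ × ℕ}, σ.2 ≤ dd σ.1 + N →
    step T ((step T)^[N] σ) = (step T)^[N] σ := by
  induction N with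
  | zero => exact fun h => step_stop h
  | succ N ih =>
    intro σ h
    by_cases h1 : σ.2 ≤ dd σ.1
    · rw [Function.iterate_fixed (step_stop h1), step_stop h1]
    · obtain ⟨h3, h4, -⟩ := step_go (T := T) h1
      rw [Function.iterate_succ_apply]
      exact ih (by omega)

theorem iter_add {T : ℕ → ℕ → Bool} {σ : ℕ × ℕ} {N : ℕ} (h : σ.2 ≤ N) (m : ℕ) :
    (step T)^[m + N] σ = (step T)^[N] σ := by
  rw [Function.iterate_add_apply, Function.iterate_fixed (iter_stop N (by omega))]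

/-- Open nodes belong to different requirements and have small depth. -/
def Dist (L : List ℕ) (B : ℕ) : Prop :=
  (∀ v ∈ L, ∀ v' ∈ L, ix v = ix v' → v = v') ∧ ∀ v ∈ L, dd v < B

theorem dist_concat {q b B : ℕ} (h : Dist (LL q) B) (h1 : ¬ TT q b = true) (h2 : dd q < B) :
    Dist (LL q ++ [q]) B := by
  have h3 : ∀ v ∈ LL q, ¬ ix v = ix q := fun v hv h4 =>
    h1 (TT_iff.2 fun s _ => by rw [val, val, if_pos ⟨v, hv, h4⟩, if_pos ⟨v, hv, h4⟩])
  simp only [Dist, List.mem_append, List.mem_singleton]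
  refine ⟨?_, ?_⟩
  · rintro v (hv | rfl) v' (hv' | rfl) h4
    · exact h.1 v hv v' hv' h4
    · exact absurd h4 (h3 v hv)
    · exact absurd h4.symm (h3 v' hv')
    · rfl
  · rintro v (hv | rfl)
    · exact h.2 v hv
    · exact h2

theorem iter_ext {B : ℕ} (N : ℕ) : ∀ σ : ℕ × ℕ, Dist (LL σ.1) B → σ.2 ≤ B →
    Dist (LL ((step TT)^[N] σ).1) B ∧ ∀ v ∈ LL σ.1, v ∈ LL ((step TT)^[N] σ).1 := by
  induction N with
  | zero => exact fun _ h _ => ⟨h, fun _ h => h⟩
  | succ N ih =>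
    intro σ h hB
    by_cases h1 : σ.2 ≤ dd σ.1
    · rw [Function.iterate_fixed (step_stop h1)]
      exact ⟨h, fun _ h => h⟩
    · obtain ⟨-, h4, h5⟩ := step_go (T := TT) h1
      rw [Function.iterate_succ_apply]
      rcases h5 with h5 | ⟨h5, b, hb⟩
      · have := ih (step TT σ) (h5 ▸ h) (h4.trans hB)
        rwa [h5] at this
      · have := ih (step TT σ) (h5 ▸ dist_concat h hb (by omega)) (h4.trans hB)
        rw [h5] at this
        exact ⟨this.1, fun v hv => this.2 v (List.mem_append_left _ hv)⟩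

/-- The properties of the nodes on the true path. -/
structure OnP (q : ℕ) : Prop where
  dist : Dist (LL q) (dd q)
  lim : Tendsto (view (LL q)) atTop atTop
  run : ∀ x, aa q ≤ view (LL q) x → dd q < view (LL q) x →
    ∃ m, (step TT)^[m] (root, x) = (q, view (LL q) x)

theorem onP_root : OnP root :=
  ⟨by simp [root, Dist], by
    rw [root, LL_mk]
    exact tendsto_id, fun x _ _ => ⟨0, by simp [root, view]⟩⟩

theorem Dist.mono {L : List ℕ} {B B' : ℕ} (h : Dist L B) (hB : B ≤ B') : Dist L B' :=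
  ⟨h.1, fun v hv => lt_of_lt_of_le (h.2 v hv) hB⟩

theorem onP_tc {q b : ℕ} (h : OnP q) (h1 : aa q ≤ b) (h2 : TT q b = true)
    (h3 : ∀ b' < b, ¬ (aa q ≤ b' ∧ TT q b' = true)) : OnP (tc q b) := by
  have e1 : LL (tc q b) = LL q := by simp [tc]
  have e2 : aa (tc q b) = b := by simp [tc]
  have e3 : dd (tc q b) = dd q + 1 := by simp [tc]
  refine ⟨by rw [e1, e3]; exact h.dist.mono (by omega), e1 ▸ h.lim,
    fun x hx hx' => ?_⟩
  rw [e1] at hx hx' ⊢
  rw [e2] at hx
  rw [e3] at hx'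
  obtain ⟨m, hm⟩ := h.run x (by omega) (by omega)
  refine ⟨m + 1, ?_⟩
  rw [Function.iterate_succ_apply', hm]
  unfold step
  rw [if_neg (by simp only; omega)]
  simp only [ls_eq h1 h2 h3 hx, h2, if_true]

theorem onP_oc {q : ℕ} (h : OnP q) (h1 : ¬ ∃ b, aa q ≤ b ∧ TT q b = true) : OnP (oc q) := by
  have e1 : LL (oc q) = LL q ++ [q] := by simp [oc]
  have e2 : aa (oc q) = aa q := by simp [oc]
  have e3 : dd (oc q) = dd q + 1 := by simp [oc]
  have hL : view (LL (oc q)) = fun x => ls q (view (LL q) x) := by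
    funext x
    rw [e1, view_concat]
  refine ⟨?_, hL ▸ (ls_tendsto h1).comp h.lim, fun x hx hx' => ?_⟩
  · rw [e1, e3]
    exact dist_concat (h.dist.mono (by omega)) (fun h2 => h1 ⟨_, le_rfl, h2⟩) (by omega)
  simp only [hL] at hx hx' ⊢
  have h3 := ls_le q (view (LL q) x)
  obtain ⟨m, hm⟩ := h.run x (by omega) (by omega)
  refine ⟨m + 1, ?_⟩
  rw [Function.iterate_succ_apply', hm]
  unfold step
  rw [if_neg (by simp only; omega), if_neg fun h5 => h1 ⟨_, e2 ▸ hx, h5⟩]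

theorem exists_depth (d : ℕ) : ∃ q, OnP q ∧ dd q = d ∧
    ∀ v ∈ LL q, OnP v ∧ ¬ ∃ b, aa v ≤ b ∧ TT v b = true := by
  induction d with
  | zero => exact ⟨root, onP_root, by simp [root], by simp [root]⟩
  | succ d ih =>
    obtain ⟨q, h1, h2, h3⟩ := ih
    by_cases h : ∃ b, aa q ≤ b ∧ TT q b = true
    · obtain ⟨b, b1, b2, b3⟩ := exists_least h
      exact ⟨_, onP_tc h1 b1 b2 b3, by simp [tc, h2], by simpa only [tc, LL_mk] using h3⟩
    · refine ⟨_, onP_oc h1 h, by simp [oc, h2], fun v hv => ?_⟩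
      rw [oc, LL_mk] at hv
      rcases List.mem_append.1 hv with hv | hv
      · exact h3 v hv
      · rw [List.mem_singleton.1 hv]
        exact ⟨h1, h⟩

theorem fin_eq {q c k x : ℕ} (h : OnP q) (hc : TT q c = false) (hx : good q c k x) :
    fin TT x = LL ((step TT)^[c] (oc q, c)).1 := by
  obtain ⟨-, g2, g4, -⟩ := hx
  obtain ⟨m, hm⟩ := h.run x (by omega) (by omega)
  have h1 : (step TT)^[m + 1] (root, x) = (oc q, c) := by
    rw [Function.iterate_succ_apply', hm]
    unfold step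
    rw [if_neg (by simp only; omega)]
    simp [g4, hc]
  unfold fin
  rw [← iter_add (σ := (root, x)) le_rfl (c + (m + 1)),
    show c + (m + 1) + x = x + c + (m + 1) by ring, Function.iterate_add_apply, h1,
    iter_add (σ := (oc q, c)) le_rfl]

/-- An edge below a false life meets the required side. -/
theorem hit {q c : ℕ} {H : Set ℕ} (h : OnP q) (hc : TT q c = false)
    (hE : ∀ k < 2 ^ (c + dd q + 1), ∃ x ∈ H, good q c k x) :
    ∃ x ∈ H, (x ∈ AA ↔ ¬ side (ix q) = 0) := by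
  classical
  have e1 : LL (oc q) = LL q ++ [q] := by simp [oc]
  obtain ⟨h1, h2⟩ := iter_ext (B := c + dd q + 1) c (oc q, c)
    (e1 ▸ dist_concat (b := c) (h.dist.mono (by omega)) (by simp [hc]) (by omega)) (by simp; omega)
  have h3 := h2 q (by simp [e1])
  have h4 : ∀ x k, good q c k x → fin TT x = _ := fun x k => fin_eq h hc
  generalize LL ((step TT)^[c] (oc q, c)).1 = F at h1 h3 h4
  obtain ⟨k, hk, hk'⟩ := exists_bits (fun i => if h : ∃ v ∈ F, ix v = i then
    1 - bt (jx h.choose) (ix q) else 0) (fun r => by split_ifs <;> omega) (c + dd q + 1)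
  obtain ⟨x, hx, hg⟩ := hE k hk
  refine ⟨x, hx, ?_⟩
  change inA (fin TT x) x ↔ _
  rw [h4 x k hg]
  obtain ⟨g1, -, -, g5⟩ := hg
  have h5 : ∀ v ∈ F, ix q < ix v → ¬ P (ix v) x = jx v := by
    intro v hv h6 h7
    have h8 : ∃ v' ∈ F, ix v' = ix v := ⟨v, hv, rfl⟩
    have h9 := hk' (ix v) (lt_of_le_of_lt (Nat.unpair_left_le _) (h1.2 v hv))
    rw [dif_pos h8, h1.1 _ h8.choose_spec.1 v hv h8.choose_spec.2, ← g5, ← g1, ← bt_P x h6,
      h7] at h9
    have := bt_lt (jx v) (ix q)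
    omega
  constructor
  · rintro ⟨v, r1, r2, r3, r4⟩
    rcases lt_trichotomy (ix v) (ix q) with h6 | h6 | h6
    · exact absurd g1 (r3 q h3 h6)
    · rwa [h6] at r4
    · exact absurd r2 (h5 v r1 h6)
  · exact fun h6 => ⟨q, h3, g1, h5, h6⟩

theorem lf_le (q s : ℕ) : lf q s ≤ s := by
  induction s with
  | zero => exact le_rfl
  | succ s ih =>
    rw [lf]
    split_ifs <;> omega

theorem lf_mono (q : ℕ) : Monotone (lf q) := monotone_nat_of_le_succ fun s => by
  have := lf_le q s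
  rw [lf]
  split_ifs <;> omega

theorem lf_back {q s t : ℕ} (h1 : lf q s ≤ t) (h2 : t ≤ s) : lf q t = lf q s := by
  induction s with
  | zero => rw [Nat.le_zero.1 h2]
  | succ s ih =>
    rcases h2.eq_or_lt with rfl | h3
    · rfl
    · rw [lf] at h1 ⊢
      split_ifs at h1 ⊢ with h4
      · omega
      · exact ih h1 (by omega)

theorem lf_fwd {q s t : ℕ} (h2 : s ≤ t)
    (h : ∀ r < t, ¬ hl (ix q).unpair.1 (Nat.pair q (lf q s)) r) : lf q t = lf q s := by
  induction t, h2 using Nat.le_induction with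
  | base => rfl
  | succ t _ ih =>
    have h3 := ih fun r hr => h r (by omega)
    rw [lf, h3, if_neg (h t (by omega))]

theorem ls_lf {q t : ℕ} (h : ¬ ∃ v ∈ LL q, ix v = ix q) (h1 : aa q ≤ lf q t) :
    ls q t = lf q t := by
  have hv : ∀ s, val q s = lf q s := fun s => if_neg h
  have h2 := lf_le q t
  have h3 := ls_le q t
  rcases lt_trichotomy (ls q t) (lf q t) with h4 | h4 | h4
  · have h5 := (ls_spec (q := q) (t := t) (by omega)).2 t (by omega) h3
    have h6 := lf_le q (ls q t)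
    rw [hv, hv] at h5
    omega
  · exact h4
  · refine absurd ⟨h1, fun s hs hs' => ?_⟩ (ls_min h4)
    rw [hv, hv, lf_back hs' (by omega), lf_back le_rfl h2]

theorem life_of_const {q v : ℕ} (h : ∀ᶠ s in atTop, val q s = v) :
    ∃ b, aa q ≤ b ∧ TT q b = true := by
  obtain ⟨b, hb⟩ := eventually_atTop.1 h
  exact ⟨max b (aa q), le_max_right _ _, TT_iff.2 fun s hs =>
    (hb s ((le_max_left _ _).trans hs)).trans (hb _ (le_max_left _ _)).symm⟩

theorem alive {q : ℕ} (h : ¬ ∃ b, aa q ≤ b ∧ TT q b = true) : ¬ ∃ v ∈ LL q, ix v = ix q :=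
  fun h1 => h (life_of_const (Eventually.of_forall fun _ => if_pos h1))

theorem lf_unbounded {q : ℕ} (h : ¬ ∃ b, aa q ≤ b ∧ TT q b = true) (B : ℕ) :
    ∃ s, B < lf q s := by
  by_contra h1
  push Not at h1
  have h3 : (Set.range (lf q)).Finite := (Set.finite_Iic B).subset (by rintro _ ⟨x, rfl⟩; exact h1 x)
  obtain ⟨_, ⟨y, rfl⟩, hy⟩ := h3.exists_maximal (Set.range_nonempty _)
  exact h (life_of_const ((eventually_ge_atTop y).mono fun x hx => (if_neg (alive h)).trans
    (le_antisymm (hy ⟨x, rfl⟩ (lf_mono q hx)) (lf_mono q hx))))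

theorem released {q : ℕ} (h : ¬ ∃ b, aa q ≤ b ∧ TT q b = true) (s : ℕ) :
    ∃ r, hl (ix q).unpair.1 (Nat.pair q (lf q s)) r := by
  by_contra h1
  exact h (life_of_const ((eventually_ge_atTop s).mono fun x hx => (if_neg (alive h)).trans
    (lf_fwd hx fun r _ h2 => h1 ⟨r, h2⟩)))

theorem no_life {q : ℕ} (h : ¬ ∃ v ∈ LL q, ix v = ix q)
    (h1 : ∀ c, ∀ᶠ r in atTop, hl (ix q).unpair.1 (Nat.pair q c) r) :
    ¬ ∃ b, aa q ≤ b ∧ TT q b = true := by
  rintro ⟨b, -, h2⟩
  obtain ⟨r, r1, r2⟩ := ((h1 (lf q b)).and (eventually_ge_atTop b)).exists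
  have h3 := TT_iff.1 h2 r r2
  have h4 := TT_iff.1 h2 (r + 1) (by omega)
  have h5 := lf_le q b
  simp only [val, if_neg h] at h3 h4
  rw [lf, h3, if_pos r1] at h4
  omega

/-- All labels occur in an interval. -/
def Full (H : Set ℕ) (i j y s : ℕ) : Prop :=
  ∀ k < 2 ^ (y + y + 1), ∃ x < s, y ≤ x ∧ x ∈ H ∧ P i x = j ∧ blk i j x = k

theorem win {q : ℕ} {H : Set ℕ} {D : ℕ → ℕ} (h : OnP q) (h1 : ¬ ∃ b, aa q ≤ b ∧ TT q b = true)
    (h2 : ∀ c r y, hl (ix q).unpair.1 (Nat.pair q c) r → view (LL q) y < c → D y < r)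
    (h3 : ∀ y0, ∃ y z, y0 ≤ y ∧ Full H (ix q) (jx q) y z ∧ Full H (ix q) (jx q) z (D y)) :
    ∃ x ∈ H, (x ∈ AA ↔ ¬ side (ix q) = 0) := by
  obtain ⟨s, hs⟩ := lf_unbounded h1 (aa q + dd q)
  obtain ⟨y0, hy0⟩ := eventually_atTop.1 (h.lim.eventually_ge_atTop s)
  obtain ⟨y, z, a1, a2, a3⟩ := h3 y0
  have hle : ∀ x, view (LL q) x ≤ x := by
    intro x
    induction LL q using List.reverseRecOn with
    | nil => exact le_rfl
    | append_singleton L v ih => exact view_concat L v x ▸ (ls_le _ _).trans ih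
  have a4 : y ≤ z := by
    obtain ⟨x, x1, x2, -⟩ := a2 0 (by positivity)
    omega
  have a5 : aa q + dd q < lf q (view (LL q) z) := lt_of_lt_of_le hs (lf_mono q (hy0 z (by omega)))
  have a6 := lf_le q (view (LL q) z)
  have key : ∀ u w, lf q (view (LL q) z) ≤ view (LL q) u → Full H (ix q) (jx q) u w →
      (∀ x < w, u ≤ x → lf q (view (LL q) x) = lf q (view (LL q) z)) →
      ∃ x ∈ H, (x ∈ AA ↔ ¬ side (ix q) = 0) := by
    intro u w b1 b2 b3
    refine hit (c := lf q (view (LL q) z)) h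
      (Bool.eq_false_iff.2 fun b4 => h1 ⟨_, by omega, b4⟩) fun k hk => ?_
    have b5 := hle u
    obtain ⟨x, x1, x2, x3, x4, x5⟩ := b2 k
      (lt_of_lt_of_le hk (Nat.pow_le_pow_right (by norm_num) (by omega)))
    have b6 := view_mono (LL q) x2
    exact ⟨x, x3, x4, by omega, by rw [ls_lf (alive h1) (by rw [b3 x x1 x2]; omega), b3 x x1 x2],
      x5⟩
  by_cases b : lf q (view (LL q) z) ≤ view (LL q) y
  · exact key y z b a2 fun x x1 x2 =>
      lf_back (b.trans (view_mono _ x2)) (view_mono _ x1.le)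
  · refine key z (D y) a6 a3 fun x x1 x2 => lf_fwd (view_mono _ x2) fun r hr b1 => ?_
    have := h2 _ r y b1 (not_le.1 b)
    have := hle x
    omega

theorem exists_rich {H : Set ℕ} {i : ℕ} (h : ∀ w y, ∃ x ∈ H, y ≤ x ∧
      app i.unpair.2.unpair.2.unpair.1 i.unpair.2.unpair.2.unpair.1 x = w) :
    ∃ j, ∀ y, ∃ s, Full H i j y s := by
  have : ∃ j, ∀ k y, ∃ x ∈ H, y ≤ x ∧ P i x = j ∧ blk i j x = k := by
    by_contra h1
    push Not at h1
    choose K Y hK using h1
    obtain ⟨x, x1, x2, x3⟩ := h (Encodable.encode ((List.range (2 ^ i)).map K))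
      ((Finset.range (2 ^ i)).sup Y)
    refine hK (P i x) x x1 ((Finset.le_sup (Finset.mem_range.2 (P_lt i x))).trans x2) rfl ?_
    rw [blk, x3]
    simp [P_lt]
  obtain ⟨j, hj⟩ := this
  refine ⟨j, fun y => ?_⟩
  choose X x1 x2 x3 using fun k => hj k y
  exact ⟨(Finset.range (2 ^ (y + y + 1))).sup X + 1, fun k hk =>
    ⟨X k, Nat.lt_succ_of_le (Finset.le_sup (Finset.mem_range.2 hk)), x2 k, x1 k, x3 k⟩⟩

end Pool.Agent.MP_ac9d16_lc.E

end

section

namespace Pool.Agent.MP_ac9d16_lc.E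

open Nat.Partrec (Code)
open Filter Pool.Agent.MP_9a65c4_lc Pool.Agent.MP_40fdec_lc
open D (rtrans rseg rmap sigma1 stage run dom_iff jump_mono arslanov)

theorem exists_code_find {Θ : ℕ → ℕ → Prop} (hΘ : PrimrecPred fun a : ℕ × ℕ => Θ a.1 a.2) :
    ∃ γ : ℕ, ∀ n, (∀ v ∈ (Denumerable.ofNat Code γ).eval n, Θ n v) ∧
      ((∃ s, Θ n s) → ∃ v, v ∈ (Denumerable.ofNat Code γ).eval n) := by
  classical
  have h1 : Partrec fun n : ℕ => Nat.rfind fun s => (Part.some (decide (Θ n s)) : Part Bool) :=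
    Partrec.rfind (p := fun n s => Part.some (decide (Θ n s)))
      (Primrec.to_comp (PrimrecPred.decide hΘ)).partrec
  obtain ⟨c, hc⟩ := Code.exists_code.1 (Partrec.nat_iff.1 h1)
  refine ⟨Encodable.encode c, fun n => ?_⟩
  rw [Denumerable.ofNat_encode, hc]
  exact ⟨fun v hv => by simpa using Nat.rfind_spec hv, fun h => ⟨Nat.find h, Nat.mem_rfind.2
    ⟨by simpa using Nat.find_spec h, fun {m} hm => by simpa using Nat.find_min h hm⟩⟩⟩

theorem hl_ev {e n v : ℕ} (h : v ∈ (Denumerable.ofNat Code e).eval n) :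
    ∀ᶠ s in atTop, v < s ∧ Code.evaln s (Denumerable.ofNat Code e) n = some v := by
  obtain ⟨t, ht⟩ := Code.evaln_complete.1 h
  filter_upwards [eventually_gt_atTop v, eventually_ge_atTop t] with s h1 h2
  exact ⟨h1, Code.evaln_mono h2 ht⟩

/-- If the jump is not DNC, the set computes no dominant function. -/
theorem escape {H : Set ℕ} {f : ℕ → ℕ} (hf : RecIn (chi H) f)
    (hno : ¬ ∃ F, RecIn (chi (jump H)) F ∧ ∀ e, F e ∉ Phi (chi (jump ∅)) e e) :
    ∃ (δ : ℕ) (D : ℕ → ℕ), (∀ y, D y ∈ (Denumerable.ofNat Code δ).eval y) ∧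
      ∃ᶠ y in atTop, f y ≤ D y := by
  classical
  by_contra hd
  push Not at hd
  have h1 := sigma1 (rmap (RecIn.of_primrec Primrec.id)
    (hf.comp (RecIn.of_primrec (f := fun m => m.unpair.2) (by fun_prop)))
    (h := fun m u => if m.unpair.1.unpair.2.unpair.2 ≤ m.unpair.2 ∧
      ((m.unpair.1.unpair.2.unpair.1 = 0 ∧ ∀ s < u, m.unpair.2 ≤ s →
        app m.unpair.1.unpair.1 m.unpair.1.unpair.1 s =
          app m.unpair.1.unpair.1 m.unpair.1.unpair.1 m.unpair.2) ∨
      (¬ m.unpair.1.unpair.2.unpair.1 = 0 ∧ ¬ app m.unpair.1.unpair.1 m.unpair.1.unpair.1 m.unpair.2 =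
        app m.unpair.1.unpair.1 m.unpair.1.unpair.1 m.unpair.1.unpair.2.unpair.2)) then 0 else 1)
    (Primrec.ite ((pp_le (by fun_prop) (by fun_prop)).and
      (((pp_eq (by fun_prop) (by fun_prop)).and (pp_all_lt (by fun_prop)
        (pp_imp (pp_le (by fun_prop) (by fun_prop)) (pp_eq (by fun_prop) (by fun_prop))))).or
      ((pp_eq (by fun_prop) (by fun_prop)).not.and (pp_eq (by fun_prop) (by fun_prop)).not)))
      (by fun_prop) (by fun_prop)))
  obtain ⟨W, hW, hW'⟩ : ∃ W, RecIn (chi (jump H)) W ∧ ∀ e y, (W e).unpair.2 ≤ y →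
      ((W e).unpair.1 = 0 → ∃ s, y ≤ s ∧ ¬ app e e s = app e e y) ∧
      (¬ (W e).unpair.1 = 0 → app e e y = app e e (W e).unpair.2) := by
    refine ⟨_, h1.search fun e => ?_, fun e y => ?_⟩
    · by_cases h : ∃ y0, ∀ y, y0 ≤ y → app e e y = app e e y0
      · obtain ⟨y0, h⟩ := h
        exact ⟨Nat.pair 1 y0, chi_eq_zero.2 (by simpa using h)⟩
      · push Not at h
        obtain ⟨δ, hδ⟩ := exists_code_find (Θ := fun y s => y ≤ s ∧ ¬ app e e s = app e e y)
          ((pp_le (by fun_prop) (by fun_prop)).and (pp_eq (by fun_prop) (by fun_prop)).not)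
        choose D hD using fun y => (hδ y).2 (h y)
        obtain ⟨y0, h0⟩ := eventually_atTop.1 (hd δ D hD)
        refine ⟨Nat.pair 0 y0, chi_eq_zero.2 ?_⟩
        simpa using fun y hy => ⟨D y, h0 y hy, (hδ y).1 _ (hD y)⟩
    · generalize_proofs h4
      have h5 := chi_eq_zero.1 (Nat.find_spec h4)
      generalize Nat.find h4 = w at h5
      intro hy
      simp only [Set.mem_ofPred_eq, id, Nat.unpair_pair, ite_eq_left_iff, one_ne_zero, imp_false,
        not_not, not_exists] at h5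
      refine ⟨fun h => ?_, fun h => not_not.1 fun h6 => h5 y ⟨hy, Or.inr ⟨h, h6⟩⟩⟩
      by_contra h6
      exact h5 y ⟨hy, Or.inl ⟨h, fun s _ hs => not_not.1 fun h7 => h6 ⟨s, hs, h7⟩⟩⟩
  refine hno ⟨_, rmap (RecIn.of_primrec Primrec.id) hW
    (h := fun e w => app e e w.unpair.2 + 1) (by fun_prop), fun e he => ?_⟩
  obtain ⟨y, hy⟩ := eventually_atTop.1 ((app_lim he).and (eventually_ge_atTop (W e).unpair.2))
  obtain ⟨h2, h3⟩ := hW' e y (hy y le_rfl).2
  by_cases h : (W e).unpair.1 = 0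
  · obtain ⟨s, s1, s2⟩ := h2 h
    exact s2 ((hy s s1).1.trans (hy y le_rfl).1.symm)
  · have := (hy y le_rfl).1
    rw [h3 h] at this
    simp at this

/-- Approximation of the diagonal function of a jump. -/
theorem lim_diag (X : Set ℕ) : ∃ b, RecIn (chi X) b ∧
    ∀ e v, v ∈ Phi (chi (jump X)) e e → ∀ᶠ s in atTop, b (Nat.pair e s) = v := by
  obtain ⟨κ, hκ, h⟩ : ∃ κ, RecIn (chi X) κ ∧
      ∀ z, ∀ᶠ s in atTop, κ (Nat.pair s z) = chi (jump X) z := by
    refine ⟨_, stage (chi X), fun z => ?_⟩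
    simp only [Nat.unpair_pair]
    by_cases h : z ∈ jump X
    · rw [chi_eq_one.2 h]
      obtain ⟨r, hr⟩ := dom_iff.1 h
      exact (eventually_gt_atTop r).mono fun s hs => if_pos ⟨r, hs, hr⟩
    · rw [chi_eq_zero.2 h]
      exact Eventually.of_forall fun s => if_neg fun ⟨r, _, hr⟩ => h (dom_iff.2 ⟨r, hr⟩)
  refine ⟨_, rseg hκ (H := fun m τ => ((List.range m.unpair.2).filterMap fun r =>
      ev m.unpair.1 m.unpair.1 r.unpair.2 ((List.range r.unpair.1).map fun z =>
        τ.getD (Nat.pair m.unpair.2 z) 0)).headI) ?_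
    (b := fun m => Nat.pair m.unpair.2 m.unpair.2) (by fun_prop), fun e v hv => ?_⟩
  · refine Primrec.list_headI.comp (Primrec.listFilterMap (by fun_prop) ?_)
    change Primrec fun a : (ℕ × List ℕ) × ℕ => _
    fun_prop
  · obtain ⟨r, h1, h2⟩ := mem_Phi.1 hv
    have h3 : ∀ᶠ s in atTop, ∀ z ∈ Finset.range r, κ (Nat.pair s z) = chi (jump X) z :=
      (eventually_all_finset _).2 fun z _ => h z
    filter_upwards [h3, eventually_gt_atTop r] with s hs hr
    have h4 : ∀ m ≤ r, ((List.range m.unpair.1).map fun z =>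
        (seg κ (Nat.pair s s)).getD (Nat.pair s z) 0) = seg (chi (jump X)) m.unpair.1 :=
      fun m hm => List.map_congr_left fun z hz => by
        have h5 : z < r := lt_of_lt_of_le (List.mem_range.1 hz) ((Nat.unpair_left_le m).trans hm)
        rw [seg_getD (Nat.pair_lt_pair_right _ (by omega)), hs z (Finset.mem_range.2 h5)]
    simp only [Nat.unpair_pair]
    refine headI_filterMap (by rw [h4 r le_rfl]; exact h1) (fun m hm => ?_) hr
    rw [h4 m hm.le]
    exact h2 m hm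

def full (τ : List ℕ) (i j y s : ℕ) : Prop :=
  ∀ k < 2 ^ (y + y + 1), ∃ x < s, y ≤ x ∧ τ.getD x 0 = 1 ∧ P i x = j ∧ blk i j x = k

theorem pp_full {α : Type*} [Primcodable α] {τ : α → List ℕ} {i j y s : α → ℕ} (hτ : Primrec τ)
    (hi : Primrec i) (hj : Primrec j) (hy : Primrec y) (hs : Primrec s) :
    PrimrecPred fun a => full (τ a) (i a) (j a) (y a) (s a) :=
  pp_all_lt (R := fun a k => ∃ x < s a, y a ≤ x ∧ (τ a).getD x 0 = 1 ∧ P (i a) x = j a ∧
      blk (i a) (j a) x = k) (by fun_prop)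
    (pp_ex_lt (R := fun (a : α × ℕ) x => y a.1 ≤ x ∧ (τ a.1).getD x 0 = 1 ∧ P (i a.1) x = j a.1 ∧
      blk (i a.1) (j a.1) x = a.2) (by fun_prop)
      ((pp_le (by fun_prop) (by fun_prop)).and ((pp_eq (by fun_prop) (by fun_prop)).and
        ((pp_eq (by fun_prop) (by fun_prop)).and (pp_eq (by fun_prop) (by fun_prop))))))

theorem full_seg {H : Set ℕ} {i j y s m : ℕ} (h : s ≤ m) :
    full (seg (chi H) m) i j y s ↔ Full H i j y s := by
  refine forall₂_congr fun k _ => exists_congr fun x => and_congr_right fun hx => ?_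
  rw [seg_getD (lt_of_lt_of_le hx h), chi_eq_one]

/-- The matrix of a correct guess. -/
def UU (τ : List ℕ) (i g y0 s : ℕ) : Prop :=
  hl g.unpair.2 y0 s ∧ ∃ y < s, ∃ z < s, ∃ v < s, y0 ≤ y ∧
    ev' g.unpair.2 y s = some v ∧ full τ i g.unpair.1 y z ∧ full τ i g.unpair.1 z v
where ev' (e n s : ℕ) : Option ℕ := Code.evaln s (Denumerable.ofNat Code e) n

theorem pp_UU {α : Type*} [Primcodable α] {τ : α → List ℕ} {i g y s : α → ℕ} (hτ : Primrec τ)
    (hi : Primrec i) (hg : Primrec g) (hy : Primrec y) (hs : Primrec s) :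
    PrimrecPred fun a => UU (τ a) (i a) (g a) (y a) (s a) :=
  (pp_hl (by fun_prop) hy hs).and (pp_ex_lt hs (pp_ex_lt (by fun_prop) (pp_ex_lt (by fun_prop)
    ((pp_le (by fun_prop) (by fun_prop)).and ((pp_eq (Code.primrec_evaln.comp
      (g := fun a : ((α × ℕ) × ℕ) × ℕ =>
        ((s a.1.1.1, Denumerable.ofNat Code (g a.1.1.1).unpair.2), a.1.1.2))
      (Primrec.pair (Primrec.pair (by fun_prop) ((Primrec.ofNat Code).comp (by fun_prop)))
        (by fun_prop))) (Primrec.option_some.comp Primrec.snd)).and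
      ((pp_full (by fun_prop) (by fun_prop) (by fun_prop) (by fun_prop) (by fun_prop)).and
        (pp_full (by fun_prop) (by fun_prop) (by fun_prop) (by fun_prop) (by fun_prop))))))))

theorem exists_guess {H : Set ℕ} {i : ℕ} (h : ∀ w y, ∃ x ∈ H, y ≤ x ∧
      app i.unpair.2.unpair.2.unpair.1 i.unpair.2.unpair.2.unpair.1 x = w)
    (hno : ¬ ∃ F, RecIn (chi (jump H)) F ∧ ∀ e, F e ∉ Phi (chi (jump ∅)) e e) :
    ∃ g, ∀ y0, ∃ s, UU (seg (chi H) s) i g y0 s := by
  obtain ⟨j, hj⟩ := exists_rich h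
  obtain ⟨f, hf, hf'⟩ := recIn_search_seg (p := chi H) (R := fun y w τ => full τ i j y w)
    (pp_full (by fun_prop) (by fun_prop) (by fun_prop) (by fun_prop) (by fun_prop))
    fun y => (hj y).imp fun s hs => (full_seg le_rfl).2 hs
  obtain ⟨δ, D, hD, hD'⟩ := escape (hf.comp hf) hno
  refine ⟨Nat.pair j δ, fun y0 => ?_⟩
  obtain ⟨y, y1, y2⟩ := (hD'.and_eventually (eventually_ge_atTop y0)).exists
  obtain ⟨s, s1, s2, s3, s4⟩ := ((hl_ev (hD y0)).and ((hl_ev (hD y)).and
    ((eventually_gt_atTop y).and (eventually_gt_atTop (f y))))).exists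
  simp only [UU, Nat.unpair_pair]
  refine ⟨s, ⟨_, s1⟩, y, s3, f y, s4, D y, s2.1, y2, s2.2,
    (full_seg s4.le).2 ((full_seg le_rfl).1 (hf' y)), (full_seg s2.1.le).2 fun k hk => ?_⟩
  obtain ⟨x, x1, x2⟩ := (full_seg le_rfl).1 (hf' (f y)) k hk
  exact ⟨x, lt_of_lt_of_le x1 y1, x2⟩

/-- The condition that ends a life. -/
def Th (β q c s : ℕ) : Prop :=
  (∀ w < c, ∃ t < s, ¬ (q ≤ w.unpair.1 ∧ (w.unpair.2 ≤ t →
    ¬ app β (Nat.pair (ix q).unpair.2.unpair.2.unpair.2 w.unpair.1) t = gx q))) ∧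
  (∃ y < s, c ≤ view (LL q) y) ∧ ∀ y < s, view (LL q) y < c → hl (gx q).unpair.2 y s

theorem pp_Th (β : ℕ) : PrimrecPred fun a : ℕ × ℕ => Th β a.1.unpair.1 a.1.unpair.2 a.2 :=
  (pp_all_lt (by fun_prop) (pp_ex_lt (by fun_prop) ((pp_le (by fun_prop) (by fun_prop)).and
    (pp_imp (pp_le (by fun_prop) (by fun_prop)) (pp_eq (by fun_prop) (by fun_prop)).not)).not)).and
  ((pp_ex_lt (R := fun (a : ℕ × ℕ) y => a.1.unpair.2 ≤ view (LL a.1.unpair.1) y) (by fun_prop)
    (pp_le (by fun_prop) (by fun_prop))).and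
    (pp_all_lt (R := fun (a : ℕ × ℕ) y => view (LL a.1.unpair.1) y < a.1.unpair.2 →
      hl (gx a.1.unpair.1).unpair.2 y a.2) (by fun_prop) (pp_imp (pp_lt (by fun_prop) (by fun_prop))
      (pp_hl (by fun_prop) (by fun_prop) (by fun_prop)))))

theorem dnc_or_dnc {H : Set ℕ} (hH : H.Infinite) (h : H ⊆ AA ∨ H ⊆ AAᶜ) :
    (∃ f, RecIn (chi (jump H)) f ∧ ∀ e, f e ∉ Phi (chi (jump ∅)) e e) ∨
      ∃ f, RecIn (chi (jump (jump H))) f ∧ ∀ e, f e ∉ Phi (chi (jump (jump ∅))) e e := by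
  classical
  rw [or_iff_not_imp_left]
  intro hno
  by_contra hno2
  obtain ⟨sd, hsd⟩ : ∃ sd : ℕ, ∀ x ∈ H, ¬ (x ∈ AA ↔ ¬ sd = 0) := by
    rcases h with h | h
    · exact ⟨0, fun x hx h' => h'.1 (h hx) rfl⟩
    · exact ⟨1, fun x hx h' => h hx (h'.2 one_ne_zero)⟩
  obtain ⟨n, hn⟩ : ∃ n, ∀ w y, ∃ x ∈ H, y ≤ x ∧ app n n x = w := by
    by_contra h1
    push Not at h1
    obtain ⟨f, hf, hf'⟩ := search_neg pp_thD (X := H) fun n => by
      obtain ⟨w, y, hw⟩ := h1 n
      exact ⟨Nat.pair w y, thD_iff.2 (by simpa using hw)⟩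
    exact hno ⟨fun n => (f n).unpair.1,
      (RecIn.of_primrec (f := fun z => z.unpair.1) (by fun_prop)).comp hf,
      fun n => not_mem_Phi hH (thD_iff.1 (hf' n))⟩
  obtain ⟨b, hb, hb'⟩ := lim_diag (jump ∅)
  obtain ⟨β, hβ⟩ := exists_app hb
  obtain ⟨γ, hγ⟩ := exists_code_find (Θ := fun n s => Th β n.unpair.1 n.unpair.2 s) (pp_Th β)
  obtain ⟨I, hI⟩ : ∃ I : ℕ → ℕ, ∀ e, I e = Nat.pair γ (Nat.pair sd (Nat.pair n e)) :=
    ⟨_, fun _ => rfl⟩
  have hI' : Primrec I := by
    rw [funext hI]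
    fun_prop
  obtain ⟨J, hJ, hJ'⟩ : ∃ J, RecIn (chi (jump (jump H))) J ∧
      ∀ e y0, ∃ s, UU (seg (chi H) s) (I e) (J e) y0 s := by
    have h1 := sigma1 (sigma1 (rseg (RecIn.oracle (o := chi H)) (H := fun m τ =>
      if UU τ (I m.unpair.1.unpair.1.unpair.1) m.unpair.1.unpair.1.unpair.2 m.unpair.1.unpair.2
        m.unpair.2 then 0 else 1)
      (Primrec.ite (pp_UU (by fun_prop) (by fun_prop) (by fun_prop) (by fun_prop) (by fun_prop))
        (by fun_prop) (by fun_prop)) (b := fun m => m.unpair.2) (by fun_prop)))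
    refine ⟨_, h1.search fun e => ?_, fun e y0 => ?_⟩
    · obtain ⟨g, hg⟩ := exists_guess (i := I e) (by simpa [hI] using hn) hno
      exact ⟨g, chi_eq_zero.2 (by simpa [chi_eq_zero] using hg)⟩
    · generalize_proofs h4
      have h5 := chi_eq_zero.1 (Nat.find_spec h4)
      generalize Nat.find h4 = w at h5
      simp only [Set.mem_ofPred_eq, chi_eq_zero, Nat.unpair_pair, ite_eq_left_iff, one_ne_zero,
        imp_false, not_not, not_exists, not_forall] at h5
      exact h5 y0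
  obtain ⟨e, he⟩ : ∃ e, J e ∈ Phi (chi (jump (jump ∅))) e e := by
    by_contra h1
    exact hno2 ⟨J, hJ, fun e h2 => h1 ⟨e, h2⟩⟩
  obtain ⟨m, hm⟩ := eventually_atTop.1 (hb' e _ he)
  choose D hD using fun y => show ∃ v, v ∈ (Denumerable.ofNat Code (J e).unpair.2).eval y from
    let ⟨_, ⟨v, _, hv⟩, _⟩ := hJ' e y; ⟨v, Code.evaln_sound hv⟩
  have e1 : (I e).unpair.1 = γ := by simp [hI]
  have e2 : (I e).unpair.2.unpair.2.unpair.2 = e := by simp [hI]
  have hT : ∀ q c r, ix q = I e → hl (ix q).unpair.1 (Nat.pair q c) r → ∃ s < r, Th β q c s := by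
    rintro q c r h1 ⟨v, h2, h3⟩
    rw [h1, e1] at h3
    exact ⟨v, h2, by simpa using (hγ _).1 v (Code.evaln_sound h3)⟩
  obtain ⟨v, v1, v2, v3⟩ : ∃ v, ix v = I e ∧ OnP v ∧ ¬ ∃ b, aa v ≤ b ∧ TT v b = true := by
    obtain ⟨q, q1, q2, q3⟩ := exists_depth (Nat.pair (I e) (Nat.pair (J e) m))
    have e3 : ix q = I e := by simp [ix, q2]
    have e4 : gx q = J e := by simp [gx, q2]
    by_cases h1 : ∃ v ∈ LL q, ix v = ix q
    · obtain ⟨v, h1, h2⟩ := h1
      exact ⟨v, h2.trans e3, q3 v h1⟩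
    refine ⟨q, e3, q1, no_life h1 fun c => ?_⟩
    have a1 : ∀ᶠ s in atTop, ∀ w ∈ Finset.range c, ∃ t < s, ¬ (q ≤ w.unpair.1 ∧ (w.unpair.2 ≤ t →
        ¬ app β (Nat.pair e w.unpair.1) t = J e)) := (eventually_all_finset _).2 fun w _ => by
      obtain ⟨t, t1, t2⟩ :=
        ((hβ (Nat.pair e w.unpair.1)).and (eventually_ge_atTop w.unpair.2)).exists
      refine (eventually_gt_atTop t).mono fun s hs => ⟨t, hs, fun h2 => h2.2 t2 (t1.trans (hm _ ?_))⟩
      have a1 : dd q ≤ q := Nat.unpair_left_le _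
      have a3 := Nat.right_le_pair (I e) (Nat.pair (J e) m)
      have a4 := Nat.right_le_pair (J e) m
      omega
    obtain ⟨y, hy⟩ := eventually_atTop.1 (q1.lim.eventually_ge_atTop c)
    have a2 : ∀ᶠ s in atTop, ∀ y' ∈ Finset.range y, hl (J e).unpair.2 y' s :=
      (eventually_all_finset _).2 fun y' _ => (hl_ev (hD y')).mono fun s hs => ⟨_, hs⟩
    obtain ⟨s, s1, s2, s3⟩ := (a1.and (a2.and (eventually_gt_atTop y))).exists
    obtain ⟨u, hu⟩ := (hγ (Nat.pair q c)).2 ⟨s, by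
      simp only [Nat.unpair_pair, Th, e3, e4, e2]
      exact ⟨fun w hw => s1 w (Finset.mem_range.2 hw), ⟨y, s3, hy y le_rfl⟩, fun y' _ h2 =>
        s2 y' (Finset.mem_range.2 (not_le.1 fun h3 => (hy y' h3).not_gt h2))⟩⟩
    rw [e3, e1]
    exact (hl_ev hu).mono fun s hs => ⟨_, hs⟩
  have e4 : gx v = J e := by
    by_contra h1
    obtain ⟨t0, ht0⟩ := eventually_atTop.1 (hβ (Nat.pair e (max m v)))
    obtain ⟨s, hs⟩ := lf_unbounded v3 (Nat.pair (max m v) t0)
    obtain ⟨r, hr⟩ := released v3 s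
    obtain ⟨s', -, h2, -⟩ := hT _ _ _ v1 hr
    obtain ⟨t, -, h3⟩ := h2 _ hs
    rw [v1, e2, Nat.unpair_pair] at h3
    exact h3 ⟨le_max_right _ _, fun h4 h5 =>
      h1 (h5.symm.trans ((ht0 t h4).trans (hm _ (le_max_left _ _))))⟩
  obtain ⟨x, x1, x2⟩ := win (H := H) (D := D) v2 v3 (fun c r y h1 h2 => by
      obtain ⟨s, s1, -, ⟨y', y1, y2⟩, s2⟩ := hT _ _ _ v1 h1
      have a1 : y < y' := not_le.1 fun h3 => by
        have := view_mono (LL v) h3
        omega
      obtain ⟨u, u1, u2⟩ := s2 y (by omega) h2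
      rw [e4] at u2
      rw [Part.mem_unique (hD y) (Code.evaln_sound u2)]
      omega) fun y0 => by
    obtain ⟨s, -, y, -, z, z1, u, u1, a1, a2, a3, a4⟩ := hJ' e y0
    rw [jx, e4, v1]
    exact ⟨y, z, a1, (full_seg z1.le).1 a3,
      Part.mem_unique (hD y) (Code.evaln_sound a2) ▸ (full_seg u1.le).1 a4⟩
  refine hsd x x1 ?_
  simpa [v1, hI, side] using x2

theorem high2 {H : Set ℕ} (hH : H.Infinite) (h : H ⊆ AA ∨ H ⊆ AAᶜ)
    (h1 : RecIn (chi (jump ∅)) (chi H)) :
    RecIn (chi (jump (jump H))) (chi (jump (jump (jump ∅)))) := by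
  have h4 : RecIn (chi H) (chi ∅) :=
    (RecIn.of_primrec (Primrec.const 0)).of_eq fun n => (chi_eq_zero.2 (by simp)).symm
  rcases dnc_or_dnc hH h with ⟨f, hf, hf'⟩ | ⟨f, hf, hf'⟩
  · exact jump_mono (arslanov h1 (jump_mono h4) hf hf')
  · exact arslanov (jump_mono h1) (jump_mono (jump_mono h4)) hf hf'

end Pool.Agent.MP_ac9d16_lc.E

end

section

namespace Pool.Agent.MP_ac9d16_lc.T

open Filter Pool.Agent.MP_9a65c4_lc Pool.Agent.MP_40fdec_lc
open D (rtrans rseg rmap sigma1 rsub rrun run dom_iff)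

/-- Every label occurs infinitely often on `H` in the part `j`. -/
def Rich (H : Set ℕ) (i j : ℕ) : Prop :=
  ∀ g y, ∃ x ∈ H, y ≤ x ∧ D.P i x = j ∧ D.blk i j x = g

/-- A function that leaves almost every epoch computes the halting set. -/
theorem computes_of_leave {p E : ℕ → ℕ} (hE : RecIn p E)
    (h : ∀ᶠ t in atTop, t ≤ E t ∧ ep t < ep (E t)) : RecIn p (chi (jump ∅)) := by
  obtain ⟨t0, ht⟩ := eventually_atTop.1 h
  have h1 := ((RecIn.of_primrec (Primrec.const t0)).prec (hE.comp (RecIn.of_primrec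
    (f := fun m => m.unpair.2.unpair.2) (by fun_prop)))).comp
      (RecIn.of_primrec (f := fun z => Nat.pair 0 (z + 1)) (by fun_prop))
  simp only [Nat.unpair_pair] at h1
  have h2 : ∀ n : ℕ, t0 ≤ Nat.rec (motive := fun _ => ℕ) t0 (fun _ ih => E ih) n ∧
      n ≤ ep (Nat.rec (motive := fun _ => ℕ) t0 (fun _ ih => E ih) n) := by
    intro n
    induction n with
    | zero => exact ⟨le_rfl, Nat.zero_le _⟩
    | succ n ih => exact ⟨ih.1.trans (ht _ ih.1).1, lt_of_le_of_lt ih.2 (ht _ ih.1).2⟩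
  exact (rmap h1 (RecIn.of_primrec Primrec.id) (h := Ks) (by fun_prop)).of_eq fun z =>
    ep_min (h2 (z + 1)).2

theorem win {H : Set ℕ} {i : ℕ} (hs : ∀ x ∈ H, ¬ (x ∈ AA ↔ ¬ D.side i = 0))
    (h : ∀ᶠ k in atTop, Rich H i (act (seg (chi (jump ∅)) k) i)) :
    RecIn (chi H) (chi (jump ∅)) := by
  classical
  obtain ⟨L, hL⟩ : ∃ L : List ℕ, ∀ j, j ∈ L ↔ Rich H i j := by
    refine ⟨(List.range (2 ^ i)).filter fun j => decide (Rich H i j), fun j => ?_⟩
    simp only [List.mem_filter, List.mem_range, decide_eq_true_eq, and_iff_right_iff_imp]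
    intro hj
    obtain ⟨x, -, -, rfl, -⟩ := hj 0 0
    exact D.P_lt i x
  obtain ⟨f, hf, hf'⟩ := recIn_search_seg (p := chi H)
    (R := fun t s τ => t ≤ s ∧ ∀ j ∈ L, ∀ g < 2 ^ t, ∃ x < s, t ≤ x ∧ τ.getD x 0 = 1 ∧
      D.P i x = j ∧ D.blk i j x = g)
    ((pp_le (by fun_prop) (by fun_prop)).and (pp_all_mem (by fun_prop) (pp_all_lt (by fun_prop)
      (pp_ex_lt (by fun_prop) ((pp_le (by fun_prop) (by fun_prop)).and
        ((pp_eq (by fun_prop) (by fun_prop)).and ((pp_eq (by fun_prop) (by fun_prop)).and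
          (pp_eq (by fun_prop) (by fun_prop))))))))) (by
      intro t
      have h1 : ∀ᶠ s in atTop, ∀ j ∈ L.toFinset, ∀ g ∈ Finset.range (2 ^ t), ∃ x < s, t ≤ x ∧
          (seg (chi H) s).getD x 0 = 1 ∧ D.P i x = j ∧ D.blk i j x = g := by
        refine (eventually_all_finset _).2 fun j hj => (eventually_all_finset _).2 fun g _ => ?_
        obtain ⟨x, x1, x2, x3⟩ := (hL j).1 (List.mem_toFinset.1 hj) g t
        exact (eventually_gt_atTop x).mono fun s hs =>
          ⟨x, hs, x2, by rwa [seg_getD hs, chi_eq_one], x3⟩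
      obtain ⟨s, s1, s2⟩ := ((eventually_ge_atTop t).and h1).exists
      exact ⟨s, s1, fun j hj g hg => s2 j (List.mem_toFinset.2 hj) g (Finset.mem_range.2 hg)⟩)
  refine computes_of_leave hf ?_
  filter_upwards [ep_lim.eventually h, ep_lim.eventually_gt_atTop i] with t t1 t2
  refine ⟨(hf' t).1, not_le.1 fun t3 => ?_⟩
  obtain ⟨x, ⟨x1, x2⟩, x3⟩ := hit (τ := seg (chi (jump ∅)) (ep t)) (i := i)
    (S := {x | x ∈ H ∧ ep x = ep t}) (by rwa [seg_length]) fun g hg => by
      rw [seg_length] at hg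
      obtain ⟨x, x1, x2, x3, x4⟩ := (hf' t).2 _ ((hL _).2 t1) g
        (lt_of_lt_of_le hg (Nat.pow_le_pow_right (by norm_num) (ep_le t)))
      rw [seg_getD x1, chi_eq_one] at x3
      exact ⟨x, ⟨x3, le_antisymm ((ep_mono x1.le).trans t3) (ep_mono x2)⟩, x4⟩
  exact hs x x1 (by rw [← x3, ← x2]; rfl)

theorem dnc_jump (X : Set ℕ) : ∃ f, RecIn (chi (jump X)) f ∧ ∀ e, f e ∉ Phi (chi X) e e := by
  have key : ∀ e w, (∃ k, ∃ r < (seg (chi X) k).length,
      ev e e r.unpair.2 (seg (fun z => (seg (chi X) k).getD z 0) r.unpair.1) = some w ∧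
      ∀ r' < r, ev e e r'.unpair.2 (seg (fun z => (seg (chi X) k).getD z 0) r'.unpair.1) = none) ↔
      w ∈ Phi (chi X) e e := by
    intro e w
    have h1 : ∀ {k r : ℕ}, r < k → seg (fun z => (seg (chi X) k).getD z 0) r.unpair.1 =
        seg (chi X) r.unpair.1 := fun h => seg_seg ((Nat.unpair_left_le _).trans h.le)
    simp only [mem_Phi, seg_length]
    constructor
    · rintro ⟨k, r, r1, r2, r3⟩
      exact ⟨r, h1 r1 ▸ r2, fun r' hr => h1 (hr.trans r1) ▸ r3 r' hr⟩
    · rintro ⟨r, r2, r3⟩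
      exact ⟨r + 1, r, by omega, by rwa [h1 (by omega)], fun r' hr => by
        rw [h1 (by omega)]; exact r3 r' hr⟩
  obtain ⟨f, hf, hf'⟩ := search_neg (X := X) (Θ := fun e w τ => ∃ r < τ.length,
      ev e e r.unpair.2 (seg (fun z => τ.getD z 0) r.unpair.1) = some w ∧
      ∀ r' < r, ev e e r'.unpair.2 (seg (fun z => τ.getD z 0) r'.unpair.1) = none)
    (pp_ex_lt (by fun_prop) ((pp_eq (by unfold seg; fun_prop)
      (Primrec.option_some.comp (by fun_prop))).and
      (pp_all_lt (by fun_prop) (pp_eq (by unfold seg; fun_prop) (by fun_prop))))) (by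
      intro e
      by_cases h : 0 ∈ Phi (chi X) e e
      · exact ⟨1, fun k hk => absurd (Part.mem_unique h ((key e 1).1 ⟨k, hk⟩)) (by norm_num)⟩
      · exact ⟨0, fun k hk => h ((key e 0).1 ⟨k, hk⟩)⟩)
  exact ⟨f, hf, fun e he => let ⟨k, hk⟩ := (key e _).2 he; hf' e k hk⟩

theorem core {H : Set ℕ} (hH : H.Infinite) (h : H ⊆ AA ∨ H ⊆ AAᶜ)
    (hno : ¬ ∃ f, RecIn (chi (jump H)) f ∧ ∀ e, f e ∉ Phi (chi (jump ∅)) e e) :
    ∃ m, ∀ c, (∃ j, Rich H (Nat.pair c m) j) ∧ ∀ j < 2 ^ Nat.pair c m,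
      Prop2 (chi (jump ∅)) (Nat.pair c m) j →
        ∃ j', Prop2 (chi (jump ∅)) (Nat.pair c m) j' ∧ ¬ Rich H (Nat.pair c m) j' := by
  obtain ⟨sd, hsd⟩ : ∃ sd : ℕ, ∀ x ∈ H, ¬ (x ∈ AA ↔ ¬ sd = 0) := by
    rcases h with h | h
    · exact ⟨0, fun x hx h' => h'.1 (h hx) rfl⟩
    · exact ⟨1, fun x hx h' => h hx (h'.2 one_ne_zero)⟩
  obtain ⟨n, hn⟩ : ∃ n, ∀ w y, ∃ x ∈ H, y ≤ x ∧ app n n x = w := by
    by_contra h1
    push Not at h1
    obtain ⟨f, hf, hf'⟩ := search_neg pp_thD (X := H) fun n => by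
      obtain ⟨w, y, hw⟩ := h1 n
      exact ⟨Nat.pair w y, thD_iff.2 (by simpa using hw)⟩
    exact hno ⟨fun n => (f n).unpair.1,
      (RecIn.of_primrec (f := fun z => z.unpair.1) (by fun_prop)).comp hf,
      fun n => not_mem_Phi hH (thD_iff.1 (hf' n))⟩
  refine ⟨Nat.pair sd n, fun c => ⟨D.exists_rich (by simpa using hn), fun j j1 j2 => ?_⟩⟩
  by_contra h1
  push Not at h1
  obtain ⟨f, hf, hf'⟩ := dnc_jump (jump ∅)
  exact hno ⟨f, rtrans (D.jump_mono (win (by simpa [D.side] using hsd)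
    ((act_ev j1 j2).mono fun k hk => h1 _ hk))) hf, hf'⟩

theorem exists_dom {p a : ℕ → ℕ} (ha : RecIn p a) :
    ∃ γ, ∀ m, (Phi p γ m).Dom ↔ ∃ s, a (Nat.pair m s) = 0 := by
  obtain ⟨F, hF, hF'⟩ := exists_tf ha
  obtain ⟨e, he⟩ := exists_index_of_tf (TuringFunctional.rfind hF)
  refine ⟨e, fun m => ?_⟩
  rw [he]
  simp [hF', Nat.rfind_dom]

theorem Rich.lt {H : Set ℕ} {i j : ℕ} (h : Rich H i j) : j < 2 ^ i := by
  obtain ⟨x, -, -, rfl, -⟩ := h 0 0
  exact D.P_lt i x

/-- If richness is co-enumerable in the double jump of the empty set, the jump is DNC. -/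
theorem dnc_of_rich {H : Set ℕ} (hH : H.Infinite) (h : H ⊆ AA ∨ H ⊆ AAᶜ) {c : ℕ → ℕ}
    (hc : RecIn (chi (jump (jump ∅))) c)
    (hc' : ∀ i j, Rich H i j ↔ ∀ u, c (Nat.pair (Nat.pair i j) u) = 0) :
    ∃ f, RecIn (chi (jump H)) f ∧ ∀ e, f e ∉ Phi (chi (jump ∅)) e e := by
  by_contra hno
  obtain ⟨m, hm⟩ := core hH h hno
  obtain ⟨b, hb, hb'⟩ := D.lim_jump hc
  obtain ⟨γ, hγ⟩ := exists_dom (hb.comp (RecIn.of_primrec (f := fun z => Nat.pair
    (Nat.pair (Nat.pair z.unpair.1.unpair.1 z.unpair.1.unpair.2.unpair.1)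
      z.unpair.1.unpair.2.unpair.2.unpair.1) (z.unpair.1.unpair.2.unpair.2.unpair.2 + z.unpair.2))
    (by fun_prop)))
  have key : ∀ j, Prop2 (chi (jump ∅)) (Nat.pair (Nat.pair γ 0) m) j ↔
      Rich H (Nat.pair (Nat.pair γ 0) m) j := by
    intro j
    simp only [Prop2, Nat.unpair_pair, hγ, hc']
    constructor
    · intro h1 u
      obtain ⟨s0, h2⟩ := eventually_atTop.1 (hb' (Nat.pair (Nat.pair (Nat.pair (Nat.pair γ 0) m) j) u))
      obtain ⟨s, hs⟩ := h1 (Nat.pair u s0)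
      simp only [Nat.unpair_pair] at hs
      rw [← h2 _ (Nat.le_add_right s0 s), hs]
    · intro h1 u
      obtain ⟨s0, h2⟩ := eventually_atTop.1
        (hb' (Nat.pair (Nat.pair (Nat.pair (Nat.pair γ 0) m) j) u.unpair.1))
      exact ⟨s0, (h2 _ (Nat.le_add_left _ _)).trans (h1 _)⟩
  obtain ⟨⟨j, hj⟩, h1⟩ := hm (Nat.pair γ 0)
  obtain ⟨j', h2, h3⟩ := h1 j hj.lt ((key j).2 hj)
  exact h3 ((key j').1 h2)

theorem dnc_or_dnc {H : Set ℕ} (hH : H.Infinite) (h : H ⊆ AA ∨ H ⊆ AAᶜ)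
    (hno : ¬ ∃ f, RecIn (chi (jump H)) f ∧ ∀ e, f e ∉ Phi (chi (jump ∅)) e e) :
    ∃ f, RecIn (chi (jump (jump H))) f ∧ ∀ e, f e ∉ Phi (chi (jump (jump ∅))) e e := by
  classical
  obtain ⟨m, hm⟩ := core hH h hno
  obtain ⟨b, hb, hb'⟩ := E.lim_diag (jump ∅)
  obtain ⟨γ, hγ⟩ := exists_dom (rmap (RecIn.of_primrec Primrec.id)
    (hb.comp (RecIn.of_primrec (f := fun z => Nat.pair z.unpair.1.unpair.1.unpair.1.unpair.2
      (z.unpair.1.unpair.2.unpair.2 + z.unpair.2)) (by fun_prop)))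
    (h := fun z v => if v = z.unpair.1.unpair.2.unpair.1 then 0 else 1)
    (Primrec.ite (pp_eq (by fun_prop) (by fun_prop)) (by fun_prop) (by fun_prop)))
  have key : ∀ e j, Prop2 (chi (jump ∅)) (Nat.pair (Nat.pair γ e) m) j ↔
      ∀ u, ∃ s, b (Nat.pair e (u + s)) = j := by
    intro e j
    simp [Prop2, hγ]
  have h1 := sigma1 (sigma1 (rmap (RecIn.of_primrec Primrec.id)
    ((RecIn.oracle (o := chi H)).comp (RecIn.of_primrec (f := fun z => z.unpair.2) (by fun_prop)))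
    (h := fun z v => if v = 1 ∧ z.unpair.1.unpair.2.unpair.2 ≤ z.unpair.2 ∧
      D.P (Nat.pair (Nat.pair γ z.unpair.1.unpair.1.unpair.1) m) z.unpair.2 =
        z.unpair.1.unpair.1.unpair.2 ∧
      D.blk (Nat.pair (Nat.pair γ z.unpair.1.unpair.1.unpair.1) m) z.unpair.1.unpair.1.unpair.2
        z.unpair.2 = z.unpair.1.unpair.2.unpair.1 then 0 else 1)
    (Primrec.ite ((pp_eq (by fun_prop) (by fun_prop)).and ((pp_le (by fun_prop) (by fun_prop)).and
      ((pp_eq (by fun_prop) (by fun_prop)).and (pp_eq (by fun_prop) (by fun_prop)))))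
      (by fun_prop) (by fun_prop))))
  obtain ⟨J, hJ, hJ'⟩ : ∃ J, RecIn (chi (jump (jump H))) J ∧
      ∀ e, Rich H (Nat.pair (Nat.pair γ e) m) (J e) := by
    refine ⟨_, h1.search fun e => ?_, fun e g y => ?_⟩
    · obtain ⟨j, hj⟩ := (hm (Nat.pair γ e)).1
      refine ⟨j, chi_eq_zero.2 ?_⟩
      simpa [chi_eq_zero, chi_eq_one] using fun u : ℕ => hj u.unpair.1 u.unpair.2
    · generalize_proofs h4
      have h5 := chi_eq_zero.1 (Nat.find_spec h4)
      generalize Nat.find h4 = w at h5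
      simpa [chi_eq_zero, chi_eq_one] using not_exists.1 h5 (Nat.pair g y)
  refine ⟨J, hJ, fun e he => ?_⟩
  obtain ⟨s0, h2⟩ := eventually_atTop.1 (hb' e _ he)
  obtain ⟨j', h3, h4⟩ := (hm (Nat.pair γ e)).2 (J e) (hJ' e).lt
    ((key e _).2 fun u => ⟨s0, h2 _ (Nat.le_add_left _ _)⟩)
  obtain ⟨s, hs⟩ := (key e _).1 h3 s0
  rw [← hs, h2 _ (Nat.le_add_right _ _)] at h4
  exact h4 (hJ' e)

end Pool.Agent.MP_ac9d16_lc.T

end

section

namespace Pool.Agent.MP_ac9d16_lc.T

open Filter Pool.Agent.MP_9a65c4_lc Pool.Agent.MP_40fdec_lc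
open D (rtrans rseg rmap sigma1 rsub rrun run dom_iff)

/-- The index set of the enumerable sets that meet `H` in an infinite set is co-enumerable in the
double jump of the empty set: then the jump of `H` is DNC. -/
theorem dnc_of_index {H : Set ℕ} (hH : H.Infinite) (h : H ⊆ AA ∨ H ⊆ AAᶜ) {γ : ℕ}
    (hγ : ∀ e, (H ∩ {x | (Phi (chi ∅) e x).Dom}).Infinite ↔
      ¬ (Phi (chi (jump (jump ∅))) γ e).Dom) :
    ∃ f, RecIn (chi (jump H)) f ∧ ∀ e, f e ∉ Phi (chi (jump ∅)) e e := by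
  obtain ⟨n, hn, hn'⟩ := D.exists_param (TuringFunctional.rfind (tf_of_computable
    (f := fun m => if D.P m.unpair.1.unpair.1.unpair.1 m.unpair.1.unpair.2 =
        m.unpair.1.unpair.1.unpair.2.unpair.1 ∧ D.blk m.unpair.1.unpair.1.unpair.1
        m.unpair.1.unpair.1.unpair.2.unpair.1 m.unpair.1.unpair.2 =
        m.unpair.1.unpair.1.unpair.2.unpair.2 then 0 else 1)
    (Primrec.ite ((pp_eq (by fun_prop) (by fun_prop)).and (pp_eq (by fun_prop) (by fun_prop)))
      (by fun_prop) (by fun_prop)).to_comp))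
  have key : ∀ i j g x, (Phi (chi ∅) (n (Nat.pair i (Nat.pair j g))) x).Dom ↔
      D.P i x = j ∧ D.blk i j x = g := by
    intro i j g x
    rw [hn']
    simp [Nat.rfind_dom]
  refine dnc_of_rich hH h (rrun RecIn.oracle (e := fun _ => γ)
    (n := fun m => n (Nat.pair m.unpair.1.unpair.1 (Nat.pair m.unpair.1.unpair.2 m.unpair.2.unpair.1)))
    (r := fun m => m.unpair.2.unpair.2) (by fun_prop) (by fun_prop) (by fun_prop)) fun i j => ?_
  simp only [Nat.unpair_pair]
  constructor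
  · intro h1 u
    have h2 := (hγ (n (Nat.pair i (Nat.pair j u.unpair.1)))).1 (Set.infinite_iff_exists_gt.2 fun y => by
      obtain ⟨x, x1, x2, x3⟩ := h1 u.unpair.1 (y + 1)
      exact ⟨x, ⟨x1, (key _ _ _ _).2 x3⟩, x2⟩)
    rw [dom_iff, not_exists] at h2
    have := h2 u.unpair.2
    omega
  · intro h1 g y
    obtain ⟨x, ⟨x1, x2⟩, x3⟩ := ((hγ (n (Nat.pair i (Nat.pair j g)))).2 (by
      rw [dom_iff, not_exists]
      intro r
      have := h1 (Nat.pair g r)
      simp only [Nat.unpair_pair] at this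
      omega)).exists_gt y
    exact ⟨x, x1, x3.le, (key _ _ _ _).1 x2⟩

theorem dnc_of_sigma2 {H : Set ℕ} (hH : H.Infinite) (h : H ⊆ AA ∨ H ⊆ AAᶜ) {e : ℕ}
    (he : ∀ x, x ∈ H ↔ (Phi (chi (jump ∅)) e x).Dom) :
    ∃ f, RecIn (chi (jump H)) f ∧ ∀ e, f e ∉ Phi (chi (jump ∅)) e e := by
  refine dnc_of_rich hH h (rsub (sigma1 (rmap (RecIn.of_primrec Primrec.id)
    (rsub (rrun RecIn.oracle (e := fun _ => e) (n := fun m => m.unpair.2.unpair.1)
      (r := fun m => m.unpair.2.unpair.2) (by fun_prop) (by fun_prop) (by fun_prop)))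
    (h := fun z v => if v = 0 ∧ z.unpair.1.unpair.2.unpair.2 ≤ z.unpair.2.unpair.1 ∧
      D.P z.unpair.1.unpair.1.unpair.1 z.unpair.2.unpair.1 = z.unpair.1.unpair.1.unpair.2 ∧
      D.blk z.unpair.1.unpair.1.unpair.1 z.unpair.1.unpair.1.unpair.2 z.unpair.2.unpair.1 =
        z.unpair.1.unpair.2.unpair.1 then 0 else 1)
    (Primrec.ite ((pp_eq (by fun_prop) (by fun_prop)).and ((pp_le (by fun_prop) (by fun_prop)).and
      ((pp_eq (by fun_prop) (by fun_prop)).and (pp_eq (by fun_prop) (by fun_prop)))))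
      (by fun_prop) (by fun_prop))))) fun i j => ?_
  have h0 : ∀ (X : Set ℕ) (z : ℕ), 1 - chi X z = 0 ↔ z ∈ X := fun X z => by
    have := chi_lt X z
    rw [← chi_eq_one]
    omega
  simp only [h0, Set.mem_ofPred_eq, id, Nat.unpair_pair, ite_eq_left_iff, one_ne_zero, imp_false,
    not_not]
  constructor
  · intro h1 u
    obtain ⟨x, x1, x2⟩ := h1 u.unpair.1 u.unpair.2
    obtain ⟨r, hr⟩ := dom_iff.1 ((he x).1 x1)
    exact ⟨Nat.pair x r, by simpa only [Nat.unpair_pair] using And.intro hr x2⟩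
  · intro h1 g y
    obtain ⟨s, s1, s2⟩ := h1 (Nat.pair g y)
    exact ⟨_, (he _).2 (dom_iff.2 ⟨_, s1⟩), by simpa only [Nat.unpair_pair] using s2⟩

/-- The jump computes a modulus of convergence. -/
theorem modulus {Y : Set ℕ} {a f : ℕ → ℕ} (ha : RecIn (chi Y) a)
    (ha' : ∀ x, ∀ᶠ s in atTop, a (Nat.pair x s) = f x) :
    ∃ m, RecIn (chi (jump Y)) m ∧ ∀ x s, m x ≤ s → a (Nat.pair x s) = f x := by
  have h3 := sigma1 (rmap
    (ha.comp (RecIn.of_primrec (f := fun m =>
      Nat.pair m.unpair.1.unpair.1 (m.unpair.1.unpair.2 + m.unpair.2)) (by fun_prop)))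
    (ha.comp (RecIn.of_primrec (f := fun m => m.unpair.1) (by fun_prop)))
    (h := fun u v => if u = v then 1 else 0)
    (Primrec.ite (pp_eq (by fun_prop) (by fun_prop)) (by fun_prop) (by fun_prop)))
  refine ⟨_, h3.search fun x => ?_, fun x s hs => ?_⟩
  · obtain ⟨b, hb⟩ := eventually_atTop.1 (ha' x)
    refine ⟨b, chi_eq_zero.2 ?_⟩
    rintro ⟨s, hs⟩
    simp [hb b le_rfl, hb (b + s) (by omega)] at hs
  · generalize_proofs h4 at hs
    have h5 := chi_eq_zero.1 (Nat.find_spec h4)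
    generalize Nat.find h4 = b at hs h5
    have h6 : ∀ s, b ≤ s → a (Nat.pair x s) = a (Nat.pair x b) := fun s hs =>
      not_not.1 fun h7 => h5 ⟨s - b, by simpa [Nat.add_sub_cancel' hs] using h7⟩
    obtain ⟨s', s1, s2⟩ := ((ha' x).and (eventually_ge_atTop b)).exists
    rw [h6 s hs, ← h6 s' s2, s1]

/-- Limits of oracles whose approximation stays correct, with a modulus. -/
theorem lim_mod {p q o κ f : ℕ → ℕ} (hκ : RecIn p κ) (hq : RecIn q κ) (hqo : RecIn q o)
    (h : ∀ z, ∀ᶠ s in atTop, κ (Nat.pair s z) = o z)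
    (h' : ∀ z s s', s ≤ s' → κ (Nat.pair s z) = o z → κ (Nat.pair s' z) = o z) (hf : RecIn o f) :
    ∃ a μ, RecIn p a ∧ RecIn q μ ∧ ∀ x s, μ x ≤ s → a (Nat.pair x s) = f x := by
  obtain ⟨e, he⟩ := (turingReducible_iff_exists_Phi _ _).1 hf.turingReducible
  obtain ⟨μ, hμ, hμ'⟩ := recIn_search_seg (p := fun n => Nat.pair (o n) (κ n))
    (R := fun x w τ => ∃ s < w, Nat.pair s s ≤ w ∧ ∃ r < s,
      (ev e x r.unpair.2 (seg (fun z => (τ.getD z 0).unpair.1) r.unpair.1)).isSome = true ∧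
      ∀ z < r, (τ.getD (Nat.pair s z) 0).unpair.2 = (τ.getD z 0).unpair.1)
    (pp_ex_lt (by fun_prop) ((pp_le (by fun_prop) (by fun_prop)).and (pp_ex_lt (by fun_prop)
      ((pp_eq (Primrec.option_isSome.comp (by unfold seg; fun_prop)) (by fun_prop)).and
        (pp_all_lt (by fun_prop) (pp_eq (by fun_prop) (by fun_prop))))))) (by
      intro x
      obtain ⟨r, h1, -⟩ := mem_Phi.1 (show f x ∈ Phi o e x by rw [he]; simp)
      have h3 : ∀ᶠ s in atTop, ∀ z ∈ Finset.range r, κ (Nat.pair s z) = o z :=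
        (eventually_all_finset _).2 fun z _ => h z
      obtain ⟨s, s1, s2⟩ := (h3.and (eventually_gt_atTop r)).exists
      have h4 := Nat.left_le_pair s s
      have h5 := Nat.unpair_left_le r
      refine ⟨Nat.pair s s + 1, s, by omega, by omega, r, s2, ?_, fun z hz => ?_⟩
      · rw [seg_congr (q := o) fun z hz => by rw [seg_getD (by omega), Nat.unpair_pair], h1]
        rfl
      · have h6 := Nat.pair_lt_pair_right s (show z < s by omega)
        rw [seg_getD (by omega), seg_getD (by omega), Nat.unpair_pair, Nat.unpair_pair]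
        exact s1 z (Finset.mem_range.2 hz))
  refine ⟨_, μ, rseg hκ (H := fun m τ => ((List.range m.unpair.2).filterMap fun r =>
      ev e m.unpair.1 r.unpair.2 ((List.range r.unpair.1).map fun z =>
        τ.getD (Nat.pair m.unpair.2 z) 0)).headI) ?_
    (b := fun m => Nat.pair m.unpair.2 m.unpair.2) (by fun_prop), rtrans (hqo.pair hq) hμ,
    fun x s hs => ?_⟩
  · refine Primrec.list_headI.comp (Primrec.listFilterMap (by fun_prop) ?_)
    change Primrec fun a : (ℕ × List ℕ) × ℕ => _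
    fun_prop
  · obtain ⟨r, h1, h2⟩ := mem_Phi.1 (show f x ∈ Phi o e x by rw [he]; simp)
    obtain ⟨s0, a1, a2, r0, a3, a4, a5⟩ := hμ' x
    have a6 := Nat.unpair_left_le r0
    rw [seg_congr (q := o) fun z hz => by rw [seg_getD (by omega), Nat.unpair_pair]] at a4
    have a7 : r ≤ r0 := not_lt.1 fun a8 => by simp [h2 r0 a8] at a4
    have h4 : ∀ m ≤ r, ((List.range m.unpair.1).map fun z =>
        (seg κ (Nat.pair s s)).getD (Nat.pair s z) 0) = seg o m.unpair.1 := fun m hm =>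
      List.map_congr_left fun z hz => by
        have h5 : z < r := lt_of_lt_of_le (List.mem_range.1 hz) ((Nat.unpair_left_le m).trans hm)
        have h6 := a5 z (by omega)
        have h7 := Nat.pair_lt_pair_right s0 (show z < s0 by omega)
        rw [seg_getD (by omega), seg_getD (by omega), Nat.unpair_pair, Nat.unpair_pair] at h6
        rw [seg_getD (Nat.pair_lt_pair_right _ (by omega)), h' z s0 s (by omega) h6]
    simp only [Nat.unpair_pair]
    refine headI_filterMap (by rw [h4 r le_rfl]; exact h1) (fun m hm => ?_) (by omega)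
    rw [h4 m hm.le]
    exact h2 m hm

/-- The completeness criterion for the jump of a set that is enumerable in `K`. -/
theorem arslanov2 {H K : Set ℕ} {f : ℕ → ℕ} {e : ℕ} (h1 : ∀ x, x ∈ H ↔ (Phi (chi K) e x).Dom)
    (h2 : RecIn (chi (jump H)) (chi K)) (hf : RecIn (chi (jump H)) f)
    (hf' : ∀ e, f e ∉ Phi (chi K) e e) : RecIn (chi (jump H)) (chi (jump K)) := by
  obtain ⟨a, ha, ha'⟩ := D.lim_jump hf
  obtain ⟨m, hm, hm'⟩ := modulus ha ha'
  have hκ : RecIn (chi K) fun m =>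
      if ∃ r < m.unpair.1, 1 - run (chi K) e m.unpair.2 r = 0 then 1 else 0 := by
    have h3 := rsub (rrun (RecIn.oracle (o := chi K)) (e := fun _ => e)
      (n := fun m => m.unpair.1) (r := fun m => m.unpair.2) (by fun_prop) (by fun_prop)
      (by fun_prop))
    refine (rseg h3 (H := fun m τ => if ∃ r < m.unpair.1,
        τ.getD (Nat.pair m.unpair.2 r) 0 = 0 then 1 else 0)
      (Primrec.ite (pp_ex_lt (by fun_prop) (pp_eq (by fun_prop) (by fun_prop))) (by fun_prop)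
        (by fun_prop)) (b := fun m => Nat.pair m.unpair.2 m.unpair.1)
        (by fun_prop)).of_eq fun m => ?_
    refine if_congr (exists_congr fun r => and_congr_right fun hr => ?_) rfl rfl
    rw [seg_getD (Nat.pair_lt_pair_right _ hr), Nat.unpair_pair]
  obtain ⟨b, μ, hb, hμ, hμ'⟩ := lim_mod hκ (rtrans h2 hκ) (D.le_jump H) (fun z => by
      simp only [Nat.unpair_pair]
      by_cases h : z ∈ H
      · rw [chi_eq_one.2 h]
        obtain ⟨r, hr⟩ := dom_iff.1 ((h1 z).1 h)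
        exact (eventually_gt_atTop r).mono fun s hs => if_pos ⟨r, hs, hr⟩
      · rw [chi_eq_zero.2 h]
        exact Eventually.of_forall fun s => if_neg fun ⟨r, _, hr⟩ =>
          h ((h1 z).2 (dom_iff.2 ⟨r, hr⟩))) (fun z s s' hs h => by
      simp only [Nat.unpair_pair] at h ⊢
      by_cases h3 : z ∈ H
      · rw [chi_eq_one.2 h3] at h ⊢
        split_ifs at h with h4
        obtain ⟨r, r1, r2⟩ := h4
        exact if_pos ⟨r, by omega, r2⟩
      · rw [chi_eq_zero.2 h3]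
        exact if_neg fun ⟨r, _, hr⟩ => h3 ((h1 z).2 (dom_iff.2 ⟨r, hr⟩))) ha
  obtain ⟨F, hF, hF'⟩ := exists_tf hb
  obtain ⟨W, hW, hW'⟩ := exists_tf (rsub (rrun (RecIn.oracle (o := chi K))
    (e := fun m => m.unpair.1) (n := fun m => m.unpair.1)
    (r := fun m => m.unpair.2) (by fun_prop) (by fun_prop) (by fun_prop)))
  obtain ⟨n, hn, hn'⟩ := D.exists_param (TuringFunctional.comp hF (.pair (.pair .right
    (.comp (.rfind hW) (.comp .left .left))) (.comp (.rfind hW) (.comp .right .left))))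
  have key : ∀ z z' (h : ∃ r, 1 - run (chi K) z z r = 0) (h' : ∃ r, 1 - run (chi K) z' z' r = 0),
      m (n (Nat.pair z z')) ≤ Nat.find h →
        Nat.find h' < μ (Nat.pair (n (Nat.pair z z')) (Nat.find h)) := by
    intro z z' h h' h3
    refine not_le.1 fun h4 => hf' (n (Nat.pair z z')) ?_
    rw [hn', ← hm' _ _ h3, ← hμ' _ _ h4]
    simp only [hF', hW', Seq.seq, Part.map_eq_map, Part.bind_eq_bind, Part.map_some,
      Part.bind_some, Part.mem_bind_iff, Part.mem_map_iff, Part.mem_some_iff, Nat.mem_rfind,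
      Nat.unpair_pair]
    exact ⟨_, ⟨_, ⟨_, ⟨Nat.find h, ⟨by simpa using Nat.find_spec h,
      fun {r} hr => by simpa using Nat.find_min h hr⟩, rfl⟩, rfl⟩, Nat.find h',
      ⟨by simpa using Nat.find_spec h', fun {r} hr => by simpa using Nat.find_min h' hr⟩, rfl⟩, rfl⟩
  have fin : ∀ {B : ℕ → ℕ}, RecIn (chi (jump H)) B →
      (∀ z (h : ∃ r, 1 - run (chi K) z z r = 0), Nat.find h < B z) →
      RecIn (chi (jump H)) (chi (jump K)) := by
    intro B hB hB'
    refine ((rtrans h2 (D.stage (chi K))).comp (hB.pair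
      (RecIn.of_primrec Primrec.id))).of_eq fun z => ?_
    simp only [id, Nat.unpair_pair]
    by_cases h : z ∈ jump K
    · have h4 := dom_iff.1 h
      rw [chi_eq_one.2 h]
      exact if_pos ⟨Nat.find h4, hB' z h4, Nat.find_spec h4⟩
    · rw [chi_eq_zero.2 h, if_neg fun ⟨r, _, hr⟩ => h (dom_iff.2 ⟨r, hr⟩)]
  by_cases hc : ∃ z', ∀ z (h : ∃ r, 1 - run (chi K) z z r = 0), Nat.find h < m (n (Nat.pair z z'))
  · obtain ⟨z', hz⟩ := hc
    exact fin (hm.comp (RecIn.of_primrec (f := fun z => n (Nat.pair z z')) (by fun_prop))) hz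
  · push Not at hc
    have hs := rtrans h2 (D.stage (chi K))
    have h3 := rmap ((RecIn.of_primrec Primrec.id).pair (hm.comp (RecIn.of_primrec
      (f := fun u => n (Nat.pair u.unpair.2.unpair.1 u.unpair.1)) (by fun_prop))))
      ((hs.comp (RecIn.of_primrec (f := fun u => Nat.pair u.unpair.2.unpair.2 u.unpair.2.unpair.1)
        (by fun_prop))).pair (hs.comp (RecIn.of_primrec
        (f := fun u => Nat.pair (u.unpair.2.unpair.2 + 1) u.unpair.2.unpair.1) (by fun_prop))))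
      (h := fun u v => if u.unpair.2 ≤ u.unpair.1.unpair.2.unpair.2 ∧ v.unpair.1 = 0 ∧
        ¬ v.unpair.2 = 0 then 0 else 1)
      (Primrec.ite ((pp_le (by fun_prop) (by fun_prop)).and ((pp_eq (by fun_prop) (by fun_prop)).and
        (pp_eq (by fun_prop) (by fun_prop)).not)) (by fun_prop) (by fun_prop))
    obtain ⟨g, hg, hg'⟩ : ∃ g, RecIn (chi (jump H)) g ∧ ∀ z', ∃ h : ∃ r,
        1 - run (chi K) (g z').unpair.1 (g z').unpair.1 r = 0, Nat.find h = (g z').unpair.2 ∧
          m (n (Nat.pair (g z').unpair.1 z')) ≤ (g z').unpair.2 := by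
      refine ⟨_, h3.search fun z' => ?_, fun z' => ?_⟩
      · obtain ⟨z, h, hz⟩ := hc z'
        refine ⟨Nat.pair z (Nat.find h), ?_⟩
        simp only [id, Nat.unpair_pair]
        exact if_pos ⟨hz, if_neg fun ⟨r, r1, r2⟩ => Nat.find_min h r1 r2,
          by rw [if_pos ⟨_, Nat.lt_succ_self _, Nat.find_spec h⟩]; norm_num⟩
      · generalize_proofs h4
        have h5 := Nat.find_spec h4
        generalize Nat.find h4 = w at h5
        simp only [id, Nat.unpair_pair, ite_eq_left_iff, ite_eq_right_iff, one_ne_zero, imp_false,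
          not_not] at h5
        obtain ⟨b1, b2, r, r1, r2⟩ := h5
        have b3 : r = w.unpair.2 := le_antisymm (by omega) (not_lt.1 fun b4 => b2 ⟨r, b4, r2⟩)
        exact ⟨⟨r, r2⟩, (Nat.find_eq_iff _).2 ⟨b3 ▸ r2, fun r' hr b4 => b2 ⟨r', hr, b4⟩⟩, b1⟩
    refine fin (hμ.comp (rmap (RecIn.of_primrec Primrec.id) hg
      (h := fun z' w => Nat.pair (n (Nat.pair w.unpair.1 z')) w.unpair.2) (by fun_prop)))
      fun z' h' => ?_
    obtain ⟨h, b1, b2⟩ := hg' z'
    simp only [id]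
    rw [← b1] at b2 ⊢
    exact key _ _ h h' b2

theorem high {H : Set ℕ} (hH : H.Infinite) (h : H ⊆ AA ∨ H ⊆ AAᶜ) {e : ℕ}
    (he : ∀ x, x ∈ H ↔ (Phi (chi (jump ∅)) e x).Dom) :
    RecIn (chi (jump H)) (chi (jump (jump ∅))) := by
  have h4 : RecIn (chi H) (chi ∅) :=
    (RecIn.of_primrec (Primrec.const 0)).of_eq fun n => (chi_eq_zero.2 (by simp)).symm
  obtain ⟨f, hf, hf'⟩ := dnc_of_sigma2 hH h he
  exact arslanov2 he (D.jump_mono h4) hf hf'

end Pool.Agent.MP_ac9d16_lc.T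

end
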