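import Mathlib
import Pool.Agent.Mg.F40fdec.G2d4a7b

set_option linter.all false

section

namespace Pool.Agent.MP_ac9d16_lc.N

open Filter Pool.Agent.MP_9a65c4_lc Pool.Agent.MP_40fdec_lc

/-- A node: depth, counter, start, open ancestors, dead sets, pending sets. -/
def mk (d u a : ℕ) (L D P : List ℕ) : ℕ :=
  Nat.pair d (Nat.pair u (Nat.pair a (Nat.pair (Encodable.encode L)
    (Nat.pair (Encodable.encode D) (Encodable.encode P)))))

def dd (q : ℕ) : ℕ := q.unpair.1
def uu (q : ℕ) : ℕ := q.unpair.2.unpair.1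
def aa (q : ℕ) : ℕ := q.unpair.2.unpair.2.unpair.1
def LL (q : ℕ) : List ℕ := Denumerable.ofNat (List ℕ) q.unpair.2.unpair.2.unpair.2.unpair.1
def DD (q : ℕ) : List ℕ :=
  Denumerable.ofNat (List ℕ) q.unpair.2.unpair.2.unpair.2.unpair.2.unpair.1
def PP (q : ℕ) : List ℕ :=
  Denumerable.ofNat (List ℕ) q.unpair.2.unpair.2.unpair.2.unpair.2.unpair.2

section
variable (d u a : ℕ) (L D P : List ℕ)
@[simp] theorem dd_mk : dd (mk d u a L D P) = d := by simp [dd, mk]
@[simp] theorem uu_mk : uu (mk d u a L D P) = u := by simp [uu, mk]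
@[simp] theorem aa_mk : aa (mk d u a L D P) = a := by simp [aa, mk]
@[simp] theorem LL_mk : LL (mk d u a L D P) = L := by simp [LL, mk]
@[simp] theorem DD_mk : DD (mk d u a L D P) = D := by simp [DD, mk]
@[simp] theorem PP_mk : PP (mk d u a L D P) = P := by simp [PP, mk]
end

def ee (q : ℕ) : ℕ := (dd q).unpair.1
def side (q : ℕ) : ℕ := (dd q).unpair.2.unpair.1
def NN (q : ℕ) : ℕ := 2 ^ ((LL q).length + (dd q).unpair.2.unpair.2 + 2)
def z1 (q j : ℕ) : ℕ := Nat.pair 0 (Nat.pair q j)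
def z2 (q j v : ℕ) : ℕ := Nat.pair 1 (Nat.pair q (Nat.pair j v))
def ent (j z s : ℕ) : ℕ := Nat.pair j (Nat.pair z s)
def ej (c : ℕ) : ℕ := c.unpair.1
def ez (c : ℕ) : ℕ := c.unpair.2.unpair.1
def es (c : ℕ) : ℕ := c.unpair.2.unpair.2
def en (c : ℕ) : ℕ := (ez c).unpair.2.unpair.1

@[simp] theorem ej_ent (j z s : ℕ) : ej (ent j z s) = j := by simp [ej, ent]
@[simp] theorem ez_ent (j z s : ℕ) : ez (ent j z s) = z := by simp [ez, ent]
@[simp] theorem es_ent (j z s : ℕ) : es (ent j z s) = s := by simp [es, ent]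

def mem (e : ℕ) (E : List ℕ) (j : ℕ) (γ κ : ℕ → ℕ) : Prop :=
  ∃ c ∈ E, ej c = j ∧ wit e (ez c) (Jn γ κ) (es c)

def fresh (e z : ℕ) (E : List ℕ) (j s : ℕ) (γ κ : ℕ → ℕ) : Prop :=
  wit e z (Jn γ κ) s ∧ ¬ mem e E j γ κ

instance (e z s : ℕ) (p : ℕ → ℕ) : Decidable (wit e z p s) := by unfold wit; infer_instance
instance (e : ℕ) (E : List ℕ) (j : ℕ) (γ κ : ℕ → ℕ) : Decidable (mem e E j γ κ) := by
  unfold mem; infer_instance
instance (e z : ℕ) (E : List ℕ) (j s : ℕ) (γ κ : ℕ → ℕ) : Decidable (fresh e z E j s γ κ) := by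
  unfold fresh; infer_instance

/-- More than a fraction `1 / M` of fresh oracles answer the question `z`. -/
def Big (e z : ℕ) (E : List ℕ) (j s M : ℕ) (κ : ℕ → ℕ) : Prop :=
  (∀ c ∈ E, es c ≤ s) ∧
    2 ^ s < M * ((List.range (2 ^ s)).filter fun u => decide (fresh e z E j s (bt u) κ)).length

def R2 (q j w : ℕ) (κ : ℕ → ℕ) : Prop :=
  Big (ee q) (z2 q j w.unpair.1) (DD q) j w.unpair.2 (NN q * NN q * NN q) κ

def R (q w : ℕ) (κ : ℕ → ℕ) : Prop :=
  (w.unpair.1 = 0 ∧ w.unpair.2.unpair.1 < 2 ^ (LL q).length ∧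
    Big (ee q) (z1 q w.unpair.2.unpair.1) (DD q ++ PP q) w.unpair.2.unpair.1 w.unpair.2.unpair.2
      (NN q) κ) ∨
  (¬ w.unpair.1 = 0 ∧ w.unpair.1 - 1 ∈ PP q ∧
    R2 (en (w.unpair.1 - 1)) (ej (w.unpair.1 - 1)) w.unpair.2 κ ∧
      ∀ w' < w.unpair.2, ¬ R2 (en (w.unpair.1 - 1)) (ej (w.unpair.1 - 1)) w' κ)

instance (e z : ℕ) (E : List ℕ) (j s M : ℕ) (κ : ℕ → ℕ) : Decidable (Big e z E j s M κ) := by
  unfold Big; infer_instance
instance (q j w : ℕ) (κ : ℕ → ℕ) : Decidable (R2 q j w κ) := by unfold R2; infer_instance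
instance (q w : ℕ) (κ : ℕ → ℕ) : Decidable (R q w κ) := by unfold R; infer_instance

def val2 (q j t : ℕ) : ℕ := (List.range t).findIdx fun w => decide (R2 q j w (Ks t))
def val1 (q t : ℕ) : ℕ := (List.range t).findIdx fun w => decide (R q w (Ks t))
def val (q t : ℕ) : ℕ := if val1 q t < t then val1 q t + 1 else 0
def jv (q t : ℕ) : ℕ := (val q t - 1).unpair.2.unpair.1
def col (q t : ℕ) : ℕ := (val2 q (jv q t) t).unpair.1.unpair.1 % 2

def cst (q b t : ℕ) : Prop := ∀ s < t + 1, b ≤ s → val q s = val q b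

instance (q b t : ℕ) : Decidable (cst q b t) := by unfold cst; infer_instance

def ls (q t : ℕ) : ℕ := (List.range t).findIdx fun b => decide (aa q ≤ b ∧ cst q b t)

def view (L : List ℕ) (x : ℕ) : ℕ := L.foldl (fun t q => ls q t) x

def inPart (L : List ℕ) (j x : ℕ) : Prop :=
  ∀ r < L.length, col (L.getD r 0) (view (L.take r) x) = bt j r

def upd (q w b : ℕ) : ℕ :=
  if w.unpair.1 = 0 then
    mk (dd q) (uu q + 1) b (LL q) (DD q)
      (PP q ++ [ent w.unpair.2.unpair.1 (z1 q w.unpair.2.unpair.1) w.unpair.2.unpair.2])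
  else
    mk (dd q) (uu q + 1) b (LL q) (DD q ++ [ent (ej (w.unpair.1 - 1))
      (z2 (en (w.unpair.1 - 1)) (ej (w.unpair.1 - 1)) w.unpair.2.unpair.1) w.unpair.2.unpair.2]) []

def tc (q b : ℕ) : ℕ :=
  if val q b = 0 then mk (dd q + 1) (uu q + 1) b (LL q) [] [] else upd q (val q b - 1) b

def oc (q : ℕ) : ℕ := mk (dd q + 1) (uu q + 1) (aa q) (LL q ++ [q]) [] []

def step (T : ℕ → ℕ → Bool) (σ : ℕ × ℕ) : ℕ × ℕ :=
  if σ.2 ≤ uu σ.1 then σ else
    if T σ.1 (ls σ.1 σ.2) = true then (tc σ.1 (ls σ.1 σ.2), σ.2) else (oc σ.1, ls σ.1 σ.2)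

def root : ℕ := mk 0 0 0 [] [] []

def fin (T : ℕ → ℕ → Bool) (x : ℕ) : List ℕ := LL ((step T)^[x] (root, x)).1

def J (F : List ℕ) (x r : ℕ) : ℕ := jv (F.getD r 0) (view (F.take r) x)

/-- The candidate after `n` levels, counted from the bottom. -/
def cd (F : List ℕ) (x : ℕ) : ℕ → ℕ
  | 0 => F.length
  | n + 1 =>
    if col (F.getD (F.length - 1 - n) 0) (view (F.take (F.length - 1 - n)) x) =
      bt (J F x (cd F x n)) (F.length - 1 - n) then cd F x n else F.length - 1 - n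

def inA (F : List ℕ) (x : ℕ) : Prop := ¬ side (F.getD (cd F x F.length) 0) = 0

def good (q j c k x : ℕ) : Prop :=
  inPart (LL q) j x ∧ aa q ≤ view (LL q) x ∧ uu q < view (LL q) x ∧
    ls q (view (LL q) x) = c ∧ ¬ val q c = 0 ∧ jv q (view (LL q) x) = j ∧
      col q (view (LL q) x) = k

open Classical in
noncomputable def TT (q b : ℕ) : Bool := decide (∀ s, b ≤ s → val q s = val q b)

theorem TT_iff {q b : ℕ} : TT q b = true ↔ ∀ s, b ≤ s → val q s = val q b := by
  simp [TT]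

def AA : Set ℕ := {x | inA (fin TT x) x}

section prim
variable {α : Type*} [Primcodable α]

@[fun_prop] theorem pr_mk {d u a : α → ℕ} {L D P : α → List ℕ} (hd : Primrec d) (hu : Primrec u)
    (ha : Primrec a) (hL : Primrec L) (hD : Primrec D) (hP : Primrec P) :
    Primrec fun z => mk (d z) (u z) (a z) (L z) (D z) (P z) := by
  unfold mk
  fun_prop
@[fun_prop] theorem pr_dd {q : α → ℕ} (hq : Primrec q) : Primrec fun z => dd (q z) := by
  unfold dd
  fun_prop
@[fun_prop] theorem pr_uu {q : α → ℕ} (hq : Primrec q) : Primrec fun z => uu (q z) := by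
  unfold uu
  fun_prop
@[fun_prop] theorem pr_aa {q : α → ℕ} (hq : Primrec q) : Primrec fun z => aa (q z) := by
  unfold aa
  fun_prop
@[fun_prop] theorem pr_LL {q : α → ℕ} (hq : Primrec q) : Primrec fun z => LL (q z) := by
  unfold LL
  fun_prop
@[fun_prop] theorem pr_DD {q : α → ℕ} (hq : Primrec q) : Primrec fun z => DD (q z) := by
  unfold DD
  fun_prop
@[fun_prop] theorem pr_PP {q : α → ℕ} (hq : Primrec q) : Primrec fun z => PP (q z) := by
  unfold PP
  fun_prop
@[fun_prop] theorem pr_ee {q : α → ℕ} (hq : Primrec q) : Primrec fun z => ee (q z) := by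
  unfold ee
  fun_prop
@[fun_prop] theorem pr_side {q : α → ℕ} (hq : Primrec q) : Primrec fun z => side (q z) := by
  unfold side
  fun_prop
@[fun_prop] theorem pr_NN {q : α → ℕ} (hq : Primrec q) : Primrec fun z => NN (q z) := by
  unfold NN
  fun_prop
@[fun_prop] theorem pr_z1 {q j : α → ℕ} (hq : Primrec q) (hj : Primrec j) :
    Primrec fun z => z1 (q z) (j z) := by
  unfold z1
  fun_prop
@[fun_prop] theorem pr_z2 {q j v : α → ℕ} (hq : Primrec q) (hj : Primrec j) (hv : Primrec v) :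
    Primrec fun z => z2 (q z) (j z) (v z) := by
  unfold z2
  fun_prop
@[fun_prop] theorem pr_ent {q j v : α → ℕ} (hq : Primrec q) (hj : Primrec j) (hv : Primrec v) :
    Primrec fun z => ent (q z) (j z) (v z) := by
  unfold ent
  fun_prop
@[fun_prop] theorem pr_ej {q : α → ℕ} (hq : Primrec q) : Primrec fun z => ej (q z) := by
  unfold ej
  fun_prop
@[fun_prop] theorem pr_ez {q : α → ℕ} (hq : Primrec q) : Primrec fun z => ez (q z) := by
  unfold ez
  fun_prop
@[fun_prop] theorem pr_es {q : α → ℕ} (hq : Primrec q) : Primrec fun z => es (q z) := by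
  unfold es
  fun_prop
@[fun_prop] theorem pr_en {q : α → ℕ} (hq : Primrec q) : Primrec fun z => en (q z) := by
  unfold en
  fun_prop
@[fun_prop] theorem pr_mul {f g : α → ℕ} (hf : Primrec f) (hg : Primrec g) :
    Primrec fun a => f a * g a := Primrec.nat_mul.comp hf hg
@[fun_prop] theorem pr_take {f : α → ℕ} {g : α → List ℕ} (hf : Primrec f) (hg : Primrec g) :
    Primrec fun a => (g a).take (f a) := Primrec.list_take.comp hf hg

theorem pr_segK {u k t : α → ℕ} (hu : Primrec u) (hk : Primrec k) (ht : Primrec t) :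
    Primrec fun a => seg (Jn (bt (u a)) (Ks (t a))) (k a) := by
  unfold seg Jn
  have h2 : Primrec fun a : α × ℕ => a.2 / 2 := Primrec.nat_div.comp Primrec.snd (Primrec.const 2)
  refine pr_map (by fun_prop) (Primrec.ite
    (pp_eq (Primrec.nat_mod.comp Primrec.snd (Primrec.const 2)) (Primrec.const 0)) ?_ ?_)
  · exact pr_bt (by fun_prop) h2
  · exact pr_Ks (by fun_prop) h2

theorem pp_wit {e z u t s : α → ℕ} (he : Primrec e) (hz : Primrec z) (hu : Primrec u)
    (ht : Primrec t) (hs : Primrec s) :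
    PrimrecPred fun a => wit (e a) (z a) (Jn (bt (u a)) (Ks (t a))) (s a) := by
  refine pp_ex_lt hs (PrimrecPred.and
    (pp_eq (pr_ev (by fun_prop) (by fun_prop) (by fun_prop)
      (pr_segK (by fun_prop) (by fun_prop) (by fun_prop))) (by fun_prop)) ?_)
  exact pp_all_lt (R := fun (a : α × ℕ) r' => ev (e a.1) (z a.1)
      r'.unpair.2 (seg (Jn (bt (u a.1)) (Ks (t a.1))) r'.unpair.1) = none) (by fun_prop)
    (pp_eq (pr_ev (by fun_prop) (by fun_prop) (by fun_prop)
      (pr_segK (by fun_prop) (by fun_prop) (by fun_prop))) (by fun_prop))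

theorem pp_Big {e z j s M t : α → ℕ} {E : α → List ℕ} (he : Primrec e) (hz : Primrec z)
    (hE : Primrec E) (hj : Primrec j) (hs : Primrec s) (hM : Primrec M) (ht : Primrec t) :
    PrimrecPred fun a => Big (e a) (z a) (E a) (j a) (s a) (M a) (Ks (t a)) := by
  refine (pp_all_mem (R := fun a c => es c ≤ s a) hE (pp_le (by fun_prop) (by fun_prop))).and
    (pp_lt (by fun_prop) (pr_mul hM (pr_length (pr_filter
      (R := fun a u => fresh (e a) (z a) (E a) (j a) (s a) (bt u) (Ks (t a))) (by fun_prop) ?_))))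
  refine (pp_wit (by fun_prop) (by fun_prop) (by fun_prop) (by fun_prop) (by fun_prop)).and
    (pp_ex_mem (R := fun (a : α × ℕ) c =>
      ej c = j a.1 ∧ wit (e a.1) (ez c) (Jn (bt a.2) (Ks (t a.1))) (es c)) (by fun_prop)
      ((pp_eq (by fun_prop) (by fun_prop)).and
        (pp_wit (by fun_prop) (by fun_prop) (by fun_prop) (by fun_prop) (by fun_prop)))).not

theorem pp_R2 {q j w t : α → ℕ} (hq : Primrec q) (hj : Primrec j) (hw : Primrec w)
    (ht : Primrec t) : PrimrecPred fun a => R2 (q a) (j a) (w a) (Ks (t a)) :=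
  pp_Big (by fun_prop) (by fun_prop) (by fun_prop) hj (by fun_prop) (by fun_prop) ht

theorem pp_R {q w t : α → ℕ} (hq : Primrec q) (hw : Primrec w) (ht : Primrec t) :
    PrimrecPred fun a => R (q a) (w a) (Ks (t a)) :=
  ((pp_eq (by fun_prop) (by fun_prop)).and ((pp_lt (by fun_prop) (by fun_prop)).and
    (pp_Big (by fun_prop) (by fun_prop) (by fun_prop) (by fun_prop) (by fun_prop) (by fun_prop)
      ht))).or
  ((pp_eq (by fun_prop) (by fun_prop)).not.and ((pp_mem (by fun_prop) (by fun_prop)).and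
    ((pp_R2 (by fun_prop) (by fun_prop) (by fun_prop) ht).and
      (pp_all_lt (R := fun a w' =>
        ¬ R2 (en ((w a).unpair.1 - 1)) (ej ((w a).unpair.1 - 1)) w' (Ks (t a))) (by fun_prop)
        (pp_R2 (by fun_prop) (by fun_prop) (by fun_prop) (by fun_prop)).not))))

@[fun_prop] theorem pr_val2 {q j t : α → ℕ} (hq : Primrec q) (hj : Primrec j) (ht : Primrec t) :
    Primrec fun a => val2 (q a) (j a) (t a) :=
  Primrec.list_findIdx (by fun_prop)
    (PrimrecPred.decide (p := fun a : α × ℕ => R2 (q a.1) (j a.1) a.2 (Ks (t a.1)))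
      (pp_R2 (by fun_prop) (by fun_prop) (by fun_prop) (by fun_prop)))
@[fun_prop] theorem pr_val1 {q t : α → ℕ} (hq : Primrec q) (ht : Primrec t) :
    Primrec fun a => val1 (q a) (t a) :=
  Primrec.list_findIdx (by fun_prop)
    (PrimrecPred.decide (p := fun a : α × ℕ => R (q a.1) a.2 (Ks (t a.1)))
      (pp_R (by fun_prop) (by fun_prop) (by fun_prop)))
@[fun_prop] theorem pr_val {q t : α → ℕ} (hq : Primrec q) (ht : Primrec t) :
    Primrec fun a => val (q a) (t a) :=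
  Primrec.ite (pp_lt (by fun_prop) ht) (by fun_prop) (by fun_prop)
@[fun_prop] theorem pr_jv {q t : α → ℕ} (hq : Primrec q) (ht : Primrec t) :
    Primrec fun a => jv (q a) (t a) := by
  unfold jv
  fun_prop
@[fun_prop] theorem pr_col {q t : α → ℕ} (hq : Primrec q) (ht : Primrec t) :
    Primrec fun a => col (q a) (t a) :=
  Primrec.nat_mod.comp (by fun_prop) (Primrec.const 2)
theorem pp_cst {q b t : α → ℕ} (hq : Primrec q) (hb : Primrec b) (ht : Primrec t) :
    PrimrecPred fun z => cst (q z) (b z) (t z) :=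
  pp_all_lt (R := fun z s => b z ≤ s → val (q z) s = val (q z) (b z)) (by fun_prop)
    (pp_imp (pp_le (by fun_prop) (by fun_prop)) (pp_eq (by fun_prop) (by fun_prop)))
@[fun_prop] theorem pr_ls {q t : α → ℕ} (hq : Primrec q) (ht : Primrec t) :
    Primrec fun z => ls (q z) (t z) := by
  unfold ls
  refine Primrec.list_findIdx (by fun_prop) ?_
  exact PrimrecPred.decide (p := fun a : α × ℕ => aa (q a.1) ≤ a.2 ∧ cst (q a.1) a.2 (t a.1))
    ((pp_le (by fun_prop) (by fun_prop)).and (pp_cst (by fun_prop) (by fun_prop) (by fun_prop)))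
@[fun_prop] theorem pr_view {L : α → List ℕ} {x : α → ℕ} (hL : Primrec L) (hx : Primrec x) :
    Primrec fun z => view (L z) (x z) :=
  Primrec.list_foldl (h := fun _ p => ls p.2 p.1) hL hx
    (show Primrec fun a : α × (ℕ × ℕ) => ls a.2.2 a.2.1 by fun_prop)
theorem pp_inPart {L : α → List ℕ} {j x : α → ℕ} (hL : Primrec L) (hj : Primrec j)
    (hx : Primrec x) : PrimrecPred fun z => inPart (L z) (j z) (x z) :=
  pp_all_lt (R := fun z r => col ((L z).getD r 0) (view ((L z).take r) (x z)) = bt (j z) r)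
    (by fun_prop) (pp_eq (by fun_prop) (by fun_prop))
@[fun_prop] theorem pr_upd {q w b : α → ℕ} (hq : Primrec q) (hw : Primrec w) (hb : Primrec b) :
    Primrec fun z => upd (q z) (w z) (b z) :=
  Primrec.ite (pp_eq (by fun_prop) (by fun_prop)) (by fun_prop) (by fun_prop)
@[fun_prop] theorem pr_tc {q b : α → ℕ} (hq : Primrec q) (hb : Primrec b) :
    Primrec fun z => tc (q z) (b z) :=
  Primrec.ite (pp_eq (by fun_prop) (by fun_prop)) (by fun_prop) (by fun_prop)
@[fun_prop] theorem pr_oc {q : α → ℕ} (hq : Primrec q) : Primrec fun z => oc (q z) := by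
  unfold oc
  fun_prop
@[fun_prop] theorem pr_J {F : α → List ℕ} {x r : α → ℕ} (hF : Primrec F) (hx : Primrec x)
    (hr : Primrec r) : Primrec fun z => J (F z) (x z) (r z) := by
  unfold J
  fun_prop
theorem pr_cd {F : α → List ℕ} {x n : α → ℕ} (hF : Primrec F) (hx : Primrec x)
    (hn : Primrec n) : Primrec fun z => cd (F z) (x z) (n z) := by
  have h : Primrec fun a : α × (ℕ × ℕ) =>
      if col ((F a.1).getD ((F a.1).length - 1 - a.2.1) 0)
          (view ((F a.1).take ((F a.1).length - 1 - a.2.1)) (x a.1)) =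
        bt (J (F a.1) (x a.1) a.2.2) ((F a.1).length - 1 - a.2.1) then a.2.2
      else (F a.1).length - 1 - a.2.1 :=
    Primrec.ite (pp_eq (by fun_prop) (by fun_prop)) (by fun_prop) (by fun_prop)
  refine (Primrec.nat_rec' hn (pr_length hF) h.to₂).of_eq fun z => ?_
  induction n z with
  | zero => rfl
  | succ m ih => simp only [cd, ← ih]
theorem pp_good {q j c k x : α → ℕ} (hq : Primrec q) (hj : Primrec j) (hc : Primrec c)
    (hk : Primrec k) (hx : Primrec x) :
    PrimrecPred fun z => good (q z) (j z) (c z) (k z) (x z) :=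
  (pp_inPart (by fun_prop) hj hx).and ((pp_le (by fun_prop) (by fun_prop)).and
    ((pp_lt (by fun_prop) (by fun_prop)).and ((pp_eq (by fun_prop) hc).and
      ((pp_eq (by fun_prop) (by fun_prop)).not.and ((pp_eq (by fun_prop) hj).and
        (pp_eq (by fun_prop) hk))))))

end prim

def Ts (s q b : ℕ) : Bool := decide (cst q b s)

theorem Ts_lim (q b : ℕ) : ∀ᶠ s in atTop, Ts s q b = TT q b := by
  by_cases h : ∀ s, b ≤ s → val q s = val q b
  · refine Eventually.of_forall fun s => ?_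
    rw [TT_iff.2 h]
    exact decide_eq_true fun s' _ hs' => h s' hs'
  · rw [show TT q b = false from Bool.eq_false_iff.2 fun h' => h (TT_iff.1 h')]
    push Not at h
    obtain ⟨s', h1, h2⟩ := h
    filter_upwards [eventually_ge_atTop s'] with s hs
    exact decide_eq_false fun h3 => h2 (h3 s' (by omega) h1)

theorem iterate_lim (m : ℕ) (σ : ℕ × ℕ) :
    ∀ᶠ s in atTop, (step (Ts s))^[m] σ = (step TT)^[m] σ := by
  induction m with
  | zero => simp
  | succ m ih =>
    filter_upwards [ih, Ts_lim ((step TT)^[m] σ).1 (ls ((step TT)^[m] σ).1 ((step TT)^[m] σ).2)]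
      with s h1 h2
    rw [Function.iterate_succ_apply', Function.iterate_succ_apply', h1]
    generalize (step TT)^[m] σ = ρ at h2
    unfold step
    rw [h2]

theorem computes_AA : RecIn (chi (jump ∅)) (chi AA) := by
  classical
  have h1 : Primrec fun p : (ℕ × ℕ) × (ℕ × ℕ) => step (Ts p.1.2) p.2 := by
    unfold step
    refine Primrec.ite (pp_le (by fun_prop) (by fun_prop)) (by fun_prop)
      (Primrec.ite (pp_eq ?_ (by fun_prop)) (by fun_prop) (by fun_prop))
    exact PrimrecPred.decide (pp_cst (by fun_prop) (by fun_prop) (by fun_prop))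
  have h2 : Primrec fun p : ℕ × ℕ => fin (Ts p.2) p.1 :=
    pr_LL (Primrec.fst.comp (Primrec.nat_iterate (h := fun (p : ℕ × ℕ) σ => step (Ts p.2) σ)
      Primrec.fst (by fun_prop) h1.to₂))
  have h3 : PrimrecPred fun p : ℕ × ℕ => inA (fin (Ts p.2) p.1) p.1 :=
    (pp_eq (pr_side (pr_getD 0 h2 (pr_cd h2 Primrec.fst (pr_length h2)))) (Primrec.const 0)).not
  refine recIn_of_limit (a := fun x s => if inA (fin (Ts s) x) x then 1 else 0)
    (Primrec.ite h3 (by fun_prop) (by fun_prop)) fun x => ?_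
  filter_upwards [iterate_lim x (root, x)] with s hs
  have : fin (Ts s) x = fin TT x := by
    unfold fin
    rw [hs]
  rw [this]
  by_cases h : inA (fin TT x) x
  · rw [if_pos h, eq_comm, chi_eq_one]
    exact h
  · rw [if_neg h, eq_comm, chi_eq_zero]
    exact h

end Pool.Agent.MP_ac9d16_lc.N

end

section

namespace Pool.Agent.MP_ac9d16_lc.N

open Filter

theorem ls_le (q t : ℕ) : ls q t ≤ t := by
  have := List.findIdx_le_length (p := fun b => decide (aa q ≤ b ∧ cst q b t)) (xs := List.range t)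
  simpa [ls] using this

theorem ls_spec {q t : ℕ} (h : ls q t < t) : aa q ≤ ls q t ∧ cst q (ls q t) t := by
  have h' : (List.range t).findIdx (fun b => decide (aa q ≤ b ∧ cst q b t)) <
      (List.range t).length := by simpa [ls] using h
  have := List.findIdx_getElem (w := h')
  rw [List.getElem_range] at this
  exact of_decide_eq_true this

theorem ls_min {q t b : ℕ} (h : b < ls q t) : ¬ (aa q ≤ b ∧ cst q b t) := by
  have := List.not_of_lt_findIdx (p := fun b => decide (aa q ≤ b ∧ cst q b t))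
    (xs := List.range t) h
  rw [List.getElem_range] at this
  exact of_decide_eq_false this

theorem ls_eq {q t b : ℕ} (h1 : aa q ≤ b) (h2 : TT q b = true)
    (h3 : ∀ b' < b, ¬ (aa q ≤ b' ∧ TT q b' = true)) (ht : b ≤ t) : ls q t = b := by
  rw [TT_iff] at h2
  rcases lt_trichotomy (ls q t) b with h | h | h
  · obtain ⟨h4, h5⟩ := ls_spec (lt_of_lt_of_le h ht)
    refine absurd ⟨h4, TT_iff.2 fun s hs => ?_⟩ (h3 _ h)
    by_cases hs' : s ≤ t
    · exact h5 s (by omega) hs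
    · exact (h2 s (by omega)).trans (h5 b (by omega) h.le)
  · exact h
  · exact absurd ⟨h1, fun s _ hs => h2 s hs⟩ (ls_min h)

theorem ls_tendsto {q : ℕ} (h : ¬ ∃ b, aa q ≤ b ∧ TT q b = true) :
    Tendsto (ls q) atTop atTop := by
  refine tendsto_atTop.2 fun B => ?_
  have h1 : ∀ᶠ t in atTop, ∀ b ∈ Finset.range B, ¬ (aa q ≤ b ∧ cst q b t) := by
    refine (eventually_all_finset _).2 fun b _ => ?_
    by_cases hb : aa q ≤ b
    · have h2 : TT q b = false := Bool.eq_false_iff.2 fun h' => h ⟨b, hb, h'⟩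
      filter_upwards [Ts_lim q b] with t ht
      rw [h2] at ht
      exact fun h3 => of_decide_eq_false ht h3.2
    · exact Eventually.of_forall fun t h3 => hb h3.1
  filter_upwards [h1, eventually_ge_atTop B] with t ht hB
  by_contra h2
  exact ht _ (Finset.mem_range.2 (by omega)) (ls_spec (by omega))

theorem LL_tc (q b : ℕ) : LL (tc q b) = LL q := by
  unfold tc upd
  split_ifs <;> simp

theorem aa_tc (q b : ℕ) : aa (tc q b) = b := by
  unfold tc upd
  split_ifs <;> simp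

theorem uu_tc (q b : ℕ) : uu (tc q b) = uu q + 1 := by
  unfold tc upd
  split_ifs <;> simp

theorem uu_oc (q : ℕ) : uu (oc q) = uu q + 1 := by simp [oc]

theorem LL_oc (q : ℕ) : LL (oc q) = LL q ++ [q] := by simp [oc]

theorem step_stop {T : ℕ → ℕ → Bool} {σ : ℕ × ℕ} (h : σ.2 ≤ uu σ.1) : step T σ = σ := if_pos h

theorem step_go {T : ℕ → ℕ → Bool} {σ : ℕ × ℕ} (h : ¬ σ.2 ≤ uu σ.1) :
    uu σ.1 < uu (step T σ).1 ∧ (step T σ).2 ≤ σ.2 ∧
      (LL (step T σ).1 = LL σ.1 ∨ LL (step T σ).1 = LL σ.1 ++ [σ.1]) := by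
  unfold step
  rw [if_neg h]
  split_ifs
  · exact ⟨by simp [uu_tc], le_rfl, Or.inl (LL_tc _ _)⟩
  · exact ⟨by simp [uu_oc], ls_le _ _, Or.inr (LL_oc _)⟩

theorem iter_stop {T : ℕ → ℕ → Bool} (N : ℕ) : ∀ {σ : ℕ × ℕ}, σ.2 ≤ uu σ.1 + N →
    step T ((step T)^[N] σ) = (step T)^[N] σ := by
  induction N with
  | zero => exact fun h => step_stop h
  | succ N ih =>
    intro σ h
    by_cases h1 : σ.2 ≤ uu σ.1
    · rw [Function.iterate_fixed (step_stop h1), step_stop h1]
    · obtain ⟨h3, h4, -⟩ := step_go (T := T) h1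
      rw [Function.iterate_succ_apply]
      exact ih (by omega)

theorem iter_add {T : ℕ → ℕ → Bool} {σ : ℕ × ℕ} {N : ℕ} (h : σ.2 ≤ N) (m : ℕ) :
    (step T)^[m + N] σ = (step T)^[N] σ := by
  rw [Function.iterate_add_apply, Function.iterate_fixed (iter_stop N (by omega))]

theorem iter_ext {T : ℕ → ℕ → Bool} (N : ℕ) : ∀ σ : ℕ × ℕ,
    ∃ E, LL ((step T)^[N] σ).1 = LL σ.1 ++ E := by
  induction N with
  | zero => exact fun _ => ⟨[], by simp⟩
  | succ N ih =>
    intro σ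
    by_cases h1 : σ.2 ≤ uu σ.1
    · rw [Function.iterate_fixed (step_stop h1)]
      exact ⟨[], by simp⟩
    · obtain ⟨-, -, h5⟩ := step_go (T := T) h1
      rw [Function.iterate_succ_apply]
      obtain ⟨E, hE⟩ := ih (step T σ)
      rcases h5 with h5 | h5
      · rw [h5] at hE
        exact ⟨E, hE⟩
      · rw [h5] at hE
        exact ⟨[σ.1] ++ E, by rw [hE, List.append_assoc]⟩

/-- The properties of the nodes on the true path. -/
def OnP (q : ℕ) : Prop :=
  Tendsto (view (LL q)) atTop atTop ∧ ∀ x, aa q ≤ view (LL q) x → uu q < view (LL q) x →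
    ∃ m, (step TT)^[m] (root, x) = (q, view (LL q) x)

theorem onP_root : OnP root :=
  ⟨by
    rw [root, LL_mk]
    exact tendsto_id, fun x _ _ => ⟨0, by simp [root, view]⟩⟩

theorem onP_tc {q b : ℕ} (h : OnP q) (h1 : aa q ≤ b) (h2 : TT q b = true)
    (h3 : ∀ b' < b, ¬ (aa q ≤ b' ∧ TT q b' = true)) : OnP (tc q b) := by
  obtain ⟨hV, hR⟩ := h
  refine ⟨by rwa [LL_tc], fun x hx hx' => ?_⟩
  rw [LL_tc] at hx hx' ⊢
  rw [aa_tc] at hx
  rw [uu_tc] at hx'
  obtain ⟨m, hm⟩ := hR x (by omega) (by omega)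
  refine ⟨m + 1, ?_⟩
  rw [Function.iterate_succ_apply', hm]
  unfold step
  rw [if_neg (by simp only; omega)]
  simp only [ls_eq h1 h2 h3 hx, h2, if_true]

theorem view_concat (L : List ℕ) (q x : ℕ) : view (L ++ [q]) x = ls q (view L x) := by
  simp [view]

theorem onP_oc {q : ℕ} (h : OnP q) (h1 : ¬ ∃ b, aa q ≤ b ∧ TT q b = true) : OnP (oc q) := by
  obtain ⟨hV, hR⟩ := h
  have hL : view (LL (oc q)) = fun x => ls q (view (LL q) x) := by
    funext x
    simp [oc, view_concat]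
  refine ⟨hL ▸ (ls_tendsto h1).comp hV, fun x hx hx' => ?_⟩
  simp only [hL] at hx hx' ⊢
  have h2 : aa (oc q) = aa q := by simp [oc]
  have h3 := ls_le q (view (LL q) x)
  have h4 := uu_oc q
  obtain ⟨m, hm⟩ := hR x (by omega) (by omega)
  refine ⟨m + 1, ?_⟩
  rw [Function.iterate_succ_apply', hm]
  unfold step
  rw [if_neg (by simp only; omega), if_neg fun h5 => h1 ⟨_, h2 ▸ hx, h5⟩]

theorem exists_least {q : ℕ} (h : ∃ b, aa q ≤ b ∧ TT q b = true) :
    ∃ b, aa q ≤ b ∧ TT q b = true ∧ ∀ b' < b, ¬ (aa q ≤ b' ∧ TT q b' = true) :=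
  ⟨Nat.find h, (Nat.find_spec h).1, (Nat.find_spec h).2, fun _ hb => Nat.find_min h hb⟩

theorem fin_eq {q j c k x : ℕ} (h : OnP q) (hc : TT q c = false) (hx : good q j c k x) :
    fin TT x = LL ((step TT)^[c] (oc q, c)).1 := by
  obtain ⟨-, g2, g3, g4, -⟩ := hx
  obtain ⟨m, hm⟩ := h.2 x g2 g3
  have h1 : (step TT)^[m + 1] (root, x) = (oc q, c) := by
    rw [Function.iterate_succ_apply', hm]
    unfold step
    rw [if_neg (by simp only; omega)]
    simp [g4, hc]
  unfold fin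
  rw [← iter_add (σ := (root, x)) le_rfl (c + (m + 1)),
    show c + (m + 1) + x = x + c + (m + 1) by ring, Function.iterate_add_apply, h1,
    iter_add (σ := (oc q, c)) le_rfl]

theorem view_low {L E : List ℕ} {q x r : ℕ} (hr : L.length < r) :
    view ((L ++ [q] ++ E).take r) x = view (E.take (r - (L.length + 1))) (ls q (view L x)) := by
  rw [List.take_append, List.take_of_length_le (by simp; omega)]
  simp [view]

theorem cd_low {L E : List ℕ} {q x y : ℕ} (h : ls q (view L x) = ls q (view L y)) (n : ℕ)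
    (hn : n ≤ E.length) : L.length < cd (L ++ [q] ++ E) x n ∧
      cd (L ++ [q] ++ E) x n = cd (L ++ [q] ++ E) y n := by
  have hl : (L ++ [q] ++ E).length = L.length + 1 + E.length := by simp; omega
  induction n with
  | zero => exact ⟨by simp [cd], rfl⟩
  | succ n ih =>
    obtain ⟨h1, h2⟩ := ih (by omega)
    have h3 : L.length < (L ++ [q] ++ E).length - 1 - n := by omega
    constructor
    · simp only [cd]
      split_ifs
      · exact h1
      · exact h3
    · have h4 : ∀ r, L.length < r →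
          view ((L ++ [q] ++ E).take r) x = view ((L ++ [q] ++ E).take r) y := fun r hr => by
        rw [view_low hr, view_low hr, h]
      have h5 : J (L ++ [q] ++ E) x (cd (L ++ [q] ++ E) x n) =
          J (L ++ [q] ++ E) y (cd (L ++ [q] ++ E) x n) := by rw [J, J, h4 _ h1]
      simp only [cd]
      rw [← h2, h4 _ h3, h5]

theorem col_lt (q t : ℕ) : col q t < 2 := Nat.mod_lt _ (by norm_num)

theorem cd_top {L E : List ℕ} {q j z : ℕ} (hp : inPart L j z) (hj : jv q (view L z) = j)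
    (h : ¬ col q (view L z) =
      bt (J (L ++ [q] ++ E) z (cd (L ++ [q] ++ E) z E.length)) L.length) (n : ℕ)
    (hn : n ≤ L.length) : cd (L ++ [q] ++ E) z (E.length + 1 + n) = L.length := by
  have hl : (L ++ [q] ++ E).length = L.length + 1 + E.length := by simp; omega
  have h3 : (L ++ [q] ++ E).getD L.length 0 = q := by simp
  have h4 : (L ++ [q] ++ E).take L.length = L := by simp
  induction n with
  | zero =>
    have h5 : (L ++ [q] ++ E).length - 1 - E.length = L.length := by omega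
    simp only [cd]
    rw [h5, h3, h4, if_neg h]
  | succ n ih =>
    have h5 : (L ++ [q] ++ E).length - 1 - (E.length + 1 + n) = L.length - 1 - n := by omega
    have h6 : L.length - 1 - n < L.length := by omega
    rw [← add_assoc]
    simp only [cd]
    rw [ih (by omega), h5, if_pos]
    have h7 : (L ++ [q] ++ E).getD (L.length - 1 - n) 0 = L.getD (L.length - 1 - n) 0 := by
      simp [List.getElem?_append_left h6]
    have h8 : (L ++ [q] ++ E).take (L.length - 1 - n) = L.take (L.length - 1 - n) := by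
      rw [List.append_assoc, List.take_append_of_le_length h6.le]
    rw [h7, h8, J, h3, h4, hj]
    exact hp _ h6

/-- An edge below a false life meets the required side. -/
theorem hit {q j c x y : ℕ} (h : OnP q) (hc : TT q c = false) (hx : good q j c 0 x)
    (hy : good q j c 1 y) : (x ∈ AA ↔ ¬ side q = 0) ∨ (y ∈ AA ↔ ¬ side q = 0) := by
  obtain ⟨E, hE⟩ := iter_ext (T := TT) c (oc q, c)
  rw [LL_oc] at hE
  have key : ∀ z k, good q j c k z → ¬ k = bt (J (LL q ++ [q] ++ E) z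
      (cd (LL q ++ [q] ++ E) z E.length)) (LL q).length → (z ∈ AA ↔ ¬ side q = 0) := by
    intro z k hz hk
    change inA (fin TT z) z ↔ _
    rw [fin_eq h hc hz, hE, inA]
    obtain ⟨g1, -, -, -, -, g6, g7⟩ := hz
    have h1 := cd_top g1 g6 (g7 ▸ hk) _ le_rfl
    rw [show (LL q ++ [q] ++ E).length = E.length + 1 + (LL q).length by simp; omega, h1]
    simp
  have h1 : ls q (view (LL q) x) = ls q (view (LL q) y) := hx.2.2.2.1.trans hy.2.2.2.1.symm
  obtain ⟨h2, h3⟩ := cd_low (E := E) h1 _ le_rfl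
  by_cases h4 : 0 = bt (J (LL q ++ [q] ++ E) x (cd (LL q ++ [q] ++ E) x E.length)) (LL q).length
  · refine Or.inr (key y 1 hy ?_)
    rw [← h3, J, view_low h2, ← h1, ← view_low h2, ← J, ← h4]
    exact one_ne_zero
  · exact Or.inl (key x 0 hx h4)

/-! Locality in the second oracle. -/

theorem Big_congr {e z j s M : ℕ} {E : List ℕ} {κ κ' : ℕ → ℕ} (h : ∀ n < s, κ n = κ' n)
    (hB : Big e z E j s M κ) : Big e z E j s M κ' := by
  refine ⟨hB.1, lt_of_lt_of_le hB.2 (Nat.mul_le_mul_left _ ?_)⟩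
  rw [← List.countP_eq_length_filter, ← List.countP_eq_length_filter]
  refine List.countP_mono_left fun u _ hu => ?_
  obtain ⟨h1, h2⟩ := of_decide_eq_true hu
  refine decide_eq_true ⟨wit_congr (Jn_congr (fun _ _ => rfl) h) h1, ?_⟩
  rintro ⟨c, hc, h3, h4⟩
  exact h2 ⟨c, hc, h3, wit_congr (Jn_congr (fun _ _ => rfl)
    fun n hn => (h n (lt_of_lt_of_le hn (hB.1 c hc))).symm) h4⟩

theorem R2_congr {q j w : ℕ} {κ κ' : ℕ → ℕ} (h : ∀ n < w, κ n = κ' n) (hB : R2 q j w κ) :
    R2 q j w κ' :=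
  Big_congr (fun n hn => h n (lt_of_lt_of_le hn (Nat.unpair_right_le _))) hB

theorem R_congr {q w : ℕ} {κ κ' : ℕ → ℕ} (h : ∀ n < w, κ n = κ' n) (hB : R q w κ) :
    R q w κ' := by
  have h0 := Nat.unpair_right_le w
  rcases hB with ⟨h1, h2, h3⟩ | ⟨h1, h2, h3, h4⟩
  · exact Or.inl ⟨h1, h2, Big_congr
      (fun n hn => h n (lt_of_lt_of_le hn ((Nat.unpair_right_le _).trans h0))) h3⟩
  · exact Or.inr ⟨h1, h2, R2_congr (fun n hn => h n (by omega)) h3, fun w' hw' h5 =>
      h4 w' hw' (R2_congr (fun n hn => (h n (by omega)).symm) h5)⟩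

theorem Ks_below (s : ℕ) : ∀ᶠ t in atTop, ∀ n < s, Ks t n = chi (jump ∅) n :=
  ((eventually_all_finset (Finset.range s)).2 fun z _ => Ks_lim z).mono
    fun _ h n hn => h n (Finset.mem_range.2 hn)

theorem findIdx_lim {P : ℕ → (ℕ → ℕ) → Prop} [∀ w κ, Decidable (P w κ)]
    (hP : ∀ w κ κ', (∀ n < w, κ n = κ' n) → P w κ → P w κ') {w : ℕ}
    (h1 : P w (chi (jump ∅))) (h2 : ∀ w' < w, ¬ P w' (chi (jump ∅))) :
    ∀ᶠ t in atTop, (List.range t).findIdx (fun w => decide (P w (Ks t))) = w := by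
  filter_upwards [Ks_below w, eventually_gt_atTop w] with t ht hw
  rw [List.findIdx_eq (by simpa using hw)]
  simp only [List.getElem_range]
  exact ⟨decide_eq_true (hP _ _ _ (fun n hn => (ht n hn).symm) h1), fun w' hw' =>
    decide_eq_false fun h3 => h2 w' hw' (hP _ _ _ (fun n hn => ht n (by omega)) h3)⟩

theorem val_lim {q : ℕ} (h : ∃ w, R q w (chi (jump ∅))) :
    ∃ v, ¬ v = 0 ∧ ∀ᶠ t in atTop, val q t = v := by
  refine ⟨Nat.find h + 1, by omega, ?_⟩
  filter_upwards [findIdx_lim (P := R q) (fun _ _ _ => R_congr) (Nat.find_spec h)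
    fun _ hw => Nat.find_min h hw, eventually_gt_atTop (Nat.find h)] with t h1 h2
  have h3 : val1 q t = Nat.find h := h1
  rw [val, h3, if_pos h2]

theorem val_true {q c : ℕ} (h : TT q c = true) (h0 : ¬ val q c = 0) :
    R q (val q c - 1) (chi (jump ∅)) := by
  obtain ⟨t, h1, h2⟩ := ((Ks_below (val q c - 1)).and (eventually_ge_atTop c)).exists
  refine R_congr h1 ?_
  rw [← TT_iff.1 h t h2] at h0 ⊢
  have h3 : val1 q t < t := by
    by_contra h3
    exact h0 (if_neg h3)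
  have h4 : (List.range t).findIdx (fun w => decide (R q w (Ks t))) < (List.range t).length := by
    simpa [val1] using h3
  have := List.findIdx_getElem (w := h4)
  rw [List.getElem_range] at this
  rw [val, if_pos h3]
  exact of_decide_eq_true this

theorem col_lim {q j b w : ℕ} (h : TT q b = true) (hj : jv q b = j) (h1 : R2 q j w (chi (jump ∅)))
    (h2 : ∀ w' < w, ¬ R2 q j w' (chi (jump ∅))) :
    ∀ᶠ t in atTop, col q t = w.unpair.1.unpair.1 % 2 := by
  filter_upwards [findIdx_lim (P := R2 q j) (fun _ _ _ => R2_congr) h1 h2, eventually_ge_atTop b]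
    with t h3 h4
  have h5 : jv q t = j := by rw [← hj, jv, jv, TT_iff.1 h t h4]
  have h6 : val2 q j t = w := h3
  rw [col, h5, h6]

end Pool.Agent.MP_ac9d16_lc.N

end

section

namespace Pool.Agent.MP_ac9d16_lc.N

open Filter MeasureTheory
open scoped ENNReal

/-- The fair coin measure. -/
noncomputable abbrev mu : Measure (ℕ → Bool) :=
  Measure.infinitePi fun _ : ℕ => (PMF.uniformOfFintype Bool).toMeasure

noncomputable def gam (G : ℕ → Bool) : ℕ → ℕ := chi {m | G m = true}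

def cyl (s u : ℕ) : Set (ℕ → Bool) := Set.pi (Finset.range s) fun i => {decide (bt u i = 1)}

theorem mem_cyl {s u : ℕ} {G : ℕ → Bool} : G ∈ cyl s u ↔ ∀ n < s, gam G n = bt u n := by
  simp only [cyl, Set.mem_pi, Finset.coe_range, Set.mem_Iio, Set.mem_singleton_iff]
  refine forall₂_congr fun n _ => ?_
  have h9 := bt_lt u n
  by_cases h : bt u n = 1
  · rw [h, gam, chi_eq_one]
    simp
  · rw [show bt u n = 0 by omega, gam, chi_eq_zero]
    simp

theorem meas_cyl (s u : ℕ) : MeasurableSet (cyl s u) :=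
  .pi (Finset.countable_toSet _) fun _ _ => .singleton _

theorem mu_cyl (s u : ℕ) : mu (cyl s u) * 2 ^ s = 1 := by
  rw [cyl, Measure.infinitePi_pi _ fun _ _ => .singleton _]
  simp only [PMF.toMeasure_apply_singleton _ _ (MeasurableSet.singleton _),
    PMF.uniformOfFintype_apply, Fintype.card_bool, Finset.prod_const, Finset.card_range]
  rw [← mul_pow, Nat.cast_ofNat, ENNReal.inv_mul_cancel (by simp) (by simp), one_pow]

theorem bt_inj {s u v : ℕ} (hu : u < 2 ^ s) (hv : v < 2 ^ s) (h : ∀ n < s, bt u n = bt v n) :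
    u = v := by
  refine Nat.eq_of_testBit_eq fun i => ?_
  by_cases hi : i < s
  · rw [Nat.testBit_eq_decide_div_mod_eq, Nat.testBit_eq_decide_div_mod_eq]
    have := h i hi
    unfold bt at this
    rw [this]
  · have := Nat.pow_le_pow_right (show 0 < 2 by norm_num) (not_lt.1 hi)
    rw [Nat.testBit_lt_two_pow (by omega), Nat.testBit_lt_two_pow (by omega)]

section
variable {S : (ℕ → ℕ) → Prop} [DecidablePred S] {s : ℕ}
  (hS : ∀ γ γ', (∀ n < s, γ n = γ' n) → S γ → S γ')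
include hS

theorem loc_eq : {G | S (gam G)} =
    ⋃ u ∈ (Finset.range (2 ^ s)).filter fun u => S (bt u), cyl s u := by
  ext G
  simp only [Set.mem_ofPred_eq, Set.mem_iUnion, Finset.mem_filter, Finset.mem_range, mem_cyl]
  constructor
  · intro h
    obtain ⟨u, h1, h2⟩ := exists_bits (gam G) (chi_lt _) s
    exact ⟨u, ⟨h1, hS _ _ (fun n hn => (h2 n hn).symm) h⟩, fun n hn => (h2 n hn).symm⟩
  · rintro ⟨u, ⟨-, h1⟩, h2⟩
    exact hS _ _ (fun n hn => (h2 n hn).symm) h1

theorem loc_meas : MeasurableSet {G | S (gam G)} := by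
  rw [loc_eq hS]
  exact Finset.measurableSet_biUnion _ fun _ _ => meas_cyl _ _

theorem loc_mu : mu {G | S (gam G)} * 2 ^ s =
    ((List.range (2 ^ s)).filter fun u => decide (S (bt u))).length := by
  rw [loc_eq hS, measure_biUnion_finset ?_ fun _ _ => meas_cyl _ _, Finset.sum_mul]
  · simp only [mu_cyl, Finset.sum_const, nsmul_eq_mul, mul_one]
    rfl
  · intro u hu v hv huv
    simp only [Finset.coe_filter, Finset.mem_range, Set.mem_ofPred_eq] at hu hv
    refine Set.disjoint_left.2 fun G h1 h2 => huv (bt_inj hu.1 hv.1 fun n hn => ?_)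
    rw [← mem_cyl.1 h1 n hn, mem_cyl.1 h2 n hn]

end

theorem wit_mono {e z s s' : ℕ} {p : ℕ → ℕ} (h : wit e z p s) (hs : s ≤ s') : wit e z p s' := by
  obtain ⟨r, hr, h⟩ := h
  exact ⟨r, by omega, h⟩

theorem mem_loc {e j s : ℕ} {E : List ℕ} {κ : ℕ → ℕ} (h : ∀ c ∈ E, es c ≤ s) (γ γ' : ℕ → ℕ)
    (hγ : ∀ n < s, γ n = γ' n) (hm : mem e E j γ κ) : mem e E j γ' κ := by
  obtain ⟨c, hc, h1, h2⟩ := hm
  exact ⟨c, hc, h1, wit_congr (Jn_congr (fun n hn => hγ n (lt_of_lt_of_le hn (h c hc)))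
    fun _ _ => rfl) h2⟩

theorem fresh_loc {e z j s : ℕ} {E : List ℕ} {κ : ℕ → ℕ} (h : ∀ c ∈ E, es c ≤ s) (γ γ' : ℕ → ℕ)
    (hγ : ∀ n < s, γ n = γ' n) (hm : fresh e z E j s γ κ) : fresh e z E j s γ' κ :=
  ⟨wit_congr (Jn_congr hγ fun _ _ => rfl) hm.1,
    fun h1 => hm.2 (mem_loc h _ _ (fun n hn => (hγ n hn).symm) h1)⟩

theorem es_bdd (E : List ℕ) : ∃ s, ∀ c ∈ E, es c ≤ s :=
  ⟨E.toFinset.sup es, fun _ hc => Finset.le_sup (List.mem_toFinset.2 hc)⟩

theorem Big_iff {e z j s M : ℕ} {E : List ℕ} {κ : ℕ → ℕ} (h : ∀ c ∈ E, es c ≤ s) :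
    Big e z E j s M κ ↔ 1 < M * mu {G | fresh e z E j s (gam G) κ} := by
  have h1 := loc_mu (S := fun γ => fresh e z E j s γ κ) (fresh_loc h)
  rw [← ENNReal.mul_lt_mul_iff_left (c := 2 ^ s) (by simp) (by simp), mul_assoc, h1, one_mul, Big,
    and_iff_right h]
  norm_cast

noncomputable def pot (e : ℕ) (E : List ℕ) (r : ℕ) (κ : ℕ → ℕ) : ℝ≥0∞ :=
  ∑ j ∈ Finset.range r, mu {G | mem e E j (gam G) κ}

theorem pot_le (e : ℕ) (E : List ℕ) (r : ℕ) (κ : ℕ → ℕ) : pot e E r κ ≤ r := by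
  refine (Finset.sum_le_card_nsmul _ _ 1 fun _ _ => prob_le_one).trans ?_
  simp

theorem pot_concat {e z j s M r : ℕ} {E : List ℕ} {κ : ℕ → ℕ} (hj : j < r)
    (h : Big e z E j s M κ) : M * pot e E r κ + 1 ≤ M * pot e (E ++ [ent j z s]) r κ := by
  have h1 := (Big_iff h.1).1 h
  refine (add_le_add le_rfl h1.le).trans ?_
  rw [← mul_add]
  refine mul_le_mul' le_rfl ?_
  unfold pot
  rw [← Finset.add_sum_erase _ _ (Finset.mem_range.2 hj),
    ← Finset.add_sum_erase _ _ (Finset.mem_range.2 hj), add_right_comm]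
  refine add_le_add ?_ (Finset.sum_le_sum fun i _ => measure_mono ?_)
  · rw [← measure_union ?_ (loc_meas (S := fun γ => fresh e z E j s γ κ) (fresh_loc h.1))]
    · refine measure_mono ?_
      rintro G (⟨c, hc, h2⟩ | h2)
      · exact ⟨c, List.mem_append_left _ hc, h2⟩
      · exact ⟨ent j z s, by simp, by simp, by simpa using h2.1⟩
    · exact Set.disjoint_left.2 fun G h2 h3 => h3.2 h2
  · rintro G ⟨c, hc, h2⟩
    exact ⟨c, List.mem_append_left _ hc, h2⟩

theorem small {e z j M : ℕ} {E : List ℕ} {κ : ℕ → ℕ} (h : ∀ s, ¬ Big e z E j s M κ) :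
    M * mu {G | (∃ s, wit e z (Jn (gam G) κ) s) ∧ ¬ mem e E j (gam G) κ} ≤ 1 := by
  obtain ⟨s0, h0⟩ := es_bdd E
  have h1 : {G | (∃ s, wit e z (Jn (gam G) κ) s) ∧ ¬ mem e E j (gam G) κ} =
      ⋃ s, {G | fresh e z E j (s + s0) (gam G) κ} := by
    ext G
    simp only [Set.mem_ofPred_eq, Set.mem_iUnion]
    exact ⟨fun ⟨⟨s, h1⟩, h2⟩ => ⟨s, wit_mono h1 (by omega), h2⟩, fun ⟨s, h1, h2⟩ => ⟨⟨_, h1⟩, h2⟩⟩
  have h2 : Monotone fun s => {G | fresh e z E j (s + s0) (gam G) κ} := fun s s' hs G hG =>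
    ⟨wit_mono hG.1 (by omega), hG.2⟩
  rw [h1, h2.measure_iUnion, ENNReal.mul_iSup]
  exact iSup_le fun s => not_lt.1 fun h2 =>
    h _ ((Big_iff fun c hc => (h0 c hc).trans (by omega)).2 h2)

end Pool.Agent.MP_ac9d16_lc.N

end

section

namespace Pool.Agent.MP_ac9d16_lc.N

open Filter MeasureTheory Pool.Agent.MP_9a65c4_lc Pool.Agent.MP_40fdec_lc
open scoped ENNReal

/-- The least true life of a node. -/
def Life (q b : ℕ) : Prop :=
  aa q ≤ b ∧ TT q b = true ∧ ∀ b' < b, ¬ (aa q ≤ b' ∧ TT q b' = true)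

/-- The invariant of the nodes on the true path. -/
structure Iv (q : ℕ) : Prop where
  onp : OnP q
  pend : ∀ c ∈ PP q, ej c < 2 ^ (LL q).length ∧ ez c = z1 (en c) (ej c) ∧ dd (en c) = dd q ∧
    LL (en c) = LL q ∧ DD (en c) = DD q ∧ OnP (en c) ∧
      ∃ b, Life (en c) b ∧ ¬ val (en c) b = 0 ∧ jv (en c) b = ej c
  dead : ∀ c ∈ DD q, ∃ ν v, ez c = z2 ν (ej c) v ∧ LL ν = LL q ∧
    ∀ᶠ x in atTop, col ν (view (LL q) x) = v.unpair.1 % 2
  dpot : ((DD q).length : ℝ≥0∞) ≤
    (NN q * NN q * NN q : ℕ) * pot (ee q) (DD q) (2 ^ (LL q).length) (chi (jump ∅))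
  ppot : ((PP q).length : ℝ≥0∞) ≤
    NN q * pot (ee q) (DD q ++ PP q) (2 ^ (LL q).length) (chi (jump ∅))

theorem Iv.D_le {q : ℕ} (h : Iv q) : (DD q).length ≤ NN q * NN q * NN q * 2 ^ (LL q).length := by
  have := h.dpot.trans (mul_le_mul' le_rfl (pot_le _ _ _ _))
  exact_mod_cast this

theorem Iv.P_le {q : ℕ} (h : Iv q) : (PP q).length ≤ NN q * 2 ^ (LL q).length := by
  have := h.ppot.trans (mul_le_mul' le_rfl (pot_le _ _ _ _))
  exact_mod_cast this

theorem iv_new {d u a : ℕ} {L : List ℕ} (h : OnP (mk d u a L [] [])) : Iv (mk d u a L [] []) :=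
  ⟨h, by simp, by simp, by rw [DD_mk, List.length_nil, Nat.cast_zero]; exact zero_le,
    by rw [PP_mk, List.length_nil, Nat.cast_zero]; exact zero_le⟩

theorem en_ent (j q s : ℕ) : en (ent j (z1 q j) s) = q := by simp [en, z1]

theorem ee_eq {q q' : ℕ} (h : dd q = dd q') : ee q = ee q' := by rw [ee, ee, h]

theorem NN_eq {q q' : ℕ} (h : dd q = dd q') (h' : LL q = LL q') : NN q = NN q' := by
  rw [NN, NN, h, h']

def ph (q : ℕ) : ℕ := (DD q).length * (NN q * 2 ^ (LL q).length + 1) + (PP q).length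

theorem iv_step {q b : ℕ} (h : Iv q) (hb : Life q b) (h0 : ¬ val q b = 0) :
    Iv (tc q b) ∧ dd (tc q b) = dd q ∧ ph q < ph (tc q b) := by
  have h1 := onP_tc h.onp hb.1 hb.2.1 hb.2.2
  have h2 := val_true hb.2.1 h0
  rw [tc, if_neg h0] at h1 ⊢
  have hj : jv q b = (val q b - 1).unpair.2.unpair.1 := rfl
  generalize val q b - 1 = w at h1 h2 hj
  rcases h2 with ⟨r1, r2, r3⟩ | ⟨r1, r2, r3, r4⟩
  · rw [upd, if_pos r1] at h1 ⊢
    generalize hq' : mk _ _ _ _ _ _ = q' at h1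
    have e1 : dd q' = dd q := by simp [← hq']
    have e2 : LL q' = LL q := by simp [← hq']
    have e3 : DD q' = DD q := by simp [← hq']
    have e4 : PP q' = PP q ++
      [ent w.unpair.2.unpair.1 (z1 q w.unpair.2.unpair.1) w.unpair.2.unpair.2] := by simp [← hq']
    refine ⟨⟨h1, ?_, ?_, ?_, ?_⟩, e1, ?_⟩
    · rw [e1, e2, e3, e4]
      intro c hc
      rcases List.mem_append.1 hc with hc | hc
      · exact h.pend c hc
      · rw [List.mem_singleton.1 hc, en_ent, ej_ent, ez_ent]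
        exact ⟨r2, rfl, rfl, rfl, rfl, h.onp, b, hb, h0, hj⟩
    · rw [e2, e3]
      exact h.dead
    · rw [e2, e3, ee_eq e1, NN_eq e1 e2]
      exact h.dpot
    · rw [e2, e3, e4, ee_eq e1, NN_eq e1 e2, ← List.append_assoc]
      refine le_trans ?_ (pot_concat r2 r3)
      rw [List.length_append, List.length_singleton, Nat.cast_add, Nat.cast_one]
      exact add_le_add h.ppot le_rfl
    · rw [ph, ph, e2, e3, e4, NN_eq e1 e2]
      simp
  · rw [upd, if_neg r1] at h1 ⊢
    generalize w.unpair.1 - 1 = c at h1 r2 r3 r4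
    generalize hq' : mk _ _ _ _ _ _ = q' at h1
    have e1 : dd q' = dd q := by simp [← hq']
    have e2 : LL q' = LL q := by simp [← hq']
    have e3 : DD q' = DD q ++
      [ent (ej c) (z2 (en c) (ej c) w.unpair.2.unpair.1) w.unpair.2.unpair.2] := by simp [← hq']
    have e4 : PP q' = [] := by simp [← hq']
    obtain ⟨p1, -, p3, p4, p5, -, b', p7, -, p9⟩ := h.pend c r2
    refine ⟨⟨h1, by simp [e4], ?_, ?_,
      by rw [e4, List.length_nil, Nat.cast_zero]; exact zero_le⟩, e1, ?_⟩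
    · rw [e2, e3]
      intro c' hc
      rcases List.mem_append.1 hc with hc | hc
      · exact h.dead c' hc
      · rw [List.mem_singleton.1 hc, ej_ent, ez_ent]
        exact ⟨_, _, rfl, p4, h.onp.1.eventually (col_lim p7.2.1 p9 r3 r4)⟩
    · rw [R2, ee_eq p3, NN_eq p3 p4, p5] at r3
      rw [e2, e3, ee_eq e1, NN_eq e1 e2]
      refine le_trans ?_ (pot_concat p1 r3)
      rw [List.length_append, List.length_singleton, Nat.cast_add, Nat.cast_one]
      exact add_le_add h.dpot le_rfl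
    · have := h.P_le
      rw [ph, ph, e2, e3, e4, NN_eq e1 e2]
      simp only [List.length_append, List.length_singleton, List.length_nil, add_mul]
      omega

theorem exists_life {q : ℕ} (h : ∃ w, R q w (chi (jump ∅))) : ∃ b, Life q b ∧ ¬ val q b = 0 := by
  obtain ⟨v, h1, h2⟩ := val_lim h
  obtain ⟨b, hb⟩ := eventually_atTop.1 h2
  obtain ⟨c, hc⟩ := exists_least (q := q) ⟨max b (aa q), le_max_right _ _, TT_iff.2 fun s hs =>
    (hb s ((le_max_left _ _).trans hs)).trans (hb _ (le_max_left _ _)).symm⟩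
  refine ⟨c, hc, ?_⟩
  rwa [← TT_iff.1 hc.2.1 (max b c) (le_max_right _ _), hb _ (le_max_left _ _)]

theorem exists_fin {q : ℕ} (h : Iv q) :
    ∃ q', Iv q' ∧ dd q' = dd q ∧ ¬ ∃ w, R q' w (chi (jump ∅)) := by
  have : ∀ m q, Iv q → NN q * NN q * NN q * 2 ^ (LL q).length * (NN q * 2 ^ (LL q).length + 1) +
      NN q * 2 ^ (LL q).length < ph q + m →
      ∃ q', Iv q' ∧ dd q' = dd q ∧ ¬ ∃ w, R q' w (chi (jump ∅)) := by
    intro m
    induction m with
    | zero =>
      intro q h hm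
      have h1 := Nat.mul_le_mul_right (NN q * 2 ^ (LL q).length + 1) h.D_le
      have h2 := h.P_le
      unfold ph at hm
      omega
    | succ m ih =>
      intro q h hm
      by_cases h1 : ∃ w, R q w (chi (jump ∅))
      · obtain ⟨b, h2, h3⟩ := exists_life h1
        obtain ⟨h4, h5, h6⟩ := iv_step h h2 h3
        obtain ⟨q', h7⟩ := ih _ h4 (by rw [NN_eq h5 (LL_tc q b), LL_tc]; omega)
        exact ⟨q', h5 ▸ h7⟩
      · exact ⟨q, h, rfl, h1⟩
  exact this _ q h (Nat.lt_add_left _ (Nat.lt_succ_self _))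

theorem exists_final (d : ℕ) : ∃ q, Iv q ∧ dd q = d ∧ ¬ ∃ w, R q w (chi (jump ∅)) := by
  induction d with
  | zero => simpa using exists_fin (iv_new onP_root)
  | succ d ih =>
    obtain ⟨q, h1, h2, h3⟩ := ih
    by_cases h : ∃ b, aa q ≤ b ∧ TT q b = true
    · obtain ⟨b, b1, b2, b3⟩ := exists_least h
      have h4 := onP_tc h1.onp b1 b2 b3
      rw [tc, if_pos (not_not.1 fun h5 => h3 ⟨_, val_true b2 h5⟩)] at h4
      simpa [h2] using exists_fin (iv_new h4)
    · simpa [h2] using exists_fin (iv_new (onP_oc h1.onp h))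

/-- The matrix of the questions. -/
def Tq (z x y c : ℕ) : Prop :=
  (z.unpair.1 = 0 ∧ good z.unpair.2.unpair.1 z.unpair.2.unpair.2 c 0 x ∧
    good z.unpair.2.unpair.1 z.unpair.2.unpair.2 c 1 y) ∨
  (¬ z.unpair.1 = 0 ∧ z.unpair.2.unpair.2.unpair.2.unpair.2 ≤ x ∧
    inPart (LL z.unpair.2.unpair.1) z.unpair.2.unpair.2.unpair.1 x ∧
      col z.unpair.2.unpair.1 (view (LL z.unpair.2.unpair.1) x) =
        z.unpair.2.unpair.2.unpair.2.unpair.1 % 2)

def Qs (z : ℕ) (H : Set ℕ) : Prop := ∃ x ∈ H, ∃ y ∈ H, ∃ c, Tq z x y c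

theorem Qs_z1 {q j : ℕ} {H : Set ℕ} :
    Qs (z1 q j) H ↔ ∃ x ∈ H, ∃ y ∈ H, ∃ c, good q j c 0 x ∧ good q j c 1 y := by
  simp [Qs, Tq, z1]

theorem Qs_z2 {q j v : ℕ} {H : Set ℕ} : Qs (z2 q j v) H ↔
    ∃ x ∈ H, v.unpair.2 ≤ x ∧ inPart (LL q) j x ∧ col q (view (LL q) x) = v.unpair.1 % 2 := by
  simp only [Qs, Tq, z2, Nat.unpair_pair, one_ne_zero, false_and, false_or, not_false_eq_true,
    true_and, exists_const]
  exact ⟨fun ⟨x, h1, _, _, h2⟩ => ⟨x, h1, h2⟩, fun ⟨x, h1, h2⟩ => ⟨x, h1, x, h1, h2⟩⟩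

theorem pp_Tq {α : Type*} [Primcodable α] {z x y c : α → ℕ} (hz : Primrec z) (hx : Primrec x)
    (hy : Primrec y) (hc : Primrec c) : PrimrecPred fun a => Tq (z a) (x a) (y a) (c a) :=
  ((pp_eq (by fun_prop) (by fun_prop)).and
    ((pp_good (by fun_prop) (by fun_prop) hc (by fun_prop) hx).and
      (pp_good (by fun_prop) (by fun_prop) hc (by fun_prop) hy))).or
  ((pp_eq (by fun_prop) (by fun_prop)).not.and ((pp_le (by fun_prop) hx).and
    ((pp_inPart (by fun_prop) (by fun_prop) hx).and (pp_eq (by fun_prop)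
      (Primrec.nat_mod.comp (by fun_prop) (Primrec.const 2))))))

theorem exists_eps : ∃ ε : ℕ → ℕ, Primrec ε ∧ ∀ H z, ε z ∈ jump H ↔ Qs z H := by
  obtain ⟨ε, h1, h2⟩ := jump_sigma (Θ := fun z τ => ∃ x < τ.length, ∃ y < τ.length,
      ∃ c < τ.length, τ.getD x 0 = 1 ∧ τ.getD y 0 = 1 ∧ Tq z x y c)
    (pp_ex_lt (by fun_prop) (pp_ex_lt (by fun_prop) (pp_ex_lt (by fun_prop)
      ((pp_eq (by fun_prop) (by fun_prop)).and ((pp_eq (by fun_prop) (by fun_prop)).and
        (pp_Tq (by fun_prop) (by fun_prop) (by fun_prop) (by fun_prop)))))))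
  refine ⟨ε, h1, fun H z => (h2 H z).trans ?_⟩
  simp only [seg_length]
  constructor
  · rintro ⟨k, x, hx, y, hy, c, -, h3, h4, h5⟩
    rw [seg_getD hx, chi_eq_one] at h3
    rw [seg_getD hy, chi_eq_one] at h4
    exact ⟨x, h3, y, h4, c, h5⟩
  · rintro ⟨x, h3, y, h4, c, h5⟩
    exact ⟨x + y + c + 1, x, by omega, y, by omega, c, by omega,
      by rwa [seg_getD (by omega), chi_eq_one], by rwa [seg_getD (by omega), chi_eq_one], h5⟩

def Ans (e z : ℕ) (G : ℕ → Bool) : Prop := ∃ s, wit e z (Jn (gam G) (chi (jump ∅))) s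

def Good (e sd : ℕ) : Set (ℕ → Bool) := {G | ∃ H : Set ℕ, H.Infinite ∧
  (∀ x ∈ H, ¬ (x ∈ AA ↔ ¬ sd = 0)) ∧ ∀ z, Ans e z G ↔ ¬ Qs z H}

def SB (q j : ℕ) : Set (ℕ → Bool) :=
  {G | Ans (ee q) (z1 q j) G ∧ ¬ mem (ee q) (DD q ++ PP q) j (gam G) (chi (jump ∅))}

def SC (q c i y : ℕ) : Set (ℕ → Bool) :=
  {G | (∀ y', y ≤ y' → Ans (ee q) (z2 (en c) (ej c) (Nat.pair i y')) G) ∧
    ¬ mem (ee q) (DD q) (ej c) (gam G) (chi (jump ∅))}

theorem exists_part (L : List ℕ) {H : Set ℕ} (hH : H.Infinite) :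
    ∃ j < 2 ^ L.length, ∃ᶠ x in atTop, x ∈ H ∧ inPart L j x := by
  by_contra h
  push Not at h
  have h1 : ∀ᶠ x in atTop, ∀ j ∈ Finset.range (2 ^ L.length), x ∈ H → ¬ inPart L j x :=
    (eventually_all_finset _).2 fun j hj => h j (Finset.mem_range.1 hj)
  obtain ⟨y, hy⟩ := eventually_atTop.1 h1
  obtain ⟨x, hx, hx'⟩ := hH.exists_gt y
  obtain ⟨j, hj, hj'⟩ := exists_bits (fun r => col (L.getD r 0) (view (L.take r) x))
    (fun r => col_lt _ _) L.length
  exact hy x hx'.le j (Finset.mem_range.2 hj) hx fun r hr => (hj' r hr).symm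

theorem cover {q : ℕ} (h : Iv q) (hf : ¬ ∃ w, R q w (chi (jump ∅))) : Good (ee q) (side q) ⊆
    (⋃ j ∈ Finset.range (2 ^ (LL q).length), SB q j) ∪
      ⋃ a ∈ (PP q).toFinset ×ˢ Finset.range 2, ⋃ y, SC q a.1 a.2 y := by
  rintro G ⟨H, hH, hs, hA⟩
  obtain ⟨j, hj, hp⟩ := exists_part (LL q) hH
  have hD : ¬ mem (ee q) (DD q) j (gam G) (chi (jump ∅)) := by
    rintro ⟨c, hc, rfl, h1⟩
    obtain ⟨ν, v, d1, d2, d3⟩ := h.dead c hc
    obtain ⟨x, ⟨x1, x2⟩, x3, x4⟩ :=
      (hp.and_eventually (d3.and (eventually_ge_atTop v.unpair.2))).exists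
    refine (hA _).1 ⟨_, h1⟩ ?_
    rw [d1, Qs_z2, d2]
    exact ⟨x, x1, x4, x2, x3⟩
  by_cases hP : mem (ee q) (PP q) j (gam G) (chi (jump ∅))
  · obtain ⟨c, hc, rfl, h1⟩ := hP
    obtain ⟨-, p2, -, p4, -, p6, b, ⟨b1, b2, b3⟩, p8, p9⟩ := h.pend c hc
    have h2 := (hA _).1 ⟨_, h1⟩
    rw [p2, Qs_z1] at h2
    have h3 : ∀ᶠ x in atTop, inPart (LL (en c)) (ej c) x →
        good (en c) (ej c) b (col (en c) (view (LL (en c)) x)) x := by
      filter_upwards [p6.1.eventually_ge_atTop b, p6.1.eventually_gt_atTop (uu (en c))]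
        with x x1 x2 x3
      exact ⟨x3, b1.trans x1, x2, ls_eq b1 b2 b3 x1, p8,
        by rw [← p9, jv, jv, TT_iff.1 b2 _ x1], rfl⟩
    obtain ⟨y, hy⟩ := eventually_atTop.1 h3
    have h4 : ∃ i < 2, ∀ x ∈ H, ¬ good (en c) (ej c) b i x := by
      by_contra h4
      push Not at h4
      obtain ⟨x, x1, x2⟩ := h4 0 (by norm_num)
      obtain ⟨y, y1, y2⟩ := h4 1 (by norm_num)
      exact h2 ⟨x, x1, y, y1, b, x2, y2⟩
    obtain ⟨i, hi, h4⟩ := h4
    refine Or.inr (Set.mem_biUnion (x := (c, i)) (by simp [hc, hi]) (Set.mem_iUnion.2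
      ⟨y, fun y' hy' => (hA _).2 ?_, hD⟩))
    rw [Qs_z2, Nat.unpair_pair]
    rintro ⟨x, x1, x2, x3, x4⟩
    have := hy x (hy'.trans x2) x3
    rw [x4, Nat.mod_eq_of_lt hi] at this
    exact h4 x x1 this
  · refine Or.inl (Set.mem_biUnion (x := j) (by simpa using hj) ⟨(hA _).2 ?_, ?_⟩)
    · rw [Qs_z1]
      rintro ⟨x, x1, y, y1, c, x2, y2⟩
      rcases hit h.onp (Bool.eq_false_iff.2 fun h1 => hf ⟨_, val_true h1 x2.2.2.2.2.1⟩) x2 y2
        with h1 | h1
      · exact hs x x1 h1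
      · exact hs y y1 h1
    · rintro ⟨c, hc, h1⟩
      rcases List.mem_append.1 hc with hc | hc
      · exact hD ⟨c, hc, h1⟩
      · exact hP ⟨c, hc, h1⟩

theorem SB_le {q j : ℕ} (hf : ¬ ∃ w, R q w (chi (jump ∅))) (hj : j < 2 ^ (LL q).length) :
    NN q * mu (SB q j) ≤ 1 :=
  small fun s h => hf ⟨Nat.pair 0 (Nat.pair j s), Or.inl (by simpa [hj] using h)⟩

theorem SC_le {q c i : ℕ} (h : Iv q) (hf : ¬ ∃ w, R q w (chi (jump ∅))) (hc : c ∈ PP q) :
    (NN q * NN q * NN q : ℕ) * mu (⋃ y, SC q c i y) ≤ 1 := by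
  classical
  obtain ⟨-, -, p3, p4, p5, -⟩ := h.pend c hc
  have h1 : Monotone fun y => SC q c i y := fun y y' hy G hG =>
    ⟨fun z hz => hG.1 z (hy.trans hz), hG.2⟩
  rw [h1.measure_iUnion, ENNReal.mul_iSup]
  refine iSup_le fun y => le_trans (mul_le_mul' le_rfl (measure_mono fun G hG => ?_))
    (small (e := ee q) (z := z2 (en c) (ej c) (Nat.pair i y)) (j := ej c)
      (E := DD q) (κ := chi (jump ∅)) fun s h2 => hf ?_)
  · exact ⟨hG.1 y le_rfl, hG.2⟩
  have h3 : ∃ w, R2 (en c) (ej c) w (chi (jump ∅)) := ⟨Nat.pair (Nat.pair i y) s, by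
    rw [R2, ee_eq p3, NN_eq p3 p4, p5]
    simpa using h2⟩
  refine ⟨Nat.pair (c + 1) (Nat.find h3), Or.inr ?_⟩
  simp only [Nat.unpair_pair, Nat.add_sub_cancel]
  exact ⟨by omega, hc, Nat.find_spec h3, fun _ hw => Nat.find_min h3 hw⟩

theorem arith {N r p : ℕ} {a : ℝ≥0∞} (hr : 0 < r) (hp : 0 < p) (h : N = r * p * 4)
    (h5 : (N * N * N : ℕ) * a ≤ (r * (N * N) : ℕ) + (N * r * 2 : ℕ)) : p * a ≤ 1 := by
  have h6 : 0 < N := by
    rw [h]
    positivity
  have h7 : r * (N * N) + N * r * 2 ≤ N * N * (r * 4) := by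
    have : N * r ≤ N * r * N := Nat.le_mul_of_pos_right _ h6
    nlinarith
  have h8 : N * N * N = N * N * (r * 4) * p := by
    rw [mul_assoc (N * N)]
    congr 1
    rw [h]
    ring
  rw [← ENNReal.mul_le_mul_iff_right (a := (N * N * (r * 4) : ℕ))
    (by positivity) (ENNReal.natCast_ne_top _), mul_one, ← mul_assoc, ← Nat.cast_mul, ← h8]
  exact h5.trans (by exact_mod_cast h7)

theorem good_le (e sd k : ℕ) : (2 ^ k : ℕ) * mu (Good e sd) ≤ 1 := by
  obtain ⟨q, h, hd, hf⟩ := exists_final (Nat.pair e (Nat.pair sd k))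
  have h1 := cover h hf
  have e1 : ee q = e := by simp [ee, hd]
  have e2 : side q = sd := by simp [side, hd]
  have e3 : NN q = 2 ^ (LL q).length * 2 ^ k * 4 := by
    simp only [NN, hd, Nat.unpair_pair, pow_add]
    rfl
  rw [e1, e2] at h1
  have h2 := (measure_mono (μ := mu) h1).trans ((measure_union_le _ _).trans
    (add_le_add (measure_biUnion_finset_le _ _) (measure_biUnion_finset_le _ _)))
  have h3 : ((NN q * NN q * NN q : ℕ) : ℝ≥0∞) * ∑ j ∈ Finset.range (2 ^ (LL q).length),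
      mu (SB q j) ≤ (2 ^ (LL q).length * (NN q * NN q) : ℕ) := by
    rw [Finset.mul_sum]
    refine (Finset.sum_le_card_nsmul _ _ ((NN q * NN q : ℕ) : ℝ≥0∞) fun j hj => ?_).trans ?_
    · rw [Nat.cast_mul, mul_assoc]
      exact mul_le_of_le_one_right' (SB_le hf (Finset.mem_range.1 hj))
    · rw [nsmul_eq_mul, Finset.card_range, ← Nat.cast_mul]
  have h4 : ((NN q * NN q * NN q : ℕ) : ℝ≥0∞) * ∑ a ∈ (PP q).toFinset ×ˢ Finset.range 2,
      mu (⋃ y, SC q a.1 a.2 y) ≤ (NN q * 2 ^ (LL q).length * 2 : ℕ) := by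
    rw [Finset.mul_sum]
    refine (Finset.sum_le_card_nsmul _ _ 1 fun a ha =>
      SC_le h hf (List.mem_toFinset.1 (Finset.mem_product.1 ha).1)).trans ?_
    rw [nsmul_eq_mul, mul_one, Finset.card_product, Finset.card_range, Nat.cast_le]
    exact Nat.mul_le_mul_right _ ((List.toFinset_card_le _).trans h.P_le)
  exact arith (by positivity) (by positivity) e3
    ((mul_le_mul' le_rfl h2).trans ((mul_add _ _ _).le.trans (add_le_add h3 h4)))

theorem good_null (e sd : ℕ) : mu (Good e sd) = 0 := by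
  by_contra h
  obtain ⟨n, hn⟩ := ENNReal.exists_nat_mul_gt h ENNReal.one_ne_top
  refine hn.not_ge (le_trans (mul_le_mul' ?_ le_rfl) (good_le e sd n))
  exact_mod_cast Nat.lt_two_pow_self.le

theorem null : mu {G : ℕ → Bool | ∃ H : Set ℕ, H.Infinite ∧ (H ⊆ AA ∨ H ⊆ AAᶜ) ∧
    RecursiveIn {fun n => Part.some (chi {m | G m = true} n), fun n => Part.some (chi (jump ∅) n)}
      fun n => Part.some (chi (jump H) n)} = 0 := by
  refine measure_mono_null ?_ (measure_iUnion_null fun a : ℕ × ℕ => good_null a.1 a.2)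
  rintro G ⟨H, h1, h2, h3⟩
  obtain ⟨sd, hsd⟩ : ∃ sd : ℕ, ∀ x ∈ H, ¬ (x ∈ AA ↔ ¬ sd = 0) := by
    rcases h2 with h | h
    · exact ⟨0, fun x hx h' => h'.1 (h hx) rfl⟩
    · exact ⟨1, fun x hx h' => h hx (h'.2 one_ne_zero)⟩
  have h4 : Nat.RecursiveIn {fun n => Part.some (Jn (gam G) (chi (jump ∅)) n)}
      fun n => Part.some (chi (jump H) n) := by
    refine (RecursiveIn.iff_nat.1 h3).subst ?_
    rintro g (rfl | rfl)
    · exact (RecIn.oracle.comp (RecIn.of_primrec (f := fun n => n + n) (by fun_prop))).of_eq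
        fun n => by
          rw [Jn, if_pos (by omega), show (n + n) / 2 = n by omega, gam]
    · exact (RecIn.oracle.comp (RecIn.of_primrec (f := fun n => n + n + 1) (by fun_prop))).of_eq
        fun n => by
          rw [Jn, if_neg (by omega), show (n + n + 1) / 2 = n by omega]
  obtain ⟨F, hF, hF'⟩ := exists_tf h4
  obtain ⟨ε, hε, hε'⟩ := exists_eps
  obtain ⟨e, he⟩ := exists_index_of_tf (TuringFunctional.comp hF (tf_of_computable hε.to_comp))
  refine Set.mem_iUnion.2 ⟨(e, sd), H, h1, hsd, fun z => ?_⟩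
  have h5 : Phi (Jn (gam G) (chi (jump ∅))) e z = Part.some (chi (jump H) (ε z)) := by
    rw [he]
    simp [hF']
  rw [← hε', ← chi_eq_zero]
  constructor
  · rintro ⟨s, r, -, h6⟩
    have := mem_Phi.2 ⟨r, h6⟩
    rw [h5] at this
    exact (Part.mem_some_iff.1 this).symm
  · intro h6
    obtain ⟨r, hr⟩ := mem_Phi.1 (show 0 ∈ Phi (Jn (gam G) (chi (jump ∅))) e z by rw [h5, h6]; simp)
    exact ⟨r + 1, r, by omega, hr⟩

end Pool.Agent.MP_ac9d16_lc.N

end
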