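import Pool.Agent.Mg.F40fdec.G470ee8

set_option linter.all false

set_option autoImplicit false

namespace Pool.Agent.MP_40fdec_lc

open Nat.Partrec (Code)

/-- the part of the graph with values at least `b` -/
def tgraph (b : ℕ) (g : ℕ → ℕ) : Set ℕ := {y | g y.unpair.1 = y.unpair.2 ∧ b ≤ y.unpair.2}

theorem RP.halts' {o e a b : ℕ → ℕ} (he : RecIn o e) (ha : RecIn o a) (hb : RecIn o b) :
    RP o fun x => (Code.evaln (b x) (Denumerable.ofNat Code (e x)) (a x)).isSome = true := by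
  have h : Primrec fun z : ℕ => cond (Code.evaln z.unpair.2.unpair.2
      (Denumerable.ofNat Code z.unpair.1) z.unpair.2.unpair.1).isSome 0 1 :=
    Primrec.cond (Primrec.option_isSome.comp (Code.primrec_evaln.comp (Primrec.pair
      (Primrec.pair (p2.comp p2) ((Primrec.ofNat Code).comp p1)) (p1.comp p2))))
      (Primrec.const 0) (Primrec.const 1)
  refine ⟨_, (RecIn.of_primrec h).comp (he.pair (ha.pair hb)), fun n => ?_⟩
  simp only [Nat.unpair_pair]
  cases (Code.evaln (b n) (Denumerable.ofNat Code (e n)) (a n)).isSome <;> simp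

/-- the diagonal set is enumerated by `B`, its complement is not -/
theorem exists_diag (B : Set ℕ) : ∃ K : Set ℕ, ERed K B ∧ ¬ ERed Kᶜ B := by
  have J := @RecIn.id' fun _ => 0
  refine ⟨{e | e ∈ Op (Denumerable.ofNat Code e) B}, ered_of_RP (fun e u t =>
    (Code.evaln t (Denumerable.ofNat Code e) (Nat.pair e u)).isSome = true)
    (RP.halts' J.fst.fst (J.fst.fst.pair J.fst.snd) J.snd) fun e => ⟨?_, ?_⟩, fun h => ?_⟩
  · rintro ⟨u, a, b⟩
    obtain ⟨t, ht⟩ := dom_iff.1 a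
    exact ⟨u, t, ht t le_rfl, b⟩
  · rintro ⟨u, t, a, b⟩
    exact ⟨u, dom_of_isSome a, b⟩
  · obtain ⟨c, hc⟩ := h.code
    have := Set.ext_iff.1 hc (Encodable.encode c)
    simp only [Set.mem_compl_iff, Set.mem_ofPred_eq, Denumerable.ofNat_encode] at this
    exact not_iff_self this

theorem ered_right (X Y : Set ℕ) : ERed Y (join X Y) :=
  ered_of_map (fun x => 2 * x + 1) (((RecIn.const 2).mul RecIn.id').add (RecIn.const 1))
    fun _ => odd_mem_join.symm

theorem ered_left (X Y : Set ℕ) : ERed X (join X Y) :=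
  ered_of_map (fun x => 2 * x) ((RecIn.const 2).mul RecIn.id') fun _ => even_mem_join.symm

/-- the cospectrum of a telograph-cototal degree is not closed under the jump -/
theorem not_closed (b : ℕ) (g : ℕ → ℕ) : ∃ X P : Set ℕ,
    ERed (join X Xᶜ) (join (graph g)ᶜ (tgraph b g)) ∧ ERed P (join X Xᶜ) ∧
      ¬ ERed (join P Pᶜ) (join (graph g)ᶜ (tgraph b g)) := by
  have J := @RecIn.id' fun _ => 0
  have T := @RecIn.const (fun _ => 0) 2
  have B := @RecIn.const (fun _ => 0) b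
  by_contra hcon
  have cl : ∀ X P : Set ℕ, ERed (join X Xᶜ) (join (graph g)ᶜ (tgraph b g)) → ERed P (join X Xᶜ) →
      ERed (join P Pᶜ) (join (graph g)ᶜ (tgraph b g)) :=
    fun X P h1 h2 => by_contra fun h3 => hcon ⟨X, P, h1, h2, h3⟩
  have h1 : ERed (tgraph b g)ᶜ (graph g)ᶜ := by
    refine ered_of_RP (fun y u _ => y.unpair.2 < b ∨ u.testBit y = true)
      ((RP.lt J.fst.fst.snd B).or (RP.bit J.fst.snd J.fst.fst)) fun y => ⟨fun hy => ?_, ?_⟩
    · obtain ⟨u, a, d⟩ := exists_sub (graph g)ᶜ {y}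
      refine ⟨u, 0, ?_, a⟩
      by_cases e : y.unpair.2 < b
      · exact Or.inl e
      · exact Or.inr (d y (by simp) fun f => hy ⟨f, not_lt.1 e⟩)
    · rintro ⟨u, _, a | a, d⟩ e
      · exact absurd e.2 (not_le.2 a)
      · exact d y a e.1
  have h2 : ERed {n | b ≤ g n} (tgraph b g) := by
    refine ered_of_RP (fun n u t => u.testBit (Nat.pair n t) = true)
      (RP.bit J.fst.snd (J.fst.fst.pair J.snd)) fun n => ⟨fun hn => ?_, ?_⟩
    · obtain ⟨u, a, d⟩ := exists_sub (tgraph b g) {Nat.pair n (g n)}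
      exact ⟨u, g n, d _ (by simp) (by simpa [tgraph] using hn), a⟩
    · rintro ⟨u, t, a, d⟩
      have := d _ a
      simp only [tgraph, Set.mem_ofPred_eq, Nat.unpair_pair] at this ⊢
      omega
  have h3 := cl _ _ ((ered_right _ _).join (h1.trans (ered_left _ _))) (h2.trans (ered_left _ _))
  have h4 : ERed (graph g) (join (join (graph g)ᶜ (tgraph b g)) {n | b ≤ g n}ᶜ) := by
    refine ered_of_RP (fun y u _ => u.testBit (2 * (2 * y + 1)) = true ∨
      (u.testBit (2 * y.unpair.1 + 1) = true ∧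
        ∀ v < b, v ≠ y.unpair.2 → u.testBit (2 * (2 * Nat.pair y.unpair.1 v)) = true)) ?_
      fun y => ⟨fun hy => ?_, ?_⟩
    · exact (RP.bit J.fst.snd (T.mul ((T.mul J.fst.fst).add (RecIn.const 1)))).or
        ((RP.bit J.fst.snd ((T.mul J.fst.fst.fst).add (RecIn.const 1))).and (RP.ball
          ((RP.eq J.snd J.fst.fst.fst.snd).not.imp (RP.bit J.fst.fst.snd
            (T.mul (T.mul (J.fst.fst.fst.fst.pair J.snd))))) B))
    · obtain ⟨u, a, d⟩ := exists_sub (join (join (graph g)ᶜ (tgraph b g)) {n | b ≤ g n}ᶜ)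
        (insert (2 * (2 * y + 1)) (insert (2 * y.unpair.1 + 1)
          ((Finset.range b).image fun v => 2 * (2 * Nat.pair y.unpair.1 v))))
      have hy' : g y.unpair.1 = y.unpair.2 := hy
      refine ⟨u, 0, ?_, a⟩
      by_cases e : b ≤ y.unpair.2
      · exact Or.inl (d _ (by simp) (even_mem_join.2 (odd_mem_join.2 ⟨hy, e⟩)))
      · refine Or.inr ⟨d _ (by simp) (odd_mem_join.2 fun f => e (hy' ▸ f)), fun v hv f => d _
          (Finset.mem_insert_of_mem (Finset.mem_insert_of_mem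
            (Finset.mem_image_of_mem _ (Finset.mem_range.2 hv)))) ?_⟩
        rw [even_mem_join, even_mem_join, Set.mem_compl_iff, pair_mem_graph]
        exact fun k => f (k.symm.trans hy')
    · rintro ⟨u, _, a | ⟨a, a'⟩, d⟩
      · exact (odd_mem_join.1 (even_mem_join.1 (d _ a))).1
      · by_contra e
        have e1 : ¬ b ≤ g y.unpair.1 := odd_mem_join.1 (d _ a)
        exact even_mem_join.1 (even_mem_join.1 (d _ (a' _ (not_le.1 e1) e))) (pair_mem_graph.2 rfl)
  have h5 : ERed (join (graph g) (graph g)ᶜ) (join (graph g)ᶜ (tgraph b g)) :=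
    (h4.trans ((ERed.refl _).join ((ered_right _ _).trans h3))).join (ered_left _ _)
  have h6 : ERed (tgraph b g) (graph g) := by
    refine ered_of_RP (fun y u _ => b ≤ y.unpair.2 ∧ u.testBit y = true)
      ((RP.le B J.fst.fst.snd).and (RP.bit J.fst.snd J.fst.fst)) fun y => ⟨fun hy => ?_, ?_⟩
    · obtain ⟨u, a, d⟩ := exists_sub (graph g) {y}
      exact ⟨u, 0, ⟨hy.2, d y (by simp) hy.1⟩, a⟩
    · rintro ⟨u, _, a, d⟩
      exact ⟨d y a.2, a.1⟩
  obtain ⟨K, k1, k2⟩ := exists_diag (join (graph g) (graph g)ᶜ)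
  exact k2 (((ered_right _ _).trans (cl _ _ h5 k1)).trans
    ((ered_right _ _).join (h6.trans (ered_left _ _))))

/-- the settling time of a set enumerated by `X` that lies outside the ideal -/
theorem exists_modulus {I : Set (Set ℕ)} (hI : Idl I) {X P : Set ℕ} (hX : X ∈ I)
    (hP : ERed P (join X Xᶜ)) (hP' : P ∉ I) : ∃ (μ : ℕ → ℕ) (D : ℕ → ℕ → Prop), Monotone μ ∧
      (∀ Y ∈ I, ∀ b, RecIn (chi Y) b → ∃ k, b k < μ k) ∧
      RP (chi X) (fun z => D z.unpair.1 z.unpair.2) ∧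
      (∀ i, (∃ t, D i t) ↔ i.unpair.2 ≠ μ i.unpair.1) ∧ ∀ i t t', D i t → D i t' → t = t' := by
  classical
  obtain ⟨c, rfl⟩ := hP.code
  have J := @RecIn.id' (chi X)
  have T := @RecIn.const (chi X) 2
  let M : ℕ → ℕ → ℕ → Prop := fun _ y _ => y ∈ join X Xᶜ
  have hM : RP (chi X) fun z => M z.unpair.1.unpair.1 z.unpair.1.unpair.2 z.unpair.2 :=
    (RP.eq (RecIn.oracle.comp (J.fst.snd.div T)) (J.fst.snd.mod T)).not.of_iff
      fun _ => mem_join_compl
  let Q : ℕ → ℕ → Prop := fun n t => ∃ u < t, OpT c (M 0) n u t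
  have hQ : RP (chi X) fun z => Q z.unpair.1 z.unpair.2 :=
    RP.bex (RP.opT c hM (RecIn.const 0) J.fst.fst J.snd J.fst.snd) J.snd
  have hQ' : ∀ {a b : ℕ → ℕ}, RecIn (chi X) a → RecIn (chi X) b →
      RP (chi X) fun z => Q (a z) (b z) :=
    fun ha hb => (hQ.comp (ha.pair hb)).of_iff fun _ => by simp only [Nat.unpair_pair]
  have q1 : ∀ n t, Q n t → n ∈ Op c (join X Xᶜ) := fun n t ⟨u, _, a⟩ =>
    ⟨u, a.sound.1, fun y hy => let ⟨_, b⟩ := a.sound.2 y hy; b⟩
  have q2 : ∀ n ∈ Op c (join X Xᶜ), ∃ t, ∀ s, t ≤ s → Q n s := fun n ⟨u, a, b⟩ => by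
    obtain ⟨t, ht⟩ := OpT.complete (M := M 0) a fun y hy => ⟨0, b y hy⟩
    exact ⟨t + u + 1, fun s hs => ⟨u, by omega, ht s (by omega)⟩⟩
  have q3 : ∀ n t s, t ≤ s → Q n t → Q n s := fun n t s hs ⟨u, a, b, d⟩ => by
    obtain ⟨y, hy⟩ := Option.isSome_iff_exists.1 b
    refine ⟨u, by omega, Option.isSome_iff_exists.2 ⟨y, Code.evaln_mono hs hy⟩, fun y e f => ?_⟩
    obtain ⟨r, g, k⟩ := d y e f
    exact ⟨r, by omega, k⟩
  have hex : ∀ n, ∃ s, ∀ j < n, j ∈ Op c (join X Xᶜ) → Q j s := fun n => by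
    obtain ⟨s, hs⟩ := exists_bound (r := fun j t => j ∈ Op c (join X Xᶜ) → Q j t) n fun j _ => by
      by_cases d : j ∈ Op c (join X Xᶜ)
      · exact (q2 j d).imp fun t a _ => a t le_rfl
      · exact ⟨0, fun a => absurd a d⟩
    refine ⟨s, fun j hj d => ?_⟩
    obtain ⟨t, a, b⟩ := hs j hj
    exact q3 j t s a.le (b d)
  let E : ℕ → ℕ → Prop := fun i t => (∃ j < i.unpair.1, Q j t ∧ ¬ Q j i.unpair.2) ∨
    ∃ s < i.unpair.2, ∀ j < i.unpair.1, Q j i.unpair.2 → Q j s
  have hE : RP (chi X) fun z => E z.unpair.1 z.unpair.2 :=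
    (RP.bex ((hQ' J.snd J.fst.snd).and (hQ' J.snd J.fst.fst.snd).not) J.fst.fst).or
      (RP.bex (RP.ball ((hQ' J.snd J.fst.fst.fst.snd).imp (hQ' J.snd J.fst.snd))
        J.fst.fst.fst) J.fst.snd)
  refine ⟨fun n => Nat.find (hex n), fun i t => E i t ∧ ∀ s < t, ¬ E i s,
    fun m n hmn => Nat.find_mono fun s a j hj => a j (by omega), fun Y hY b hb => ?_,
    hE.and (RP.ball ((hE.comp (J.fst.fst.pair J.snd)).not.of_iff
      fun _ => by simp only [Nat.unpair_pair]) J.snd), fun i => ⟨?_, fun a => ?_⟩,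
    fun i t t' a b => le_antisymm (not_lt.1 fun d => a.2 _ d b.1) (not_lt.1 fun d => b.2 _ d a.1)⟩
  · by_contra d
    push Not at d
    refine hP' (hI.down _ _ (hI.join X Y hX hY) (RP.chi ?_))
    refine (((hQ.trans (recIn_left X Y)).comp (RecIn.id'.pair ((hb.trans (recIn_right X Y)).comp
      (RecIn.id'.add (RecIn.const 1))))).of_iff fun n => ?_)
    simp only [Nat.unpair_pair]
    exact ⟨fun a => q3 _ _ _ (d (n + 1)) (Nat.find_spec (hex (n + 1)) n (by omega) a), q1 _ _⟩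
  · rintro ⟨t, ⟨j, a, b, d⟩ | ⟨s, a, b⟩, -⟩ e
    · exact d (e ▸ Nat.find_spec (hex i.unpair.1) j a (q1 _ _ b))
    · exact Nat.find_min (hex i.unpair.1) (a.trans_eq e) fun j hj d =>
        b j hj (e ▸ Nat.find_spec (hex i.unpair.1) j hj d)
  · have key : ∃ t, E i t := by
      rcases lt_or_gt_of_ne a with d | d
      · have := Nat.find_min (hex i.unpair.1) d
        push Not at this
        obtain ⟨j, e, f, g⟩ := this
        obtain ⟨t, ht⟩ := q2 j f
        exact ⟨t, Or.inl ⟨j, e, ht t le_rfl, g⟩⟩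
      · exact ⟨0, Or.inr ⟨_, d, fun j hj e => Nat.find_spec (hex i.unpair.1) j hj (q1 _ _ e)⟩⟩
    exact ⟨Nat.find key, Nat.find_spec key, fun s hs => Nat.find_min key hs⟩

/-- an ideal that is not closed under the jump is the cospectrum of a telograph-cototal degree -/
theorem exists_telo {I : Set (Set ℕ)} (hc : I.Countable) (hI : Idl I) {X0 P : Set ℕ}
    (hX0 : X0 ∈ I) (hP : ERed P (join X0 X0ᶜ)) (hP' : P ∉ I) :
    ∃ g : ℕ → ℕ, ∀ Z, ERed (join Z Zᶜ) (join (graph g)ᶜ (tgraph 2 g)) ↔ Z ∈ I := by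
  classical
  have := hc.to_subtype
  obtain ⟨μ, D, hm, hμ, hD, d1, d2⟩ := exists_modulus hI hX0 hP hP'
  let G : (ℕ → ℕ) → ℕ → ℕ := fun f m => if h : ∃ t, D m.unpair.1 t then h.choose + 2
    else f (Nat.pair m.unpair.1.unpair.1 m.unpair.2) % 2
  have g1 : ∀ f m v, G f m = v + 2 ↔ D m.unpair.1 v := fun f m v => by
    by_cases h : ∃ t, D m.unpair.1 t
    · simp only [G, dif_pos h, Nat.add_right_cancel_iff]
      exact ⟨fun a => a ▸ h.choose_spec, d2 _ _ _ h.choose_spec⟩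
    · simp only [G, dif_neg h]
      exact iff_of_false (by omega) fun a => h ⟨v, a⟩
  have g2 : ∀ f m v, v < 2 → (G f m ≠ v ↔
      f (Nat.pair m.unpair.1.unpair.1 m.unpair.2) % 2 ≠ v ∨ ∃ t, D m.unpair.1 t) := fun f m v hv => by
    by_cases h : ∃ t, D m.unpair.1 t
    · simp only [G, dif_pos h]
      exact iff_of_true (by omega) (Or.inr h)
    · simp only [G, dif_neg h]
      exact ⟨Or.inl, fun a => a.resolve_right h⟩
  let Ok : (ℕ → ℕ) → Prop := fun F => ∃ X ∈ I, RecIn (chi X) F ∧ RecIn (chi X) (chi X0)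
  refine Exists.elim (generic (ι := Code ⊕ I) Ok ⟨fun _ => 0, X0, hX0, RecIn.const 0, RecIn.oracle⟩
    (fun e f => e.elim
      (fun c => ∀ Z : Set ℕ, join Z Zᶜ = Op c (join (graph (G f))ᶜ (tgraph 2 (G f))) → Z ∈ I)
      fun Y => ERed (join Y.1 Y.1ᶜ) (graph (G f))ᶜ) ?_) fun f ⟨_, h2⟩ => ?_
  swap
  · refine ⟨G f, fun Z => ⟨fun a => ?_, fun a => ERed.trans (h2 (Sum.inr ⟨Z, a⟩)) (ered_left _ _)⟩⟩
    obtain ⟨c, e⟩ := a.code
    exact h2 (Sum.inl c) Z e
  rintro (c | Y) k F ⟨X, hX, b, b'⟩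
  · have J := @RecIn.id' (chi X)
    have T := @RecIn.const (chi X) 2
    have hD' : ∀ {a e : ℕ → ℕ}, RecIn (chi X) a → RecIn (chi X) e →
        RP (chi X) fun z => D (a z) (e z) := fun ha he =>
      ((hD.trans b').comp (ha.pair he)).of_iff fun _ => by simp only [Nat.unpair_pair]
    have Y := J.fst.snd.div T
    let M : ℕ → ℕ → ℕ → Prop := fun j y r =>
      (y % 2 = 1 → 2 ≤ (y / 2).unpair.2 ∧ D (y / 2).unpair.1.unpair.1 ((y / 2).unpair.2 - 2)) ∧
      (y % 2 = 0 → (2 ≤ (y / 2).unpair.2 → ¬ D (y / 2).unpair.1.unpair.1 ((y / 2).unpair.2 - 2)) ∧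
        ((y / 2).unpair.2 < 2 → (y / 2).unpair.1.unpair.1.unpair.1 < k + j + 1 →
          F (Nat.pair (y / 2).unpair.1.unpair.1.unpair.1 (y / 2).unpair.1.unpair.2) % 2 ≠
            (y / 2).unpair.2 ∨ D (y / 2).unpair.1.unpair.1 r))
    have key : ∀ j y (f : ℕ → ℕ), (∀ m, m.unpair.1 < k + j + 1 → f m = F m) →
        (y ∈ join (graph (G f))ᶜ (tgraph 2 (G f)) → ∃ r, M j y r) ∧
        (y < μ j → (∃ r, M j y r) → y ∈ join (graph (G f))ᶜ (tgraph 2 (G f))) := by
      intro j y f hf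
      have e1 : 2 ≤ (y / 2).unpair.2 → (G f (y / 2).unpair.1 = (y / 2).unpair.2 ↔
          D (y / 2).unpair.1.unpair.1 ((y / 2).unpair.2 - 2)) := fun a => by
        rw [← g1 f, Nat.sub_add_cancel a]
      have e2 := g2 f (y / 2).unpair.1 (y / 2).unpair.2
      have e3 := hf (Nat.pair (y / 2).unpair.1.unpair.1.unpair.1 (y / 2).unpair.1.unpair.2)
      rw [Nat.unpair_pair] at e3
      constructor
      · rintro (⟨a, e⟩ | ⟨a, e⟩)
        · by_cases d : ∃ t, D (y / 2).unpair.1.unpair.1 t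
          · obtain ⟨t, ht⟩ := d
            exact ⟨t, by omega, fun _ => ⟨fun g l => e ((e1 g).2 l), fun _ _ => Or.inr ht⟩⟩
          · exact ⟨0, by omega, fun _ => ⟨fun g l => e ((e1 g).2 l), fun g l =>
              Or.inl (e3 l ▸ ((e2 g).1 e).resolve_right d)⟩⟩
        · exact ⟨0, fun _ => ⟨e.2, (e1 e.2).1 e.1⟩, by omega⟩
      · rintro hy ⟨r, a, e⟩
        rcases Nat.mod_two_eq_zero_or_one y with d | d
        · refine Or.inl ⟨d, ?_⟩
          rcases Nat.lt_or_ge (y / 2).unpair.2 2 with g | g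
          · refine (e2 g).2 ?_
            by_cases l : (y / 2).unpair.1.unpair.1.unpair.1 < k + j + 1
            · exact ((e d).2 g l).imp (fun n => e3 l ▸ n) fun n => ⟨r, n⟩
            · refine Or.inr ((d1 _).2 ?_)
              have n1 := Nat.unpair_left_le (y / 2)
              have n2 := Nat.unpair_left_le (y / 2).unpair.1
              have n3 := Nat.unpair_right_le (y / 2).unpair.1.unpair.1
              have n4 := hm (show j ≤ (y / 2).unpair.1.unpair.1.unpair.1 by omega)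
              omega
          · exact fun l => (e d).1 g ((e1 g).1 l)
        · exact Or.inr ⟨d, (e1 (a d).1).2 (a d).2, (a d).1⟩
    obtain ⟨j, d⟩ := dichotomy (M := M) c
      (((RP.eq (J.fst.snd.mod T) (RecIn.const 1)).imp ((RP.le T Y.snd).and
        (hD' Y.fst.fst (Y.snd.sub T)))).and ((RP.eq (J.fst.snd.mod T) (RecIn.const 0)).imp
        (((RP.le T Y.snd).imp (hD' Y.fst.fst (Y.snd.sub T)).not).and ((RP.lt Y.snd T).imp
          ((RP.lt Y.fst.fst.fst (((RecIn.const k).add J.fst.fst).add (RecIn.const 1))).imp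
            ((RP.eq ((b.comp (Y.fst.fst.fst.pair Y.fst.snd)).mod T) Y.snd).not.or
              (hD' Y.fst.fst J.snd))))))) (hμ X hX)
    refine ⟨k + j + 1, F, by omega, ⟨X, hX, b, b'⟩, fun _ _ => rfl, fun f hf _ Z hZ => ?_⟩
    rcases d with d | ⟨w, hw, d⟩
    · exact hI.down X Z hX (d _ (fun y hy => (key j y f hf).1 hy) Z hZ).chi
    · exact absurd hZ (d _ (fun y hy => (key j y f hf).2 (hy.trans hw)) Z)
  · have J := @RecIn.id' fun _ => 0
    refine ⟨k + 1, fun m => if m.unpair.1 = k then chi Y.1 m.unpair.2 else F m, by omega,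
      ⟨_, hI.join X Y.1 hX Y.2, (RP.eq RecIn.id'.fst (RecIn.const _)).ite
        ((recIn_right X Y.1).comp RecIn.id'.snd) (b.trans (recIn_left X Y.1)),
        b'.trans (recIn_left X Y.1)⟩, fun m hm => if_neg (by omega), fun f hf _ => ered_of_map
      (fun x => Nat.pair (Nat.pair (Nat.pair k (μ k)) (x / 2)) (x % 2))
      (((RecIn.const _).pair (J.div (RecIn.const 2))).pair (J.mod (RecIn.const 2))) fun x => ?_⟩
    have e1 := chi_le_one Y.1 (x / 2)
    have e2 : ¬ ∃ t, D (Nat.pair k (μ k)) t := by rw [d1]; simp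
    rw [mem_join_compl, Set.mem_compl_iff, pair_mem_graph, ← Ne, g2 _ _ _ (by omega)]
    simp only [Nat.unpair_pair, e2, or_false]
    rw [hf _ (by simp)]
    simp only [Nat.unpair_pair, if_true]
    omega

end Pool.Agent.MP_40fdec_lc
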