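import Pool.Agent.MP_40fdec_lc.Main

set_option linter.all false

section

set_option autoImplicit false

namespace Pool.Agent.MP_40fdec_lc

open Nat.Partrec (Code)

namespace RecIn

variable {o o' f g a b : ℕ → ℕ}

theorem trans (hf : RecIn o f) (ho : RecIn o' o) : RecIn o' f :=
  Nat.RecursiveIn.subst hf fun _ h => (Set.mem_singleton_iff.1 h) ▸ ho

theorem of_turing (h : TuringReducible (fun n => Part.some (f n)) (fun n => Part.some (o n))) :
    RecIn o f := RecursiveIn.iff_nat.1 h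

theorem const (c : ℕ) : RecIn o fun _ => c := of_primrec (Primrec.const c)

theorem id' : RecIn o fun x => x := of_primrec Primrec.id

theorem fst (hf : RecIn o f) : RecIn o fun x => (f x).unpair.1 := (of_primrec p1).comp hf

theorem snd (hf : RecIn o f) : RecIn o fun x => (f x).unpair.2 := (of_primrec p2).comp hf

theorem prim₂ {G : ℕ → ℕ → ℕ} (hG : Primrec₂ G) (ha : RecIn o a) (hb : RecIn o b) :
    RecIn o fun x => G (a x) (b x) :=
  ((of_primrec (hG.comp p1 p2)).comp (ha.pair hb)).of_eq fun x => by simp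

theorem add (ha : RecIn o a) (hb : RecIn o b) : RecIn o fun x => a x + b x :=
  prim₂ Primrec.nat_add ha hb

theorem mul (ha : RecIn o a) (hb : RecIn o b) : RecIn o fun x => a x * b x :=
  prim₂ Primrec.nat_mul ha hb

theorem sub (ha : RecIn o a) (hb : RecIn o b) : RecIn o fun x => a x - b x :=
  prim₂ Primrec.nat_sub ha hb

theorem div (ha : RecIn o a) (hb : RecIn o b) : RecIn o fun x => a x / b x :=
  prim₂ Primrec.nat_div ha hb

theorem mod (ha : RecIn o a) (hb : RecIn o b) : RecIn o fun x => a x % b x :=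
  prim₂ Primrec.nat_mod ha hb

theorem computable (hf : RecIn (fun _ => 0) f) : Computable f :=
  RecursiveIn.partrec_of_const (s := Part.some 0) (RecursiveIn.iff_nat.2 hf)

end RecIn

/-- the predicate is decidable in the oracle -/
def RP (o : ℕ → ℕ) (p : ℕ → Prop) : Prop := ∃ f, RecIn o f ∧ ∀ n, p n ↔ f n = 0

namespace RP

variable {o o' a b : ℕ → ℕ} {p q : ℕ → Prop}

theorem of_iff (h : RP o p) (e : ∀ n, q n ↔ p n) : RP o q :=
  let ⟨f, h1, h2⟩ := h
  ⟨f, h1, fun n => (e n).trans (h2 n)⟩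

theorem trans (h : RP o p) (ho : RecIn o' o) : RP o' p :=
  let ⟨f, h1, h2⟩ := h
  ⟨f, h1.trans ho, h2⟩

theorem comp (h : RP o p) (ha : RecIn o a) : RP o fun x => p (a x) :=
  let ⟨_, h1, h2⟩ := h
  ⟨_, h1.comp ha, fun _ => h2 _⟩

theorem and (h : RP o p) (h' : RP o q) : RP o fun x => p x ∧ q x :=
  let ⟨_, h1, h2⟩ := h
  let ⟨_, h3, h4⟩ := h'
  ⟨_, h1.add h3, fun n => by beta_reduce; rw [h2, h4]; omega⟩

theorem not (h : RP o p) : RP o fun x => ¬ p x :=
  let ⟨_, h1, h2⟩ := h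
  ⟨_, (RecIn.const 1).sub h1, fun n => by beta_reduce; rw [h2]; omega⟩

theorem or (h : RP o p) (h' : RP o q) : RP o fun x => p x ∨ q x :=
  (h.not.and h'.not).not.of_iff fun _ => by tauto

theorem imp (h : RP o p) (h' : RP o q) : RP o fun x => p x → q x :=
  (h.not.or h').of_iff fun _ => by tauto

theorem le (ha : RecIn o a) (hb : RecIn o b) : RP o fun x => a x ≤ b x :=
  ⟨_, ha.sub hb, fun n => by omega⟩

theorem lt (ha : RecIn o a) (hb : RecIn o b) : RP o fun x => a x < b x :=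
  (le hb ha).not.of_iff fun _ => by omega

theorem eq (ha : RecIn o a) (hb : RecIn o b) : RP o fun x => a x = b x :=
  ((le ha hb).and (le hb ha)).of_iff fun _ => by omega

theorem bit (ha : RecIn o a) (hb : RecIn o b) : RP o fun x => (a x).testBit (b x) = true :=
  (eq ((ha.div ((RecIn.of_primrec primrec_two_pow).comp hb)).mod (RecIn.const 2))
    (RecIn.const 1)).of_iff fun n => by rw [Nat.testBit_eq_decide_div_mod_eq]; simp

theorem ball {r : ℕ → ℕ → Prop} (h : RP o fun z => r z.unpair.1 z.unpair.2) (ha : RecIn o a) :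
    RP o fun x => ∀ y < a x, r x y := by
  obtain ⟨f, h1, h2⟩ := h
  have hg : RecIn o fun z => z.unpair.2.unpair.2 + f (Nat.pair z.unpair.1 z.unpair.2.unpair.1) :=
    RecIn.id'.snd.snd.add (h1.comp (RecIn.id'.fst.pair RecIn.id'.snd.fst))
  refine ⟨_, ((RecIn.const 0).prec hg).comp (RecIn.id'.pair ha), fun n => ?_⟩
  simp only [Nat.unpair_pair]
  induction a n with
  | zero => simp
  | succ m ih =>
    have := h2 (Nat.pair n m)
    simp only [Nat.unpair_pair] at this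
    rw [Nat.forall_lt_succ_right, ih, this, Nat.add_eq_zero_iff]

theorem bex {r : ℕ → ℕ → Prop} (h : RP o fun z => r z.unpair.1 z.unpair.2) (ha : RecIn o a) :
    RP o fun x => ∃ y < a x, r x y :=
  (ball (r := fun x y => ¬ r x y) h.not ha).not.of_iff fun _ => by simp

theorem find {r : ℕ → ℕ → Prop} (h : RP o fun z => r z.unpair.1 z.unpair.2)
    (hex : ∀ x, ∃ y, r x y) : ∃ s, RecIn o s ∧ ∀ x, r x (s x) ∧ ∀ y < s x, ¬ r x y := by
  obtain ⟨f, h1, h2⟩ := h
  have h3 : ∀ x y, r x y ↔ f (Nat.pair x y) = 0 := fun x y => by simpa using h2 (Nat.pair x y)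
  have h4 : ∀ x, ∃ y, f (Nat.pair x y) = 0 := fun x => (hex x).imp fun y => (h3 x y).1
  exact ⟨_, h1.search h4, fun x => ⟨(h3 _ _).2 (Nat.find_spec (h4 x)),
    fun y hy d => Nat.find_min (h4 x) hy ((h3 _ _).1 d)⟩⟩

theorem ite [DecidablePred p] (h : RP o p) (ha : RecIn o a) (hb : RecIn o b) :
    RecIn o fun x => if p x then a x else b x := by
  obtain ⟨f, h1, h2⟩ := h
  refine ((((RecIn.const 1).sub h1).mul ha).add
    (((RecIn.const 1).sub ((RecIn.const 1).sub h1)).mul hb)).of_eq fun n => ?_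
  by_cases d : p n
  · rw [if_pos d, (h2 n).1 d]; simp
  · have : 1 - f n = 0 := by have := mt (h2 n).2 d; omega
    rw [if_neg d, this]; simp

theorem chi {X : Set ℕ} (h : RP o fun x => x ∈ X) : RecIn o (chi X) := by
  classical
  refine (h.ite (RecIn.const 1) (RecIn.const 0)).of_eq fun n => ?_
  by_cases d : n ∈ X
  · rw [if_pos d, chi_of_mem d]
  · rw [if_neg d, chi_of_notMem d]

theorem mem {X : Set ℕ} (h : RecIn o (MP_40fdec_lc.chi X)) (ha : RecIn o a) :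
    RP o fun x => a x ∈ X :=
  (eq (h.comp ha) (RecIn.const 0)).not.of_iff fun _ => by rw [chi_eq_zero_iff, not_not]

theorem halts (c : Code) (ha : RecIn o a) (hb : RecIn o b) :
    RP o fun x => (Code.evaln (b x) c (a x)).isSome = true := by
  have h : Primrec fun z : ℕ => cond (Code.evaln z.unpair.2 c z.unpair.1).isSome 0 1 :=
    Primrec.cond (Primrec.option_isSome.comp (Code.primrec_evaln.comp
      (Primrec.pair (Primrec.pair p2 (Primrec.const c)) p1))) (Primrec.const 0) (Primrec.const 1)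
  refine ⟨_, (RecIn.of_primrec h).comp (ha.pair hb), fun n => ?_⟩
  simp only [Nat.unpair_pair]
  cases (Code.evaln (b n) c (a n)).isSome <;> simp

end RP

theorem recIn_left (X Y : Set ℕ) : RecIn (chi (join X Y)) (chi X) :=
  (RecIn.oracle.comp ((RecIn.const 2).mul RecIn.id')).of_eq (chi_join_left X Y)

theorem recIn_right (X Y : Set ℕ) : RecIn (chi (join X Y)) (chi Y) :=
  (RecIn.oracle.comp (((RecIn.const 2).mul RecIn.id').add (RecIn.const 1))).of_eq
    (chi_join_right X Y)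

@[simp] theorem even_mem_join {X Y : Set ℕ} {n : ℕ} : 2 * n ∈ join X Y ↔ n ∈ X := by simp [join]

@[simp] theorem odd_mem_join {X Y : Set ℕ} {n : ℕ} : 2 * n + 1 ∈ join X Y ↔ n ∈ Y := by
  have h1 : (2 * n + 1) % 2 = 1 := by omega
  have h2 : (2 * n + 1) / 2 = n := by omega
  simp [join, h1, h2]

/-- the finite set coded by `u` lies in `S` -/
def Sub (u : ℕ) (S : Set ℕ) : Prop := ∀ y, u.testBit y = true → y ∈ S

theorem exists_bits (s : Finset ℕ) : ∃ u : ℕ, ∀ y, u.testBit y = true ↔ y ∈ s := by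
  induction s using Finset.induction_on with
  | empty => exact ⟨0, by simp⟩
  | insert a s _ ih =>
    obtain ⟨u, hu⟩ := ih
    exact ⟨2 ^ a ||| u, fun y => by
      rw [Nat.testBit_or, Bool.or_eq_true, hu, Nat.testBit_two_pow, Finset.mem_insert,
        decide_eq_true_iff, eq_comm]⟩

theorem exists_bound {r : ℕ → ℕ → Prop} (n : ℕ) (h : ∀ y < n, ∃ t, r y t) :
    ∃ T, ∀ y < n, ∃ t < T, r y t := by
  induction n with
  | zero => exact ⟨0, by simp⟩
  | succ n ih =>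
    obtain ⟨T, hT⟩ := ih fun y hy => h y (by omega)
    obtain ⟨t, ht⟩ := h n (by omega)
    refine ⟨T + t + 1, fun y hy => ?_⟩
    rcases Nat.lt_succ_iff_lt_or_eq.1 hy with d | rfl
    · obtain ⟨s, h1, h2⟩ := hT y d
      exact ⟨s, by omega, h2⟩
    · exact ⟨t, by omega, ht⟩

/-- the enumeration operator with code `c` applied to `S` -/
def Op (c : Code) (S : Set ℕ) : Set ℕ := {x | ∃ u, (c.eval (Nat.pair x u)).Dom ∧ Sub u S}

theorem Op.mono {c : Code} {S T : Set ℕ} (h : S ⊆ T) : Op c S ⊆ Op c T :=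
  fun _ ⟨u, h1, h2⟩ => ⟨u, h1, fun y hy => h (h2 y hy)⟩

/-- enumeration reducibility -/
def ERed (A B : Set ℕ) : Prop :=
  ∃ g : ℕ →. ℕ, Partrec g ∧
    ∀ x, x ∈ A ↔ ∃ u : ℕ, (g (Nat.pair x u)).Dom ∧ ∀ y, u.testBit y = true → y ∈ B

theorem ERed.code {A B : Set ℕ} (h : ERed A B) : ∃ c, A = Op c B := by
  obtain ⟨g, hg, h⟩ := h
  obtain ⟨c, rfl⟩ := Code.exists_code.1 (Partrec.nat_iff.1 hg)
  exact ⟨c, Set.ext h⟩

theorem dom_iff {c : Code} {x : ℕ} :
    (c.eval x).Dom ↔ ∃ t, ∀ s, t ≤ s → (Code.evaln s c x).isSome = true := by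
  constructor
  · intro h
    obtain ⟨y, hy⟩ := Part.dom_iff_mem.1 h
    obtain ⟨t, ht⟩ := Code.evaln_complete.1 hy
    exact ⟨t, fun s hs => Option.isSome_iff_exists.2 ⟨y, Code.evaln_mono hs ht⟩⟩
  · rintro ⟨t, ht⟩
    obtain ⟨y, hy⟩ := Option.isSome_iff_exists.1 (ht t le_rfl)
    exact Part.dom_iff_mem.2 ⟨y, Code.evaln_sound hy⟩

theorem dom_of_isSome {c : Code} {x t : ℕ} (h : (Code.evaln t c x).isSome = true) :
    (c.eval x).Dom := by
  obtain ⟨y, hy⟩ := Option.isSome_iff_exists.1 h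
  exact Part.dom_iff_mem.2 ⟨y, Code.evaln_sound hy⟩

theorem ered_of_RP {A B : Set ℕ} (R : ℕ → ℕ → ℕ → Prop)
    (hR : RP (fun _ => 0) fun z => R z.unpair.1.unpair.1 z.unpair.1.unpair.2 z.unpair.2)
    (h : ∀ x, x ∈ A ↔ ∃ u t, R x u t ∧ Sub u B) : ERed A B := by
  obtain ⟨f, h1, h2⟩ := hR
  refine ⟨fun z => Nat.rfind fun t => Part.some (decide (f (Nat.pair z t) = 0)), ?_, fun x => ?_⟩
  · refine Partrec.rfind (Computable₂.partrec₂ (f := fun z t => decide (f (Nat.pair z t) = 0)) ?_)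
    exact (Primrec.eq.decide.to_comp.comp (h1.computable.comp
      (Primrec₂.natPair.to_comp.comp Computable.fst Computable.snd)) (Computable.const 0))
  · rw [h]
    refine exists_congr fun u => ?_
    have h3 : ∀ t, R x u t ↔ f (Nat.pair (Nat.pair x u) t) = 0 := fun t => by
      simpa using h2 (Nat.pair (Nat.pair x u) t)
    rw [exists_and_right]
    refine and_congr_left fun _ => Iff.trans ?_ Nat.rfind_dom.symm
    simp [h3]

theorem ERed.refl (A : Set ℕ) : ERed A A :=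
  ered_of_RP (fun x u _ => u.testBit x = true) (RP.bit RecIn.id'.fst.snd RecIn.id'.fst.fst)
    fun x => ⟨fun h => ⟨2 ^ x, 0, Nat.testBit_two_pow_self, fun y hy => by
      rw [Nat.testBit_two_pow] at hy
      exact (by simpa using hy : x = y) ▸ h⟩, fun ⟨_, _, a, b⟩ => b x a⟩

theorem ERed.trans {A B C : Set ℕ} (h : ERed A B) (h' : ERed B C) : ERed A C := by
  obtain ⟨c, rfl⟩ := h.code
  obtain ⟨d, rfl⟩ := h'.code
  have I := @RecIn.id' fun _ => 0
  refine ered_of_RP (fun x u t => (Code.evaln t.unpair.2 c (Nat.pair x t.unpair.1)).isSome = true ∧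
    ∀ y < t.unpair.1, t.unpair.1.testBit y = true → ∃ v < t.unpair.2,
      (Code.evaln t.unpair.2 d (Nat.pair y v)).isSome = true ∧
        ∀ z < v, v.testBit z = true → u.testBit z = true) ?_ fun x => ⟨?_, ?_⟩
  · exact (RP.halts c (I.fst.fst.pair I.snd.fst) I.snd.snd).and (RP.ball
      ((RP.bit I.fst.snd.fst I.snd).imp (RP.bex ((RP.halts d (I.fst.snd.pair I.snd)
        I.fst.fst.snd.snd).and (RP.ball ((RP.bit I.fst.snd I.snd).imp
          (RP.bit I.fst.fst.fst.fst.snd I.snd)) I.snd)) I.fst.snd.snd)) I.snd.fst)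
  · rintro ⟨w, h1, h2⟩
    obtain ⟨t, ht⟩ := dom_iff.1 h1
    have h3 : ∀ y < w, ∃ s : ℕ, w.testBit y = true → (∀ r, s.unpair.2 ≤ r →
        (Code.evaln r d (Nat.pair y s.unpair.1)).isSome = true) ∧ Sub s.unpair.1 C := by
      intro y _
      by_cases hy : w.testBit y = true
      · obtain ⟨v, a, b⟩ := h2 y hy
        obtain ⟨s, hs⟩ := dom_iff.1 a
        exact ⟨Nat.pair v s, fun _ => by simpa using ⟨hs, b⟩⟩
      · exact ⟨0, fun a => absurd a hy⟩
    obtain ⟨T, hT⟩ := exists_bound w h3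
    classical
    obtain ⟨u, hu⟩ := exists_bits ((Finset.range T).filter (· ∈ C))
    refine ⟨u, Nat.pair w (t + T), ?_, fun y hy => (Finset.mem_filter.1 ((hu y).1 hy)).2⟩
    simp only [Nat.unpair_pair]
    refine ⟨ht _ (by omega), fun y hy hb => ?_⟩
    obtain ⟨s, a, b⟩ := hT y hy
    have b1 := Nat.unpair_left_le s
    have b2 := Nat.unpair_right_le s
    exact ⟨s.unpair.1, by omega, (b hb).1 _ (by omega), fun z hz hz' => (hu z).2
      (Finset.mem_filter.2 ⟨Finset.mem_range.2 (by omega), (b hb).2 z hz'⟩)⟩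
  · rintro ⟨u, t, ⟨h1, h2⟩, h3⟩
    refine ⟨_, dom_of_isSome h1, fun y hy => ?_⟩
    obtain ⟨v, -, a, b⟩ := h2 y (lt_of_testBit hy) hy
    exact ⟨v, dom_of_isSome a, fun z hz => h3 z (b z (lt_of_testBit hz) hz)⟩

theorem ERed.join {A B C : Set ℕ} (h : ERed A C) (h' : ERed B C) : ERed (join A B) C := by
  obtain ⟨c, rfl⟩ := h.code
  obtain ⟨d, rfl⟩ := h'.code
  have I := @RecIn.id' fun _ => 0
  have T := @RecIn.const (fun _ => 0) 2
  refine ered_of_RP (fun x u t =>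
    (x % 2 = 0 ∧ (Code.evaln t c (Nat.pair (x / 2) u)).isSome = true) ∨
    (x % 2 = 1 ∧ (Code.evaln t d (Nat.pair (x / 2) u)).isSome = true)) ?_ fun x => ⟨?_, ?_⟩
  · exact ((RP.eq (I.fst.fst.mod T) (RecIn.const 0)).and
      (RP.halts c ((I.fst.fst.div T).pair I.fst.snd) I.snd)).or
      ((RP.eq (I.fst.fst.mod T) (RecIn.const 1)).and
      (RP.halts d ((I.fst.fst.div T).pair I.fst.snd) I.snd))
  · rintro (⟨a, u, b, e⟩ | ⟨a, u, b, e⟩) <;> obtain ⟨t, ht⟩ := dom_iff.1 b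
    · exact ⟨u, t, Or.inl ⟨a, ht t le_rfl⟩, e⟩
    · exact ⟨u, t, Or.inr ⟨a, ht t le_rfl⟩, e⟩
  · rintro ⟨u, t, ⟨a, b⟩ | ⟨a, b⟩, e⟩
    · exact Or.inl ⟨a, u, dom_of_isSome b, e⟩
    · exact Or.inr ⟨a, u, dom_of_isSome b, e⟩

end Pool.Agent.MP_40fdec_lc

end

section

set_option autoImplicit false

namespace Pool.Agent.MP_40fdec_lc

open Nat.Partrec (Code)

/-- a Turing ideal -/
structure Idl (I : Set (Set ℕ)) : Prop where
  ne : I.Nonempty
  down : ∀ X Y, X ∈ I → RecIn (chi X) (chi Y) → Y ∈ I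
  join : ∀ X Y, X ∈ I → Y ∈ I → join X Y ∈ I

/-- the graph of a function -/
def graph (f : ℕ → ℕ) : Set ℕ := {y | f y.unpair.1 = y.unpair.2}

theorem pair_mem_graph {f : ℕ → ℕ} {n v : ℕ} : Nat.pair n v ∈ graph f ↔ f n = v := by
  simp [graph]

theorem exists_sub (B : Set ℕ) (s : Finset ℕ) :
    ∃ u, Sub u B ∧ ∀ y ∈ s, y ∈ B → u.testBit y = true := by
  classical
  obtain ⟨u, hu⟩ := exists_bits (s.filter (· ∈ B))
  exact ⟨u, fun y hy => (Finset.mem_filter.1 ((hu y).1 hy)).2,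
    fun y a b => (hu y).2 (Finset.mem_filter.2 ⟨a, b⟩)⟩

theorem ered_of_map {A B : Set ℕ} (φ : ℕ → ℕ) (hφ : RecIn (fun _ => 0) φ)
    (h : ∀ x, x ∈ A ↔ φ x ∈ B) : ERed A B :=
  ered_of_RP (fun x u _ => u.testBit (φ x) = true)
    (RP.bit RecIn.id'.fst.snd (hφ.comp RecIn.id'.fst.fst)) fun x =>
    ⟨fun a => let ⟨u, b, d⟩ := exists_sub B {φ x}
      ⟨u, 0, d _ (Finset.mem_singleton_self _) ((h x).1 a), b⟩,
    fun ⟨_, _, a, b⟩ => (h x).2 (b _ a)⟩

/-- a finite-extension construction meeting countably many dense requirements -/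
theorem generic {ι : Type} [Countable ι] (Ok : (ℕ → ℕ) → Prop) (h0 : ∃ F, Ok F)
    (Req : ι → (ℕ → ℕ) → Prop)
    (hD : ∀ e k F, Ok F → ∃ k' F', k < k' ∧ Ok F' ∧ (∀ m, m.unpair.1 < k → F' m = F m) ∧
      ∀ f : ℕ → ℕ, (∀ m, m.unpair.1 < k' → f m = F' m) → (∀ m, ∃ G, Ok G ∧ f m = G m) → Req e f) :
    ∃ f : ℕ → ℕ, (∀ m, ∃ G, Ok G ∧ f m = G m) ∧ ∀ e, Req e f := by
  obtain ⟨F0, hF0⟩ := h0
  rcases isEmpty_or_nonempty ι with hι | hι
  · exact ⟨F0, fun _ => ⟨F0, hF0, rfl⟩, fun e => hι.elim e⟩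
  obtain ⟨s, hs⟩ := exists_surjective_nat ι
  choose K G h1 h2 h3 h4 using hD
  let q : ℕ → ℕ × {F // Ok F} := fun n => Nat.rec (0, ⟨F0, hF0⟩)
    (fun n p => (K (s n) p.1 p.2.1 p.2.2, ⟨G (s n) p.1 p.2.1 p.2.2, h2 _ _ _ _⟩)) n
  have a1 : StrictMono fun n => (q n).1 := strictMono_nat_of_lt_succ fun n => h1 _ _ _ _
  have a2 : ∀ n n', n ≤ n' → ∀ m, m.unpair.1 < (q n).1 → (q n').2.1 m = (q n).2.1 m := by
    intro n n' hn m hm
    induction n', hn using Nat.le_induction with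
    | base => rfl
    | succ j hj ih => exact (h3 _ _ _ _ m (hm.trans_le (a1.monotone hj))).trans ih
  refine ⟨fun m => (q (m.unpair.1 + 1)).2.1 m, fun m => ⟨_, (q (m.unpair.1 + 1)).2.2, rfl⟩,
    fun e => ?_⟩
  obtain ⟨n, rfl⟩ := hs e
  refine h4 (s n) (q n).1 (q n).2.1 (q n).2.2 _ (fun m hm => ?_)
    fun m => ⟨_, (q (m.unpair.1 + 1)).2.2, rfl⟩
  rcases le_total (n + 1) (m.unpair.1 + 1) with d | d
  · exact a2 _ _ d m hm
  · exact (a2 _ _ d m (Nat.lt_of_succ_le (a1.le_apply (x := m.unpair.1 + 1)))).symm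

/-- stage `t` approximation of a rule applied to a set enumerated by `M` -/
def OpT (c : Code) (M : ℕ → ℕ → Prop) (x u t : ℕ) : Prop :=
  (Code.evaln t c (Nat.pair x u)).isSome = true ∧ ∀ y < u, u.testBit y = true → ∃ r < t, M y r

theorem OpT.sound {c : Code} {M : ℕ → ℕ → Prop} {x u t : ℕ} (h : OpT c M x u t) :
    (c.eval (Nat.pair x u)).Dom ∧ Sub u {y | ∃ r, M y r} :=
  ⟨dom_of_isSome h.1, fun y hy => let ⟨r, _, a⟩ := h.2 y (lt_of_testBit hy) hy; ⟨r, a⟩⟩

theorem OpT.complete {c : Code} {M : ℕ → ℕ → Prop} {x u : ℕ} (h : (c.eval (Nat.pair x u)).Dom)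
    (h' : Sub u {y | ∃ r, M y r}) : ∃ t, ∀ s, t ≤ s → OpT c M x u s := by
  obtain ⟨t, ht⟩ := dom_iff.1 h
  obtain ⟨T, hT⟩ := exists_bound (r := fun y r => u.testBit y = true → M y r) u fun y _ => by
    by_cases hy : u.testBit y = true
    · exact (h' y hy).imp fun _ a _ => a
    · exact ⟨0, fun a => absurd a hy⟩
  refine ⟨t + T, fun s hs => ⟨ht s (by omega), fun y hy hb => ?_⟩⟩
  obtain ⟨r, a, b⟩ := hT y hy
  exact ⟨r, by omega, b hb⟩

variable {o : ℕ → ℕ} {M : ℕ → ℕ → ℕ → Prop}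

theorem RP.opT (c : Code)
    (hM : RP o fun z => M z.unpair.1.unpair.1 z.unpair.1.unpair.2 z.unpair.2) {k x u t : ℕ → ℕ}
    (hk : RecIn o k) (hx : RecIn o x) (hu : RecIn o u) (ht : RecIn o t) :
    RP o fun z => OpT c (M (k z)) (x z) (u z) (t z) := by
  have I := @RecIn.id' o
  refine (RP.halts c (hx.pair hu) ht).and (RP.ball ((RP.bit (hu.comp I.fst) I.snd).imp
    (RP.bex ?_ (ht.comp I.fst))) hu)
  exact (hM.comp (((hk.comp I.fst.fst).pair I.fst.snd).pair I.snd)).of_iff fun _ => by simp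

/-- two opposite rules, bounded by `w`, apply to `S` -/
def Conf (c : Code) (S : Set ℕ) (w : ℕ) : Prop :=
  ∃ n u v, u ≤ w ∧ v ≤ w ∧ (c.eval (Nat.pair (2 * n) u)).Dom ∧
    (c.eval (Nat.pair (2 * n + 1) v)).Dom ∧ Sub u S ∧ Sub v S

theorem rp_of_no_conf (c : Code)
    (hM : RP o fun z => M z.unpair.1.unpair.1 z.unpair.1.unpair.2 z.unpair.2) (k : ℕ)
    (hno : ¬ ∃ w, Conf c {y | ∃ r, M k y r} w) {Z : Set ℕ}
    (h : join Z Zᶜ ⊆ Op c {y | ∃ r, M k y r}) : RP o fun n => n ∈ Z := by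
  have I := @RecIn.id' o
  have T := @RecIn.const o 2
  obtain ⟨s, hs, hs'⟩ := RP.find (r := fun n s => OpT c (M k) (2 * n + s.unpair.1.unpair.1 % 2)
      s.unpair.1.unpair.2 s.unpair.2) (RP.opT c hM (RecIn.const k)
      ((T.mul I.fst).add (I.snd.fst.fst.mod T)) I.snd.fst.snd I.snd.snd) fun n => by
    by_cases hn : n ∈ Z
    · obtain ⟨u, a, b⟩ := h (even_mem_join.2 hn)
      obtain ⟨t, ht⟩ := OpT.complete a b
      exact ⟨Nat.pair (Nat.pair 0 u) t, by simpa using ht t le_rfl⟩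
    · obtain ⟨u, a, b⟩ := h (odd_mem_join.2 hn)
      obtain ⟨t, ht⟩ := OpT.complete a b
      exact ⟨Nat.pair (Nat.pair 1 u) t, by simpa using ht t le_rfl⟩
  refine (RP.eq (hs.fst.fst.mod T) (RecIn.const 0)).of_iff fun n => ?_
  obtain ⟨a, b⟩ := (hs' n).1.sound
  rcases Nat.mod_two_eq_zero_or_one (s n).unpair.1.unpair.1 with d | d <;> rw [d] at a ⊢
  · refine iff_of_true (by_contra fun hn => ?_) rfl
    obtain ⟨v, a', b'⟩ := h (odd_mem_join.2 hn)
    exact hno ⟨_, n, _, v, le_max_left _ v, le_max_right _ _, a, a', b, b'⟩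
  · refine iff_of_false (fun hn => ?_) (by simp)
    obtain ⟨v, a', b'⟩ := h (even_mem_join.2 hn)
    exact hno ⟨_, n, v, _, le_max_left v _, le_max_right _ _, a', a, b', b⟩

/-- either some level makes the operator harmless or a small conflict exists -/
theorem dichotomy (c : Code)
    (hM : RP o fun z => M z.unpair.1.unpair.1 z.unpair.1.unpair.2 z.unpair.2) {μ : ℕ → ℕ}
    (hμ : ∀ b, RecIn o b → ∃ k, b k < μ k) : ∃ k,
    (∀ A ⊆ {y | ∃ r, M k y r}, ∀ Z : Set ℕ, join Z Zᶜ = Op c A → RP o fun n => n ∈ Z) ∨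
    ∃ w < μ k, ∀ A : Set ℕ, (∀ y < w, (∃ r, M k y r) → y ∈ A) →
      ∀ Z : Set ℕ, join Z Zᶜ ≠ Op c A := by
  by_cases hc : ∀ k, ∃ w, Conf c {y | ∃ r, M k y r} w
  swap
  · obtain ⟨k, hk⟩ := not_forall.1 hc
    exact ⟨k, Or.inl fun A hA Z hZ => rp_of_no_conf c hM k hk (hZ ▸ Op.mono hA)⟩
  have I := @RecIn.id' o
  have T := @RecIn.const o 2
  obtain ⟨s, hs, hs'⟩ := RP.find (r := fun k s =>
      OpT c (M k) (2 * s.unpair.1.unpair.1) s.unpair.2.unpair.1 s.unpair.1.unpair.2 ∧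
      OpT c (M k) (2 * s.unpair.1.unpair.1 + 1) s.unpair.2.unpair.2 s.unpair.1.unpair.2)
      ((RP.opT c hM I.fst (T.mul I.snd.fst.fst) I.snd.snd.fst I.snd.fst.snd).and
        (RP.opT c hM I.fst ((T.mul I.snd.fst.fst).add (RecIn.const 1)) I.snd.snd.snd
          I.snd.fst.snd)) fun k => by
    obtain ⟨w, n, u, v, -, -, a, b, a', b'⟩ := hc k
    obtain ⟨t, ht⟩ := OpT.complete a a'
    obtain ⟨t', ht'⟩ := OpT.complete b b'
    exact ⟨Nat.pair (Nat.pair n (t + t')) (Nat.pair u v), by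
      simpa using ⟨ht _ (by omega), ht' _ (by omega)⟩⟩
  obtain ⟨k, hk⟩ := hμ s hs
  refine ⟨k, Or.inr ⟨s k, hk, fun A hA Z hZ => ?_⟩⟩
  obtain ⟨a, a'⟩ := (hs' k).1.1.sound
  obtain ⟨b, b'⟩ := (hs' k).1.2.sound
  have e1 := Nat.unpair_right_le (s k)
  have e2 := Nat.unpair_left_le (s k).unpair.2
  have e3 := Nat.unpair_right_le (s k).unpair.2
  have c1 : 2 * (s k).unpair.1.unpair.1 ∈ join Z Zᶜ := hZ ▸ ⟨_, a, fun y hy =>
    hA y (by have := lt_of_testBit hy; omega) (a' y hy)⟩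
  have c2 : 2 * (s k).unpair.1.unpair.1 + 1 ∈ join Z Zᶜ := hZ ▸ ⟨_, b, fun y hy =>
    hA y (by have := lt_of_testBit hy; omega) (b' y hy)⟩
  exact odd_mem_join.1 c2 (even_mem_join.1 c1)

theorem chi_le_one (X : Set ℕ) (n : ℕ) : chi X n ≤ 1 := by
  by_cases h : n ∈ X
  · rw [chi_of_mem h]
  · rw [chi_of_notMem h]; omega

theorem mem_join_compl {X : Set ℕ} {x : ℕ} : x ∈ join X Xᶜ ↔ chi X (x / 2) ≠ x % 2 := by
  by_cases h : x / 2 ∈ X
  · rw [chi_of_mem h]; simp only [join, Set.mem_ofPred_eq, Set.mem_compl_iff, h]; simp; omega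
  · rw [chi_of_notMem h]; simp only [join, Set.mem_ofPred_eq, Set.mem_compl_iff, h]; simp; omega

theorem Idl.escape {I : Set (Set ℕ)} (hI : Idl I) {h : ℕ → ℕ}
    (hh : ¬ ∃ b : ℕ → ℕ, graph b ∈ I ∧ ∀ n, h n ≤ b n) {X : Set ℕ} (hX : X ∈ I) (b : ℕ → ℕ)
    (hb : RecIn (chi X) b) : ∃ k, b k < h k := by
  by_contra d
  push Not at d
  exact hh ⟨b, hI.down X _ hX (RP.eq (hb.comp RecIn.id'.fst) RecIn.id'.snd).chi, d⟩

/-- the construction below a bound that escapes the ideal -/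
theorem exists_below {I : Set (Set ℕ)} (hc : I.Countable) (hI : Idl I) {h : ℕ → ℕ}
    (hm : Monotone h) (hh : ¬ ∃ b : ℕ → ℕ, graph b ∈ I ∧ ∀ n, h n ≤ b n) :
    ∃ f : ℕ → ℕ, (∀ n, f n ≤ h n) ∧ (∀ Z, ERed (join Z Zᶜ) (graph f)ᶜ ↔ Z ∈ I) ∧
      ∀ Y ∈ I, ¬ ERed (graph f)ᶜ (join Y Yᶜ) := by
  classical
  have := hc.to_subtype
  obtain ⟨X0, hX0⟩ := hI.ne
  obtain ⟨k1, hk1⟩ := hI.escape hh hX0 _ (RecIn.const 0)
  let Ok : (ℕ → ℕ) → Prop := fun F => (∀ m, F m ≤ h m) ∧ ∃ X ∈ I, RecIn (chi X) F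
  have col : ∀ k F, Ok F → ∀ Y ∈ I, ∃ F', Ok F' ∧ (∀ m, m.unpair.1 < k → F' m = F m) ∧
      ∀ n, F' (Nat.pair (k + k1) n) = chi Y n := by
    rintro k F ⟨a, X, hX, b⟩ Y hY
    refine ⟨fun m => if m.unpair.1 = k + k1 then chi Y m.unpair.2 else F m,
      ⟨fun m => ?_, _, hI.join X Y hX hY, ?_⟩, fun m hm => if_neg (by omega), fun n => by simp⟩
    · beta_reduce
      split_ifs with d
      · have e1 := chi_le_one Y m.unpair.2
        have e2 := Nat.unpair_left_le m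
        have e3 := hm (show k1 ≤ m by omega)
        omega
      · exact a m
    · exact (RP.eq RecIn.id'.fst (RecIn.const _)).ite ((recIn_right X Y).comp RecIn.id'.snd)
        (b.trans (recIn_left X Y))
  refine Exists.elim (generic (ι := Code ⊕ I ⊕ Code × I) Ok
    ⟨fun _ => 0, fun _ => Nat.zero_le _, X0, hX0, RecIn.const 0⟩
    (fun e f => e.elim (fun c => ∀ Z : Set ℕ, join Z Zᶜ = Op c (graph f)ᶜ → Z ∈ I) fun e =>
      e.elim (fun Y => ERed (join Y.1 Y.1ᶜ) (graph f)ᶜ)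
        fun e => (graph f)ᶜ ≠ Op e.1 (join e.2.1 e.2.1ᶜ)) ?_) fun f ⟨h1, h2⟩ => ?_
  swap
  · refine ⟨f, fun n => ?_, fun Z => ⟨fun a => ?_, fun a => h2 (Sum.inr (Sum.inl ⟨Z, a⟩))⟩,
      fun Y hY a => ?_⟩
    · obtain ⟨G, a, b⟩ := h1 n
      exact b ▸ a.1 n
    · obtain ⟨c, e⟩ := a.code
      exact h2 (Sum.inl c) Z e
    · obtain ⟨c, e⟩ := a.code
      exact h2 (Sum.inr (Sum.inr (c, ⟨Y, hY⟩))) e
  rintro (c | Y | ⟨c, Y⟩) k F hF
  · obtain ⟨a, X, hX, b⟩ := hF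
    have J := @RecIn.id' (chi X)
    let F0 : ℕ → ℕ := fun m => if m.unpair.1 < k then F m else 0
    have b0 : RecIn (chi X) F0 := (RP.lt J.fst (RecIn.const k)).ite b (RecIn.const 0)
    have a0 : ∀ m, F0 m ≤ h m := fun m => by
      have := a m
      simp only [F0]
      split_ifs <;> omega
    obtain ⟨j, d | ⟨w, hw, d⟩⟩ := dichotomy
      (M := fun j y _ => y.unpair.1.unpair.1 < k + j + 1 → F0 y.unpair.1 ≠ y.unpair.2) c
      ((RP.lt J.fst.snd.fst.fst (((RecIn.const k).add J.fst.fst).add (RecIn.const 1))).imp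
        (RP.eq (b0.comp J.fst.snd.fst) J.fst.snd.snd).not) (hI.escape hh hX)
    · refine ⟨k + j + 1, F0, by omega, ⟨a0, X, hX, b0⟩, fun m hm => if_pos hm,
        fun f hf _ Z hZ => hI.down X Z hX (d _ (fun y hy => ⟨0, fun e => ?_⟩) Z hZ).chi⟩
      rw [← hf _ e]
      exact hy
    · refine ⟨k + j + 1 + w, fun m => if m.unpair.1 < k + j + 1 then F0 m else w, by omega,
        ⟨fun m => ?_, X, hX, (RP.lt J.fst (RecIn.const _)).ite b0 (RecIn.const w)⟩,
        fun m hm => (if_pos (by omega)).trans (if_pos hm),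
        fun f hf _ Z hZ => absurd hZ (d _ (fun y hy e => ?_) Z)⟩
      · beta_reduce
        split_ifs with e
        · exact a0 m
        · have e2 := Nat.unpair_left_le m
          have e3 := hm (show j ≤ m by omega)
          omega
      · have e1 := Nat.unpair_left_le y
        have e2 := Nat.unpair_left_le y.unpair.1
        have e3 := Nat.unpair_right_le y
        obtain ⟨_, e⟩ := e
        change ¬ f y.unpair.1 = y.unpair.2
        rw [hf _ (by omega)]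
        beta_reduce
        split_ifs with g
        · exact e g
        · omega
  · obtain ⟨F', a, b, d⟩ := col k F hF Y.1 Y.2
    have J := @RecIn.id' fun _ => 0
    refine ⟨k + k1 + 1, F', by omega, a, b, fun f hf _ => ered_of_map
      (fun x => Nat.pair (Nat.pair (k + k1) (x / 2)) (x % 2))
      (((RecIn.const _).pair (J.div (RecIn.const 2))).pair (J.mod (RecIn.const 2))) fun x => ?_⟩
    rw [mem_join_compl, Set.mem_compl_iff, pair_mem_graph, hf _ (by simp), d]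
  · by_cases e : Nat.pair (Nat.pair (k + k1) 0) 0 ∈ Op c (join Y.1 Y.1ᶜ)
    · obtain ⟨F', a, b, d⟩ := col k F hF ∅ (hI.down X0 _ hX0 ((RecIn.const 0).of_eq fun n =>
        (chi_of_notMem (by simp)).symm))
      refine ⟨k + k1 + 1, F', by omega, a, b, fun f hf _ g => ?_⟩
      refine (g ▸ e : _ ∈ (graph f)ᶜ) ?_
      rw [pair_mem_graph, hf _ (by simp), d, chi_of_notMem (by simp)]
    · obtain ⟨F', a, b, d⟩ := col k F hF Set.univ (hI.down X0 _ hX0
        ((RecIn.const 1).of_eq fun n => (chi_of_mem (by simp)).symm))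
      refine ⟨k + k1 + 1, F', by omega, a, b, fun f hf _ g => e ?_⟩
      refine g.subset ?_
      rw [Set.mem_compl_iff, pair_mem_graph, hf _ (by simp), d, chi_of_mem (by simp)]
      omega

/-- a bound inside the cospectrum makes the degree total -/
theorem total_of_bound {f b : ℕ → ℕ} (hb : ∀ n, f n ≤ b n)
    (h : ERed (join (graph b) (graph b)ᶜ) (graph f)ᶜ) :
    ERed (join (graph f) (graph f)ᶜ) (graph f)ᶜ := by
  refine ERed.join (ERed.trans ?_ ((ERed.refl _).join h)) (ERed.refl _)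
  have J := @RecIn.id' fun _ => 0
  have T := @RecIn.const (fun _ => 0) 2
  refine ered_of_RP (fun y u t => u.testBit (2 * (2 * Nat.pair y.unpair.1 t) + 1) = true ∧
    ∀ v < t + 1, v ≠ y.unpair.2 → u.testBit (2 * Nat.pair y.unpair.1 v) = true) ?_ fun y => ⟨?_, ?_⟩
  · exact (RP.bit J.fst.snd ((T.mul (T.mul (J.fst.fst.fst.pair J.snd))).add (RecIn.const 1))).and
      (RP.ball ((RP.eq J.snd J.fst.fst.fst.snd).not.imp (RP.bit J.fst.fst.snd
        (T.mul (J.fst.fst.fst.fst.pair J.snd)))) (J.snd.add (RecIn.const 1)))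
  · intro hy
    obtain ⟨u, a, d⟩ := exists_sub (join (graph f)ᶜ (join (graph b) (graph b)ᶜ))
      (insert (2 * (2 * Nat.pair y.unpair.1 (b y.unpair.1)) + 1)
        ((Finset.range (b y.unpair.1 + 1)).image fun v => 2 * Nat.pair y.unpair.1 v))
    refine ⟨u, b y.unpair.1, ⟨d _ (by simp) (by simp [pair_mem_graph]), fun v hv e => d _
      (Finset.mem_insert_of_mem (Finset.mem_image_of_mem _ (Finset.mem_range.2 hv))) ?_⟩, a⟩
    rw [even_mem_join, Set.mem_compl_iff, pair_mem_graph]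
    exact fun g => e (g.symm.trans hy)
  · rintro ⟨u, t, ⟨a, d⟩, e⟩
    have e1 : b y.unpair.1 = t := by simpa [pair_mem_graph] using e _ a
    by_contra g
    have := e _ (d (f y.unpair.1) (by have := hb y.unpair.1; omega) g)
    simp [pair_mem_graph] at this

end Pool.Agent.MP_40fdec_lc

end
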